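import Pool.Agent.Work.MP_a98e4e_ag.Slice
import Pool.Agent.Work.MP_a98e4e_ag.Defs

/-!
# Minimal free resolutions modulo a regular element
-/

set_option autoImplicit false

namespace LicciCodimFour

open IsLocalRing RingTheory.Sequence

universe u

section exactmod

variable {R : Type u} [CommRing R]

/-- Exactness modulo `x`. -/
theorem exact_mod {x : R} {M1 M2 M3 M1' M2' M3' : Type*} [AddCommGroup M1] [Module R M1]
    [AddCommGroup M2] [Module R M2] [AddCommGroup M3] [Module R M3] [AddCommGroup M2']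
    [AddCommGroup M3'] (D2 : M1 →ₗ[R] M2) (D1 : M2 →ₗ[R] M3) (D2' : M1' → M2') (D1' : M2' → M3')
    (q1 : M1 → M1') (q2 : M2 →+ M2') (q3 : M3 →+ M3') (hq1 : Function.Surjective q1)
    (hq2 : Function.Surjective q2) (hq2k : ∀ z, q2 (x • z) = 0)
    (hq3k : ∀ y, q3 y = 0 → ∃ z, y = x • z) (c2 : ∀ v, D2' (q1 v) = q2 (D2 v))
    (c1 : ∀ v, D1' (q2 v) = q3 (D1 v)) (h : Function.Exact D2 D1)
    (hx : ∀ y, (∃ v, D1 v = x • y) → ∃ v, D1 v = y) : Function.Exact D2' D1' := by
  intro y'
  constructor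
  · intro hy'
    obtain ⟨y, rfl⟩ := hq2 y'
    rw [c1] at hy'
    obtain ⟨z, hz⟩ := hq3k _ hy'
    obtain ⟨v, hv⟩ := hx z ⟨y, hz⟩
    obtain ⟨w, hw⟩ := (h (y - x • v)).1 (by rw [map_sub, map_smul, hz, hv, sub_self])
    refine ⟨q1 w, ?_⟩
    rw [c2, hw, map_sub, hq2k, sub_zero]
  · rintro ⟨w', rfl⟩
    obtain ⟨w, rfl⟩ := hq1 w'
    rw [c2, c1, h.apply_apply_eq_zero, map_zero]

end exactmod

section bc

variable {R S : Type u} [CommRing R] [CommRing S] (π : R →+* S)

/-- reduction of vectors -/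
def bcv {n : ℕ} : (Fin n → R) →+ (Fin n → S) where
  toFun v i := π (v i)
  map_zero' := by ext i; exact map_zero π
  map_add' v w := by ext i; exact map_add π _ _

theorem bcv_apply {n : ℕ} (v : Fin n → R) (i : Fin n) : bcv π v i = π (v i) := rfl

theorem bcv_surjective {n : ℕ} (hπ : Function.Surjective π) :
    Function.Surjective (bcv π : (Fin n → R) →+ (Fin n → S)) := by
  intro v
  choose w hw using fun i => hπ (v i)
  exact ⟨w, funext hw⟩

theorem bcv_smul {n : ℕ} (r : R) (v : Fin n → R) : bcv π (r • v) = π r • bcv π v := by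
  ext i
  simp [bcv_apply]

theorem bcv_single {n : ℕ} (i : Fin n) :
    bcv π (Pi.single i 1 : Fin n → R) = (Pi.single i 1 : Fin n → S) := by
  ext j
  rw [bcv_apply]
  by_cases h : j = i
  · subst h
    simp
  · simp [Pi.single_eq_of_ne h]

/-- base change of a map of free modules -/
def bcm {n m : ℕ} (D : (Fin n → R) →ₗ[R] (Fin m → R)) : (Fin n → S) →ₗ[S] (Fin m → S) :=
  Matrix.mulVecLin ((LinearMap.toMatrix' D).map π)

theorem bcm_apply {n m : ℕ} (D : (Fin n → R) →ₗ[R] (Fin m → R)) (v : Fin n → R) :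
    bcm π D (bcv π v) = bcv π (D v) := by
  ext i
  have h1 : D v i = ((LinearMap.toMatrix' D).mulVec v) i := by
    conv_lhs => rw [← Matrix.toLin'_toMatrix' D]
    rfl
  rw [bcv_apply, h1]
  simp only [bcm, Matrix.mulVecLin_apply, Matrix.mulVec, dotProduct, Matrix.map_apply, map_sum,
    map_mul, bcv_apply]

/-- base change of a linear form -/
def bcf {n : ℕ} (f : (Fin n → R) →ₗ[R] R) : (Fin n → S) →ₗ[S] S :=
  Fintype.linearCombination S (fun i => π (f (Pi.single i 1)))

theorem bcf_apply {n : ℕ} (f : (Fin n → R) →ₗ[R] R) (v : Fin n → R) :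
    bcf π f (bcv π v) = π (f v) := by
  have h1 : f v = ∑ i, v i * f (Pi.single i 1) := by
    conv_lhs => rw [pi_eq_sum_univ' v]
    rw [map_sum]
    refine Finset.sum_congr rfl fun i _ => ?_
    rw [map_smul, smul_eq_mul]
  rw [h1, map_sum]
  simp only [bcf, Fintype.linearCombination_apply, smul_eq_mul, map_mul, bcv_apply]

theorem range_bcf {n : ℕ} (hπ : Function.Surjective π) (f : (Fin n → R) →ₗ[R] R) :
    LinearMap.range (bcf π f) = Ideal.map π (LinearMap.range f) := by
  apply le_antisymm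
  · rintro _ ⟨v, rfl⟩
    obtain ⟨v, rfl⟩ := bcv_surjective π hπ v
    rw [bcf_apply]
    exact Ideal.mem_map_of_mem π ⟨v, rfl⟩
  · rw [Ideal.map_le_iff_le_comap]
    rintro _ ⟨v, rfl⟩
    rw [Ideal.mem_comap]
    exact ⟨bcv π v, bcf_apply π f v⟩

end bc

section res

variable {R S : Type u} [CommRing R] [CommRing S] [IsLocalRing R] [IsLocalRing S] [IsDomain R]
  (π : R →+* S) {x : R}

/-- A minimal free resolution modulo an element which is regular on the quotient. -/
theorem exists_resolution_mod (hπ : Function.Surjective π) (hker : ∀ r, π r = 0 ↔ ∃ s, r = x * s)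
    (hm : ∀ r ∈ maximalIdeal R, π r ∈ maximalIdeal S) (hx0 : x ≠ 0) {I : Ideal R} {b : ℕ → ℕ}
    (F : MinimalFreeResolution I b) (hxI : ∀ r, x * r ∈ I → r ∈ I) :
    ∃ F' : MinimalFreeResolution (I.map π) b, F'.aug = bcf π F.aug ∧
      ∀ i, F'.d i = bcm π (F.d i) := by
  have hvk : ∀ {n : ℕ} (y : Fin n → R), bcv π y = 0 → ∃ z, y = x • z := by
    intro n y hy
    choose z hz using fun i => (hker (y i)).1 (congrFun hy i)
    exact ⟨z, funext hz⟩
  have hvx : ∀ {n : ℕ} (z : Fin n → R), bcv π (x • z) = 0 := by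
    intro n z
    have h1 : π x = 0 := (hker x).2 ⟨1, by rw [mul_one]⟩
    rw [bcv_smul, h1, zero_smul]
  have hdx : ∀ (i : ℕ) (y : Fin (b (i + 1)) → R), (∃ v, F.d i v = x • y) →
      ∃ v, F.d i v = y := by
    intro i y hy
    obtain ⟨v, hv⟩ := hy
    cases i with
    | zero =>
      have h1 : F.aug (x • y) = 0 := by rw [← hv]; exact F.exact_aug.apply_apply_eq_zero v
      rw [map_smul, smul_eq_mul] at h1
      exact (F.exact_aug y).1 ((mul_eq_zero.1 h1).resolve_left hx0)
    | succ i =>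
      have h1 : F.d i (x • y) = 0 := by rw [← hv]; exact (F.exact_d i).apply_apply_eq_zero v
      rw [map_smul] at h1
      exact (F.exact_d i y).1 ((smul_eq_zero.1 h1).resolve_left hx0)
  refine ⟨{ aug := bcf π F.aug
            d := fun i => bcm π (F.d i)
            range_aug := ?_
            exact_aug := ?_
            exact_d := ?_
            minimal_aug := ?_
            minimal_d := ?_ }, rfl, fun i => rfl⟩
  · rw [range_bcf π hπ, F.range_aug]
  · refine exact_mod (x := x) (F.d 0) F.aug _ _ (bcv π) (bcv π) π.toAddMonoidHom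
      (bcv_surjective π hπ) (bcv_surjective π hπ) (fun z => hvx z) ?_ (fun v => bcm_apply π _ v)
      (fun v => bcf_apply π _ v) F.exact_aug ?_
    · intro y hy
      obtain ⟨z, hz⟩ := (hker y).1 hy
      exact ⟨z, hz⟩
    · rintro y ⟨v, hv⟩
      have h1 : x * y ∈ I := by
        rw [← F.range_aug]
        exact ⟨v, hv⟩
      have h2 := hxI y h1
      rw [← F.range_aug] at h2
      exact h2
  · intro i
    exact exact_mod (x := x) (F.d (i + 1)) (F.d i) _ _ (bcv π) (bcv π) (bcv π)
      (bcv_surjective π hπ) (bcv_surjective π hπ) (fun z => hvx z) (fun y hy => hvk y hy)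
      (fun v => bcm_apply π _ v) (fun v => bcm_apply π _ v) (F.exact_d i) (hdx i)
  · intro v
    obtain ⟨v, rfl⟩ := bcv_surjective π hπ v
    rw [bcf_apply]
    exact hm _ (F.minimal_aug v)
  · intro i v j
    obtain ⟨v, rfl⟩ := bcv_surjective π hπ v
    rw [bcm_apply]
    exact hm _ (F.minimal_d i v j)

end res

end LicciCodimFour
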