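import Pool.Agent.Work.MP_a98e4e_ag.D.BridgeA
import Pool.Agent.Work.MP_a98e4e_ag.Defs

/-!
# Grade `c` bridge: from a free resolution of length `c` to the top Koszul cohomology and to the
link identities, all codimensions and all types
-/

set_option autoImplicit false

namespace Pool.Agent.Licci.D

open RingTheory.Sequence

universe u

section algebra

variable {R : Type u} [CommRing R] {M : Type u} [AddCommGroup M] [Module R M]
  [Module.Free R M] [Module.Finite R M]
  {G : ℕ → Type u} [∀ i, AddCommGroup (G i)] [∀ i, Module R (G i)]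
  {f : M →ₗ[R] R} {u : ∀ i, G (i + 1) →ₗ[R] G i} {k : ℕ}

omit [Module.Free R M] [Module.Finite R M] in
theorem IsComp.sub {x y : ∀ i, M [⋀^Fin i]→ₗ[R] G i} (hx : IsComp f u k x)
    (hy : IsComp f u k y) : IsComp f u k (fun i => x i - y i) := by
  intro i hi
  rw [comp_sub', wedge_sub'', hx i hi, hy i hi]

omit [Module.Free R M] [Module.Finite R M] in
theorem IsComp.sum {ι : Type*} (s : Finset ι) (c : ι → R) {x : ι → ∀ i, M [⋀^Fin i]→ₗ[R] G i}
    (hx : ∀ a, IsComp f u k (x a)) : IsComp f u k (fun i => ∑ a ∈ s, c a • x a i) := by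
  classical
  intro i hi
  induction s using Finset.induction_on with
  | empty =>
    simp only [Finset.sum_empty, map_zero]
    ext v
    simp
  | insert a s ha ih =>
    simp only [Finset.sum_insert ha]
    rw [comp_add', wedge_add'', comp_smul', wedge_smul'', hx a i hi, ih]

omit [Module.Free R M] [Module.Finite R M] in
theorem alt_sum_apply {ι : Type*} (s : Finset ι) {N : Type*} [AddCommGroup N] [Module R N]
    {n : ℕ} (x : ι → M [⋀^Fin n]→ₗ[R] N) (v : Fin n → M) :
    (∑ a ∈ s, x a) v = ∑ a ∈ s, x a v := by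
  classical
  induction s using Finset.induction_on with
  | empty => simp
  | insert a s ha ih =>
    rw [Finset.sum_insert ha, Finset.sum_insert ha, AlternatingMap.add_apply, ih]

/-- a linear map into alternating forms, as an alternating map with values in a dual module -/
def flip' {A : Type u} [AddCommGroup A] [Module R A] {n : ℕ}
    (L : A →ₗ[R] (M [⋀^Fin n]→ₗ[R] R)) : M [⋀^Fin n]→ₗ[R] Module.Dual R A where
  toFun x :=
    { toFun := fun v => L v x
      map_add' := fun u v => by rw [map_add]; rfl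
      map_smul' := fun c v => by rw [map_smul]; rfl }
  map_update_add' x i a b := by
    apply LinearMap.ext
    intro v
    exact (L v).map_update_add' x i a b
  map_update_smul' x i c a := by
    apply LinearMap.ext
    intro v
    exact (L v).map_update_smul' x i c a
  map_eq_zero_of_eq' x i j h hij := by
    apply LinearMap.ext
    intro v
    exact (L v).map_eq_zero_of_eq' x i j h hij

omit [Module.Free R M] [Module.Finite R M] in
/-- a closed form contracts to a form one step up in the complex -/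
theorem exists_up (α : G (k + 1) ≃ₗ[R] R) (β : G k ≃ₗ[R] Module.Dual R M)
    (hβ : ∀ g v, β (u k g) v = α g * f v) (ω : M [⋀^Fin (k + 1)]→ₗ[R] G (k + 1))
    (hω : wedge f (k + 1) ω = 0) : ∃ ω', wedge f k ω' = (u k).compAlternatingMap ω := by
  have h0 : wedge f (k + 1) (α.toLinearMap.compAlternatingMap ω) = 0 := by
    rw [wedge_compRight, hω]
    ext x
    simp
  refine ⟨β.symm.toLinearMap.compAlternatingMap
    (flip' (contrL k (α.toLinearMap.compAlternatingMap ω))), ?_⟩
  rw [wedge_compRight]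
  ext x
  apply β.injective
  ext v
  have h1 := wedge_evalAlt f (flip' (contrL k (α.toLinearMap.compAlternatingMap ω))) v
  have h2 : evalAlt (flip' (contrL k (α.toLinearMap.compAlternatingMap ω))) v =
      contr v k (α.toLinearMap.compAlternatingMap ω) := rfl
  have h3 := contr_wedge f v k (α.toLinearMap.compAlternatingMap ω)
  rw [h0, map_zero] at h3
  have h4 := sub_eq_zero.1 h3.symm
  rw [h2, ← h4] at h1
  have h5 := congrArg (fun g => g x) h1
  simp only [AlternatingMap.smul_apply, evalAlt_apply, smul_eq_mul] at h5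
  rw [LinearMap.compAlternatingMap_apply, LinearMap.compAlternatingMap_apply, hβ]
  simp only [LinearEquiv.coe_coe, LinearEquiv.apply_symm_apply]
  rw [← h5]
  simp [mul_comm]

/-- The zigzag: generators of `G 0` modulo the image of `u 0` give generators of the top Koszul
cohomology, and a scalar which makes all of them coboundaries is in the image of `f`. -/
theorem zigzag [∀ i, Module.Free R (G i)] [∀ i, Module.Finite R (G i)]
    (hf : HasReg f (k + 1)) (hu : ∀ i, i < k → Function.Exact (u (i + 1)) (u i))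
    (hinj : Function.Injective (u k)) (h0 : ∀ v (x : G 0), ∃ y, u 0 y = f v • x)
    (α : G (k + 1) ≃ₗ[R] R) (β : G k ≃ₗ[R] Module.Dual R M)
    (hβ : ∀ g v, β (u k g) v = α g * f v) {ι : Type*} [Fintype ι] (b : Module.Basis ι R (G 0)) :
    ∃ ν : ι → M [⋀^Fin (k + 1)]→ₗ[R] R, (∀ a, wedge f (k + 1) (ν a) = 0) ∧
      (∀ y, (∀ a, ∃ η, wedge f k η = y • ν a) → y ∈ LinearMap.range f) ∧
      (∀ ω, wedge f (k + 1) ω = 0 → ∃ (c : ι → R) (η : M [⋀^Fin k]→ₗ[R] R),
        ω = ∑ a, c a • ν a + wedge f k η) := by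
  classical
  choose x hx hx0 using fun a => exists_comp hu h0 (b a)
  have hc : ∀ a, wedge f (k + 1) (x a (k + 1)) = 0 := fun a => (hx a).closed hinj
  refine ⟨fun a => α.toLinearMap.compAlternatingMap (x a (k + 1)), fun a => ?_, fun y hy => ?_,
    fun ω hω => ?_⟩
  · rw [wedge_compRight, hc]
    ext v
    simp
  · -- `y` kills `G 0 / im (u 0)`
    have h1 : ∀ a, ∃ g, u 0 g = y • b a := by
      intro a
      obtain ⟨η, hη⟩ := hy a
      refine (hx a).mem hu hf (hx0 a)
        (η := α.symm.toLinearMap.compAlternatingMap η) ?_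
      rw [wedge_compRight, hη]
      ext v
      simp
    choose g hg using h1
    have h2 : ∀ z, u 0 (b.constr R g z) = y • z := by
      intro z
      have : u 0 ∘ₗ b.constr R g = y • LinearMap.id := by
        apply b.ext
        intro a
        simp [hg]
      exact LinearMap.congr_fun this z
    have h3 : ∀ z, nh u y (b.constr R g) k (u k z) = y • z := by
      intro z
      apply hinj
      cases k with
      | zero => rw [map_smul]; exact h2 _
      | succ k =>
        have h4 := nh_spec u y (b.constr R g) h2 (k + 1) hu k (by omega) (u (k + 1) z)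
        rw [(hu k (by omega)).apply_apply_eq_zero, map_zero, add_zero] at h4
        rw [h4, map_smul]
    have h4 : β.symm f = u k (α.symm 1) := by
      rw [LinearEquiv.symm_apply_eq]
      ext v
      rw [hβ]
      simp
    refine ⟨(Module.evalEquiv R M).symm
      (α.toLinearMap ∘ₗ nh u y (b.constr R g) k ∘ₗ β.symm.toLinearMap), ?_⟩
    rw [Module.apply_evalEquiv_symm_apply]
    simp [h4, h3]
  · -- the class of `ω`
    have h1 : wedge f (k + 1) (α.symm.toLinearMap.compAlternatingMap ω) = 0 := by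
      rw [wedge_compRight, hω]
      ext v
      simp
    obtain ⟨z, hz, hz1⟩ := exists_comp_of_closed hu hf _ (exists_up α β hβ _ h1)
    have h2 := hz.sub (IsComp.sum Finset.univ (fun a => b.repr (z 0 ![]) a) hx)
    obtain ⟨τ, hτ⟩ := h2.cob hu hinj (by
      ext v
      have hv : v = ![] := Subsingleton.elim _ _
      subst hv
      simp only [hx0]
      rw [AlternatingMap.sub_apply, alt_sum_apply, AlternatingMap.zero_apply, sub_eq_zero]
      simp only [AlternatingMap.smul_apply, AlternatingMap.constOfIsEmpty_apply]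
      exact (b.sum_repr _).symm)
    refine ⟨fun a => b.repr (z 0 ![]) a, α.toLinearMap.compAlternatingMap τ, ?_⟩
    have h3 : ω = α.toLinearMap.compAlternatingMap (z (k + 1)) := by
      rw [hz1]
      ext v
      simp
    rw [wedge_compRight, ← hτ, h3]
    ext v
    simp [alt_sum_apply, map_sum]

end algebra

section link

variable {R : Type u} [CommRing R] {M : Type u} [AddCommGroup M] [Module R M]
  [Module.Free R M] [Module.Finite R M] {f : M →ₗ[R] R} {k : ℕ}

/-- the link identities from generators of the top cohomology -/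
theorem link_of_zigzag {ι : Type*} [Fintype ι] (ν : ι → M [⋀^Fin (k + 1)]→ₗ[R] R)
    (h1 : ∀ a, wedge f (k + 1) (ν a) = 0)
    (h2 : ∀ y, (∀ a, ∃ η, wedge f k η = y • ν a) → y ∈ LinearMap.range f)
    (h3 : ∀ ω, wedge f (k + 1) ω = 0 → ∃ (c : ι → R) (η : M [⋀^Fin k]→ₗ[R] R),
      ω = ∑ a, c a • ν a + wedge f k η)
    (e : Fin (k + 1) → M) (he : IsWeaklyRegular R (List.ofFn fun i => f (e i))) :
    (Ideal.span (Set.range fun i => f (e i))).colon ((LinearMap.range f : Ideal R) : Set R) =
        Ideal.span (Set.range fun i => f (e i)) ⊔ Ideal.span (Set.range fun a => ν a e) ∧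
      (Ideal.span (Set.range fun i => f (e i))).colon
        (((Ideal.span (Set.range fun i => f (e i))).colon
          ((LinearMap.range f : Ideal R) : Set R) : Ideal R) : Set R) = LinearMap.range f := by
  set A : Ideal R := Ideal.span (Set.range fun i => f (e i)) with hA
  have hcol : ∀ (J : Ideal R) r, r ∈ A.colon (J : Set R) ↔ ∀ x ∈ J, r * x ∈ A := by
    intro J r
    rw [Submodule.mem_colon]
    rfl
  have hcob : ∀ η : M [⋀^Fin k]→ₗ[R] R, wedge f k η e ∈ A := by
    intro η
    have h := wedge_apply_mem f k η e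
    rwa [smul_eq_mul, Ideal.mul_top] at h
  have hmul : ∀ a v, f v * ν a e ∈ A := by
    intro a v
    have h := contr_wedge f v k (ν a)
    rw [h1, map_zero] at h
    have h' := congrArg (fun g => g e) (sub_eq_zero.1 h.symm)
    simp only [AlternatingMap.smul_apply, smul_eq_mul] at h'
    rw [h']
    exact hcob _
  have hle : Ideal.span (Set.range fun a => ν a e) ≤ A.colon ((LinearMap.range f : Ideal R) : Set R) := by
    rw [Ideal.span_le]
    rintro _ ⟨a, rfl⟩
    rw [SetLike.mem_coe, hcol]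
    rintro _ ⟨v, rfl⟩
    rw [mul_comm]
    exact hmul a v
  refine ⟨le_antisymm ?_ (sup_le Ideal.le_colon hle), le_antisymm ?_ ?_⟩
  · intro y hy
    rw [hcol] at hy
    obtain ⟨ω, hω, hωe⟩ := exists_wedge_class f (k + 1) e he y (fun v => hy _ ⟨v, rfl⟩)
    obtain ⟨c, η, rfl⟩ := h3 ω hω
    rw [AlternatingMap.add_apply, alt_sum_apply] at hωe
    simp only [AlternatingMap.smul_apply, smul_eq_mul] at hωe
    have h4 : y = (wedge f k η e - (∑ a, c a * ν a e + wedge f k η e - y)) +
        ∑ a, c a * ν a e := by ring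
    rw [h4]
    refine Ideal.add_mem _ (Ideal.mem_sup_left (Ideal.sub_mem _ (hcob η) hωe))
      (Ideal.mem_sup_right (Ideal.sum_mem _ fun a _ => Ideal.mul_mem_left _ _
        (Ideal.subset_span ⟨a, rfl⟩)))
  · intro y hy
    rw [hcol] at hy
    apply h2
    intro a
    have h5 := hy (ν a e) (hle (Ideal.subset_span ⟨a, rfl⟩))
    exact isCob_of_apply_mem f (k + 1) e he (y • ν a) (by rw [wedge_smul'', h1, smul_zero]) h5
  · intro y hy
    rw [hcol]
    intro s hs
    rw [hcol] at hs
    rw [mul_comm]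
    exact hs y hy

end link

section resolution

variable {R : Type u} [CommRing R] {F : ℕ → Type u} [∀ i, AddCommGroup (F i)]
  [∀ i, Module R (F i)] [∀ i, Module.Free R (F i)] [∀ i, Module.Finite R (F i)]

/-- the dual map, with free indices -/
def uu (D : ∀ i, F (i + 1) →ₗ[R] F i) (m n : ℕ) (h : n = m + 1) :
    Module.Dual R (F m) →ₗ[R] Module.Dual R (F n) :=
  (D m ∘ₗ (show F n →ₗ[R] F (m + 1) by subst h; exact LinearMap.id)).dualMap

/-- the reversed dual complex -/
def uR (D : ∀ i, F (i + 1) →ₗ[R] F i) (c : ℕ) (j : ℕ) :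
    Module.Dual R (F (c - (j + 1))) →ₗ[R] Module.Dual R (F (c - j)) :=
  if h : c - j = c - (j + 1) + 1 then uu D _ _ h else 0

theorem uR_eq (D : ∀ i, F (i + 1) →ₗ[R] F i) (c j : ℕ) (h : c - j = c - (j + 1) + 1) :
    uR D c j = uu D _ _ h := dif_pos h

theorem uu_exact (D : ∀ i, F (i + 1) →ₗ[R] F i) (m n p : ℕ) (h1 : n = m + 1) (h2 : p = n + 1)
    (hex : Function.Exact (D m).dualMap (D (m + 1)).dualMap) :
    Function.Exact (uu D m n h1) (uu D n p h2) := by
  subst h1
  subst h2
  exact hex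

theorem uu_inj (D : ∀ i, F (i + 1) →ₗ[R] F i) (m n : ℕ) (hm : m = 0) (h1 : n = m + 1)
    (h : Function.Injective (D 0).dualMap) : Function.Injective (uu D m n h1) := by
  subst hm
  subst h1
  exact h

theorem uu_kill (D : ∀ i, F (i + 1) →ₗ[R] F i) (k m n : ℕ) (hn : n = k + 1) (h1 : n = m + 1)
    (r : R) (s : F (k + 1) →ₗ[R] F (k + 1 + 1)) (t : F k →ₗ[R] F (k + 1))
    (h : ∀ x, D (k + 1) (s x) + t (D k x) = r • x) (hz : ∀ x : F (k + 1 + 1), x = 0)
    (ξ : Module.Dual R (F n)) : ∃ y, uu D m n h1 y = r • ξ := by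
  subst hn
  obtain rfl : k = m := by omega
  refine ⟨ξ ∘ₗ t, ?_⟩
  ext x
  have h2 := h x
  rw [hz (s x), map_zero, zero_add] at h2
  show ξ (t (D k x)) = r • ξ x
  rw [h2, map_smul]

theorem uu_equiv (D : ∀ i, F (i + 1) →ₗ[R] F i) (e0 : F 0 ≃ₗ[R] R) (m n : ℕ) (hm : m = 0)
    (h1 : n = m + 1) : ∃ (α : Module.Dual R (F m) ≃ₗ[R] R)
      (β : Module.Dual R (F n) ≃ₗ[R] Module.Dual R (F 1)),
      ∀ g v, β (uu D m n h1 g) v = α g * e0 (D 0 v) := by
  subst hm
  subst h1
  refine ⟨e0.symm.dualMap ≪≫ₗ LinearMap.ringLmapEquivSelf R R R, LinearEquiv.refl _ _, ?_⟩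
  intro g v
  have h2 : e0.symm (e0 (D 0 v)) = e0 (D 0 v) • e0.symm 1 := by
    rw [← map_smul, smul_eq_mul, mul_one]
  show g (D 0 v) = _
  conv_lhs => rw [← e0.symm_apply_apply (D 0 v), h2, map_smul, smul_eq_mul, mul_comm]
  congr 1

/-- **Top Koszul cohomology from a free resolution**, all lengths and types. -/
theorem exists_nu_gen (D : ∀ i, F (i + 1) →ₗ[R] F i)
    (hD : ∀ i, Function.Exact (D (i + 1)) (D i)) (e0 : F 0 ≃ₗ[R] R) (k : ℕ)
    (hz : ∀ x : F (k + 1 + 1), x = 0)
    (hf : HasReg (e0.toLinearMap ∘ₗ D 0) (k + 1)) {ι : Type*} [Fintype ι]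
    (b : Module.Basis ι R (Module.Dual R (F (k + 1)))) :
    ∃ ν : ι → F 1 [⋀^Fin (k + 1)]→ₗ[R] R,
      (∀ a, wedge (e0.toLinearMap ∘ₗ D 0) (k + 1) (ν a) = 0) ∧
      (∀ y, (∀ a, ∃ η, wedge (e0.toLinearMap ∘ₗ D 0) k η = y • ν a) →
        y ∈ LinearMap.range (e0.toLinearMap ∘ₗ D 0)) ∧
      (∀ ω, wedge (e0.toLinearMap ∘ₗ D 0) (k + 1) ω = 0 →
        ∃ (c : ι → R) (η : F 1 [⋀^Fin k]→ₗ[R] R),
        ω = ∑ a, c a • ν a + wedge (e0.toLinearMap ∘ₗ D 0) k η) := by
  have hf' := hf
  obtain ⟨rs, hlen, hreg, hmem⟩ := hf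
  have hs : ∀ r ∈ LinearMap.range (e0.toLinearMap ∘ₗ D 0),
      ∃ s0 : F 0 →ₗ[R] F 1, ∀ x, D 0 (s0 x) = r • x := by
    rintro _ ⟨v, rfl⟩
    refine ⟨(LinearMap.toSpanSingleton R (F 1) v) ∘ₗ e0.toLinearMap, fun x => ?_⟩
    apply e0.injective
    simp [mul_comm]
  obtain ⟨i0, i1⟩ := dual_exact_gen D hD rs hreg (fun r hr => hs r (by
    obtain ⟨v, hv⟩ := hmem r hr
    exact ⟨v, hv⟩))
  obtain ⟨α, β, hβ⟩ := uu_equiv D e0 (k + 1 - (k + 1)) (k + 1 - k) (by omega) (by omega)
  exact zigzag (G := fun j => Module.Dual R (F (k + 1 - j))) (u := uR D (k + 1)) hf'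
    (fun i hi => by
      rw [uR_eq D (k + 1) (i + 1) (by omega), uR_eq D (k + 1) i (by omega)]
      exact uu_exact D _ _ _ _ _ (i1 _ (by omega)))
    (by
      rw [uR_eq D (k + 1) k (by omega)]
      exact uu_inj D _ _ (by omega) _ (i0 (by omega)))
    (fun v x => by
      obtain ⟨s0, hs0⟩ := hs _ ⟨v, rfl⟩
      rw [uR_eq D (k + 1) 0 (by omega)]
      exact uu_kill D k _ _ (by omega) _ _ _ _
        (nh_spec D _ s0 hs0 (k + 1) (fun i _ => hD i) k (by omega)) hz x)
    α β (by
      intro g v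
      rw [uR_eq D (k + 1) k (by omega)]
      exact hβ g v) b

end resolution

section minimal

open IsLocalRing LicciCodimFour

variable {R : Type u} [CommRing R]

/-- ranks of the resolution, including the ring -/
def bb (b : ℕ → ℕ) : ℕ → ℕ
  | 0 => 1
  | i + 1 => b (i + 1)

/-- maps of the resolution, including the augmentation -/
def DD [IsLocalRing R] {I : Ideal R} {b : ℕ → ℕ} (F : MinimalFreeResolution I b) :
    ∀ i, (Fin (bb b (i + 1)) → R) →ₗ[R] (Fin (bb b i) → R)
  | 0 => LinearMap.pi fun _ => F.aug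
  | i + 1 => F.d i

theorem DD_exact [IsLocalRing R] {I : Ideal R} {b : ℕ → ℕ} (F : MinimalFreeResolution I b) :
    ∀ i, Function.Exact (DD F (i + 1)) (DD F i)
  | 0 => by
      intro x
      constructor
      · intro hx
        exact (F.exact_aug x).1 (congrFun hx (0 : Fin 1))
      · intro hx
        funext i
        exact (F.exact_aug x).2 hx
  | i + 1 => F.exact_d i

/-- **The bridge**: a weakly regular sequence of length `c = pd (R ⧸ I)` in `I` and the link. -/
theorem bridge [IsLocalRing R] {I : Ideal R} {b : ℕ → ℕ} (F : MinimalFreeResolution I b) (k : ℕ)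
    (hb : ∀ i, k + 1 < i → b i = 0) (a : Fin (k + 1) → R) (ha : IsWeaklyRegular R (List.ofFn a))
    (haI : ∀ i, a i ∈ I) :
    ∃ w : Fin (b (k + 1)) → R,
      (Ideal.span (Set.range a)).colon (I : Set R) =
        Ideal.span (Set.range a) ⊔ Ideal.span (Set.range w) ∧
      (Ideal.span (Set.range a)).colon
        (((Ideal.span (Set.range a)).colon (I : Set R) : Ideal R) : Set R) = I := by
  classical
  let e0 : (Fin (bb b 0) → R) ≃ₗ[R] R := LinearEquiv.funUnique (Fin 1) R R
  have hf : e0.toLinearMap ∘ₗ DD F 0 = F.aug := by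
    ext x
    rfl
  have hrange : LinearMap.range (e0.toLinearMap ∘ₗ DD F 0) = I :=
    (congrArg LinearMap.range hf).trans F.range_aug
  have hex : ∀ i, ∃ x, F.aug x = a i := by
    intro i
    have := haI i
    rw [← F.range_aug] at this
    exact this
  choose e he using hex
  have he' : (fun i => (e0.toLinearMap ∘ₗ DD F 0) (e i)) = a := by
    funext i
    exact he i
  have hreg : HasReg (e0.toLinearMap ∘ₗ DD F 0) (k + 1) := by
    refine ⟨List.ofFn a, by simp, ha, ?_⟩
    intro r hr
    obtain ⟨i, rfl⟩ := (List.mem_ofFn' _ _).1 hr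
    exact ⟨e i, congrFun he' i⟩
  have hz : ∀ x : (Fin (bb b (k + 1 + 1)) → R), x = 0 := by
    intro x
    ext i
    have h0 : b (k + 1 + 1) = 0 := hb _ (by omega)
    have hi : (i : ℕ) < b (k + 1 + 1) := i.2
    omega
  have bs : Module.Basis (Fin (b (k + 1))) R (Module.Dual R (Fin (bb b (k + 1)) → R)) :=
    (Pi.basisFun R (Fin (b (k + 1)))).dualBasis
  obtain ⟨ν, h1, h2, h3⟩ := exists_nu_gen (F := fun i => Fin (bb b i) → R) (DD F) (DD_exact F)
    e0 k hz hreg bs
  have key := link_of_zigzag ν h1 h2 h3 e (by rw [he']; exact ha)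
  rw [he', hrange] at key
  exact ⟨fun j => ν j e, key⟩

/-- `bridge` with `c` in place of `k + 1`. -/
theorem bridge_c [IsLocalRing R] {I : Ideal R} {b : ℕ → ℕ} (F : MinimalFreeResolution I b) (c : ℕ)
    (hc : 1 ≤ c) (hb : ∀ i, c < i → b i = 0) (a : Fin c → R) (ha : IsWeaklyRegular R (List.ofFn a))
    (haI : ∀ i, a i ∈ I) :
    ∃ w : Fin (b c) → R,
      (Ideal.span (Set.range a)).colon (I : Set R) =
        Ideal.span (Set.range a) ⊔ Ideal.span (Set.range w) ∧
      (Ideal.span (Set.range a)).colon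
        (((Ideal.span (Set.range a)).colon (I : Set R) : Ideal R) : Set R) = I := by
  obtain ⟨k, rfl⟩ : ∃ k, c = k + 1 := ⟨c - 1, by omega⟩
  exact bridge F k hb a ha haI

/-- **Type one**: a form `ν` which generates the top Koszul cohomology, with annihilator `I`. -/
theorem exists_nu_of_resolution [IsLocalRing R] {I : Ideal R} {b : ℕ → ℕ}
    (F : MinimalFreeResolution I b) (k : ℕ) (hb : ∀ i, k + 1 < i → b i = 0) (hb1 : b (k + 1) = 1)
    (hf : HasReg F.aug (k + 1)) :
    ∃ ν : (Fin (b 1) → R) [⋀^Fin (k + 1)]→ₗ[R] R, wedge F.aug (k + 1) ν = 0 ∧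
      (∀ y η, wedge F.aug k η = y • ν → y ∈ I) ∧
      (∀ ω, wedge F.aug (k + 1) ω = 0 →
        ∃ (z : R) (η : (Fin (b 1) → R) [⋀^Fin k]→ₗ[R] R), ω = z • ν + wedge F.aug k η) := by
  classical
  let e0 : (Fin (bb b 0) → R) ≃ₗ[R] R := LinearEquiv.funUnique (Fin 1) R R
  have hz : ∀ x : (Fin (bb b (k + 1 + 1)) → R), x = 0 := by
    intro x
    ext i
    have h0 : b (k + 1 + 1) = 0 := hb _ (by omega)
    have hi : (i : ℕ) < b (k + 1 + 1) := i.2
    omega
  have bs : Module.Basis (Fin 1) R (Module.Dual R (Fin (bb b (k + 1)) → R)) :=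
    (Pi.basisFun R (Fin (b (k + 1)))).dualBasis.reindex (finCongr hb1)
  obtain ⟨ν, h1, h2, h3⟩ := exists_nu_gen (F := fun i => Fin (bb b i) → R) (DD F) (DD_exact F)
    e0 k hz hf bs
  refine ⟨ν 0, h1 0, fun y η hη => ?_, fun ω hω => ?_⟩
  · have h4 : y ∈ LinearMap.range F.aug := h2 y (fun a => ⟨η, by
      rw [Subsingleton.elim a 0]
      exact hη⟩)
    rwa [F.range_aug] at h4
  · obtain ⟨c, η, h4⟩ := h3 ω hω
    refine ⟨c 0, η, ?_⟩
    rw [Fin.sum_univ_one] at h4
    exact h4

end minimal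

end Pool.Agent.Licci.D
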