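import Pool.Agent.Work.MP_a98e4e_ag.CA1

/-!
# Grade `c` bridge, part A: null homotopies, dual complexes, the zigzag between a complex
`⋯ → G 1 → G 0` and the Koszul cochain complex
-/

set_option autoImplicit false

namespace Pool.Agent.Licci.D

open RingTheory.Sequence

universe u v

section homotopy

variable {R : Type u} [CommRing R] {G : ℕ → Type v} [∀ i, AddCommGroup (G i)]
  [∀ i, Module R (G i)]

/-- the null homotopy of multiplication by `r` which extends `s0` -/
noncomputable def nh (u : ∀ i, G (i + 1) →ₗ[R] G i) (r : R) (s0 : G 0 →ₗ[R] G 1) :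
    ∀ i, G i →ₗ[R] G (i + 1)
  | 0 => s0
  | i + 1 => Classical.epsilon fun t => ∀ x, u (i + 1) (t x) = r • x - nh u r s0 i (u i x)

theorem nh_spec [∀ i, Module.Projective R (G i)] (u : ∀ i, G (i + 1) →ₗ[R] G i) (r : R)
    (s0 : G 0 →ₗ[R] G 1) (h0 : ∀ x, u 0 (s0 x) = r • x) (n : ℕ)
    (hex : ∀ i, i < n → Function.Exact (u (i + 1)) (u i)) :
    ∀ i, i < n → ∀ x, u (i + 1) (nh u r s0 (i + 1) x) + nh u r s0 i (u i x) = r • x := by
  intro i
  induction i with
  | zero =>
    intro hi x
    have h1 : ∃ t : G 1 →ₗ[R] G 2, ∀ x, u 1 (t x) = r • x - nh u r s0 0 (u 0 x) := by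
      obtain ⟨t, ht⟩ := LicciCodimFour.exists_lift (hex 0 hi)
        (r • LinearMap.id - nh u r s0 0 ∘ₗ u 0) (fun x => by
          simp only [nh, LinearMap.sub_apply, LinearMap.smul_apply, LinearMap.id_apply,
            LinearMap.comp_apply, map_sub, map_smul, h0, sub_self])
      exact ⟨t, ht⟩
    have h2 : u 1 (nh u r s0 1 x) = r • x - nh u r s0 0 (u 0 x) := Classical.epsilon_spec h1 x
    rw [h2, sub_add_cancel]
  | succ i ih =>
    intro hi x
    have ih' := ih (by omega)
    have h1 : ∃ t : G (i + 2) →ₗ[R] G (i + 3), ∀ x,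
        u (i + 2) (t x) = r • x - nh u r s0 (i + 1) (u (i + 1) x) := by
      obtain ⟨t, ht⟩ := LicciCodimFour.exists_lift (hex (i + 1) hi)
        (r • LinearMap.id - nh u r s0 (i + 1) ∘ₗ u (i + 1)) (fun x => by
          have h3 := ih' (u (i + 1) x)
          rw [(hex i (by omega)).apply_apply_eq_zero, map_zero, add_zero] at h3
          simp only [LinearMap.sub_apply, LinearMap.smul_apply, LinearMap.id_apply,
            LinearMap.comp_apply, map_sub, map_smul, h3, sub_self])
      exact ⟨t, ht⟩
    have h2 : u (i + 2) (nh u r s0 (i + 2) x) = r • x - nh u r s0 (i + 1) (u (i + 1) x) :=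
      Classical.epsilon_spec h1 x
    rw [h2, sub_add_cancel]

end homotopy

section dual

variable {R : Type u} [CommRing R] {F : ℕ → Type u} [∀ i, AddCommGroup (F i)]
  [∀ i, Module R (F i)] [∀ i, Module.Free R (F i)] [∀ i, Module.Finite R (F i)]

/-- The dual of a free resolution of a module killed by a regular sequence is exact below the
length of the sequence. -/
theorem dual_exact_gen (D : ∀ i, F (i + 1) →ₗ[R] F i)
    (hD : ∀ i, Function.Exact (D (i + 1)) (D i)) (rs : List R) (hreg : IsWeaklyRegular R rs)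
    (hs : ∀ r ∈ rs, ∃ s0 : F 0 →ₗ[R] F 1, ∀ x, D 0 (s0 x) = r • x) :
    (0 < rs.length → Function.Injective (D 0).dualMap) ∧
      ∀ i, i + 1 < rs.length → Function.Exact (D i).dualMap (D (i + 1)).dualMap := by
  have hdd : ∀ i (x : Module.Dual R (F i)), (D (i + 1)).dualMap ((D i).dualMap x) = 0 := by
    intro i x
    ext z
    simp [LinearMap.dualMap_apply, (hD i).apply_apply_eq_zero]
  obtain ⟨h0, h1⟩ := acyclic_of_homotopy rs (fun i => Module.Dual R (F i))
    (fun i => (D i).dualMap) hdd
    (fun i => LicciCodimFour.isWeaklyRegular_of_flat hreg _) (by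
      intro r hr
      obtain ⟨s0, hs0⟩ := hs r hr
      refine ⟨fun i => (nh D r s0 i).dualMap, fun x => ?_, fun i x => ?_⟩
      · ext z
        simp [LinearMap.dualMap_apply, nh, hs0]
      · ext z
        have h2 := nh_spec D r s0 hs0 (i + 1) (fun i _ => hD i) i (by omega) z
        simp only [LinearMap.add_apply, LinearMap.dualMap_apply, LinearMap.smul_apply]
        rw [← map_smul, ← h2, map_add]
        exact add_comm _ _)
  refine ⟨h0, fun i hi x => ⟨fun hx => h1 i hi x hx, ?_⟩⟩
  rintro ⟨y, rfl⟩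
  exact hdd i y

end dual

section zigzag

variable {R : Type u} [CommRing R] {M : Type u} [AddCommGroup M] [Module R M]
  [Module.Free R M] [Module.Finite R M]
  {G : ℕ → Type u} [∀ i, AddCommGroup (G i)] [∀ i, Module R (G i)]

/-- comparison families: `u_i ∘ x_{i+1} = f ∧ x_i` for `i ≤ k` -/
def IsComp (f : M →ₗ[R] R) (u : ∀ i, G (i + 1) →ₗ[R] G i) (k : ℕ)
    (x : ∀ i, M [⋀^Fin i]→ₗ[R] G i) : Prop :=
  ∀ i, i ≤ k → (u i).compAlternatingMap (x (i + 1)) = wedge f i (x i)

variable {f : M →ₗ[R] R} {u : ∀ i, G (i + 1) →ₗ[R] G i} {k : ℕ}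

omit [Module.Free R M] [Module.Finite R M] in
theorem comp_add' {A B : Type u} [AddCommGroup A] [Module R A] [AddCommGroup B] [Module R B]
    (q : A →ₗ[R] B) {n : ℕ} (ω η : M [⋀^Fin n]→ₗ[R] A) :
    q.compAlternatingMap (ω + η) = q.compAlternatingMap ω + q.compAlternatingMap η := by
  ext x
  exact LinearMap.map_add q _ _

omit [Module.Free R M] [Module.Finite R M] in
theorem comp_sub' {A B : Type u} [AddCommGroup A] [Module R A] [AddCommGroup B] [Module R B]
    (q : A →ₗ[R] B) {n : ℕ} (ω η : M [⋀^Fin n]→ₗ[R] A) :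
    q.compAlternatingMap (ω - η) = q.compAlternatingMap ω - q.compAlternatingMap η := by
  ext x
  exact LinearMap.map_sub q _ _

omit [Module.Free R M] [Module.Finite R M] in
theorem comp_smul' {A B : Type u} [AddCommGroup A] [Module R A] [AddCommGroup B] [Module R B]
    (q : A →ₗ[R] B) {n : ℕ} (y : R) (ω : M [⋀^Fin n]→ₗ[R] A) :
    q.compAlternatingMap (y • ω) = y • q.compAlternatingMap ω := by
  ext x
  exact LinearMap.map_smul q _ _

omit [Module.Free R M] [Module.Finite R M] in
theorem comp_comp_zero {A B C : Type u} [AddCommGroup A] [Module R A] [AddCommGroup B]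
    [Module R B] [AddCommGroup C] [Module R C] {p : A →ₗ[R] B} {q : B →ₗ[R] C}
    (h : Function.Exact p q) {n : ℕ} (ω : M [⋀^Fin n]→ₗ[R] A) :
    q.compAlternatingMap (p.compAlternatingMap ω) = 0 := by
  ext x
  exact h.apply_apply_eq_zero _

omit [Module.Free R M] [Module.Finite R M] in
theorem wedge_sub'' {N : Type u} [AddCommGroup N] [Module R N] (g : M →ₗ[R] R) (n : ℕ)
    (ω η : M [⋀^Fin n]→ₗ[R] N) : wedge g n (ω - η) = wedge g n ω - wedge g n η :=
  LinearMap.map_sub (wedge g n) ω η

omit [Module.Free R M] [Module.Finite R M] in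
theorem wedge_add'' {N : Type u} [AddCommGroup N] [Module R N] (g : M →ₗ[R] R) (n : ℕ)
    (ω η : M [⋀^Fin n]→ₗ[R] N) : wedge g n (ω + η) = wedge g n ω + wedge g n η :=
  LinearMap.map_add (wedge g n) ω η

omit [Module.Free R M] [Module.Finite R M] in
theorem wedge_smul'' {N : Type u} [AddCommGroup N] [Module R N] (g : M →ₗ[R] R) (n : ℕ) (y : R)
    (ω : M [⋀^Fin n]→ₗ[R] N) : wedge g n (y • ω) = y • wedge g n ω :=
  LinearMap.map_smul (wedge g n) y ω

/-- the Koszul complex with flat coefficients is exact below the grade -/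
theorem koszul_lt {n : ℕ} (h : HasReg f n) {N : Type u} [AddCommGroup N] [Module R N]
    [Module.Flat R N] (i : ℕ) (hi : i + 1 < n) (ω : M [⋀^Fin (i + 1)]→ₗ[R] N)
    (hω : wedge f (i + 1) ω = 0) : ∃ η, wedge f i η = ω := by
  obtain ⟨rs, h1, h2, h3⟩ := h
  exact koszul_exact' f rs (LicciCodimFour.isWeaklyRegular_of_flat h2 N) h3 (i + 1) (h1 ▸ hi) ω hω

theorem koszul_zero {n : ℕ} (h : HasReg f n) (hn : 0 < n) {N : Type u} [AddCommGroup N]
    [Module R N] [Module.Flat R N] (ω : M [⋀^Fin 0]→ₗ[R] N)
    (hω : wedge f 0 ω = 0) : ω = 0 := by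
  obtain ⟨rs, h1, h2, h3⟩ := h
  exact koszul_exact' f rs (LicciCodimFour.isWeaklyRegular_of_flat h2 N) h3 0 (h1 ▸ hn) ω hω

omit [Module.Finite R M] in
/-- existence of a comparison family with given start -/
theorem exists_comp (hu : ∀ i, i < k → Function.Exact (u (i + 1)) (u i))
    (hf : ∀ v (x : G 0), ∃ y, u 0 y = f v • x) (x0 : G 0) :
    ∃ x, IsComp f u k x ∧ x 0 = AlternatingMap.constOfIsEmpty R M (Fin 0) x0 := by
  have key : ∀ n, n ≤ k + 1 → ∃ x : ∀ i, M [⋀^Fin i]→ₗ[R] G i,
      (∀ i, i < n → (u i).compAlternatingMap (x (i + 1)) = wedge f i (x i)) ∧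
      x 0 = AlternatingMap.constOfIsEmpty R M (Fin 0) x0 := by
    intro n
    induction n with
    | zero =>
      intro _
      refine ⟨fun i => match i with
        | 0 => AlternatingMap.constOfIsEmpty R M (Fin 0) x0
        | _ + 1 => 0, fun i hi => absurd hi (by omega), rfl⟩
    | succ n ih =>
      intro hn
      obtain ⟨x, hx, hx0⟩ := ih (by omega)
      have h1 : ∃ y : M [⋀^Fin (n + 1)]→ₗ[R] G (n + 1),
          (u n).compAlternatingMap y = wedge f n (x n) := by
        cases n with
        | zero =>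
          have hv : ∀ v, wedge f 0 (x 0) v ∈ LinearMap.range (u 0) := by
            intro v
            rw [hx0, wedge_apply]
            obtain ⟨y, hy⟩ := hf (v 0) x0
            exact ⟨y, by simpa using hy⟩
          obtain ⟨η, hη⟩ := exists_lift_alt (u 0).rangeRestrict
            (LinearMap.surjective_rangeRestrict _) 1 ((wedge f 0 (x 0)).codRestrict _ hv)
          refine ⟨η, ?_⟩
          ext v
          exact congrArg (fun g => ((g v : LinearMap.range (u 0)) : G 0)) hη
        | succ n =>
          refine exists_lift_alt_exact (hu n (by omega)) (n + 2) _ ?_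
          rw [← wedge_compRight, hx n (by omega), wedge_wedge_self]
      obtain ⟨y, hy⟩ := h1
      refine ⟨Function.update x (n + 1) y, fun i hi => ?_, ?_⟩
      · rcases Nat.lt_succ_iff_lt_or_eq.1 hi with h | h
        · rw [Function.update_of_ne (by omega), Function.update_of_ne (by omega)]
          exact hx i h
        · subst h
          rw [Function.update_self, Function.update_of_ne (by omega)]
          exact hy
      · rw [Function.update_of_ne (by omega)]
        exact hx0
  obtain ⟨x, hx, hx0⟩ := key (k + 1) le_rfl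
  exact ⟨x, fun i hi => hx i (by omega), hx0⟩

omit [Module.Free R M] [Module.Finite R M] in
/-- the end of a comparison family is closed -/
theorem IsComp.closed {x : ∀ i, M [⋀^Fin i]→ₗ[R] G i} (hx : IsComp f u k x)
    (hinj : Function.Injective (u k)) : wedge f (k + 1) (x (k + 1)) = 0 := by
  have h1 : (u k).compAlternatingMap (wedge f (k + 1) (x (k + 1))) = 0 := by
    rw [← wedge_compRight, hx k le_rfl, wedge_wedge_self]
  ext v
  apply hinj
  rw [AlternatingMap.zero_apply, map_zero]
  exact congrArg (fun g => g v) h1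

/-- (B) if `y x_{k+1}` is a coboundary, then `y x_0` is in the image of `u_0` -/
theorem IsComp.mem {x : ∀ i, M [⋀^Fin i]→ₗ[R] G i} (hx : IsComp f u k x)
    [∀ i, Module.Flat R (G i)]
    (hu : ∀ i, i < k → Function.Exact (u (i + 1)) (u i)) (hf : HasReg f (k + 1)) {x0 : G 0}
    (hx0 : x 0 = AlternatingMap.constOfIsEmpty R M (Fin 0) x0) {y : R}
    {η : M [⋀^Fin k]→ₗ[R] G (k + 1)} (hη : wedge f k η = y • x (k + 1)) :
    ∃ g, u 0 g = y • x0 := by
  have key : ∀ n i, i + n = k → ∃ τ : M [⋀^Fin i]→ₗ[R] G (i + 1),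
      wedge f i (y • x i - (u i).compAlternatingMap τ) = 0 := by
    intro n
    induction n with
    | zero =>
      intro i hi
      obtain rfl : i = k := by omega
      refine ⟨η, ?_⟩
      rw [wedge_sub'', wedge_smul'', wedge_compRight, hη, comp_smul', hx i le_rfl, sub_self]
    | succ n ih =>
      intro i hi
      obtain ⟨τ, hτ⟩ := ih (i + 1) (by omega)
      obtain ⟨σ, hσ⟩ := koszul_lt hf i (by omega) _ hτ
      refine ⟨σ, ?_⟩
      rw [wedge_sub'', wedge_smul'', wedge_compRight, hσ, comp_sub', comp_smul',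
        comp_comp_zero (hu i (by omega)), sub_zero, hx i (by omega), sub_self]
  obtain ⟨τ, hτ⟩ := key k 0 (by omega)
  have h1 := koszul_zero hf (by omega) _ hτ
  refine ⟨τ ![], ?_⟩
  have h2 := congrArg (fun g => g ![]) h1
  rw [hx0] at h2
  simp only [AlternatingMap.sub_apply, AlternatingMap.smul_apply, AlternatingMap.zero_apply,
    LinearMap.compAlternatingMap_apply, AlternatingMap.constOfIsEmpty_apply] at h2
  exact (sub_eq_zero.1 h2).symm

omit [Module.Finite R M] in
/-- a comparison family with trivial start ends in a coboundary -/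
theorem IsComp.cob {x : ∀ i, M [⋀^Fin i]→ₗ[R] G i} (hx : IsComp f u k x)
    (hu : ∀ i, i < k → Function.Exact (u (i + 1)) (u i)) (hinj : Function.Injective (u k))
    (hx0 : x 0 = 0) : ∃ τ : M [⋀^Fin k]→ₗ[R] G (k + 1), x (k + 1) = wedge f k τ := by
  have key : ∀ i, i < k → ∃ τ : M [⋀^Fin i]→ₗ[R] G (i + 1),
      (u i).compAlternatingMap (x (i + 1) - wedge f i τ) = 0 := by
    intro i
    induction i with
    | zero =>
      intro _
      refine ⟨0, ?_⟩
      rw [map_zero, sub_zero, hx 0 (by omega), hx0, map_zero]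
    | succ i ih =>
      intro hi
      obtain ⟨τ, hτ⟩ := ih (by omega)
      obtain ⟨σ, hσ⟩ := exists_lift_alt_exact (hu i (by omega)) (i + 1) _ hτ
      refine ⟨σ, ?_⟩
      rw [comp_sub', hx (i + 1) (by omega), ← wedge_compRight, hσ, wedge_sub'',
        wedge_wedge_self, sub_zero, sub_self]
  have key2 : ∃ τ : M [⋀^Fin k]→ₗ[R] G (k + 1),
      (u k).compAlternatingMap (x (k + 1) - wedge f k τ) = 0 := by
    cases k with
    | zero =>
      refine ⟨0, ?_⟩
      rw [map_zero, sub_zero, hx 0 (by omega), hx0, map_zero]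
    | succ i =>
      obtain ⟨τ, hτ⟩ := key i (by omega)
      obtain ⟨σ, hσ⟩ := exists_lift_alt_exact (hu i (by omega)) (i + 1) _ hτ
      refine ⟨σ, ?_⟩
      rw [comp_sub', hx (i + 1) (by omega), ← wedge_compRight, hσ, wedge_sub'',
        wedge_wedge_self, sub_zero, sub_self]
  obtain ⟨τ, hτ⟩ := key2
  refine ⟨τ, ?_⟩
  rw [← sub_eq_zero]
  ext v
  apply hinj
  rw [AlternatingMap.zero_apply, map_zero]
  exact congrArg (fun g => g v) hτ

/-- a closed form at the end comes from a comparison family -/
theorem exists_comp_of_closed [∀ i, Module.Flat R (G i)]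
    (hu : ∀ i, i < k → Function.Exact (u (i + 1)) (u i)) (hf : HasReg f (k + 1))
    (ω : M [⋀^Fin (k + 1)]→ₗ[R] G (k + 1))
    (hω : ∃ ω', wedge f k ω' = (u k).compAlternatingMap ω) :
    ∃ x, IsComp f u k x ∧ x (k + 1) = ω := by
  have key : ∀ n, n ≤ k → ∃ x : ∀ i, M [⋀^Fin i]→ₗ[R] G i,
      (∀ i, i ≤ k → k ≤ i + n → (u i).compAlternatingMap (x (i + 1)) = wedge f i (x i)) ∧
      x (k + 1) = ω := by
    intro n
    induction n with
    | zero =>
      intro _
      obtain ⟨ω', hω'⟩ := hω
      refine ⟨Function.update (Function.update (fun i => 0) (k + 1) ω) k ω',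
        fun i hi hi' => ?_, ?_⟩
      · obtain rfl : i = k := by omega
        rw [Function.update_self, Function.update_of_ne (by omega), Function.update_self]
        exact hω'.symm
      · rw [Function.update_of_ne (by omega), Function.update_self]
    | succ n ih =>
      intro hn
      obtain ⟨x, hx, hxω⟩ := ih (by omega)
      obtain ⟨m, hm⟩ : ∃ m, m + (n + 1) = k := ⟨k - (n + 1), by omega⟩
      obtain ⟨y, hy⟩ := koszul_lt hf m (by omega) ((u m).compAlternatingMap (x (m + 1))) (by
        rw [wedge_compRight, ← hx (m + 1) (by omega) (by omega),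
          comp_comp_zero (hu m (by omega))])
      refine ⟨Function.update x m y, fun i hi hi' => ?_, ?_⟩
      · by_cases h : i = m
        · subst h
          rw [Function.update_self, Function.update_of_ne (by omega)]
          exact hy.symm
        · rw [Function.update_of_ne (by omega), Function.update_of_ne h]
          exact hx i hi (by omega)
      · rw [Function.update_of_ne (by omega)]
        exact hxω
  obtain ⟨x, hx, hxω⟩ := key k le_rfl
  exact ⟨x, fun i hi => hx i hi (by omega), hxω⟩

end zigzag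

end Pool.Agent.Licci.D
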