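import Pool.Agent.Work.MP_a98e4e_ag.D.Bridge

/-!
# Grade `c` bridge, part L: every comparison from the Koszul complex computes the link
-/

set_option autoImplicit false

namespace Pool.Agent.Licci.D

open RingTheory.Sequence

universe u

section chain

variable {R : Type u} [CommRing R] {F N : ℕ → Type u} [∀ i, AddCommGroup (F i)]
  [∀ i, Module R (F i)] [∀ i, AddCommGroup (N i)] [∀ i, Module R (N i)]

/-- lifting of a chain map -/
theorem exists_chain [∀ i, Module.Projective R (F i)] (D : ∀ i, F (i + 1) →ₗ[R] F i)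
    (u : ∀ i, N (i + 1) →ₗ[R] N i) (hD : ∀ i x, D i (D (i + 1) x) = 0) (k : ℕ)
    (hu : ∀ i, i < k → Function.Exact (u (i + 1)) (u i)) (ψ0 : F 0 →ₗ[R] N 0)
    (h0 : ∀ x, ∃ y, u 0 y = ψ0 (D 0 x)) :
    ∃ ψ : ∀ i, F i →ₗ[R] N i, ψ 0 = ψ0 ∧ ∀ i, i ≤ k → ∀ x, u i (ψ (i + 1) x) = ψ i (D i x) := by
  have key : ∀ n, n ≤ k + 1 → ∃ ψ : ∀ i, F i →ₗ[R] N i, ψ 0 = ψ0 ∧
      ∀ i, i < n → ∀ x, u i (ψ (i + 1) x) = ψ i (D i x) := by
    intro n
    induction n with
    | zero =>
      intro _
      refine ⟨fun i => match i with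
        | 0 => ψ0
        | _ + 1 => 0, rfl, fun i hi => absurd hi (by omega)⟩
    | succ n ih =>
      intro hn
      obtain ⟨ψ, hψ0, hψ⟩ := ih (by omega)
      have h1 : ∃ g : F (n + 1) →ₗ[R] N (n + 1), ∀ x, u n (g x) = ψ n (D n x) := by
        cases n with
        | zero =>
          have hv : ∀ x, (ψ 0 ∘ₗ D 0) x ∈ LinearMap.range (u 0) := by
            intro x
            obtain ⟨y, hy⟩ := h0 x
            exact ⟨y, by rw [hy, ← hψ0]; rfl⟩
          obtain ⟨g, hg⟩ := Module.projective_lifting_property (u 0).rangeRestrict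
            ((ψ 0 ∘ₗ D 0).codRestrict _ hv) (LinearMap.surjective_rangeRestrict _)
          refine ⟨g, fun x => ?_⟩
          exact congrArg Subtype.val (LinearMap.congr_fun hg x)
        | succ n =>
          exact LicciCodimFour.exists_lift (hu n (by omega)) (ψ (n + 1) ∘ₗ D (n + 1)) (fun x => by
            rw [LinearMap.comp_apply, hψ n (by omega), hD, map_zero])
      obtain ⟨g, hg⟩ := h1
      refine ⟨Function.update ψ (n + 1) g, ?_, fun i hi x => ?_⟩
      · rw [Function.update_of_ne (by omega)]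
        exact hψ0
      · rcases Nat.lt_succ_iff_lt_or_eq.1 hi with h | h
        · rw [Function.update_of_ne (by omega), Function.update_of_ne (by omega)]
          exact hψ i h x
        · subst h
          rw [Function.update_self, Function.update_of_ne (by omega)]
          exact hg x
  obtain ⟨ψ, hψ0, hψ⟩ := key (k + 1) le_rfl
  exact ⟨ψ, hψ0, fun i hi => hψ i (by omega)⟩

end chain

section cls

variable {R : Type u} [CommRing R] {M : Type u} [AddCommGroup M] [Module R M]
  [Module.Free R M] [Module.Finite R M]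
  {G : ℕ → Type u} [∀ i, AddCommGroup (G i)] [∀ i, Module R (G i)]
  {f : M →ₗ[R] R} {u : ∀ i, G (i + 1) →ₗ[R] G i} {k : ℕ}

/-- The class of a closed form, in terms of given comparison families. -/
theorem class_of_comp [∀ i, Module.Flat R (G i)]
    (hf : HasReg f (k + 1)) (hu : ∀ i, i < k → Function.Exact (u (i + 1)) (u i))
    (hinj : Function.Injective (u k))
    (α : G (k + 1) ≃ₗ[R] R) (β : G k ≃ₗ[R] Module.Dual R M)
    (hβ : ∀ g v, β (u k g) v = α g * f v) {ι : Type*} [Fintype ι] (b : Module.Basis ι R (G 0))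
    (x : ι → ∀ i, M [⋀^Fin i]→ₗ[R] G i) (hx : ∀ a, IsComp f u k (x a))
    (hx0 : ∀ a, x a 0 = AlternatingMap.constOfIsEmpty R M (Fin 0) (b a))
    (ω : M [⋀^Fin (k + 1)]→ₗ[R] R) (hω : wedge f (k + 1) ω = 0) :
    ∃ (c : ι → R) (η : M [⋀^Fin k]→ₗ[R] R),
        ω = ∑ a, c a • α.toLinearMap.compAlternatingMap (x a (k + 1)) + wedge f k η := by
  have h1 : wedge f (k + 1) (α.symm.toLinearMap.compAlternatingMap ω) = 0 := by
    rw [wedge_compRight, hω]
    ext v
    simp
  obtain ⟨z, hz, hz1⟩ := exists_comp_of_closed hu hf _ (exists_up α β hβ _ h1)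
  have h2 := hz.sub (IsComp.sum Finset.univ (fun a => b.repr (z 0 ![]) a) hx)
  obtain ⟨τ, hτ⟩ := h2.cob hu hinj (by
    ext v
    have hv : v = ![] := Subsingleton.elim _ _
    subst hv
    simp only [hx0]
    rw [AlternatingMap.sub_apply, alt_sum_apply, AlternatingMap.zero_apply, sub_eq_zero]
    simp only [AlternatingMap.smul_apply, AlternatingMap.constOfIsEmpty_apply]
    exact (b.sum_repr _).symm)
  refine ⟨fun a => b.repr (z 0 ![]) a, α.toLinearMap.compAlternatingMap τ, ?_⟩
  have h3 : ω = α.toLinearMap.compAlternatingMap (z (k + 1)) := by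
    rw [hz1]
    ext v
    simp
  rw [wedge_compRight, ← hτ, h3]
  ext v
  simp [alt_sum_apply, map_sum]

end cls

section forms

variable {R : Type u} [CommRing R] {M : Type u} [AddCommGroup M] [Module R M]
  [Module.Free R M] [Module.Finite R M]

/-- the wedge map with free indices -/
def nn (f : M →ₗ[R] R) (m n : ℕ) (h : n = m + 1) :
    (M [⋀^Fin m]→ₗ[R] R) →ₗ[R] (M [⋀^Fin n]→ₗ[R] R) :=
  (show (M [⋀^Fin (m + 1)]→ₗ[R] R) →ₗ[R] (M [⋀^Fin n]→ₗ[R] R) by
    subst h; exact LinearMap.id) ∘ₗ wedge f m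

/-- the reversed Koszul cochain complex -/
def uN (f : M →ₗ[R] R) (c : ℕ) (j : ℕ) :
    (M [⋀^Fin (c - (j + 1))]→ₗ[R] R) →ₗ[R] (M [⋀^Fin (c - j)]→ₗ[R] R) :=
  if h : c - j = c - (j + 1) + 1 then nn f _ _ h else 0

omit [Module.Free R M] [Module.Finite R M] in
theorem uN_eq (f : M →ₗ[R] R) (c j : ℕ) (h : c - j = c - (j + 1) + 1) :
    uN f c j = nn f _ _ h := dif_pos h

theorem nn_exact {f : M →ₗ[R] R} {c : ℕ} (hf : HasReg f c) (m n p : ℕ) (h1 : n = m + 1)
    (h2 : p = n + 1) (hc : m + 1 < c) : Function.Exact (nn f m n h1) (nn f n p h2) := by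
  subst h1
  subst h2
  exact hf.exact m hc

theorem nn_inj {f : M →ₗ[R] R} {c : ℕ} (hf : HasReg f c) (hc : 0 < c) (m n : ℕ) (hm : m = 0)
    (h1 : n = m + 1) : Function.Injective (nn f m n h1) := by
  subst hm
  subst h1
  rw [injective_iff_map_eq_zero]
  intro ω hω
  exact koszul_zero hf hc ω hω

omit [Module.Free R M] [Module.Finite R M] in
theorem nn_kill (f : M →ₗ[R] R) (k m n : ℕ) (hn : n = k + 1) (h1 : n = m + 1)
    (hM : ∀ ω : M [⋀^Fin (k + 1 + 1)]→ₗ[R] R, ω = 0) (v : M) (x : M [⋀^Fin n]→ₗ[R] R) :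
    ∃ y, nn f m n h1 y = f v • x := by
  subst hn
  obtain rfl : k = m := by omega
  refine ⟨contr v k x, ?_⟩
  have h := contr_wedge f v k x
  rw [hM (wedge f (k + 1) x), map_zero] at h
  exact (sub_eq_zero.1 h.symm).symm

omit [Module.Free R M] [Module.Finite R M] in
theorem nn_equiv (f : M →ₗ[R] R) (m n : ℕ) (hm : m = 0) (h1 : n = m + 1) :
    ∃ (α : (M [⋀^Fin m]→ₗ[R] R) ≃ₗ[R] R)
      (β : (M [⋀^Fin n]→ₗ[R] R) ≃ₗ[R] Module.Dual R M),
      ∀ g v, β (nn f m n h1 g) v = α g * f v := by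
  subst hm
  subst h1
  refine ⟨(AlternatingMap.constLinearEquivOfIsEmpty).symm,
    { toFun := fun ω => (AlternatingMap.ofSubsingleton R M R (0 : Fin 1)).symm ω
      map_add' := fun ω η => by ext v; rfl
      map_smul' := fun c ω => by ext v; rfl
      invFun := fun l => AlternatingMap.ofSubsingleton R M R (0 : Fin 1) l
      left_inv := fun ω => by simp
      right_inv := fun l => by simp }, ?_⟩
  intro g v
  show wedge f 0 g (fun _ => v) = g 0 * f v
  rw [wedge_apply]
  simp only [Fin.sum_univ_succ, Finset.univ_eq_empty, Finset.sum_empty]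
  have h2 : (Fin.removeNth 0 (fun _ => v) : Fin 0 → M) = 0 := Subsingleton.elim _ _
  rw [h2]
  simp [mul_comm]

end forms

section top

variable {R : Type u} [CommRing R]

/-- a form of degree larger than the rank vanishes -/
theorem alt_top_zero (k : ℕ) (ω : (Fin (k + 1) → R) [⋀^Fin (k + 1 + 1)]→ₗ[R] R) : ω = 0 := by
  refine Module.Basis.ext_alternating (Pi.basisFun R (Fin (k + 1))) fun v hv => ?_
  have h := Fintype.card_le_of_injective v hv
  simp at h

/-- evaluation at the standard basis -/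
noncomputable def evTop (k : ℕ) : ((Fin (k + 1) → R) [⋀^Fin (k + 1)]→ₗ[R] R) ≃ₗ[R] R where
  toFun ω := ω fun i => Pi.single i 1
  map_add' ω η := rfl
  map_smul' c ω := rfl
  invFun r := r • (Pi.basisFun R (Fin (k + 1))).det
  left_inv ω := by
    have h := AlternatingMap.eq_smul_basis_det (Pi.basisFun R (Fin (k + 1))) ω
    have h2 : (⇑(Pi.basisFun R (Fin (k + 1)))) = fun i => Pi.single i 1 := by
      funext i
      simp
    rw [h2] at h
    exact h.symm
  right_inv r := by
    have h2 : (fun i => Pi.single i 1) = (⇑(Pi.basisFun R (Fin (k + 1)))) := by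
      funext i
      simp
    simp only [AlternatingMap.smul_apply]
    rw [h2, Module.Basis.det_self, smul_eq_mul, mul_one]

end top

section main

variable {R : Type u} [CommRing R]

theorem repr_mem {N ι : Type*} [AddCommGroup N] [Module R N] (b : Module.Basis ι R N)
    (A : Ideal R) {z : N} (hz : z ∈ (A • (⊤ : Submodule R N))) (a : ι) : b.repr z a ∈ A := by
  refine Submodule.smul_induction_on hz (fun r hr n _ => ?_) (fun x y hx hy => ?_)
  · rw [map_smul, Finsupp.smul_apply, smul_eq_mul]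
    exact A.mul_mem_right _ hr
  · rw [map_add, Finsupp.add_apply]
    exact A.add_mem hx hy

theorem mem_of_repr {N ι : Type*} [Fintype ι] [AddCommGroup N] [Module R N]
    (b : Module.Basis ι R N) (A : Ideal R) {z : N} (hz : ∀ a, b.repr z a ∈ A) :
    z ∈ (A • (⊤ : Submodule R N)) := by
  rw [← b.sum_repr z]
  exact Submodule.sum_mem _ fun a _ => Submodule.smul_mem_smul (hz a) trivial

variable {F : ℕ → Type u} [∀ i, AddCommGroup (F i)] [∀ i, Module R (F i)]
  [∀ i, Module.Free R (F i)] [∀ i, Module.Finite R (F i)]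

/-- There is a comparison from the Koszul complex of `α` to the resolution. -/
theorem exists_comparison_gen (D : ∀ i, F (i + 1) →ₗ[R] F i)
    (hD : ∀ i, Function.Exact (D (i + 1)) (D i)) (e0 : F 0 ≃ₗ[R] R) (k : ℕ)
    {M : Type u} [AddCommGroup M] [Module R M] [Module.Free R M] (α : M →ₗ[R] R)
    (hα : ∀ v, α v ∈ LinearMap.range (e0.toLinearMap ∘ₗ D 0)) :
    ∃ x : ∀ i, M [⋀^Fin i]→ₗ[R] F i, IsComp α D k x ∧
      x 0 = AlternatingMap.constOfIsEmpty R M (Fin 0) (e0.symm 1) := by
  refine exists_comp (fun i _ => hD i) (fun v x => ?_) _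
  obtain ⟨y, hy⟩ := hα v
  refine ⟨e0 x • y, ?_⟩
  apply e0.injective
  have hy' : e0 (D 0 y) = α v := hy
  rw [map_smul, map_smul, map_smul, hy', smul_eq_mul, smul_eq_mul, mul_comm]

/-- **Every** comparison computes the link. -/
theorem link_of_comp (D : ∀ i, F (i + 1) →ₗ[R] F i)
    (hD : ∀ i, Function.Exact (D (i + 1)) (D i)) (e0 : F 0 ≃ₗ[R] R) (k : ℕ)
    (hz : ∀ x : F (k + 1 + 1), x = 0) (α : (Fin (k + 1) → R) →ₗ[R] R)
    (ha : IsWeaklyRegular R (List.ofFn fun i => α (Pi.single i 1)))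
    (hα : ∀ v, α v ∈ LinearMap.range (e0.toLinearMap ∘ₗ D 0))
    (x : ∀ i, (Fin (k + 1) → R) [⋀^Fin i]→ₗ[R] F i) (hx : IsComp α D k x)
    (hx0 : x 0 = AlternatingMap.constOfIsEmpty R (Fin (k + 1) → R) (Fin 0) (e0.symm 1))
    {ι : Type*} [Fintype ι] (b : Module.Basis ι R (F (k + 1))) (I A : Ideal R)
    (hI : LinearMap.range (e0.toLinearMap ∘ₗ D 0) = I)
    (hA : Ideal.span (Set.range fun i => α (Pi.single i 1)) = A) :
    A.colon (I : Set R) =
        A ⊔ Ideal.span (Set.range fun a => b.repr (x (k + 1) fun i => Pi.single i 1) a) ∧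
      A.colon ((A.colon (I : Set R) : Ideal R) : Set R) = I := by
  classical
  set M := Fin (k + 1) → R with hMdef
  set e : Fin (k + 1) → M := fun i => Pi.single i 1 with he
  have hcol : ∀ (J : Ideal R) r, r ∈ A.colon (J : Set R) ↔ ∀ x ∈ J, r * x ∈ A := by
    intro J r
    rw [Submodule.mem_colon]
    rfl
  have hreg : HasReg α (k + 1) := by
    refine ⟨List.ofFn fun i => α (e i), by simp, ha, ?_⟩
    intro r hr
    obtain ⟨i, rfl⟩ := (List.mem_ofFn' _ _).1 hr
    exact ⟨e i, rfl⟩
  have hinjD : Function.Injective (D k) := by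
    rw [injective_iff_map_eq_zero]
    intro z hz'
    obtain ⟨y, rfl⟩ := (hD k z).1 hz'
    rw [hz y, map_zero]
  have hDD : ∀ i x, D i (D (i + 1) x) = 0 := fun i x => (hD i).apply_apply_eq_zero x
  have hcobF : ∀ η : M [⋀^Fin k]→ₗ[R] F (k + 1), wedge α k η e ∈ (A • (⊤ : Submodule R _)) := by
    intro η
    have h := wedge_apply_mem α k η e
    rwa [hA] at h
  have hcob : ∀ η : M [⋀^Fin k]→ₗ[R] R, wedge α k η e ∈ A := by
    intro η
    have h := wedge_apply_mem α k η e
    rwa [hA, smul_eq_mul, Ideal.mul_top] at h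
  -- (i)
  have hi : ∀ y ∈ I, ∀ a, y * b.repr (x (k + 1) e) a ∈ A := by
    intro y hy a
    rw [← hI] at hy
    obtain ⟨v, rfl⟩ := hy
    have hs0 : ∀ z, D 0 ((LinearMap.toSpanSingleton R (F 1) v ∘ₗ e0.toLinearMap) z) =
        (e0.toLinearMap ∘ₗ D 0) v • z := by
      intro z
      apply e0.injective
      simp [mul_comm]
    set s := nh D ((e0.toLinearMap ∘ₗ D 0) v)
      (LinearMap.toSpanSingleton R (F 1) v ∘ₗ e0.toLinearMap) with hs
    have h1 := nh_spec D _ _ hs0 (k + 1) (fun i _ => hD i) k (by omega)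
    have h2 : (e0.toLinearMap ∘ₗ D 0) v • x (k + 1) =
        wedge α k ((s k).compAlternatingMap (x k)) := by
      rw [wedge_compRight, ← hx k le_rfl]
      ext w
      have h3 := h1 (x (k + 1) w)
      rw [hz (nh D _ _ (k + 1) (x (k + 1) w)), map_zero, zero_add] at h3
      exact h3.symm
    have h4 := repr_mem b A (hcobF ((s k).compAlternatingMap (x k))) a
    rw [← h2, AlternatingMap.smul_apply, map_smul, Finsupp.smul_apply, smul_eq_mul] at h4
    exact h4
  -- (ii)
  have hii : ∀ r, (∀ a, r * b.repr (x (k + 1) e) a ∈ A) → r ∈ I := by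
    intro r hr
    have h1 : IsCob α (k + 1) (r • x (k + 1)) := by
      refine (koszul_top α (k + 1) (F (k + 1)) e
        (LicciCodimFour.isWeaklyRegular_of_flat ha _)).2 _ ?_ ?_
      · rw [wedge_smul'', hx.closed hinjD, smul_zero]
      · rw [show (fun i => α (e i)) = fun i => α (Pi.single i 1) from rfl, hA]
        apply mem_of_repr b
        intro a
        rw [AlternatingMap.smul_apply, map_smul, Finsupp.smul_apply, smul_eq_mul]
        exact hr a
    obtain ⟨η, hη⟩ := h1
    obtain ⟨g, hg⟩ := hx.mem (fun i _ => hD i) hreg hx0 hη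
    rw [← hI]
    refine ⟨g, ?_⟩
    show e0 (D 0 g) = r
    rw [hg, map_smul, e0.apply_symm_apply, smul_eq_mul, mul_one]
  -- (iii)
  have hiii : ∀ s, (∀ y ∈ I, s * y ∈ A) →
      s ∈ A ⊔ Ideal.span (Set.range fun a => b.repr (x (k + 1) e) a) := by
    intro s hs
    -- the Koszul resolution
    obtain ⟨αe, β, hβ⟩ := nn_equiv α (k + 1 - (k + 1)) (k + 1 - k) (by omega) (by omega)
    have hN : ∀ j, Module.Free R (M [⋀^Fin (k + 1 - j)]→ₗ[R] R) := by
      intro j
      obtain ⟨m, ⟨E⟩⟩ := exists_altEquiv (R := R) M (k + 1 - j) R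
      exact Module.Free.of_equiv E.symm
    have hexN : ∀ i, i < k → Function.Exact (uN α (k + 1) (i + 1)) (uN α (k + 1) i) := by
      intro i hi
      rw [uN_eq α (k + 1) (i + 1) (by omega), uN_eq α (k + 1) i (by omega)]
      exact nn_exact hreg _ _ _ _ _ (by omega)
    have hinjN : Function.Injective (uN α (k + 1) k) := by
      rw [uN_eq α (k + 1) k (by omega)]
      exact nn_inj hreg (by omega) _ _ (by omega) _
    have hkill : ∀ v (z : M [⋀^Fin (k + 1 - 0)]→ₗ[R] R), ∃ y, uN α (k + 1) 0 y = α v • z := by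
      intro v z
      rw [uN_eq α (k + 1) 0 (by omega)]
      exact nn_kill α k _ _ rfl _ (alt_top_zero k) v z
    have hkillA : ∀ c ∈ A, ∀ z : M [⋀^Fin (k + 1 - 0)]→ₗ[R] R, ∃ y, uN α (k + 1) 0 y = c • z := by
      intro c hc z
      rw [← hA] at hc
      refine Submodule.span_induction (fun c hc => ?_) ?_ (fun c c' _ _ hc hc' => ?_)
        (fun r c _ hc => ?_) hc
      · obtain ⟨i, rfl⟩ := hc
        exact hkill _ z
      · exact ⟨0, by rw [map_zero, zero_smul]⟩
      · obtain ⟨y, hy⟩ := hc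
        obtain ⟨y', hy'⟩ := hc'
        exact ⟨y + y', by rw [map_add, hy, hy', add_smul]⟩
      · obtain ⟨y, hy⟩ := hc
        exact ⟨r • y, by rw [map_smul, hy, smul_smul, smul_eq_mul]⟩
    -- the comparison of the Koszul complex with itself
    let vol : M [⋀^Fin (k + 1 - 0)]→ₗ[R] R := (evTop (R := R) k).symm 1
    obtain ⟨d, hd, hd0⟩ := exists_comp (G := fun j => M [⋀^Fin (k + 1 - j)]→ₗ[R] R)
      (u := uN α (k + 1)) (f := α) (k := k) hexN hkill vol
    let bN : Module.Basis (Fin 1) R (M [⋀^Fin (k + 1 - 0)]→ₗ[R] R) :=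
      Module.Basis.ofEquivFun ((evTop (R := R) k).trans (LinearEquiv.funUnique (Fin 1) R R).symm)
    have hbN : bN 0 = vol := by
      show (Module.Basis.ofEquivFun _) 0 = vol
      rw [Module.Basis.coe_ofEquivFun]
      show (evTop (R := R) k).symm ((Pi.single 0 1 : Fin 1 → R) default) = vol
      rw [show (default : Fin 1) = 0 from rfl, Pi.single_eq_same]
    obtain ⟨c, η, hc⟩ := class_of_comp (G := fun j => M [⋀^Fin (k + 1 - j)]→ₗ[R] R)
      (u := uN α (k + 1)) hreg hexN hinjN αe β (fun g v => by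
        rw [uN_eq α (k + 1) k (by omega)]
        exact hβ g v) bN (fun _ => d) (fun _ => hd) (fun a => by
        rw [Subsingleton.elim a 0, hbN]
        exact hd0) ((evTop (R := R) k).symm 1) (alt_top_zero k _)
    -- the chain map `F → K` lifting `s`
    obtain ⟨ψ, hψ0, hψ⟩ := exists_chain (N := fun j => M [⋀^Fin (k + 1 - j)]→ₗ[R] R) D
      (uN α (k + 1)) hDD k hexN
      ((LinearMap.toSpanSingleton R (M [⋀^Fin (k + 1 - 0)]→ₗ[R] R) (s • vol)) ∘ₗ e0.toLinearMap)
      (fun z => by
        obtain ⟨y, hy⟩ := hkillA (s * e0 (D 0 z)) (hs _ (by rw [← hI]; exact ⟨z, rfl⟩)) vol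
        refine ⟨y, ?_⟩
        rw [hy]
        simp [smul_smul, mul_comm])
    -- both are comparison families with the same start
    have hψx : IsComp α (uN α (k + 1)) k (G := fun j => M [⋀^Fin (k + 1 - j)]→ₗ[R] R)
        (fun i => (ψ i).compAlternatingMap (x i)) := by
      intro i hi
      rw [wedge_compRight, ← hx i hi]
      ext1 v
      exact hψ i hi _
    have hsd := IsComp.sum (f := α) (u := uN α (k + 1)) (k := k) (Finset.univ : Finset (Fin 1))
      (fun _ => s) (x := fun _ => d) (fun _ => hd)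
    obtain ⟨τ, hτ⟩ := (hψx.sub hsd).cob hexN hinjN (by
      ext1 v
      rw [hψ0, hx0, hd0]
      simp)
    -- evaluate at the basis
    set θ := αe (d (k + 1) e) with hθ
    have h1 : 1 - c 0 * θ ∈ A := by
      have h2 := congrArg (fun g => g e) hc
      rw [AlternatingMap.add_apply, alt_sum_apply, Fin.sum_univ_one,
        AlternatingMap.smul_apply, smul_eq_mul] at h2
      have h3 : (evTop (R := R) k).symm 1 e = 1 := (evTop (R := R) k).apply_symm_apply 1
      have h4 : 1 - c 0 * θ = wedge α k η e := by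
        have h5 : (αe.toLinearMap.compAlternatingMap (d (k + 1))) e = θ := rfl
        rw [h5, h3] at h2
        linear_combination h2
      rw [h4]
      exact hcob η
    have h2 : αe (ψ (k + 1) (x (k + 1) e)) - s * θ ∈ A := by
      have h3 := congrArg (fun g => αe (g e)) hτ
      simp only [AlternatingMap.sub_apply, alt_sum_apply, Fin.sum_univ_one,
        AlternatingMap.smul_apply, map_sub, map_smul, smul_eq_mul,
        LinearMap.compAlternatingMap_apply] at h3
      rw [h3]
      have h4 := hcob (αe.toLinearMap.compAlternatingMap τ)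
      rw [wedge_compRight] at h4
      exact h4
    have h3 : αe (ψ (k + 1) (x (k + 1) e)) ∈
        Ideal.span (Set.range fun a => b.repr (x (k + 1) e) a) := by
      rw [← b.sum_repr (x (k + 1) e)]
      simp only [map_sum, map_smul, smul_eq_mul]
      refine Ideal.sum_mem _ fun a _ => Ideal.mul_mem_right _ _ (Ideal.subset_span ⟨a, ?_⟩)
      simp only [← map_smul, ← map_sum]
      rw [b.sum_repr]
    have h4 : s = (s * (1 - c 0 * θ) - c 0 * (αe (ψ (k + 1) (x (k + 1) e)) - s * θ)) +
        c 0 * αe (ψ (k + 1) (x (k + 1) e)) := by ring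
    rw [h4]
    exact Ideal.add_mem _ (Ideal.mem_sup_left (Ideal.sub_mem _ (Ideal.mul_mem_left _ _ h1)
      (Ideal.mul_mem_left _ _ h2))) (Ideal.mem_sup_right (Ideal.mul_mem_left _ _ h3))
  refine ⟨le_antisymm ?_ (sup_le Ideal.le_colon ?_), le_antisymm ?_ ?_⟩
  · intro s hs
    exact hiii s ((hcol I s).1 hs)
  · rw [Ideal.span_le]
    rintro _ ⟨a, rfl⟩
    rw [SetLike.mem_coe, hcol]
    intro y hy
    rw [mul_comm]
    exact hi y hy a
  · intro r hr
    rw [hcol] at hr
    apply hii
    intro a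
    apply hr
    rw [hcol]
    intro y hy
    rw [mul_comm]
    exact hi y hy a
  · intro r hr
    rw [hcol]
    intro s hs
    rw [hcol] at hs
    rw [mul_comm]
    exact hs r hr

end main

section minimal

open IsLocalRing LicciCodimFour

variable {R : Type u} [CommRing R]

/-- the linear form with coefficients `a` -/
def al {c : ℕ} (a : Fin c → R) : (Fin c → R) →ₗ[R] R := Fintype.linearCombination R a

theorem al_apply {c : ℕ} (a v : Fin c → R) : al a v = ∑ i, v i * a i := by
  simp [al, Fintype.linearCombination_apply]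

theorem al_single {c : ℕ} (a : Fin c → R) (i : Fin c) : al a (Pi.single i 1) = a i := by
  rw [al_apply, Finset.sum_eq_single i]
  · simp
  · intro j _ hj
    simp [Pi.single_eq_of_ne hj]
  · simp

/-- the coordinate of the ring in position `0` of the resolution -/
def e00 (R : Type u) [CommRing R] (b : ℕ → ℕ) : (Fin (bb b 0) → R) ≃ₗ[R] R :=
  LinearEquiv.funUnique (Fin 1) R R

theorem e00_comp [IsLocalRing R] {I : Ideal R} {b : ℕ → ℕ} (F : MinimalFreeResolution I b) :
    LinearMap.range ((e00 R b).toLinearMap ∘ₗ DD F 0) = I := by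
  have hf : (e00 R b).toLinearMap ∘ₗ DD F 0 = F.aug := by
    ext x
    rfl
  exact (congrArg LinearMap.range hf).trans F.range_aug

theorem al_mem {c : ℕ} {I : Ideal R} (a : Fin c → R) (haI : ∀ i, a i ∈ I) (v : Fin c → R) :
    al a v ∈ I := by
  rw [al_apply]
  exact Ideal.sum_mem _ fun i _ => I.mul_mem_left _ (haI i)

/-- (E) There is a comparison `K(a) → F`. -/
theorem exists_comparison [IsLocalRing R] {I : Ideal R} {b : ℕ → ℕ}
    (F : MinimalFreeResolution I b) (k : ℕ) (a : Fin (k + 1) → R) (haI : ∀ i, a i ∈ I) :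
    ∃ x : ∀ i, (Fin (k + 1) → R) [⋀^Fin i]→ₗ[R] (Fin (bb b i) → R),
      IsComp (al a) (DD F) k x ∧
      x 0 = AlternatingMap.constOfIsEmpty R (Fin (k + 1) → R) (Fin 0) (fun _ => (1 : R)) := by
  obtain ⟨x, hx, hx0⟩ := exists_comparison_gen (F := fun i => Fin (bb b i) → R) (DD F)
    (DD_exact F) (e00 R b) k (al a) (fun v => by
      rw [e00_comp]
      exact al_mem a haI v)
  exact ⟨x, hx, hx0⟩

/-- (L) **Every** comparison `K(a) → F` computes the link of `I`. -/
theorem link_of_comparison [IsLocalRing R] {I : Ideal R} {b : ℕ → ℕ}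
    (F : MinimalFreeResolution I b) (k : ℕ) (hb : ∀ i, k + 1 < i → b i = 0)
    (a : Fin (k + 1) → R) (ha : IsWeaklyRegular R (List.ofFn a)) (haI : ∀ i, a i ∈ I)
    (x : ∀ i, (Fin (k + 1) → R) [⋀^Fin i]→ₗ[R] (Fin (bb b i) → R))
    (hx : IsComp (al a) (DD F) k x)
    (hx0 : x 0 = AlternatingMap.constOfIsEmpty R (Fin (k + 1) → R) (Fin 0) (fun _ => (1 : R))) :
    (Ideal.span (Set.range a)).colon (I : Set R) =
        Ideal.span (Set.range a) ⊔
          Ideal.span (Set.range (x (k + 1) fun i => Pi.single i 1 : Fin (b (k + 1)) → R)) ∧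
      (Ideal.span (Set.range a)).colon
        (((Ideal.span (Set.range a)).colon (I : Set R) : Ideal R) : Set R) = I := by
  classical
  have hz : ∀ x : (Fin (bb b (k + 1 + 1)) → R), x = 0 := by
    intro x
    ext i
    have h0 : b (k + 1 + 1) = 0 := hb _ (by omega)
    have hi : (i : ℕ) < b (k + 1 + 1) := i.2
    omega
  have hal : (fun i => al a (Pi.single i 1)) = a := by
    funext i
    exact al_single a i
  have h := link_of_comp (F := fun i => Fin (bb b i) → R) (DD F) (DD_exact F) (e00 R b) k hz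
    (al a) (by rw [hal]; exact ha) (fun v => by
      rw [e00_comp]
      exact al_mem a haI v) x hx hx0
    (Pi.basisFun R (Fin (bb b (k + 1)))) I (Ideal.span (Set.range a)) (e00_comp F) (by rw [hal])
  exact h

end minimal

end Pool.Agent.Licci.D
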