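import Pool.Agent.Work.MP_a98e4e_ag.D.Vol

/-!
# LICCI, codimension 5 and 6: moves are decomposable (helper45)
-/

set_option linter.unusedSectionVars false

noncomputable section

namespace Pool.Agent.Licci

open scoped BigOperators

variable {A : Type*} [CommRing A]

/-- a matrix whose lower rows are those of the identity -/
theorem det_block (B : Matrix (Fin (3 + 5)) (Fin (3 + 5)) A)
    (hB : ∀ (a : Fin 5) (s : Fin (3 + 5)), B (Fin.natAdd 3 a) s =
      if Fin.natAdd 3 a = s then 1 else 0) :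
    B.det = (B.submatrix (Fin.castAdd 5) (Fin.castAdd 5) : Matrix (Fin 3) (Fin 3) A).det := by
  rw [← Matrix.det_submatrix_equiv_self finSumFinEquiv B]
  have h : B.submatrix finSumFinEquiv finSumFinEquiv = Matrix.fromBlocks
      (B.submatrix (Fin.castAdd 5) (Fin.castAdd 5)) (B.submatrix (Fin.castAdd 5) (Fin.natAdd 3))
      (0 : Matrix (Fin 5) (Fin 3) A) (1 : Matrix (Fin 5) (Fin 5) A) := by
    ext r s
    rcases r with r | r <;> rcases s with s | s
    · rw [Matrix.fromBlocks_apply₁₁, Matrix.submatrix_apply, Matrix.submatrix_apply,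
        finSumFinEquiv_apply_left, finSumFinEquiv_apply_left]
    · rw [Matrix.fromBlocks_apply₁₂, Matrix.submatrix_apply, Matrix.submatrix_apply,
        finSumFinEquiv_apply_left, finSumFinEquiv_apply_right]
    · rw [Matrix.fromBlocks_apply₂₁, Matrix.submatrix_apply, finSumFinEquiv_apply_right,
        finSumFinEquiv_apply_left, hB, if_neg]
      · rfl
      · intro h
        have := congrArg Fin.val h
        simp only [Fin.val_natAdd, Fin.val_castAdd] at this
        omega
    · rw [Matrix.fromBlocks_apply₂₂, Matrix.submatrix_apply, finSumFinEquiv_apply_right,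
        finSumFinEquiv_apply_right, hB, Matrix.one_apply]
      refine if_congr ?_ rfl rfl
      constructor
      · intro h
        have := congrArg Fin.val h
        simp only [Fin.val_natAdd] at this
        exact Fin.ext (by omega)
      · rintro rfl
        rfl
  rw [h, Matrix.det_fromBlocks_zero₂₁, Matrix.det_one, mul_one]

/-- the rows `e_i, e_j, e_k, u` -/
def rw8 (i j k : Fin 8) (u : Fin 5 → Vec A) : Matrix (Fin 8) (Fin 8) A :=
  Fin.cons (Pi.single i 1) (Fin.cons (Pi.single j 1) (Fin.cons (Pi.single k 1) u))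

theorem vol3_rw8 (ω : Vec A [⋀^Fin 8]→ₗ[A] A) (i j k : Fin 8) (u : Fin 5 → Vec A) :
    vol3 ω i j k u = ω (rw8 i j k u) := rfl

/-- an `8`-form which transforms by the determinant -/
def DetF (ω : Vec A [⋀^Fin 8]→ₗ[A] A) : Prop :=
  ∀ B C : Matrix (Fin 8) (Fin 8) A, ω (B * C) = B.det * ω C

theorem detF_gen {κ : Type*} [Fintype κ] [DecidableEq κ] (B C : Matrix κ κ A) :
    (Matrix.detRowAlternating : (κ → A) [⋀^κ]→ₗ[A] A) (B * C) =
      B.det * (Matrix.detRowAlternating : (κ → A) [⋀^κ]→ₗ[A] A) C := Matrix.det_mul B C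

theorem row_mul (B C : Matrix (Fin 8) (Fin 8) A) (r : Fin 8) (i : Fin 8)
    (h : B r = Pi.single i 1) : (B * C) r = C i := by
  funext s
  rw [Matrix.mul_apply, h, Finset.sum_eq_single i]
  · simp
  · intro b _ hb
    simp [hb]
  · intro h
    exact absurd (Finset.mem_univ _) h

theorem det_rw8 (g h : Matrix (Fin 8) (Fin 8) A) (hgh : g * h = 1) (i j k : Fin 8) :
    (rw8 i j k (fun a => g (Fin.natAdd 3 a)) * h).det =
      h i 0 * h j 1 * h k 2 - h i 0 * h j 2 * h k 1 - h i 1 * h j 0 * h k 2 +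
        h i 1 * h j 2 * h k 0 + h i 2 * h j 0 * h k 1 - h i 2 * h j 1 * h k 0 := by
  have e0 : (rw8 i j k (fun a => g (Fin.natAdd 3 a)) * h) 0 = h i := row_mul _ _ _ _ rfl
  have e1 : (rw8 i j k (fun a => g (Fin.natAdd 3 a)) * h) 1 = h j := row_mul _ _ _ _ rfl
  have e2 : (rw8 i j k (fun a => g (Fin.natAdd 3 a)) * h) 2 = h k := row_mul _ _ _ _ rfl
  have hB : ∀ (a : Fin 5) (s : Fin (3 + 5)),
      (rw8 i j k (fun a => g (Fin.natAdd 3 a)) * h) (Fin.natAdd 3 a) s =
        if Fin.natAdd 3 a = s then 1 else 0 := by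
    intro a s
    have h1 : (rw8 i j k (fun a => g (Fin.natAdd 3 a)) * h) (Fin.natAdd 3 a) s =
        (g * h) (Fin.natAdd 3 a) s := by
      rw [Matrix.mul_apply, Matrix.mul_apply]
      refine Finset.sum_congr rfl fun m _ => ?_
      have h2 : rw8 i j k (fun a => g (Fin.natAdd 3 a)) (Fin.natAdd 3 a) = g (Fin.natAdd 3 a) := by
        have h3 : (Fin.natAdd 3 a : Fin 8) = Fin.succ (Fin.succ (Fin.succ a)) := by
          apply Fin.ext
          simp only [Fin.val_natAdd, Fin.val_succ]
          omega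
        rw [h3]
        unfold rw8
        rw [Fin.cons_succ, Fin.cons_succ, Fin.cons_succ, h3]
      rw [h2]
    rw [h1, hgh, Matrix.one_apply]
  have h4 := det_block _ hB
  rw [h4, Matrix.det_fin_three]
  simp only [Matrix.submatrix_apply]
  have c0 : (Fin.castAdd 5 (0 : Fin 3) : Fin (3 + 5)) = (0 : Fin 8) := rfl
  have c1 : (Fin.castAdd 5 (1 : Fin 3) : Fin (3 + 5)) = (1 : Fin 8) := rfl
  have c2 : (Fin.castAdd 5 (2 : Fin 3) : Fin (3 + 5)) = (2 : Fin 8) := rfl
  rw [c0, c1, c2, e0, e1, e2]

theorem sum_tri (x y z : Vec A) (c : A) :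
    ∑ i, ∑ j, ∑ k, (c * (x i * y j * z k)) • T i j k = c • tri x y z := by
  unfold tri
  simp only [Finset.smul_sum, smul_smul]

variable [Algebra ℚ A]

/-- **Decomposability** -/
theorem M5_dec {ω : Vec A [⋀^Fin 8]→ₗ[A] A} (hω : DetF ω) (g h : Matrix (Fin 8) (Fin 8) A)
    (hgh : g * h = 1) :
    M5 ω (fun a => g (Fin.natAdd 3 a)) =
      (-(ω g)) • tri (fun r => h r 0) (fun r => h r 1) (fun r => h r 2) := by
  have hhg : h * g = 1 := mul_eq_one_comm.mp hgh
  have key : ∀ i j k, vol3 ω i j k (fun a => g (Fin.natAdd 3 a)) = ω g *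
      (h i 0 * h j 1 * h k 2 - h i 0 * h j 2 * h k 1 - h i 1 * h j 0 * h k 2 +
        h i 1 * h j 2 * h k 0 + h i 2 * h j 0 * h k 1 - h i 2 * h j 1 * h k 0) := by
    intro i j k
    rw [vol3_rw8, ← det_rw8 g h hgh i j k, mul_comm (ω g), ← hω, Matrix.mul_assoc, hhg,
      Matrix.mul_one]
  set x : Vec A := fun r => h r 0 with hx
  set y : Vec A := fun r => h r 1 with hy
  set z : Vec A := fun r => h r 2 with hz
  have e : M5 ω (fun a => g (Fin.natAdd 3 a)) = (-(algebraMap ℚ A (1 / 6)) * ω g) •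
      (tri x y z - tri x z y - tri y x z + tri y z x + tri z x y - tri z y x) := by
    unfold M5
    simp only [key, tri, ← Finset.sum_sub_distrib, ← Finset.sum_add_distrib, ← sub_smul,
      ← add_smul, Finset.smul_sum, smul_smul]
    refine Finset.sum_congr rfl fun i _ => Finset.sum_congr rfl fun j _ =>
      Finset.sum_congr rfl fun k _ => ?_
    congr 1
    simp only [hx, hy, hz]
    ring
  have t1 : tri x z y = - tri x y z := tri_swap_right x z y
  have t2 : tri y x z = - tri x y z := tri_swap_left y x z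
  have t3 : tri y z x = tri x y z := by rw [tri_swap_right y z x, t2, neg_neg]
  have t4 : tri z x y = tri x y z := by rw [tri_swap_left z x y, t1, neg_neg]
  have t5 : tri z y x = - tri x y z := by rw [tri_swap_left z y x, t3]
  rw [e, t1, t2, t3, t4, t5]
  have t6 : tri x y z - -tri x y z - -tri x y z + tri x y z + tri x y z - -tri x y z =
      (6 : A) • tri x y z := by
    simp only [sub_neg_eq_add]
    have : (6 : A) = 1 + 1 + 1 + 1 + 1 + 1 := by norm_num
    rw [this]
    simp only [add_smul, one_smul]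
  rw [t6, smul_smul]
  congr 1
  have h6 : algebraMap ℚ A (1 / 6) * 6 = 1 := by
    rw [← map_ofNat (algebraMap ℚ A) 6, ← map_mul]
    norm_num
  linear_combination (-(ω g)) * h6

end Pool.Agent.Licci
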