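import Pool.Agent.Work.MP_a98e4e_ag.D.Drop

/-!
# LICCI, codimension 5 and 6: the descent from an extremal element with a unit coordinate (helper45)
-/

set_option linter.unusedSectionVars false

noncomputable section

namespace Pool.Agent.Licci

open scoped BigOperators
open IsLocalRing RingTheory.Sequence LicciCodimFour

section defs

variable {R : Type*} [CommRing R]

/-- the linear form in codimension `5` -/
def f5 (p : E8 R) : (Fin 7 → R) →ₗ[R] R := fv p ∘ₗ i7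

theorem f5_apply (p : E8 R) (v : Fin 7 → R) : f5 p v = fv p (i7 v) := rfl

/-- restriction of a `6`-form to codimension `5` -/
def res5 (ν : Vec R [⋀^Fin 6]→ₗ[R] R) : (Fin 7 → R) [⋀^Fin 5]→ₗ[R] R :=
  (cur1 (n := 5) ν (Pi.single 7 1)).compLinearMap i7

theorem res5_apply (ν : Vec R [⋀^Fin 6]→ₗ[R] R) (a : Fin 5 → Fin 7 → R) :
    res5 ν a = ν (Fin.cons (Pi.single 7 1) (fun r => i7 (a r))) := rfl

variable [Algebra ℚ R]

/-- the `5`-form in codimension `5` -/
def nu5 (ω : Vec R [⋀^Fin 8]→ₗ[R] R) (p : E8 R) : (Fin 7 → R) [⋀^Fin 5]→ₗ[R] R :=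
  res5 (nu6 ω p)

theorem nu5_apply (ω : Vec R [⋀^Fin 8]→ₗ[R] R) (p : E8 R) (a : Fin 5 → Fin 7 → R) :
    nu5 ω p a = nu6 ω p (Fin.cons (Pi.single 7 1) (fun r => i7 (a r))) := res5_apply _ a

end defs

universe u

variable {R : Type u} [CommRing R] [IsLocalRing R]

theorem infinite_residue [Algebra ℚ R] : Infinite (ResidueField R) :=
  Infinite.of_injective (algebraMap ℚ (ResidueField R)) (algebraMap ℚ (ResidueField R)).injective

theorem red_ne_zero {p : E8 R} (h : ∃ m, IsUnit (p m)) : red p ≠ 0 := by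
  obtain ⟨m, hm⟩ := h
  intro h0
  have h1 : residue R (p m) = 0 := congrFun h0 m
  rw [residue_eq_zero_iff, mem_maximalIdeal] at h1
  exact h1 hm

theorem tdeg_red_le {p : E8 R} (hI : ∀ i, p3 p i ∈ maximalIdeal R) : tdeg (red p) ≤ 5 := by
  by_contra hcon
  have h0 : red p ≠ 0 := by
    intro h
    apply hcon
    rw [h]
    unfold tdeg
    simp
  obtain ⟨m, hm, hd⟩ := exists_tdeg h0
  have h6 := tdeg_le (red p)
  have h1 : dgE m = 6 := by omega
  have h2 : zdg m = 3 := by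
    have := zdg_chk m
    unfold dgE at h1
    omega
  have h3 := (zdg_chk m).2.2.1 h2
  apply hm
  have h4 := hI ⟨m, h3⟩
  have h5 : ix ((⟨m, h3⟩ : Fin 8) : ℕ) = m := Fin.ext (ix_val m.2)
  unfold p3 at h4
  rw [h5] at h4
  exact (residue_eq_zero_iff _).mpr h4

theorem red_ex_ne_zero [Algebra ℚ R] (u : Fin 5 → Vec R) (t : R) {p : E8 R} (h : red p ≠ 0) :
    red (ex (t • M5 (dF R) u) p) ≠ 0 := by
  rw [red_ex5]
  intro h0
  apply h
  have h1 := (ex_isAut (M5_nil (dF (ResidueField R)) (fun a => red (u a)) (residue R t))).bij.1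
  apply h1
  rw [h0, map_zero]

variable [IsNoetherianRing R] [IsDomain R] [Algebra ℚ R]

theorem licci_six_aux (ω : Vec R [⋀^Fin 8]→ₗ[R] R) (hc : Cram ω)
    (hfv : ∀ (u : Fin 5 → Vec R) (t : R) (p : E8 R) (v : Vec R),
      fv (ex (t • M5 ω u) p) v = fv p v + t * nu6 ω p (Fin.snoc u v))
    (hnu : ∀ (u : Fin 5 → Vec R) (t : R) (p : E8 R) (w : Vec R),
      nu6 ω (ex (t • M5 ω u) p) (Fin.snoc u w) = nu6 ω p (Fin.snoc u w))
    (hrise : ∀ q : E8 R, red q ≠ 0 → tdeg (red q) ≤ 5 →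
      LicciD.GenN 5 fun a : Fin 5 → Fin 8 → R => GenS fun t : R =>
        tdeg (red q) < tdeg (red (ex (t • M5 ω a) q)))
    (hne : ∀ (u : Fin 5 → Vec R) (t : R) (q : E8 R), red q ≠ 0 → red (ex (t • M5 ω u) q) ≠ 0)
    (p : E8 R) (hext : Ext p) (hu : ∃ m, IsUnit (p m))
    (hI : ∀ v, fv p v ∈ maximalIdeal R) (a : Fin 6 → Vec R)
    (hreg : IsWeaklyRegular R (List.ofFn fun j => fv p (a j)))
    (h1 : ∀ y, y * nu6 ω p a ∈ Ideal.span (Set.range fun i => fv p (a i)) →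
      y ∈ LinearMap.range (fv p))
    (h2 : ∀ y, (∀ v, y * fv p v ∈ Ideal.span (Set.range fun i => fv p (a i))) →
      y ∈ Ideal.span (Set.range fun i => fv p (a i)) ⊔ Ideal.span {nu6 ω p a}) :
    IsLicci (LinearMap.range (fv p)) := by
  have := infinite_residue (R := R)
  refine LicciD.licci_of_descentC' (r := 5) (𝒮 := {p : E8 R // Ext p ∧ red p ≠ 0}) (M := ℕ)
    (fun s => fv s.1) (fun s => nu6 ω s.1)
    (fun s a v => nu6_cyc hc s.1 (fun i => s.2.1.om i) a v)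
    (fun s => 6 - tdeg (red s.1)) ?_ ⟨p, hext, red_ne_zero hu⟩ hI a hreg h1 h2
  rintro ⟨q, hq, hq0⟩ hm -
  have hd : tdeg (red q) ≤ 5 := tdeg_red_le fun i => by
    rw [← fv_single]
    exact hm _
  refine (hrise q hq0 hd).mono fun a ha => ha.mono fun t ht => ?_
  refine ⟨⟨ex (t • M5 ω a) q, hq.ex (M5_nil _ _ _), hne a t q hq0⟩, ?_, ?_, ?_⟩
  · exact fun v => hfv a t q v
  · exact fun w => hnu a t q w
  · have := tdeg_le (red (ex (t • M5 ω a) q))
    change 6 - tdeg (red (ex (t • M5 ω a) q)) < 6 - tdeg (red q)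
    omega

/-- **Descent in codimension six.** -/
theorem licci_six (p : E8 R) (hext : Ext p) (hu : ∃ m, IsUnit (p m))
    (hI : ∀ v, fv p v ∈ maximalIdeal R) (a : Fin 6 → Vec R)
    (hreg : IsWeaklyRegular R (List.ofFn fun j => fv p (a j)))
    (h1 : ∀ y, y * nu6 (dF R) p a ∈ Ideal.span (Set.range fun i => fv p (a i)) →
      y ∈ LinearMap.range (fv p))
    (h2 : ∀ y, (∀ v, y * fv p v ∈ Ideal.span (Set.range fun i => fv p (a i))) →
      y ∈ Ideal.span (Set.range fun i => fv p (a i)) ⊔ Ideal.span {nu6 (dF R) p a}) :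
    IsLicci (LinearMap.range (fv p)) :=
  licci_six_aux (dF R) cram_dF fv_move nu6_move gen_rise6
    (fun u t _ h => red_ex_ne_zero u t h) p hext hu hI a hreg h1 h2

/-! ### codimension five -/

set_option maxRecDepth 100000 in
theorem wt7_i1 : ∀ i j k : Fin 8, i ≠ 7 → j ≠ 7 → k ≠ 7 → ep3 i j k ≠ 0 →
    wtg 7 (i1 i j k) = 0 := by
  decide +kernel

theorem wt7_ix7 : wtg 7 (ix 7) ≠ 1 := by decide +kernel

theorem alt_eq_zero_of_mem {n : ℕ} {M N : Type*} [AddCommGroup M] [Module R M] [AddCommGroup N]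
    [Module R N] (ω : M [⋀^Fin n]→ₗ[R] N) (b : Fin n → M) (r s : Fin n) (hrs : r ≠ s)
    (h : b r = b s) : ω b = 0 := ω.map_eq_zero_of_eq b h hrs

theorem vol3_seven (ω : Vec R [⋀^Fin 8]→ₗ[R] R) (i j k : Fin 8) (u : Fin 4 → Vec R)
    (h : i = 7 ∨ j = 7 ∨ k = 7) : vol3 ω i j k (Fin.cons (Pi.single 7 1) u) = 0 := by
  rw [vol3_rw8]
  unfold rw8
  rcases h with rfl | rfl | rfl
  · exact alt_eq_zero_of_mem ω _ 0 3 (by decide) rfl
  · exact alt_eq_zero_of_mem ω _ 1 3 (by decide) rfl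
  · exact alt_eq_zero_of_mem ω _ 2 3 (by decide) rfl

theorem M5_wt (ω : Vec R [⋀^Fin 8]→ₗ[R] R) (u : Fin 4 → Vec R) (m : Fin 248)
    (hm : wtg 7 m ≠ 0) : M5 ω (Fin.cons (Pi.single 7 1) u) m = 0 := by
  refine sum_T_zero _ m fun i j k => ?_
  by_cases h : i = 7 ∨ j = 7 ∨ k = 7
  · left
    rw [vol3_seven _ i j k u h, mul_zero]
  · right
    push Not at h
    by_cases h3 : ep3 i j k = 0
    · unfold T
      rw [h3]
      simp
    · unfold T
      rw [Pi.smul_apply, eb_apply, if_neg, smul_zero]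
      rintro rfl
      exact hm (wt7_i1 i j k h.1 h.2.1 h.2.2 h3)

theorem ex_wt {M p : E8 R} (hM : ∀ m, wtg 7 m ≠ 0 → M m = 0) (hp : ∀ m, wtg 7 m ≠ 1 → p m = 0)
    (m : Fin 248) (hm : wtg 7 m ≠ 1) : ex M p m = 0 := by
  have hM' : U.Sup (wtg 7) 0 M := hM
  have hpow : ∀ n : ℕ, U.Sup (wtg 7) 1 (((brL M) ^ n) p) := by
    intro n
    induction n with
    | zero => exact hp
    | succ n ih =>
      rw [pow_succ']
      have h := Sup.br (d := wtg 7) (fun i j k h => sc_wtg 7 h) hM' ih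
      rw [zero_add] at h
      exact h
  rw [ex_apply, Finset.sum_apply]
  refine Finset.sum_eq_zero fun n _ => ?_
  rw [Pi.smul_apply, hpow n m hm, smul_zero]

theorem i7_snoc (a : Fin 4 → Fin 7 → R) (v : Fin 7 → R) :
    (Fin.cons (Pi.single 7 1) (fun r => i7 ((Fin.snoc a v : Fin 5 → Fin 7 → R) r)) :
      Fin 6 → Vec R) =
      Fin.snoc (Fin.cons (Pi.single 7 1) (fun r => i7 (a r)) : Fin 5 → Vec R) (i7 v) := by
  have h1 : (fun r => i7 ((Fin.snoc a v : Fin 5 → Fin 7 → R) r)) =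
      (Fin.snoc (fun r => i7 (a r)) (i7 v) : Fin 5 → Vec R) := by
    funext r
    refine Fin.lastCases ?_ (fun r => ?_) r
    · rw [Fin.snoc_last, Fin.snoc_last]
    · rw [Fin.snoc_castSucc, Fin.snoc_castSucc]
  rw [h1]
  exact Fin.cons_snoc_eq_snoc_cons _ _ _

theorem nu5_cyc {ω : Vec R [⋀^Fin 8]→ₗ[R] R} (hc : Cram ω) (p : E8 R)
    (hp : ∀ i, ∑ s, w2 p s i * p3 p s = 0)
    (hw : ∀ m, wtg 7 m ≠ 1 → p m = 0) (a : Fin 5 → Fin 7 → R) (v : Fin 7 → R) :
    ∑ j, f5 p (a j) * nu5 ω p (Function.update a j v) = f5 p v * nu5 ω p a := by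
  have h := nu6_cyc hc p hp (Fin.cons (Pi.single 7 1) (fun r => i7 (a r))) (i7 v)
  rw [Fin.sum_univ_succ] at h
  have h0 : fv p (Pi.single 7 1) = 0 := by
    rw [fv_single]
    exact hw _ wt7_ix7
  simp only [Fin.cons_zero, Fin.cons_succ, h0, zero_mul, zero_add, ← Fin.cons_update] at h
  rw [f5_apply, nu5_apply, ← h]
  refine Finset.sum_congr rfl fun j _ => ?_
  rw [f5_apply, nu5_apply]
  congr 2
  funext r
  refine Fin.cases ?_ (fun r => ?_) r
  · rfl
  · rw [Fin.cons_succ, Fin.cons_succ]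
    by_cases hr : r = j
    · subst hr
      rw [Function.update_self, Function.update_self]
    · rw [Function.update_of_ne hr, Function.update_of_ne hr]

theorem licci_five_aux (ω : Vec R [⋀^Fin 8]→ₗ[R] R) (hc : Cram ω)
    (hfv : ∀ (u : Fin 5 → Vec R) (t : R) (p : E8 R) (v : Vec R),
      fv (ex (t • M5 ω u) p) v = fv p v + t * nu6 ω p (Fin.snoc u v))
    (hnu : ∀ (u : Fin 5 → Vec R) (t : R) (p : E8 R) (w : Vec R),
      nu6 ω (ex (t • M5 ω u) p) (Fin.snoc u w) = nu6 ω p (Fin.snoc u w))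
    (hrise : ∀ q : E8 R, red q ≠ 0 → tdeg (red q) ≤ 5 → (∀ m, wtg 7 m ≠ 1 → q m = 0) →
      LicciD.GenN 4 fun a : Fin 4 → Fin 7 → R => GenS fun t : R =>
        tdeg (red q) < tdeg (red (ex (t • M5 ω
          (Fin.cons (Pi.single 7 1) (fun r => i7 (a r)))) q)))
    (hne : ∀ (u : Fin 5 → Vec R) (t : R) (q : E8 R), red q ≠ 0 → red (ex (t • M5 ω u) q) ≠ 0)
    (p : E8 R) (hext : Ext p) (hu : ∃ m, IsUnit (p m))
    (hw : ∀ m, wtg 7 m ≠ 1 → p m = 0)
    (hI : ∀ v, f5 p v ∈ maximalIdeal R) (a : Fin 5 → Fin 7 → R)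
    (hreg : IsWeaklyRegular R (List.ofFn fun j => f5 p (a j)))
    (h1 : ∀ y, y * nu5 ω p a ∈ Ideal.span (Set.range fun i => f5 p (a i)) →
      y ∈ LinearMap.range (f5 p))
    (h2 : ∀ y, (∀ v, y * f5 p v ∈ Ideal.span (Set.range fun i => f5 p (a i))) →
      y ∈ Ideal.span (Set.range fun i => f5 p (a i)) ⊔ Ideal.span {nu5 ω p a}) :
    IsLicci (LinearMap.range (f5 p)) := by
  have := infinite_residue (R := R)
  refine LicciD.licci_of_descentC' (r := 4)
    (𝒮 := {p : E8 R // Ext p ∧ red p ≠ 0 ∧ ∀ m, wtg 7 m ≠ 1 → p m = 0}) (M := ℕ)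
    (fun s => f5 s.1) (fun s => nu5 ω s.1)
    (fun s a v => nu5_cyc hc s.1 (fun i => s.2.1.om i) s.2.2.2 a v)
    (fun s => 6 - tdeg (red s.1)) ?_ ⟨p, hext, red_ne_zero hu, hw⟩ hI a hreg h1 h2
  rintro ⟨q, hq, hq0, hqw⟩ hm -
  have hd : tdeg (red q) ≤ 5 := tdeg_red_le fun i => by
    by_cases hi : i = 7
    · subst hi
      have h7 : p3 q 7 = 0 := hqw _ wt7_ix7
      rw [h7]
      exact Ideal.zero_mem _
    · have hlt : (i : ℕ) < 7 := by
        by_contra hcon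
        apply hi
        apply Fin.ext
        have := i.2
        change (i : ℕ) = 7
        omega
      have h3 := hm (Pi.single ⟨i, hlt⟩ 1)
      change fv q (i7 (Pi.single ⟨i, hlt⟩ 1)) ∈ maximalIdeal R at h3
      have h4 : i7 (Pi.single (⟨i, hlt⟩ : Fin 7) (1 : R)) = Pi.single i 1 := by
        funext m
        rw [i7_apply]
        refine Fin.lastCases ?_ (fun m => ?_) m
        · rw [Fin.snoc_last, Pi.single_eq_of_ne]
          intro h6
          apply hi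
          rw [← h6]
          rfl
        · rw [Fin.snoc_castSucc, Pi.single_apply, Pi.single_apply]
          refine if_congr ?_ rfl rfl
          rw [Fin.ext_iff, Fin.ext_iff]
          rfl
      rw [h4, fv_single] at h3
      exact h3
  refine (hrise q hq0 hd hqw).mono fun a ha => ha.mono fun t ht => ?_
  refine ⟨⟨ex (t • M5 ω (Fin.cons (Pi.single 7 1) (fun r => i7 (a r)))) q,
    hq.ex (M5_nil _ _ _), hne _ t q hq0, ?_⟩, ?_, ?_, ?_⟩
  · intro m hm
    refine ex_wt ?_ hqw m hm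
    intro m hm
    rw [Pi.smul_apply, M5_wt ω _ m hm, smul_zero]
  · intro v
    change fv _ (i7 v) = fv q (i7 v) + t * nu5 ω q (Fin.snoc a v)
    rw [hfv, nu5_apply, i7_snoc]
  · intro w
    change nu5 ω _ (Fin.snoc a w) = nu5 ω q (Fin.snoc a w)
    rw [nu5_apply, nu5_apply, i7_snoc]
    exact hnu _ t q _
  · have := tdeg_le (red (ex (t • M5 ω (Fin.cons (Pi.single 7 1) (fun r => i7 (a r)))) q))
    change 6 - tdeg (red (ex (t • M5 ω (Fin.cons (Pi.single 7 1) (fun r => i7 (a r)))) q)) <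
      6 - tdeg (red q)
    omega

/-- **Descent in codimension five.** -/
theorem licci_five (p : E8 R) (hext : Ext p) (hu : ∃ m, IsUnit (p m))
    (hw : ∀ m, wtg 7 m ≠ 1 → p m = 0)
    (hI : ∀ v, f5 p v ∈ maximalIdeal R) (a : Fin 5 → Fin 7 → R)
    (hreg : IsWeaklyRegular R (List.ofFn fun j => f5 p (a j)))
    (h1 : ∀ y, y * nu5 (dF R) p a ∈ Ideal.span (Set.range fun i => f5 p (a i)) →
      y ∈ LinearMap.range (f5 p))
    (h2 : ∀ y, (∀ v, y * f5 p v ∈ Ideal.span (Set.range fun i => f5 p (a i))) →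
      y ∈ Ideal.span (Set.range fun i => f5 p (a i)) ⊔ Ideal.span {nu5 (dF R) p a}) :
    IsLicci (LinearMap.range (f5 p)) :=
  licci_five_aux (dF R) cram_dF fv_move nu6_move gen_rise5
    (fun u t _ h => red_ex_ne_zero u t h) p hext hu hw hI a hreg h1 h2

end Pool.Agent.Licci
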