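import Pool.Agent.Work.MP_a98e4e_ag.D.LinkStepC

/-!
MP_a98e4e_ag (licci, any codimension `r + 1`), module DS2c (helper43): the abstract descent.
States with moves `f ↦ f + t ν(a, ·)` (`a` an `r`-tuple), a measure which drops for general
`a`, `t`.
-/

set_option autoImplicit false

noncomputable section

namespace LicciD

open IsLocalRing RingTheory.Sequence Pool.Agent.Licci LicciCodimFour

section gen

universe u

variable {R : Type u} [CommRing R] [IsLocalRing R] {ι : Type*}

/-- `Q a` holds for general tuples `a`: for general `a 0`, then for general `a 1`, and so on. -/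
def GenN : (n : ℕ) → ((Fin n → ι → R) → Prop) → Prop
  | 0, Q => Q Fin.elim0
  | n + 1, Q => Gen1 fun x => GenN n fun a => Q (Fin.cons x a)

lemma GenN.mono {n : ℕ} {Q Q' : (Fin n → ι → R) → Prop} (h : GenN n Q) (hQ : ∀ a, Q a → Q' a) :
    GenN n Q' := by
  induction n with
  | zero => exact hQ _ h
  | succ n ih => exact Gen1.mono h fun x hx => ih hx fun a ha => hQ _ ha

lemma GenN.and {n : ℕ} {Q Q' : (Fin n → ι → R) → Prop} (h : GenN n Q) (h' : GenN n Q') :
    GenN n fun a => Q a ∧ Q' a := by
  induction n with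
  | zero => exact ⟨h, h'⟩
  | succ n ih => exact (Gen1.and h h').mono fun x hx => ih hx.1 hx.2

lemma GenN.of_forall {n : ℕ} {Q : (Fin n → ι → R) → Prop} (h : ∀ a, Q a) : GenN n Q := by
  induction n with
  | zero => exact h _
  | succ n ih => exact Gen1.of_forall fun x => ih fun a => h _

lemma GenN.exists [Infinite (ResidueField R)] [Finite ι] {n : ℕ} {Q : (Fin n → ι → R) → Prop}
    (h : GenN n Q) : ∃ a, Q a := by
  induction n with
  | zero => exact ⟨_, h⟩
  | succ n ih =>
    obtain ⟨x, hx⟩ := Gen1.exists h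
    obtain ⟨a, ha⟩ := ih hx
    exact ⟨_, ha⟩

/-- one tuple which is general at every coordinate -/
lemma GenN.of_forall_gen1 {n : ℕ} {Q : (ι → R) → Prop} (h : Gen1 Q) :
    GenN n fun a => ∀ i, Q (a i) := by
  induction n with
  | zero => intro i; exact i.elim0
  | succ n ih =>
    refine Gen1.mono h fun x hx => ih.mono fun a ha i => ?_
    refine Fin.cases ?_ (fun i => ?_) i
    · simpa using hx
    · simpa using ha i

/-- if a multilinear map to `R` has a unit value, its values at general tuples are units -/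
lemma gen_multi_unit [Finite ι] {n : ℕ} (g : MultilinearMap R (fun _ : Fin n => ι → R) R)
    (h : ∃ a, IsUnit (g a)) : GenN n fun a => IsUnit (g a) := by
  classical
  induction n with
  | zero =>
    obtain ⟨a, ha⟩ := h
    change IsUnit (g Fin.elim0)
    rwa [Subsingleton.elim Fin.elim0 a]
  | succ n ih =>
    let N : Submodule R (ι → R) :=
      { carrier := {x | ∀ a : Fin n → ι → R, g (Fin.cons x a) ∈ maximalIdeal R}
        zero_mem' := fun a => by
          rw [g.map_coord_zero 0 (by simp)]; exact Ideal.zero_mem _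
        add_mem' := fun {x y} hx hy a => by
          rw [g.cons_add]; exact Ideal.add_mem _ (hx a) (hy a)
        smul_mem' := fun t x hx a => by
          rw [g.cons_smul]; exact Ideal.mul_mem_left _ _ (hx a) }
    have hN : N ≠ ⊤ := by
      intro htop
      obtain ⟨a, ha⟩ := h
      have h1 : a 0 ∈ N := by rw [htop]; trivial
      have h2 := h1 (Fin.tail a)
      rw [Fin.cons_self_tail] at h2
      exact (IsLocalRing.mem_maximalIdeal _).mp h2 ha
    refine (Gen1.notMem hN).mono fun x hx => ?_
    have hx' : ∃ a : Fin n → ι → R, IsUnit (g.curryLeft x a) := by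
      by_contra hcon
      push Not at hcon
      exact hx fun a => (IsLocalRing.mem_maximalIdeal _).mpr (hcon a)
    exact ih (g.curryLeft x) hx'

/-- an alternating form with a unit value takes unit values at general tuples -/
lemma gen_form_unit [Finite ι] {n : ℕ} (ω : (ι → R) [⋀^Fin n]→ₗ[R] R) (h : ∃ a, IsUnit (ω a)) :
    GenN n fun a => IsUnit (ω a) := gen_multi_unit ω.toMultilinearMap h

/-- a nonzero multilinear map over the residue field does not vanish at general tuples -/
lemma GenN.of_residue {n : ℕ} {V : Type*} [AddCommGroup V] [Module (ResidueField R) V]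
    (g : MultilinearMap (ResidueField R) (fun _ : Fin n => ι → ResidueField R) V) (h : g ≠ 0) :
    GenN n fun a : Fin n → ι → R => g (fun i => red (a i)) ≠ 0 := by
  classical
  induction n with
  | zero =>
    intro h0
    apply h
    ext a
    rw [Subsingleton.elim a fun i => red ((Fin.elim0 : Fin 0 → ι → R) i)]
    exact h0
  | succ n ih =>
    have hc : g.curryLeft ≠ 0 := by
      intro h0
      apply h
      ext a
      have h1 := congrFun (congrArg (fun u => (u : (ι → ResidueField R) → _)) (congrArg DFunLike.coe h0)) (a 0)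
      have h2 := congrArg (fun u => u (Fin.tail a)) h1
      simpa using h2
    refine (Gen1.of_residue g.curryLeft hc).mono fun x hx => ?_
    refine (ih (g.curryLeft (red x)) hx).mono fun a ha h0 => ha ?_
    rw [MultilinearMap.curryLeft_apply, ← h0]
    congr 1
    funext i
    refine Fin.cases ?_ (fun i => ?_) i <;> simp

end gen

section descent

universe u

variable {R : Type u} [CommRing R] [IsLocalRing R] [IsNoetherianRing R]
variable {ι : Type*} [Fintype ι]

/-- general combinations are regular sequences, up to the grade -/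
lemma gen_wr [Infinite (ResidueField R)] (f : (ι → R) →ₗ[R] R)
    (hI : ∀ v, f v ∈ maximalIdeal R) {r : ℕ}
    (hgr : ∃ rs : List R, rs.length = r ∧ (∀ y ∈ rs, y ∈ LinearMap.range f) ∧ IsRegular R rs)
    (n : ℕ) (α : List R) (hα : α.length + n ≤ r) (hαI : ∀ y ∈ α, y ∈ LinearMap.range f)
    (hαreg : IsWeaklyRegular R α) :
    GenN n fun a : Fin n → ι → R => IsWeaklyRegular R (α ++ lst f a) := by
  induction n generalizing α with
  | zero =>
    change IsWeaklyRegular R (α ++ lst f Fin.elim0)
    have : lst f (Fin.elim0 : Fin 0 → ι → R) = [] := by simp [lst]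
    rwa [this, List.append_nil]
  | succ n ih =>
    refine (gen_regular f hI hgr α (by omega) hαI hαreg).mono fun x hx => ?_
    refine (ih (α ++ [f x]) (by simp; omega) ?_ hx).mono fun a ha => ?_
    · intro y hy
      rcases List.mem_append.mp hy with hy | hy
      · exact hαI y hy
      · rw [List.mem_singleton] at hy
        exact ⟨x, hy.symm⟩
    · change IsWeaklyRegular R (α ++ lst f (Fin.cons x a : Fin (n + 1) → ι → R))
      rw [lst_cons]
      rwa [List.append_assoc, List.singleton_append] at ha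

/-- general tuples are regular sequences -/
lemma gen_tuple [Infinite (ResidueField R)] (f : (ι → R) →ₗ[R] R)
    (hI : ∀ v, f v ∈ maximalIdeal R) {r : ℕ}
    (hgr : ∃ rs : List R, rs.length = r ∧ (∀ y ∈ rs, y ∈ LinearMap.range f) ∧ IsRegular R rs)
    (n : ℕ) (hn : n ≤ r) :
    GenN n fun a : Fin n → ι → R => IsWeaklyRegular R (lst f a) := by
  have h := gen_wr f hI hgr n [] (by simpa using hn) (by simp) (IsWeaklyRegular.nil R R)
  exact h.mono fun a ha => by simpa using ha

/-- **Abstract descent**, in codimension `r + 1`. The states are pairs `(f, ν)` with `f ∧ ν = 0`;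
for a general `r`-tuple `a` and general `t` there is a state `s'` with `f' = f + t ν(a, ·)`,
`ν'(a, ·) = ν(a, ·)` and smaller measure. Then the ideal of a state, which has grade `r + 1` and
satisfies the two colon identities for one regular sequence, is licci. The step may assume that
the ideal is proper and has grade `r + 1`. -/
theorem licci_of_descentC [Infinite (ResidueField R)] {r : ℕ} {𝒮 : Type*}
    {M : Type*} [Preorder M] [WellFoundedLT M]
    (f : 𝒮 → (ι → R) →ₗ[R] R)
    (ν : 𝒮 → (ι → R) [⋀^Fin (r + 1)]→ₗ[R] R) (hcyc : ∀ s, Cyc (f s) (ν s))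
    (μ : 𝒮 → M)
    (hdesc : ∀ s, (∀ v, f s v ∈ maximalIdeal R) →
      (∃ rs : List R, rs.length = r + 1 ∧ (∀ y ∈ rs, y ∈ LinearMap.range (f s)) ∧
        IsRegular R rs) →
      (∃ a, IsUnit (ν s a)) ∨ GenN r fun a => GenS fun t => ∃ s',
        f s' = stepf (f s) (ν s) a t ∧
          (∀ w, ν s' (Fin.snoc a w) = ν s (Fin.snoc a w)) ∧ μ s' < μ s)
    (s : 𝒮) (hI : ∀ v, f s v ∈ maximalIdeal R)
    (hgood : ∃ a : Fin (r + 1) → ι → R, IsWeaklyRegular R (lst (f s) a) ∧ Good (f s) (ν s) a) :
    IsLicci (LinearMap.range (f s)) := by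
  induction hn : μ s using WellFoundedLT.induction generalizing s with
  | _ n ih =>
  subst hn
  obtain ⟨a₀, ha, hg⟩ := hgood
  have hgr : ∃ rs : List R, rs.length = r + 1 ∧ (∀ y ∈ rs, y ∈ LinearMap.range (f s)) ∧
      IsRegular R rs := by
    refine ⟨lst (f s) a₀, by simp, ?_, isRegular_lst hI ha⟩
    intro x hx
    obtain ⟨i, rfl⟩ := mem_lst.mp hx
    exact ⟨_, rfl⟩
  rcases hdesc s hI hgr with hu | hd
  · obtain ⟨a, ha1, ha2⟩ := ((gen_tuple (f s) hI hgr (r + 1) le_rfl).and
      (gen_form_unit (ν s) hu)).exists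
    exact licci_of_form_unit (hcyc s) (isRegular_lst hI ha1) ha2
  obtain ⟨a, haw, had⟩ := ((gen_tuple (f s) hI hgr r (by omega)).and hd).exists
  obtain ⟨w, hw⟩ := (gen_regular (f s) hI hgr (lst (f s) a) (by simp)
    (fun y hy => by obtain ⟨i, rfl⟩ := mem_lst.mp hy; exact ⟨_, rfl⟩) haw).exists
  have hG : Good (f s) (ν s) (Fin.snoc a w) :=
    hg.transfer (f s) hI (hcyc s) ha (by rwa [lst_snoc])
  obtain ⟨t, ht1, s', hmv, hν, ht2⟩ := ((genS_regular (lst (f s) a) (f s w)
    (ν s (Fin.snoc a w)) hw).and had).exists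
  by_cases hm : ∀ v, f s' v ∈ maximalIdeal R
  · have hstep := hG.step (t := t) (ω' := ν s') (hcyc s) hw ht1 (hν w)
    rw [← hmv] at hstep
    have hreg' : IsWeaklyRegular R (lst (f s') (Fin.snoc a w : Fin (r + 1) → ι → R)) := by
      rw [hmv, lst_stepf_snoc]
      exact ht1
    have hL := ih (μ s') ht2 s' hm ⟨Fin.snoc a w, hreg', hstep⟩ rfl
    rw [hmv] at hL
    refine licci_of_step (ω' := ν s') (hcyc s) hI hw ht1 hG ?_ ?_ (hν w) hL
    · intro v; rw [← hmv]; exact hm v
    · rw [← hmv]; exact hcyc _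
  · push Not at hm
    obtain ⟨v, hv⟩ := hm
    refine licci_of_unit (hcyc s) hI hw ht1 hG ⟨v, ?_⟩
    rw [← hmv]
    by_contra hcon
    exact hv ((IsLocalRing.mem_maximalIdeal _).mpr hcon)

/-- the ideal of a tuple, as the span of the range -/
lemma ofList_lst_eq {R : Type*} [CommRing R] {P : Type*} [AddCommGroup P] [Module R P]
    (f : P →ₗ[R] R) {n : ℕ} (a : Fin n → P) :
    Ideal.ofList (lst f a) = Ideal.span (Set.range fun i => f (a i)) := by
  rw [Ideal.ofList]
  congr 1
  ext x
  exact mem_lst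

lemma good_iff {R : Type*} [CommRing R] {P : Type*} [AddCommGroup P] [Module R P] {r : ℕ}
    (f : P →ₗ[R] R) (ω : P [⋀^Fin (r + 1)]→ₗ[R] R) (a : Fin (r + 1) → P) :
    Good f ω a ↔
      (∀ y, y * ω a ∈ Ideal.span (Set.range fun i => f (a i)) → y ∈ LinearMap.range f) ∧
      (∀ y, (∀ v, y * f v ∈ Ideal.span (Set.range fun i => f (a i))) →
        y ∈ Ideal.span (Set.range fun i => f (a i)) ⊔ Ideal.span {ω a}) := by
  rw [Good, ofList_lst_eq]

/-- the abstract descent, with the steps given by values, in terms of `List.ofFn` and spans -/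
theorem licci_of_descentC' [Infinite (ResidueField R)] {r : ℕ} {𝒮 : Type*}
    {M : Type*} [Preorder M] [WellFoundedLT M]
    (f : 𝒮 → (ι → R) →ₗ[R] R)
    (ν : 𝒮 → (ι → R) [⋀^Fin (r + 1)]→ₗ[R] R)
    (hcyc : ∀ s (a : Fin (r + 1) → ι → R) v,
      ∑ j, f s (a j) * ν s (Function.update a j v) = f s v * ν s a)
    (μ : 𝒮 → M)
    (hstep : ∀ s, (∀ v, f s v ∈ maximalIdeal R) →
      (∃ rs : List R, rs.length = r + 1 ∧ (∀ y ∈ rs, y ∈ LinearMap.range (f s)) ∧
        IsRegular R rs) →
      GenN r fun a => GenS fun t => ∃ s',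
        (∀ v, f s' v = f s v + t * ν s (Fin.snoc a v)) ∧
          (∀ w, ν s' (Fin.snoc a w) = ν s (Fin.snoc a w)) ∧ μ s' < μ s)
    (s : 𝒮) (hI : ∀ v, f s v ∈ maximalIdeal R) (a : Fin (r + 1) → ι → R)
    (hreg : IsWeaklyRegular R (List.ofFn fun j => f s (a j)))
    (h1 : ∀ y, y * ν s a ∈ Ideal.span (Set.range fun i => f s (a i)) →
      y ∈ LinearMap.range (f s))
    (h2 : ∀ y, (∀ v, y * f s v ∈ Ideal.span (Set.range fun i => f s (a i))) →
      y ∈ Ideal.span (Set.range fun i => f s (a i)) ⊔ Ideal.span {ν s a}) :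
    IsLicci (LinearMap.range (f s)) := by
  refine licci_of_descentC f ν hcyc μ (fun s hs hg => Or.inr ?_) s hI
    ⟨a, hreg, (good_iff _ _ _).mpr ⟨h1, h2⟩⟩
  refine (hstep s hs hg).mono fun a ha => ha.mono fun t ht => ?_
  obtain ⟨s', h1, h2, h3⟩ := ht
  exact ⟨s', LinearMap.ext fun v => by rw [h1, stepf_apply], h2, h3⟩

end descent

end LicciD
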