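import Pool.Agent.Work.MP_a98e4e_ag.D.Base

/-!
# Reduction of alternating forms modulo an element
-/

set_option autoImplicit false

namespace LicciCodimFour

universe u

variable {R S : Type u} [CommRing R] [CommRing S] (π : R →+* S)

section red

variable {N N' : Type*} [AddCommGroup N] [Module R N] [AddCommGroup N'] [Module S N']
  (q : N →ₛₗ[π] N') {c k : ℕ}

/-- the values of the reduced form -/
def redAltFun (ω : (Fin c → R) [⋀^Fin k]→ₗ[R] N) (v : Fin k → Fin c → S) : N' :=
  ∑ r : Fin k → Fin c, (∏ i, v i (r i)) • q (ω fun i => Pi.single (r i) 1)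

theorem redAltFun_apply (ω : (Fin c → R) [⋀^Fin k]→ₗ[R] N) (v : Fin k → Fin c → R) :
    redAltFun π q ω (fun i => bcv π (v i)) = q (ω v) := by
  have h1 : v = fun i => ∑ j, v i j • (Pi.single j 1 : Fin c → R) := by
    funext i
    exact pi_eq_sum_univ' (v i)
  have h2 : ω v = ∑ r : Fin k → Fin c, (∏ i, v i (r i)) • ω fun i => Pi.single (r i) 1 := by
    conv_lhs => rw [h1]
    have h3 := MultilinearMap.map_sum ω.toMultilinearMap
      (fun (i : Fin k) (j : Fin c) => v i j • (Pi.single j 1 : Fin c → R))
    refine h3.trans (Finset.sum_congr rfl fun r _ => ?_)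
    exact MultilinearMap.map_smul_univ ω.toMultilinearMap (fun i => v i (r i))
      (fun i => (Pi.single (r i) 1 : Fin c → R))
  rw [h2, map_sum]
  refine Finset.sum_congr rfl fun r _ => ?_
  rw [LinearMap.map_smulₛₗ, map_prod]
  rfl

theorem bcv_update [DecidableEq (Fin k)] {v : Fin k → Fin c → R} (i : Fin k) (w : Fin c → R) :
    (fun j => bcv π (Function.update v i w j)) =
      Function.update (fun j => bcv π (v j)) i (bcv π w) := by
  funext j
  by_cases h : j = i
  · subst h
    simp
  · simp [Function.update_of_ne h]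

/-- the reduced form -/
def redAlt (hπ : Function.Surjective π) (ω : (Fin c → R) [⋀^Fin k]→ₗ[R] N) :
    (Fin c → S) [⋀^Fin k]→ₗ[S] N' where
  toFun := redAltFun π q ω
  map_update_add' := by
    intro _ v i x y
    obtain ⟨v, rfl⟩ : ∃ w : Fin k → Fin c → R, (fun j => bcv π (w j)) = v := by
      choose w hw using fun j => bcv_surjective π hπ (v j)
      exact ⟨w, funext hw⟩
    obtain ⟨x, rfl⟩ := bcv_surjective π hπ x
    obtain ⟨y, rfl⟩ := bcv_surjective π hπ y
    have h1 : ∀ z : Fin c → R, redAltFun π q ω (Function.update (fun j => bcv π (v j)) i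
        (bcv π z)) = q (ω (Function.update v i z)) := by
      intro z
      rw [← bcv_update, redAltFun_apply]
    have h2 := h1 (x + y)
    rw [map_add] at h2
    rw [h2, h1, h1, ω.map_update_add, map_add]
  map_update_smul' := by
    intro _ v i r x
    obtain ⟨v, rfl⟩ : ∃ w : Fin k → Fin c → R, (fun j => bcv π (w j)) = v := by
      choose w hw using fun j => bcv_surjective π hπ (v j)
      exact ⟨w, funext hw⟩
    obtain ⟨x, rfl⟩ := bcv_surjective π hπ x
    obtain ⟨r, rfl⟩ := hπ r
    have h1 : ∀ z : Fin c → R, redAltFun π q ω (Function.update (fun j => bcv π (v j)) i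
        (bcv π z)) = q (ω (Function.update v i z)) := by
      intro z
      rw [← bcv_update, redAltFun_apply]
    have h2 := h1 (r • x)
    rw [bcv_smul] at h2
    rw [h2, h1, ω.map_update_smul, LinearMap.map_smulₛₗ]
  map_eq_zero_of_eq' := by
    intro v i j hij hne
    classical
    choose w hw using fun j => bcv_surjective π hπ (v j)
    have h1 : v = fun l => bcv π (Function.update w j (w i) l) := by
      funext l
      by_cases h : l = j
      · subst h
        rw [Function.update_self, hw, hij]
      · rw [Function.update_of_ne h, hw]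
    rw [h1, redAltFun_apply]
    have h2 : ω (Function.update w j (w i)) = 0 := by
      refine ω.map_eq_zero_of_eq _ (i := i) (j := j) ?_ hne
      rw [Function.update_self, Function.update_of_ne hne]
    rw [h2, map_zero]

theorem redAlt_apply (hπ : Function.Surjective π) (ω : (Fin c → R) [⋀^Fin k]→ₗ[R] N)
    (v : Fin k → Fin c → R) : redAlt π q hπ ω (fun i => bcv π (v i)) = q (ω v) :=
  redAltFun_apply π q ω v

theorem redAlt_ext (hπ : Function.Surjective π) {α β : (Fin c → S) [⋀^Fin k]→ₗ[S] N'}
    (h : ∀ v : Fin k → Fin c → R, α (fun i => bcv π (v i)) = β (fun i => bcv π (v i))) :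
    α = β := by
  ext v
  choose w hw using fun j => bcv_surjective π hπ (v j)
  have h1 : v = fun l => bcv π (w l) := funext fun l => (hw l).symm
  rw [h1]
  exact h w

theorem redAlt_add (hπ : Function.Surjective π) (ω η : (Fin c → R) [⋀^Fin k]→ₗ[R] N) :
    redAlt π q hπ (ω + η) = redAlt π q hπ ω + redAlt π q hπ η := by
  refine redAlt_ext π hπ fun v => ?_
  rw [redAlt_apply, AlternatingMap.add_apply, AlternatingMap.add_apply, redAlt_apply,
    redAlt_apply, map_add]

theorem redAlt_smul (hπ : Function.Surjective π) (r : R) (ω : (Fin c → R) [⋀^Fin k]→ₗ[R] N) :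
    redAlt π q hπ (r • ω) = π r • redAlt π q hπ ω := by
  refine redAlt_ext π hπ fun v => ?_
  rw [redAlt_apply, AlternatingMap.smul_apply, AlternatingMap.smul_apply, redAlt_apply,
    LinearMap.map_smulₛₗ]

/-- reduction of alternating maps as a semilinear map -/
def redAltL (hπ : Function.Surjective π) (c k : ℕ) :
    ((Fin c → R) [⋀^Fin k]→ₗ[R] N) →ₛₗ[π] ((Fin c → S) [⋀^Fin k]→ₗ[S] N') where
  toFun := redAlt π q hπ
  map_add' := redAlt_add π q hπ
  map_smul' := redAlt_smul π q hπ

theorem redAltL_apply (hπ : Function.Surjective π) (ω : (Fin c → R) [⋀^Fin k]→ₗ[R] N)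
    (v : Fin k → Fin c → R) : redAltL π q hπ c k ω (fun i => bcv π (v i)) = q (ω v) :=
  redAltFun_apply π q ω v

end red

section surj

variable {c k : ℕ}

/-- an alternating form with given values on increasing families of basis vectors -/
theorem exists_alt_values {N : Type*} [AddCommGroup N] [Module R N]
    (g : Set.powersetCard (Fin c) k → N) :
    ∃ ω : (Fin c → R) [⋀^Fin k]→ₗ[R] N, ∀ s : Set.powersetCard (Fin c) k,
      ω (fun i => Pi.single (Set.powersetCard.ofFinEmbEquiv.symm s i) 1) = g s := by
  classical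
  let b := (Pi.basisFun R (Fin c)).exteriorPower k
  refine ⟨exteriorPower.alternatingMapLinearEquiv.symm (b.constr R g), fun s => ?_⟩
  rw [exteriorPower.alternatingMapLinearEquiv_symm_apply]
  have h1 : b s = exteriorPower.ιMulti R k
      (fun i => (Pi.single (Set.powersetCard.ofFinEmbEquiv.symm s i) 1 : Fin c → R)) := by
    rw [exteriorPower.basis_apply, exteriorPower.ιMulti_family]
    congr 1
    funext i
    simp
  change (b.constr R g) (exteriorPower.ιMulti R k
      (fun i => (Pi.single (Set.powersetCard.ofFinEmbEquiv.symm s i) 1 : Fin c → R))) = g s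
  rw [← h1, Module.Basis.constr_basis]

/-- an alternating map is determined by its values on increasing families of basis vectors -/
theorem alt_ext_basis {N : Type*} [AddCommGroup N] [Module R N]
    {ω η : (Fin c → R) [⋀^Fin k]→ₗ[R] N}
    (h : ∀ s : Set.powersetCard (Fin c) k,
      ω (fun i => Pi.single (Set.powersetCard.ofFinEmbEquiv.symm s i) 1) =
        η (fun i => Pi.single (Set.powersetCard.ofFinEmbEquiv.symm s i) 1)) : ω = η := by
  classical
  apply exteriorPower.alternatingMapLinearEquiv.injective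
  let b := (Pi.basisFun R (Fin c)).exteriorPower k
  refine b.ext fun s => ?_
  have h1 : b s = exteriorPower.ιMulti R k
      (fun i => (Pi.single (Set.powersetCard.ofFinEmbEquiv.symm s i) 1 : Fin c → R)) := by
    rw [exteriorPower.basis_apply, exteriorPower.ιMulti_family]
    congr 1
    funext i
    simp
  rw [h1, exteriorPower.alternatingMapLinearEquiv_apply_ιMulti,
    exteriorPower.alternatingMapLinearEquiv_apply_ιMulti]
  exact h s

variable {N N' : Type*} [AddCommGroup N] [Module R N] [AddCommGroup N'] [Module S N']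
  (q : N →ₛₗ[π] N')

theorem redAltL_surjective (hπ : Function.Surjective π) (hq : Function.Surjective q) :
    Function.Surjective (redAltL π q hπ c k) := by
  intro ω'
  choose g hg using fun s : Set.powersetCard (Fin c) k =>
    hq (ω' (fun i => Pi.single (Set.powersetCard.ofFinEmbEquiv.symm s i) 1))
  obtain ⟨ω, hω⟩ := exists_alt_values (R := R) g
  refine ⟨ω, alt_ext_basis fun s => ?_⟩
  have h1 : (fun i => (Pi.single (Set.powersetCard.ofFinEmbEquiv.symm s i) 1 : Fin c → S)) =
      fun i => bcv π (Pi.single (Set.powersetCard.ofFinEmbEquiv.symm s i) 1 : Fin c → R) := by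
    funext i
    rw [bcv_single]
  rw [← hg s, ← hω s]
  conv_lhs => rw [h1]
  exact redAltL_apply π q hπ ω _

theorem redAltL_ker (hπ : Function.Surjective π) {x : R}
    (hqk : ∀ y, q y = 0 → ∃ z, y = x • z) (ω : (Fin c → R) [⋀^Fin k]→ₗ[R] N)
    (hω : redAltL π q hπ c k ω = 0) : ∃ η, ω = x • η := by
  have h1 : ∀ s : Set.powersetCard (Fin c) k, ∃ z,
      ω (fun i => Pi.single (Set.powersetCard.ofFinEmbEquiv.symm s i) 1) = x • z := by
    intro s
    apply hqk
    rw [← redAltL_apply π q hπ ω, hω]
    rfl
  choose g hg using h1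
  obtain ⟨η, hη⟩ := exists_alt_values (R := R) g
  refine ⟨η, alt_ext_basis fun s => ?_⟩
  rw [hg, AlternatingMap.smul_apply, hη]

end surj

section desc

variable {N₁ N₂ N₁' N₂' : Type*} [AddCommGroup N₁] [Module R N₁] [AddCommGroup N₂] [Module R N₂]
  [AddCommGroup N₁'] [Module S N₁'] [AddCommGroup N₂'] [Module S N₂']

/-- descent of a linear map -/
theorem exists_desc (hπ : Function.Surjective π) {x : R} (hx : π x = 0) (q₁ : N₁ →ₛₗ[π] N₁')
    (q₂ : N₂ →ₛₗ[π] N₂') (hq₁ : Function.Surjective q₁) (hq₁k : ∀ y, q₁ y = 0 → ∃ z, y = x • z)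
    (p : N₁ →ₗ[R] N₂) : ∃ p' : N₁' →ₗ[S] N₂', ∀ y, p' (q₁ y) = q₂ (p y) := by
  have key : ∀ y z, q₁ y = q₁ z → q₂ (p y) = q₂ (p z) := by
    intro y z h
    obtain ⟨w, hw⟩ := hq₁k (y - z) (by rw [map_sub, h, sub_self])
    have h1 : q₂ (p (y - z)) = 0 := by
      rw [hw, map_smul, LinearMap.map_smulₛₗ, hx, zero_smul]
    rw [map_sub, map_sub, sub_eq_zero] at h1
    exact h1
  choose g hg using hq₁
  refine ⟨{ toFun := fun y => q₂ (p (g y))
            map_add' := ?_
            map_smul' := ?_ }, ?_⟩
  · intro y z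
    rw [← map_add, ← map_add]
    apply key
    rw [hg, map_add, hg, hg]
  · intro r y
    obtain ⟨r, rfl⟩ := hπ r
    rw [RingHom.id_apply, ← LinearMap.map_smulₛₗ, ← map_smul]
    apply key
    rw [hg, LinearMap.map_smulₛₗ, hg]
  · intro y
    exact key _ _ (hg _)

end desc

end LicciCodimFour
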