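import Pool.Agent.Work.MP_a98e4e_ag.D.BridgeL
import Pool.Agent.Work.MP_a98e4e_ag.D.RedAlt

/-!
# Reduction of linkage data to dimension `c`
-/

set_option autoImplicit false

namespace Pool.Agent.Licci.D

open IsLocalRing LicciCodimFour RingTheory.Sequence
open scoped Pointwise

universe u

section red

variable {R S : Type u} [CommRing R] [CommRing S] (π : R →+* S)

/-- reduction of vectors as a semilinear map -/
def bcvL (n : ℕ) : (Fin n → R) →ₛₗ[π] (Fin n → S) where
  toFun := bcv π
  map_add' := map_add _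
  map_smul' := bcv_smul π

theorem bcvL_apply {n : ℕ} (v : Fin n → R) : bcvL π n v = bcv π v := rfl

theorem al_red {n : ℕ} (a v : Fin n → R) : al (fun i => π (a i)) (bcv π v) = π (al a v) := by
  simp only [al, Fintype.linearCombination_apply, map_sum, smul_eq_mul, map_mul, bcv_apply]

theorem DD_red [IsLocalRing R] [IsLocalRing S] {I : Ideal R} {J : Ideal S} {b : ℕ → ℕ}
    (F : MinimalFreeResolution I b) (F' : MinimalFreeResolution J b)
    (h0 : F'.aug = bcf π F.aug) (h1 : ∀ i, F'.d i = bcm π (F.d i)) :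
    ∀ (i : ℕ) (v : Fin (bb b (i + 1)) → R), DD F' i (bcv π v) = bcv π (DD F i v)
  | 0, v => by
      funext j
      show F'.aug (bcv π v) = π (F.aug v)
      rw [h0, bcf_apply]
  | i + 1, v => by
      show F'.d i (bcv π v) = bcv π (F.d i v)
      rw [h1, bcm_apply]

theorem wedge_red (hπ : Function.Surjective π) {c i n : ℕ} {f : (Fin c → R) →ₗ[R] R}
    {f' : (Fin c → S) →ₗ[S] S} (hf : ∀ v, f' (bcv π v) = π (f v))
    (x : (Fin c → R) [⋀^Fin i]→ₗ[R] (Fin n → R)) :
    redAlt π (bcvL π n) hπ (wedge f i x) = wedge f' i (redAlt π (bcvL π n) hπ x) := by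
  refine redAlt_ext π hπ fun v => ?_
  rw [redAlt_apply, wedge_apply, wedge_apply, map_sum]
  refine Finset.sum_congr rfl fun j _ => ?_
  have h1 : (j.removeNth fun l => bcv π (v l)) = fun l => bcv π (j.removeNth v l) := rfl
  rw [h1, redAlt_apply, hf, ← LinearMap.map_smulₛₗ, map_zsmul]

theorem comp_red (hπ : Function.Surjective π) {c i n m : ℕ}
    {D : (Fin n → R) →ₗ[R] (Fin m → R)} {D' : (Fin n → S) →ₗ[S] (Fin m → S)}
    (hD : ∀ v, D' (bcv π v) = bcv π (D v))
    (x : (Fin c → R) [⋀^Fin i]→ₗ[R] (Fin n → R)) :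
    D'.compAlternatingMap (redAlt π (bcvL π n) hπ x) =
      redAlt π (bcvL π m) hπ (D.compAlternatingMap x) := by
  refine redAlt_ext π hπ fun v => ?_
  rw [redAlt_apply, LinearMap.compAlternatingMap_apply, redAlt_apply, bcvL_apply, hD]
  rfl

theorem IsComp.red (hπ : Function.Surjective π) [IsLocalRing R] [IsLocalRing S] {I : Ideal R}
    {J : Ideal S} {b : ℕ → ℕ} {F : MinimalFreeResolution I b} {F' : MinimalFreeResolution J b}
    (h0 : F'.aug = bcf π F.aug) (h1 : ∀ i, F'.d i = bcm π (F.d i)) {k c : ℕ} {a : Fin c → R}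
    {x : ∀ i, (Fin c → R) [⋀^Fin i]→ₗ[R] (Fin (bb b i) → R)}
    (hx : IsComp (al a) (DD F) k x) :
    IsComp (al fun i => π (a i)) (DD F') k (fun i => redAlt π (bcvL π (bb b i)) hπ (x i)) := by
  intro i hi
  rw [comp_red π hπ (DD_red π F F' h0 h1 i), hx i hi, wedge_red π hπ (al_red π a)]

end red

/-- A weakly regular sequence and an element which is regular modulo it. -/
theorem regular_mod {R : Type u} [CommRing R] [IsRegularLocalRing R] (fs : List R)
    (hfs : ∀ f ∈ fs, f ∈ maximalIdeal R) {x : R} (hx : x ∈ maximalIdeal R) (hx0 : x ≠ 0)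
    (h : IsWeaklyRegular (R ⧸ Ideal.span {x}) (fs.map (Ideal.Quotient.mk (Ideal.span {x})))) :
    ∀ r, x * r ∈ Ideal.ofList fs → r ∈ Ideal.ofList fs := by
  have := isDomain_of_isRegularLocalRing R
  have h1 : IsWeaklyRegular R (x :: fs) := by
    rw [isWeaklyRegular_cons_iff']
    refine ⟨?_, ?_⟩
    · rw [isSMulRegular_iff_right_eq_zero_of_smul]
      intro y hy
      exact (mul_eq_zero.1 hy).resolve_left hx0
    · have e : QuotSMulTop x R ≃ₗ[R ⧸ Ideal.span {x}] (R ⧸ Ideal.span {x}) := by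
        have e0 : (x • ⊤ : Submodule R R) = Ideal.span {x} := by
          ext y
          rw [Ideal.mem_span_singleton', Submodule.mem_smul_pointwise_iff_exists]
          constructor
          · rintro ⟨a, _, ha⟩
            exact ⟨a, by rw [smul_eq_mul, mul_comm] at ha; exact ha⟩
          · rintro ⟨a, ha⟩
            exact ⟨a, trivial, by rw [smul_eq_mul, mul_comm]; exact ha⟩
        let f := Submodule.quotEquivOfEq _ _ e0
        exact { f with
          map_smul' := by
            intro c y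
            obtain ⟨c, rfl⟩ := Ideal.Quotient.mk_surjective c
            exact f.map_smul c y }
      exact (LinearEquiv.isWeaklyRegular_congr e _).2 h
  have h2 : IsWeaklyRegular R (fs ++ [x]) := by
    refine IsLocalRing.isWeaklyRegular_of_perm_of_subset_maximalIdeal h1
      (List.perm_append_singleton x fs).symm ?_
    intro z hz
    rw [List.mem_cons] at hz
    rcases hz with rfl | hz
    · exact hx
    · exact hfs z hz
  rw [isWeaklyRegular_append_iff, isWeaklyRegular_singleton_iff] at h2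
  have h3 : IsSMulRegular (R ⧸ Ideal.ofList fs) x := by
    have e : (Ideal.ofList fs • ⊤ : Submodule R R) = Ideal.ofList fs := by
      rw [smul_eq_mul, Ideal.mul_top]
    have h4 := h2.2
    rw [e] at h4
    exact h4
  intro r hr
  rw [isSMulRegular_iff_right_eq_zero_of_smul] at h3
  have h5 := h3 (Ideal.Quotient.mk _ r) (by
    rw [← Ideal.Quotient.mk_eq_mk, ← Submodule.Quotient.mk_smul, smul_eq_mul,
      Ideal.Quotient.mk_eq_mk]
    exact Ideal.Quotient.eq_zero_iff_mem.2 hr)
  exact Ideal.Quotient.eq_zero_iff_mem.1 h5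

/-- Reduction modulo one element. -/
theorem dim_step {R : Type u} [CommRing R] [IsRegularLocalRing R] {I : Ideal R} {b : ℕ → ℕ}
    (F : MinimalFreeResolution I b) (k : ℕ) (hb : ∀ i, k + 1 < i → b i = 0)
    (a : Fin (k + 1) → R) (ha : IsWeaklyRegular R (List.ofFn a)) (haI : ∀ i, a i ∈ I)
    (x : ∀ i, (Fin (k + 1) → R) [⋀^Fin i]→ₗ[R] (Fin (bb b i) → R))
    (hx0 : x 0 = AlternatingMap.constOfIsEmpty R _ (Fin 0) (fun _ => 1))
    (hx : IsComp (al a) (DD F) k x) {n : ℕ} (hdim : ringKrullDim R = (n + 1 + (k + 1) : ℕ)) :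
    ∃ (S : Type u) (_ : CommRing S) (_ : IsRegularLocalRing S) (π : R →+* S),
      Function.Surjective π ∧ (∀ r, π r ∈ maximalIdeal S ↔ r ∈ maximalIdeal R) ∧
      ringKrullDim S = (n + (k + 1) : ℕ) ∧ IsWeaklyRegular S (List.ofFn fun i => π (a i)) ∧
      ∃ (F' : MinimalFreeResolution (I.map π) b)
        (x' : ∀ i, (Fin (k + 1) → S) [⋀^Fin i]→ₗ[S] (Fin (bb b i) → S)),
        x' 0 = AlternatingMap.constOfIsEmpty S _ (Fin 0) (fun _ => 1) ∧
        IsComp (al fun i => π (a i)) (DD F') k x' ∧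
        x' (k + 1) (fun i => Pi.single i 1) = bcv π (x (k + 1) (fun i => Pi.single i 1)) := by
  have hdom := isDomain_of_isRegularLocalRing R
  have hIm : I ≤ maximalIdeal R := by
    intro r hr
    rw [← F.range_aug] at hr
    obtain ⟨y, rfl⟩ := hr
    exact F.minimal_aug y
  have hfs : ∀ f ∈ List.ofFn a, f ∈ maximalIdeal R := by
    intro f hf
    obtain ⟨i, rfl⟩ := (List.mem_ofFn' _ _).1 hf
    exact hIm (haI i)
  obtain ⟨t, ht, ht2, htreg⟩ := exists_slice (List.ofFn a) hfs ha (by
    rw [List.length_ofFn, hdim]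
    exact_mod_cast (by omega : k + 1 < n + 1 + (k + 1)))
  have ht0 : t ≠ 0 := by
    rintro rfl
    exact ht2 (Ideal.zero_mem _)
  have hA : Ideal.ofList (List.ofFn a) = Ideal.span (Set.range a) := by
    unfold Ideal.ofList
    congr 1
    ext y
    exact List.mem_ofFn' _ _
  have hmod := regular_mod (List.ofFn a) hfs ht ht0 htreg
  rw [hA] at hmod
  have hlink := link_of_comparison F k hb a ha haI x hx hx0
  have hcol : ∀ (A J : Ideal R) r, r ∈ A.colon (J : Set R) ↔ ∀ y ∈ J, r * y ∈ A := by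
    intro A J r
    rw [Submodule.mem_colon]
    rfl
  have htI : ∀ r, t * r ∈ I → r ∈ I := by
    intro r hr
    rw [← hlink.2, hcol]
    intro y hy
    rw [hcol] at hy
    apply hmod
    have := hy _ hr
    rwa [mul_comm, mul_assoc] at this
  obtain ⟨hS, hd⟩ := isRegularLocalRing_quotient ht ht2
  set π := Ideal.Quotient.mk (Ideal.span {t}) with hπ
  have hsurj : Function.Surjective π := Ideal.Quotient.mk_surjective
  have hker : ∀ r, π r = 0 ↔ ∃ s, r = t * s := by
    intro r
    rw [hπ, Ideal.Quotient.eq_zero_iff_mem, Ideal.mem_span_singleton]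
    exact Iff.rfl
  have hmax : ∀ r, π r ∈ maximalIdeal (R ⧸ Ideal.span {t}) ↔ r ∈ maximalIdeal R := by
    intro r
    rw [← map_mk_maximalIdeal, ← hπ, ← Ideal.mem_comap, Ideal.comap_map_of_surjective _ hsurj,
      ← RingHom.ker_eq_comap_bot, hπ, Ideal.mk_ker,
      sup_eq_left.2 ((Ideal.span_singleton_le_iff_mem _).2 ht)]
  obtain ⟨F', hF'0, hF'1⟩ := exists_resolution_mod π hsurj hker (fun r hr => (hmax r).2 hr) ht0 F htI
  refine ⟨R ⧸ Ideal.span {t}, inferInstance, hS, π, hsurj, hmax, ?_, ?_, F',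
    fun i => redAlt π (bcvL π (bb b i)) hsurj (x i), ?_, hx.red π hsurj hF'0 hF'1, ?_⟩
  · rw [← IsRegularLocalRing.spanFinrank_maximalIdeal (R := R ⧸ Ideal.span {t})]
    have h1 := IsRegularLocalRing.spanFinrank_maximalIdeal (R := R)
    rw [hdim] at h1
    have h2 : (maximalIdeal R).spanFinrank = n + 1 + (k + 1) := by exact_mod_cast h1
    have h3 : (maximalIdeal (R ⧸ Ideal.span {t})).spanFinrank = n + (k + 1) := by omega
    rw [h3]
  · rw [List.map_ofFn] at htreg
    exact htreg
  · refine redAlt_ext π hsurj fun v => ?_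
    rw [redAlt_apply, hx0]
    funext i
    show π 1 = 1
    exact map_one π
  · have h1 : (fun i => (Pi.single i 1 : Fin (k + 1) → R ⧸ Ideal.span {t})) =
        fun i => bcv π (Pi.single i 1 : Fin (k + 1) → R) := by
      funext i
      rw [bcv_single]
    show redAlt π (bcvL π (bb b (k + 1))) hsurj (x (k + 1)) (fun i => Pi.single i 1) = _
    rw [h1, redAlt_apply]
    rfl

/-- Reduction to dimension `c = k + 1`. -/
theorem dim_induction (k : ℕ) {b : ℕ → ℕ} (hb : ∀ i, k + 1 < i → b i = 0) (n : ℕ) :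
    ∀ {R : Type u} [CommRing R] [IsRegularLocalRing R] {I : Ideal R}
    (F : MinimalFreeResolution I b)
    (a : Fin (k + 1) → R) (_ : IsWeaklyRegular R (List.ofFn a)) (_ : ∀ i, a i ∈ I)
    (x : ∀ i, (Fin (k + 1) → R) [⋀^Fin i]→ₗ[R] (Fin (bb b i) → R))
    (_ : x 0 = AlternatingMap.constOfIsEmpty R _ (Fin 0) (fun _ => 1))
    (_ : IsComp (al a) (DD F) k x) (_ : ringKrullDim R = (n + (k + 1) : ℕ)),
    ∃ (S : Type u) (_ : CommRing S) (_ : IsRegularLocalRing S) (π : R →+* S),
      Function.Surjective π ∧ (∀ r, π r ∈ maximalIdeal S ↔ r ∈ maximalIdeal R) ∧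
      ringKrullDim S = (k + 1 : ℕ) ∧ IsWeaklyRegular S (List.ofFn fun i => π (a i)) ∧
      ∃ (J : Ideal S) (_ : J = I.map π) (F' : MinimalFreeResolution J b)
        (x' : ∀ i, (Fin (k + 1) → S) [⋀^Fin i]→ₗ[S] (Fin (bb b i) → S)),
        x' 0 = AlternatingMap.constOfIsEmpty S _ (Fin 0) (fun _ => 1) ∧
        IsComp (al fun i => π (a i)) (DD F') k x' ∧
        x' (k + 1) (fun i => Pi.single i 1) = bcv π (x (k + 1) (fun i => Pi.single i 1)) := by
  induction n with
  | zero =>
    intro R _ _ I F a ha haI x hx0 hx hdim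
    refine ⟨R, inferInstance, inferInstance, RingHom.id R, Function.surjective_id,
      fun r => Iff.rfl, ?_, ha, I, (Ideal.map_id I).symm, F, x, hx0, hx, rfl⟩
    rw [hdim, zero_add]
  | succ n ih =>
    intro R _ _ I F a ha haI x hx0 hx hdim
    obtain ⟨S, _, _, π, h1, h2, h3, h4, F', x', h5, h6, h7⟩ :=
      dim_step F k hb a ha haI x hx0 hx hdim
    obtain ⟨T, i1, i2, ψ, g1, g2, g3, g4, J, g5, F'', x'', g6, g7, g8⟩ := ih F'
      (fun i => π (a i)) h4 (fun i => Ideal.mem_map_of_mem π (haI i)) x' h5 h6 h3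
    refine ⟨T, i1, i2, ψ.comp π, g1.comp h1, fun r => (g2 _).trans (h2 r), g3, g4, J, ?_, F'', x'',
      g6, g7, ?_⟩
    · rw [g5, Ideal.map_map]
    · rw [g8, h7]
      rfl

/-- **Slicing linkage data.** A perfect ideal over a regular local ring, given by a minimal free
resolution of length `k + 1`, and a weakly regular sequence of length `k + 1` in it: after passing
to a regular quotient ring of dimension `k + 1` everything is preserved, in particular the link. -/
theorem exists_slice_link {R : Type u} [CommRing R] [IsRegularLocalRing R] {I : Ideal R}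
    {b : ℕ → ℕ} (F : MinimalFreeResolution I b) (k : ℕ) (hb : ∀ i, k + 1 < i → b i = 0)
    (a : Fin (k + 1) → R) (ha : IsWeaklyRegular R (List.ofFn a)) (haI : ∀ i, a i ∈ I) :
    ∃ (S : Type u) (_ : CommRing S) (_ : IsRegularLocalRing S) (π : R →+* S),
      Function.Surjective π ∧ (∀ r, π r ∈ maximalIdeal S ↔ r ∈ maximalIdeal R) ∧
      ringKrullDim S = (k + 1 : ℕ) ∧ IsWeaklyRegular S (List.ofFn fun i => π (a i)) ∧
      Nonempty (MinimalFreeResolution (I.map π) b) ∧
      (Ideal.span (Set.range fun i => π (a i))).colon ((I.map π : Ideal S) : Set S) =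
        ((Ideal.span (Set.range a)).colon (I : Set R)).map π ∧
      (Ideal.span (Set.range fun i => π (a i))).colon
        (((Ideal.span (Set.range fun i => π (a i))).colon ((I.map π : Ideal S) : Set S) :
          Ideal S) : Set S) = I.map π := by
  have hIm : I ≤ maximalIdeal R := by
    intro r hr
    rw [← F.range_aug] at hr
    obtain ⟨y, rfl⟩ := hr
    exact F.minimal_aug y
  have hfs : ∀ f ∈ List.ofFn a, f ∈ maximalIdeal R := by
    intro f hf
    obtain ⟨i, rfl⟩ := (List.mem_ofFn' _ _).1 hf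
    exact hIm (haI i)
  have hreg : IsRegular R (List.ofFn a) :=
    (IsLocalRing.isRegular_iff_isWeaklyRegular_of_subset_maximalIdeal hfs).2 ha
  obtain ⟨n, hn⟩ : ∃ n : ℕ, ringKrullDim R = (n + (k + 1) : ℕ) := by
    have h1 := ringKrullDim_add_length_eq_ringKrullDim_of_isRegular (List.ofFn a) hreg
    rw [List.length_ofFn] at h1
    have hnt : Nontrivial (R ⧸ Ideal.ofList (List.ofFn a)) := by
      refine Ideal.Quotient.nontrivial_iff.2 (ne_of_lt (lt_of_le_of_lt (b := maximalIdeal R) ?_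
        (lt_top_iff_ne_top.2 (Ideal.IsPrime.ne_top inferInstance))))
      rw [Ideal.ofList, Ideal.span_le]
      exact hfs
    have h2 : (0 : WithBot ℕ∞) ≤ ringKrullDim (R ⧸ Ideal.ofList (List.ofFn a)) :=
      ringKrullDim_nonneg_of_nontrivial
    have h3 := IsRegularLocalRing.spanFinrank_maximalIdeal (R := R)
    have h4 : ((k + 1 : ℕ) : WithBot ℕ∞) ≤ ringKrullDim R := by
      rw [← h1]
      calc ((k + 1 : ℕ) : WithBot ℕ∞) = 0 + ((k + 1 : ℕ) : WithBot ℕ∞) := (zero_add _).symm
        _ ≤ _ := by gcongr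
    rw [← h3] at h4
    have h5 : k + 1 ≤ (maximalIdeal R).spanFinrank := by exact_mod_cast h4
    obtain ⟨n, hn⟩ := Nat.exists_eq_add_of_le h5
    refine ⟨n, ?_⟩
    rw [← h3, hn, add_comm]
  obtain ⟨x, hx, hx0⟩ := exists_comparison F k a haI
  have hlink := link_of_comparison F k hb a ha haI x hx hx0
  obtain ⟨S, i1, i2, π, g1, g2, g3, g4, J, rfl, F', x', g6, g7, g8⟩ :=
    dim_induction k hb n F a ha haI x hx0 hx hn
  have hlink' := link_of_comparison F' k hb (fun i => π (a i)) g4
    (fun i => Ideal.mem_map_of_mem π (haI i)) x' g7 g6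
  refine ⟨S, i1, i2, π, g1, g2, g3, g4, ⟨F'⟩, ?_, hlink'.2⟩
  rw [hlink'.1, hlink.1, Ideal.map_sup, Ideal.map_span, Ideal.map_span, ← Set.range_comp,
    ← Set.range_comp, g8]
  rfl

end Pool.Agent.Licci.D
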