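import Pool.Agent.Work.MP_a98e4e_ag.D.Mv
import Pool.Agent.Work.MP_a98e4e_ag.D.DescentC

/-!
# LICCI, codimension 5 and 6: a general move raises the top degree (helper45)
-/

set_option linter.unusedSectionVars false

noncomputable section

namespace Pool.Agent.Licci

open scoped BigOperators

/-! ### basis moves -/

/-- `i, j, l` and then the other indices, in decreasing order -/
def sq (i j l : Fin 8) (r : Fin 8) : Fin 8 :=
  (i :: j :: l :: ((List.finRange 8).reverse.filter fun x => x ≠ i ∧ x ≠ j ∧ x ≠ l)).getD r 0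

set_option maxRecDepth 100000 in
theorem sq_chk : ∀ i j l : Fin 8, i < j → j < l → (∀ r s : Fin 8, sq i j l r = sq i j l s → r = s) ∧
    sq i j l 0 = i ∧ sq i j l 1 = j ∧ sq i j l 2 = l ∧ (l < 7 → sq i j l 3 = 7) := by
  decide +kernel

set_option maxRecDepth 100000 in
theorem pick5_chk : ∀ m : Fin 248, wtg 7 m = 1 → zdg m < 3 → ∃ i j k : Fin 8, i < j ∧ j < k ∧
    k < 7 ∧ fnd (cd (i1 i j k) + cd m) < 240 := by
  decide +kernel

set_option maxRecDepth 100000 in
theorem wt7_lt : ∀ m : Fin 248, wtg 7 m = 1 → (m : ℕ) < 240 := by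
  decide +kernel

section basis

variable {A : Type*} [CommRing A] [Algebra ℚ A]

/-- the move `e_{s 3} ∧ ⋯ ∧ e_{s 7}` -/
theorem M5_basis (s : Fin 8 → Fin 8) (hs : ∀ r r', s r = s r' → r = r') :
    ∃ c : A, IsUnit c ∧ M5 (dF A) (fun a : Fin 5 => Pi.single (s (Fin.natAdd 3 a)) 1) =
      c • T (s 0) (s 1) (s 2) := by
  set g : Matrix (Fin 8) (Fin 8) A := fun r => Pi.single (s r) 1 with hg
  have h1 : g * g.transpose = 1 := by
    ext r r'
    rw [Matrix.mul_apply, Matrix.one_apply]
    change ∑ m, (Pi.single (s r) 1 : Vec A) m * (Pi.single (s r') 1 : Vec A) m = _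
    rw [Finset.sum_eq_single (s r)]
    · rw [Pi.single_eq_same, one_mul, Pi.single_apply]
      refine if_congr ?_ rfl rfl
      exact ⟨fun h => hs _ _ h, fun h => by rw [h]⟩
    · intro b _ hb
      rw [Pi.single_eq_of_ne hb, zero_mul]
    · intro h
      exact absurd (Finset.mem_univ _) h
  refine ⟨-(dF A g), ?_, ?_⟩
  · have h2 : g.det * g.transpose.det = 1 := by rw [← Matrix.det_mul, h1, Matrix.det_one]
    have h3 : IsUnit g.det := IsUnit.of_mul_eq_one _ h2
    exact (dF_unit g h3).neg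
  · have h4 := M5_dec (detF_dF (A := A)) g g.transpose h1
    have hx : (fun r => g.transpose r 0) = (Pi.single (s 0) 1 : Vec A) := rfl
    have hy : (fun r => g.transpose r 1) = (Pi.single (s 1) 1 : Vec A) := rfl
    have hz : (fun r => g.transpose r 2) = (Pi.single (s 2) 1 : Vec A) := rfl
    have hu : (fun a : Fin 5 => g (Fin.natAdd 3 a)) =
        fun a : Fin 5 => (Pi.single (s (Fin.natAdd 3 a)) 1 : Vec A) := rfl
    rw [hx, hy, hz, tri_single, hu] at h4
    exact h4

end basis

section field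

variable {k : Type*} [Field k]

theorem root_ne {u : E8 k} {i j l : Fin 8} (hij : i < j) (hjl : j < l) (m : Fin 248)
    (h2 : (m : ℕ) < 240) (hf : fnd (cd (i1 i j l) + cd m) < 240) (h3 : br (T i j l) u = 0) :
    u m = 0 := by
  have hr := i1_rng i j l hij hjl
  have h4 := eb_of_T hij hjl h3
  set n := i1 i j l with hn
  have hc : fnd (cd n + cd m) < 248 := by omega
  have e1 : cd (fnd (cd n + cd m)) + off = cd n + cd m := fnd_spec hf
  have e2 : (m : ℕ) = fnd (cd ((⟨fnd (cd n + cd m), hc⟩ : Fin 248) : ℕ) + off + off - cd n) := by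
    change (m : ℕ) = fnd (cd (fnd (cd n + cd m)) + off + off - cd n)
    rw [show cd (fnd (cd n + cd m)) + off + off - cd n = cd m + off by omega, fnd_cd h2]
  have e3 : n ≠ (⟨fnd (cd n + cd m), hc⟩ : Fin 248) := by
    intro h5
    have h6 : cd n = cd (fnd (cd n + cd m)) := congrArg (fun t : Fin 248 => cd t) h5
    have h7 : cd m = off := by omega
    have h8 := fnd_cd h2
    rw [h7] at h8
    exact fnd_off (by omega)
  have e4 := br_eb_left_of (n := n) (c := m) (m := ⟨fnd (cd n + cd m), hc⟩) (by omega) hf e3 e2 u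
  rw [h4, Pi.zero_apply] at e4
  have e5 : sc n m ⟨fnd (cd n + cd m), hc⟩ = 1 ∨ sc n m ⟨fnd (cd n + cd m), hc⟩ = -1 :=
    scN_root (by omega) h2 hf
  rcases e5 with e5 | e5
  · rw [e5] at e4
    simpa using e4.symm
  · rw [e5] at e4
    simpa using e4.symm

/-- no nonzero vector of degree less than three is killed by all moves -/
theorem exists_T (y : E8 k) (d : ℕ) (hd : d ≤ 5) (hy : ∀ m, dgE m ≠ d → y m = 0) (hy0 : y ≠ 0) :
    ∃ i j l : Fin 8, i < j ∧ j < l ∧ br (T i j l) y ≠ 0 := by
  by_contra hcon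
  push Not at hcon
  have hT : ∀ i j l : Fin 8, br (T i j l) y = 0 := by
    intro i j l
    refine alt3_zero (fun i j l => br (T i j l) y) ?_ ?_ ?_ hcon i j l
    · intro i j l
      rw [T_swap i j l, br_neg_left]
    · intro i j l
      rw [T_swap' i j l, br_neg_left]
    · intro i l
      rw [T_self, br_zero_left]
  rcases Nat.lt_or_ge d 5 with h5 | h5
  · obtain ⟨a, b, c, h⟩ := H1E d (by omega) y hy hy0
    apply h
    funext m
    rw [br_tri_apply, Pi.zero_apply]
    refine Finset.sum_eq_zero fun i _ => Finset.sum_eq_zero fun j _ =>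
      Finset.sum_eq_zero fun l _ => ?_
    rw [hT, Pi.zero_apply, mul_zero]
  · have hd5 : d = 5 := by omega
    subst hd5
    obtain ⟨m, hm⟩ := Function.ne_iff.mp hy0
    rw [Pi.zero_apply] at hm
    have h1 : dgE m = 5 := by
      by_contra h
      exact hm (hy m h)
    have h2 : zdg m = 2 := by
      have := (zdg_chk m).1
      unfold dgE at h1
      omega
    obtain ⟨h3, h4⟩ := (zdg_chk m).2.2.2.1 h2
    obtain ⟨p, q, hpq, rfl⟩ := i2_surj m h3 h4
    obtain ⟨r, hrp, hrq⟩ := exists_third p q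
    have h6 := congrFun (hT p q r) (ix r)
    rw [br_T_three', if_neg hrp, if_neg hrq, if_pos rfl, Pi.zero_apply] at h6
    apply hm
    unfold w2 at h6
    rw [ep2_of_lt hpq] at h6
    simpa using h6

/-- the same for the `56` of weight `1` at the last place -/
theorem exists_T5 (y : E8 k) (d : ℕ) (hd : d ≤ 5) (hy : ∀ m, dgE m ≠ d → y m = 0)
    (hw : ∀ m, wtg 7 m ≠ 1 → y m = 0) (hy0 : y ≠ 0) :
    ∃ i j l : Fin 8, i < j ∧ j < l ∧ l < 7 ∧ br (T i j l) y ≠ 0 := by
  obtain ⟨m, hm⟩ := Function.ne_iff.mp hy0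
  rw [Pi.zero_apply] at hm
  have h1 : wtg 7 m = 1 := by
    by_contra h
    exact hm (hw m h)
  have h2 : dgE m = d := by
    by_contra h
    exact hm (hy m h)
  have h3 : zdg m < 3 := by
    unfold dgE at h2
    omega
  obtain ⟨i, j, l, hij, hjl, hl, hf⟩ := pick5_chk m h1 h3
  refine ⟨i, j, l, hij, hjl, hl, fun h => hm ?_⟩
  exact root_ne hij hjl m (wt7_lt m h1) hf h

end field

/-! ### the top degree -/

section tdeg

variable {k : Type*} [Field k]

open Classical in
/-- top degree (shifted by three) -/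
def tdeg (u : E8 k) : ℕ := (Finset.univ.filter fun m => u m ≠ 0).sup dgE

open Classical in
/-- top part -/
def topP (u : E8 k) : E8 k := fun m => if dgE m = tdeg u then u m else 0

theorem le_tdeg {u : E8 k} {m : Fin 248} (h : u m ≠ 0) : dgE m ≤ tdeg u := by
  classical
  exact Finset.le_sup (f := dgE) (by simpa using h)

theorem tdeg_le (u : E8 k) : tdeg u ≤ 6 := Finset.sup_le fun m _ => dgE_le m

theorem exists_tdeg {u : E8 k} (h : u ≠ 0) : ∃ m, u m ≠ 0 ∧ dgE m = tdeg u := by
  classical
  obtain ⟨m, hm⟩ := Function.ne_iff.mp h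
  have hne : (Finset.univ.filter fun m => u m ≠ 0).Nonempty := ⟨m, by simpa using hm⟩
  obtain ⟨m', hm', h2⟩ := Finset.exists_mem_eq_sup _ hne dgE
  refine ⟨m', ?_, ?_⟩
  · simpa using hm'
  · rw [← h2]
    unfold tdeg
    congr

theorem topP_ne {u : E8 k} (h : u ≠ 0) : topP u ≠ 0 := by
  obtain ⟨m, hm, hd⟩ := exists_tdeg h
  intro h0
  have := congrFun h0 m
  unfold topP at this
  rw [if_pos hd] at this
  exact hm this

theorem topP_deg (u : E8 k) (m : Fin 248) (h : dgE m ≠ tdeg u) : topP u m = 0 := by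
  unfold topP
  rw [if_neg h]

theorem topP_zero {u : E8 k} {m : Fin 248} (h : u m = 0) : topP u m = 0 := by
  unfold topP
  split_ifs
  · exact h
  · rfl

variable [Algebra ℚ k]

theorem ex_poly (M u : E8 k) (m : Fin 248) : ∃ P : Polynomial k, P.coeff 1 = br M u m ∧
    ∀ t : k, ex (t • M) u m = P.eval t := by
  refine ⟨∑ n ∈ Finset.range 7, Polynomial.C (algebraMap ℚ k ((n.factorial : ℚ)⁻¹) *
    ((brL M) ^ n) u m) * Polynomial.X ^ n, ?_, fun t => ?_⟩
  · rw [Polynomial.finsetSum_coeff, Finset.sum_eq_single 1]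
    · rw [Polynomial.coeff_C_mul_X_pow, if_pos rfl]
      simp
    · intro n _ hn
      rw [Polynomial.coeff_C_mul_X_pow, if_neg (Ne.symm hn)]
    · intro h
      exact absurd (Finset.mem_range.mpr (by norm_num)) h
  · rw [ex_apply, Finset.sum_apply, Polynomial.eval_finsetSum]
    refine Finset.sum_congr rfl fun n _ => ?_
    rw [Polynomial.eval_mul, Polynomial.eval_C, Polynomial.eval_pow, Polynomial.eval_X,
      Pi.smul_apply, smul_eq_mul, map_smul, smul_pow, LinearMap.smul_apply, Pi.smul_apply,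
      smul_eq_mul]
    ring

/-- the polynomial which witnesses the rise of the top degree -/
theorem rise (u : Fin 5 → Vec k) (x : E8 k) (h : br (M5 (dF k) u) (topP x) ≠ 0) :
    ∃ P : Polynomial k, P ≠ 0 ∧ ∀ t : k, P.eval t ≠ 0 →
      tdeg x < tdeg (ex (t • M5 (dF k) u) x) := by
  obtain ⟨m, hm⟩ := Function.ne_iff.mp h
  rw [Pi.zero_apply] at hm
  have h1 : dgE m = tdeg x + 1 := by
    by_contra hne
    apply hm
    refine br_M5_deg _ u _ m fun b hb => topP_deg x b fun hd => hne ?_
    omega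
  have h2 : br (M5 (dF k) u) x m = br (M5 (dF k) u) (topP x) m := by
    have h3 : br (M5 (dF k) u) (x - topP x) m = 0 := by
      refine br_M5_deg _ u _ m fun b hb => ?_
      have hd : dgE b = tdeg x := by omega
      rw [Pi.sub_apply]
      unfold topP
      rw [if_pos hd, sub_self]
    rw [br_sub_right, Pi.sub_apply, sub_eq_zero] at h3
    exact h3
  obtain ⟨P, hP1, hP2⟩ := ex_poly (M5 (dF k) u) x m
  refine ⟨P, ?_, fun t ht => ?_⟩
  · rintro rfl
    rw [Polynomial.coeff_zero, h2] at hP1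
    exact hm hP1.symm
  · rw [← hP2] at ht
    have := le_tdeg ht
    omega

end tdeg

/-! ### the inclusion of `A ^ 7` -/

section i7

variable {A : Type*} [CommRing A]

/-- the inclusion of `A ^ 7` -/
def i7 : (Fin 7 → A) →ₗ[A] Vec A where
  toFun v := Fin.snoc (α := fun _ => A) v 0
  map_add' v w := by
    funext i
    rw [Pi.add_apply]
    refine Fin.lastCases ?_ (fun i => ?_) i
    · rw [Fin.snoc_last, Fin.snoc_last, Fin.snoc_last, add_zero]
    · rw [Fin.snoc_castSucc, Fin.snoc_castSucc, Fin.snoc_castSucc, Pi.add_apply]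
  map_smul' c v := by
    funext i
    rw [Pi.smul_apply]
    refine Fin.lastCases ?_ (fun i => ?_) i
    · rw [Fin.snoc_last, Fin.snoc_last, smul_zero]
    · rw [Fin.snoc_castSucc, Fin.snoc_castSucc, Pi.smul_apply]
      rfl

theorem i7_apply (v : Fin 7 → A) : i7 v = (Fin.snoc (α := fun _ => A) v 0 : Fin 8 → A) := rfl

end i7

/-! ### moves as a multilinear map -/

section multi

variable {A : Type*} [CommRing A] [Algebra ℚ A]

/-- `M5` as a multilinear map -/
def M5L (ω : Vec A [⋀^Fin 8]→ₗ[A] A) : MultilinearMap A (fun _ : Fin 5 => Vec A) (E8 A) :=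
  ∑ i, ∑ j, ∑ k, (LinearMap.toSpanSingleton A (E8 A)
    ((-(algebraMap ℚ A (1 / 6))) • T i j k)).compMultilinearMap (vol3 ω i j k).toMultilinearMap

theorem multi_sum_apply {ι κ M N : Type*} [AddCommGroup M] [Module A M] [AddCommGroup N]
    [Module A N] (s : Finset ι) (f : ι → MultilinearMap A (fun _ : κ => M) N) (a : κ → M) :
    (∑ i ∈ s, f i) a = ∑ i ∈ s, f i a := by
  induction s using Finset.cons_induction with
  | empty => rfl
  | cons i s hi ih => rw [Finset.sum_cons, Finset.sum_cons, ← ih]; rfl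

theorem M5L_apply (ω : Vec A [⋀^Fin 8]→ₗ[A] A) (u : Fin 5 → Vec A) : M5L ω u = M5 ω u := by
  unfold M5L M5
  rw [multi_sum_apply]
  refine Finset.sum_congr rfl fun i _ => ?_
  rw [multi_sum_apply]
  refine Finset.sum_congr rfl fun j _ => ?_
  rw [multi_sum_apply]
  refine Finset.sum_congr rfl fun k _ => ?_
  rw [LinearMap.compMultilinearMap_apply, LinearMap.toSpanSingleton_apply, smul_smul]
  congr 1
  exact mul_comm _ _

/-- bracket with a fixed vector on the right -/
def brR (y : E8 A) : E8 A →ₗ[A] E8 A := brL.flip y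

theorem brR_apply (y x : E8 A) : brR y x = br x y := rfl

end multi

/-! ### genericity -/

section gen

universe u

open IsLocalRing

variable {R : Type u} [CommRing R] [IsLocalRing R] [Algebra ℚ R]

theorem red_ex5 (u : Fin 5 → Vec R) (t : R) (p : E8 R) :
    red (ex (t • M5 (dF R) u) p) =
      ex (residue R t • M5 (dF (ResidueField R)) (fun a => red (u a))) (red p) := by
  have h : ∀ {ι : Type} (v : ι → R), red v = residue R ∘ v := fun v => rfl
  rw [h, ex_map]
  have h2 : residue R ∘ (t • M5 (dF R) u) =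
      residue R t • M5 (dF (ResidueField R)) (fun a => red (u a)) := by
    have h3 := M5_map (residue R) u
    have h4 : residue R ∘ (t • M5 (dF R) u) = residue R t • (residue R ∘ M5 (dF R) u) := by
      funext m
      simp
    rw [h4, h3]
    rfl
  rw [h2]
  rfl

theorem genS_rise (u : Fin 5 → Vec R) (p : E8 R)
    (h : br (M5 (dF (ResidueField R)) (fun a => red (u a))) (topP (red p)) ≠ 0) :
    GenS fun t : R => tdeg (red p) < tdeg (red (ex (t • M5 (dF R) u) p)) := by
  obtain ⟨P, hP, hP2⟩ := rise (fun a => red (u a)) (red p) h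
  refine (GenS.of_poly P hP).mono fun t ht => ?_
  rw [red_ex5]
  exact hP2 _ ht

/-- codimension `6` -/
theorem gen_rise6 (p : E8 R) (hp : red p ≠ 0) (hd : tdeg (red p) ≤ 5) :
    LicciD.GenN 5 fun a : Fin 5 → Fin 8 → R => GenS fun t : R =>
      tdeg (red p) < tdeg (red (ex (t • M5 (dF R) a) p)) := by
  set k := ResidueField R with hk
  set y : E8 k := topP (red p) with hy
  let g : MultilinearMap k (fun _ : Fin 5 => Fin 8 → k) (E8 k) :=
    (brR y).compMultilinearMap (M5L (dF k))
  have hg : ∀ u, g u = br (M5 (dF k) u) y := by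
    intro u
    change brR y (M5L (dF k) u) = _
    rw [M5L_apply, brR_apply]
  obtain ⟨i, j, l, hij, hjl, hT⟩ := exists_T y (tdeg (red p)) hd (fun m hm => topP_deg _ m hm)
    (topP_ne hp)
  obtain ⟨hs, h0, h1, h2, -⟩ := sq_chk i j l hij hjl
  obtain ⟨c, hc, hM⟩ := M5_basis (A := k) (sq i j l) hs
  have hg0 : g ≠ 0 := by
    intro h
    have h3 : g (fun a : Fin 5 => Pi.single (sq i j l (Fin.natAdd 3 a)) 1) = 0 := by
      rw [h]
      rfl
    rw [hg, hM, h0, h1, h2, br_smul_left] at h3
    have h4 : c • br (T i j l) y = 0 := h3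
    rw [smul_eq_zero] at h4
    rcases h4 with h4 | h4
    · exact hc.ne_zero h4
    · exact hT h4
  refine (LicciD.GenN.of_residue g hg0).mono fun a ha => ?_
  rw [hg] at ha
  exact genS_rise a p ha

/-- codimension `5` -/
theorem gen_rise5 (p : E8 R) (hp : red p ≠ 0) (hd : tdeg (red p) ≤ 5)
    (hw : ∀ m, wtg 7 m ≠ 1 → p m = 0) :
    LicciD.GenN 4 fun a : Fin 4 → Fin 7 → R => GenS fun t : R =>
      tdeg (red p) < tdeg (red (ex (t • M5 (dF R)
        (Fin.cons (Pi.single 7 1) (fun r => i7 (a r)))) p)) := by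
  set k := ResidueField R with hk
  set y : E8 k := topP (red p) with hy
  let g5 : MultilinearMap k (fun _ : Fin 5 => Fin 8 → k) (E8 k) :=
    (brR y).compMultilinearMap (M5L (dF k))
  let g : MultilinearMap k (fun _ : Fin 4 => Fin 7 → k) (E8 k) :=
    (g5.curryLeft (Pi.single 7 1)).compLinearMap (fun _ => i7)
  have hg : ∀ u, g u = br (M5 (dF k) (Fin.cons (Pi.single 7 1) (fun r => i7 (u r)))) y := by
    intro u
    change brR y (M5L (dF k) _) = _
    rw [M5L_apply, brR_apply]
  have hw' : ∀ m, wtg 7 m ≠ 1 → y m = 0 := by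
    intro m hm
    refine topP_zero ?_
    change residue R (p m) = 0
    rw [hw m hm, map_zero]
  obtain ⟨i, j, l, hij, hjl, hl, hT⟩ := exists_T5 y (tdeg (red p)) hd
    (fun m hm => topP_deg _ m hm) hw' (topP_ne hp)
  obtain ⟨hs, h0, h1, h2, h7⟩ := sq_chk i j l hij hjl
  obtain ⟨c, hc, hM⟩ := M5_basis (A := k) (sq i j l) hs
  have hlt : ∀ a : Fin 4, ((sq i j l (Fin.natAdd 3 a.succ) : Fin 8) : ℕ) < 7 := by
    intro a
    by_contra hcon
    have e1 : sq i j l (Fin.natAdd 3 a.succ) = 7 := by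
      apply Fin.ext
      have := (sq i j l (Fin.natAdd 3 a.succ)).2
      change _ = 7
      omega
    rw [← h7 hl] at e1
    have e2 := hs _ _ e1
    have e3 : 3 + ((a : ℕ) + 1) = 3 := congrArg Fin.val e2
    omega
  have hg0 : g ≠ 0 := by
    intro h
    have h3 : g (fun a : Fin 4 =>
        Pi.single ⟨(sq i j l (Fin.natAdd 3 a.succ) : Fin 8), hlt a⟩ 1) = 0 := by
      rw [h]
      rfl
    rw [hg] at h3
    have h5 : (Fin.cons (Pi.single 7 1) (fun r : Fin 4 =>
        i7 (Pi.single (⟨(sq i j l (Fin.natAdd 3 r.succ) : Fin 8), hlt r⟩ : Fin 7) (1 : k))) :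
        Fin 5 → Vec k) = fun a : Fin 5 => Pi.single (sq i j l (Fin.natAdd 3 a)) 1 := by
      funext a
      refine Fin.cases ?_ (fun a => ?_) a
      · have e : (Fin.natAdd 3 (0 : Fin 5) : Fin 8) = 3 := rfl
        rw [Fin.cons_zero, e, h7 hl]
      · rw [Fin.cons_succ, i7_apply]
        funext m
        refine Fin.lastCases ?_ (fun m => ?_) m
        · rw [Fin.snoc_last, Pi.single_eq_of_ne]
          intro h6
          have := congrArg Fin.val h6
          have h7 := hlt a
          rw [← h6] at h7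
          simp at h7
        · rw [Fin.snoc_castSucc, Pi.single_apply, Pi.single_apply]
          refine if_congr ?_ rfl rfl
          rw [Fin.ext_iff, Fin.ext_iff]
          rfl
    rw [h5, hM, h0, h1, h2, br_smul_left] at h3
    have h4 : c • br (T i j l) y = 0 := h3
    rw [smul_eq_zero] at h4
    rcases h4 with h4 | h4
    · exact hc.ne_zero h4
    · exact hT h4
  refine (LicciD.GenN.of_residue g hg0).mono fun a ha => ?_
  rw [hg] at ha
  refine genS_rise _ p ?_
  convert ha using 2
  congr 1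
  funext r
  refine Fin.cases ?_ (fun r => ?_) r
  · funext s
    rw [Fin.cons_zero, Fin.cons_zero]
    change residue R ((Pi.single 7 1 : Vec R) s) = (Pi.single 7 1 : Vec k) s
    rw [Pi.single_apply, Pi.single_apply]
    split_ifs
    · exact map_one _
    · exact map_zero _
  · rw [Fin.cons_succ, Fin.cons_succ]
    funext s
    rw [i7_apply, i7_apply]
    refine Fin.lastCases ?_ (fun s => ?_) s
    · change residue R (Fin.snoc (α := fun _ => R) (a r) 0 (Fin.last 7)) = _
      rw [Fin.snoc_last, Fin.snoc_last, map_zero]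
    · change residue R (Fin.snoc (α := fun _ => R) (a r) 0 (Fin.castSucc s)) = _
      rw [Fin.snoc_castSucc, Fin.snoc_castSucc]
      rfl

end gen

end Pool.Agent.Licci
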