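import Pool.Agent.Work.MP_a98e4e_ag.D.Reduce

/-!
MP_a98e4e_ag (licci), module DS0 (helper62): the Dynkin condition in codimension at least five and
the final theorem in codimension at least five from the core statements `MainG R 5`, `MainG R 6`
and the theorem of Kunz.
-/

set_option autoImplicit false

namespace Pool.Agent.Licci.D

open IsLocalRing RingTheory.Sequence LicciCodimFour

universe u

/-- The Dynkin condition in codimension at least five. -/
theorem dynkin_ge_five {c d t : ℕ} (hc : 5 ≤ c) (hd : 1 ≤ d) (ht : 1 ≤ t)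
    (h : IsDynkinT (c - 1) (d + 1) (t + 1)) :
    (d = 1 ∧ t = 1) ∨ ((c = 5 ∨ c = 6) ∧ ((d = 2 ∧ t = 1) ∨ (d = 1 ∧ t = 2))) := by
  unfold IsDynkinT at h
  obtain ⟨m, rfl⟩ : ∃ m, c = m + 1 := ⟨c - 1, by omega⟩
  have e : m + 1 - 1 = m := rfl
  rw [e] at h
  have hm : 4 ≤ m := by omega
  have hm0 : (0 : ℚ) < m := by
    have : (4 : ℚ) ≤ m := by exact_mod_cast hm
    linarith
  have hd0 : (0 : ℚ) < ((d + 1 : ℕ) : ℚ) := by positivity
  have ht0 : (0 : ℚ) < ((t + 1 : ℕ) : ℚ) := by positivity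
  -- clear denominators
  have key : m * (d + 1) * (t + 1) < (d + 1) * (t + 1) + m * (t + 1) + m * (d + 1) := by
    have h1 : (m : ℚ) * ((d + 1 : ℕ) : ℚ) * ((t + 1 : ℕ) : ℚ) * 1 <
        (m : ℚ) * ((d + 1 : ℕ) : ℚ) * ((t + 1 : ℕ) : ℚ) *
          (1 / (m : ℚ) + 1 / ((d + 1 : ℕ) : ℚ) + 1 / ((t + 1 : ℕ) : ℚ)) :=
      mul_lt_mul_of_pos_left h (by positivity)
    have h2 : (m : ℚ) * ((d + 1 : ℕ) : ℚ) * ((t + 1 : ℕ) : ℚ) *
          (1 / (m : ℚ) + 1 / ((d + 1 : ℕ) : ℚ) + 1 / ((t + 1 : ℕ) : ℚ)) =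
        ((d + 1 : ℕ) : ℚ) * ((t + 1 : ℕ) : ℚ) + (m : ℚ) * ((t + 1 : ℕ) : ℚ) +
          (m : ℚ) * ((d + 1 : ℕ) : ℚ) := by
      field_simp
    rw [h2, mul_one] at h1
    exact_mod_cast h1
  obtain ⟨d, rfl⟩ := Nat.exists_eq_add_of_le hd
  obtain ⟨t, rfl⟩ := Nat.exists_eq_add_of_le ht
  obtain ⟨m, rfl⟩ := Nat.exists_eq_add_of_le hm
  -- one of `d`, `t` is zero
  have hdt : d = 0 ∨ t = 0 := by
    by_contra hcon
    push Not at hcon
    obtain ⟨d, rfl⟩ := Nat.exists_eq_succ_of_ne_zero hcon.1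
    obtain ⟨t, rfl⟩ := Nat.exists_eq_succ_of_ne_zero hcon.2
    simp only [Nat.succ_eq_add_one] at key
    nlinarith [Nat.zero_le (m * d), Nat.zero_le (m * t), Nat.zero_le (d * t),
      Nat.zero_le (m * d * t), Nat.zero_le m, Nat.zero_le d, Nat.zero_le t]
  rcases hdt with rfl | rfl
  · have ht2 : t ≤ 1 := by
      by_contra hcon
      obtain ⟨t, rfl⟩ : ∃ s, t = s + 2 := ⟨t - 2, by omega⟩
      nlinarith [Nat.zero_le (m * t), Nat.zero_le m, Nat.zero_le t]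
    interval_cases t
    · left; exact ⟨rfl, rfl⟩
    · right
      exact ⟨by omega, Or.inr ⟨rfl, rfl⟩⟩
  · have hd2 : d ≤ 1 := by
      by_contra hcon
      obtain ⟨d, rfl⟩ : ∃ s, d = s + 2 := ⟨d - 2, by omega⟩
      nlinarith [Nat.zero_le (m * d), Nat.zero_le m, Nat.zero_le d]
    interval_cases d
    · left; exact ⟨rfl, rfl⟩
    · right
      exact ⟨by omega, Or.inl ⟨rfl, rfl⟩⟩

variable {R : Type u} [CommRing R]

/-- All Dynkin cases in codimension at least five from the core statements. -/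
theorem codim_ge_five [IsRegularLocalRing R] [Infinite (ResidueField R)]
    (main5 : MainG R 5) (main6 : MainG R 6)
    (kunz : ∀ (c : ℕ) (I : Ideal R), 5 ≤ c → ¬ IsPerfectWith I c 1 1)
    (I : Ideal R) (c d t : ℕ) (hc : 5 ≤ c) (hd : 1 ≤ d) (ht : 1 ≤ t)
    (hdyn : IsDynkinT (c - 1) (d + 1) (t + 1)) (hI : IsPerfectOfInvariants I c d t) :
    IsLicci I := by
  have h := hI.isPerfectWith
  rcases dynkin_ge_five hc hd ht hdyn with ⟨rfl, rfl⟩ | ⟨rfl | rfl, ⟨rfl, rfl⟩ | ⟨rfl, rfl⟩⟩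
  · exact absurd h (kunz c I hc)
  · exact licci_type_one (by norm_num) main5 I h
  · exact licci_dev_one (by norm_num) main5 I h
  · exact licci_type_one (by norm_num) main6 I h
  · exact licci_dev_one (by norm_num) main6 I h

end Pool.Agent.Licci.D
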