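import Pool.Agent.Work.MP_a98e4e_ag.D.Kunz
import Pool.Agent.Work.MP_a98e4e_ag.D.Bridge
import Pool.Agent.Work.MP_a98e4e_ag.LinkStep
import Pool.Agent.Work.MP_a98e4e_ag.Regular

/-!
MP_a98e4e_ag (licci), the format `(c, 1, 1)` is empty (helper75).
-/

set_option autoImplicit false

namespace Pool.Agent.Licci.D

open IsLocalRing RingTheory.Sequence LicciCodimFour

universe u

variable {R : Type u} [CommRing R]

/-- No perfect ideal with `c + 1` generators and `A : I = A + (w)`. -/
theorem kunz_of_link [IsRegularLocalRing R] {I : Ideal R} {b : ℕ → ℕ}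
    (F : MinimalFreeResolution I b) {c : ℕ} (hb1 : b 1 = c + 1) (a : Fin c → R)
    (ha : IsWeaklyRegular R (List.ofFn a)) (haI : ∀ i, a i ∈ I) (w : R)
    (h1 : (Ideal.span (Set.range a)).colon (I : Set R) =
      Ideal.span (Set.range a) ⊔ Ideal.span {w})
    (h2 : (Ideal.span (Set.range a)).colon
      ((Ideal.span (Set.range a)).colon (I : Set R) : Set R) = I) : False := by
  obtain ⟨rs, -, hm, hrs⟩ := exists_regular_generators R
  let E : (Fin (c + 1) → R) ≃ₗ[R] (Fin (b 1) → R) := LinearEquiv.funCongrLeft R R (finCongr hb1)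
  let f : (Fin (c + 1) → R) →ₗ[R] R := F.aug ∘ₗ E.toLinearMap
  have hrange : LinearMap.range f = I := by
    rw [← F.range_aug]
    exact LinearMap.range_comp_of_range_eq_top _ (LinearEquiv.range E)
  have hex : ∀ i, ∃ v, f v = a i := fun i => by
    have : a i ∈ LinearMap.range f := by rw [hrange]; exact haI i
    exact this
  choose e he using hex
  have hfa : (fun i => f (e i)) = a := funext he
  refine Kunz.kunz rs hrs.toIsWeaklyRegular hm f (fun v => F.minimal_aug _) ?_ e
    (by rw [hfa]; exact ha) w ?_ ?_ ?_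
  · intro v hv i
    obtain ⟨y, hy⟩ := (F.exact_aug (E v)).1 hv
    have h3 : v i = E v (finCongr hb1.symm i) := by
      change v i = v (finCongr hb1 (finCongr hb1.symm i))
      simp
    rw [h3, ← hy]
    exact F.minimal_d 0 y _
  · intro y hy
    rw [hfa] at hy ⊢
    rw [← h1, mem_colon_iff']
    intro x hx
    rw [← hrange] at hx
    obtain ⟨v, rfl⟩ := hx
    exact hy v
  · intro y hy
    rw [hfa] at hy
    have : y ∈ LinearMap.range f := by
      rw [hrange, ← h2, mem_colon_iff']
      intro x hx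
      rw [h1] at hx
      obtain ⟨s, hs, t, ht, rfl⟩ := Submodule.mem_sup.1 hx
      obtain ⟨r, rfl⟩ := Ideal.mem_span_singleton'.1 ht
      have e1 : y * (s + r * w) = y * s + r * (y * w) := by ring
      rw [e1]
      exact add_mem (Ideal.mul_mem_left _ _ hs) (Ideal.mul_mem_left _ _ hy)
    exact this
  · intro v
    rw [hfa]
    have h3 : w ∈ (Ideal.span (Set.range a)).colon (I : Set R) := by
      rw [h1]
      exact Ideal.mem_sup_right (Ideal.mem_span_singleton_self _)
    rw [mem_colon_iff'] at h3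
    exact h3 _ (by rw [← hrange]; exact ⟨v, rfl⟩)

/-- The format `(c, 1, 1)` is empty, given the bridge. -/
theorem not_isPerfectWith_one_one_of_bridge [IsRegularLocalRing R]
    (bridge : ∀ {c : ℕ} (_ : 1 ≤ c) {I : Ideal R} {b : ℕ → ℕ}
      (_ : MinimalFreeResolution I b) (_ : ∀ i, c < i → b i = 0) (a : Fin c → R)
      (_ : IsWeaklyRegular R (List.ofFn a)) (_ : ∀ i, a i ∈ I),
      ∃ u : Fin (b c) → R,
        (Ideal.span (Set.range a)).colon (I : Set R) =
          Ideal.span (Set.range a) ⊔ Ideal.span (Set.range u) ∧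
        (Ideal.span (Set.range a)).colon
          ((Ideal.span (Set.range a)).colon (I : Set R) : Set R) = I)
    (I : Ideal R) (c : ℕ) : ¬ IsPerfectWith I c 1 1 := by
  rintro ⟨⟨rs, hlen, hrs, hrsI⟩, b, hb1, hbc, hb, ⟨F⟩⟩
  have hc : 1 ≤ c := by
    by_contra hc
    have : c = 0 := by omega
    subst this
    have := hb 1 (by omega)
    omega
  let a0 : Fin c → R := fun i => rs.get (i.cast hlen.symm)
  have ha0 : List.ofFn a0 = rs := by
    apply List.ext_getElem
    · simp [hlen]
    · intro i h1 h2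
      simp [a0]
  have ha0I : ∀ i, a0 i ∈ I := fun i => hrsI _ (List.get_mem _ _)
  have hreg0 : IsWeaklyRegular R (List.ofFn a0) := by
    rw [ha0]
    exact hrs.toIsWeaklyRegular
  obtain ⟨u, hu1, hu2⟩ := bridge hc F hb a0 hreg0 ha0I
  have hspan : Ideal.span (Set.range u) = Ideal.span {u (Fin.cast hbc.symm 0)} := by
    congr 1
    ext x
    constructor
    · rintro ⟨i, rfl⟩
      have : i = Fin.cast hbc.symm 0 := by
        apply Fin.ext
        have := i.2
        simp only [Fin.val_cast, Fin.val_zero]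
        omega
      rw [this]
      rfl
    · rintro rfl
      exact ⟨_, rfl⟩
  rw [hspan] at hu1
  exact kunz_of_link F hb1 a0 hreg0 ha0I _ hu1 hu2

/-- The format `(c, 1, 1)` is empty. -/
theorem kunz [IsRegularLocalRing R] (c : ℕ) (I : Ideal R) : ¬ IsPerfectWith I c 1 1 :=
  not_isPerfectWith_one_one_of_bridge
    (fun hc _ _ F hb a ha haI => bridge_c F _ hc hb a ha haI) I c

end Pool.Agent.Licci.D
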