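import Pool.Agent.Work.MP_a98e4e_ag.L.Main8
import Pool.Agent.Work.MP_a98e4e_ag.D.FinalC
import Pool.Agent.Work.MP_a98e4e_ag.D.KunzF

/-!
MP_a98e4e_ag (licci), module DS0 (helper62): the final theorem in all codimensions at least four
from the two core statements `MainG R 5` and `MainG R 6`.
-/

set_option autoImplicit false

namespace Pool.Agent.Licci.D

open IsLocalRing RingTheory.Sequence LicciCodimFour

universe u

/-- The theorem of Kunz: there is no perfect ideal of deviation one and type one. -/
theorem not_isPerfectWith_one_one {R : Type u} [CommRing R] [IsRegularLocalRing R]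
    (I : Ideal R) (c : ℕ) : ¬ IsPerfectWith I c 1 1 :=
  not_isPerfectWith_one_one_of_bridge
    (fun {c} hc _ _ F hb a ha haI => bridge_c F c hc hb a ha haI) I c

/-- Positive integers are units in a local ring with residue field of characteristic zero. -/
theorem natCast_isUnit {R : Type u} [CommRing R] [IsLocalRing R] [CharZero (ResidueField R)]
    {n : ℕ} (hn : n ≠ 0) : IsUnit (n : R) := by
  by_contra h
  have h1 : residue R (n : R) = 0 := (residue_eq_zero_iff _).2 ((mem_maximalIdeal _).2 h)
  rw [map_natCast] at h1
  exact hn (Nat.cast_eq_zero.1 h1)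

/-- A local ring with residue field of characteristic zero is a `ℚ`-algebra. -/
theorem exists_algebra_rat (R : Type u) [CommRing R] [IsLocalRing R]
    [CharZero (ResidueField R)] : Nonempty (Algebra ℚ R) := by
  have hu : ∀ x : nonZeroDivisors ℤ, IsUnit (algebraMap ℤ R (x : ℤ)) := by
    intro x
    have hx : (x : ℤ) ≠ 0 := nonZeroDivisors.coe_ne_zero x
    rw [algebraMap_int_eq, eq_intCast]
    rcases Int.natAbs_eq (x : ℤ) with h | h
    · rw [h, Int.cast_natCast]
      exact natCast_isUnit (Int.natAbs_ne_zero.2 hx)
    · rw [h, Int.cast_neg, Int.cast_natCast]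
      exact (natCast_isUnit (Int.natAbs_ne_zero.2 hx)).neg
  exact ⟨(IsLocalization.lift (M := nonZeroDivisors ℤ) (g := algebraMap ℤ R) hu :
    ℚ →+* R).toAlgebra⟩

/-- All Dynkin cases in codimension at least four from the core statements in codimension five
and six. -/
theorem licci_of_mainG (R : Type u) [CommRing R] [IsRegularLocalRing R]
    [CharZero (ResidueField R)] (main5 : MainG R 5) (main6 : MainG R 6)
    (I : Ideal R) (c d t : ℕ) (hc : 4 ≤ c) (hd : 1 ≤ d) (ht : 1 ≤ t)
    (hdyn : IsDynkinT (c - 1) (d + 1) (t + 1)) (hI : IsPerfectOfInvariants I c d t) :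
    IsLicci I := by
  have : Infinite (ResidueField R) :=
    Infinite.of_injective _ (Nat.cast_injective (R := ResidueField R))
  rcases Nat.lt_or_ge 4 c with h | h
  · exact codim_ge_five main5 main6 (fun c I _ => not_isPerfectWith_one_one I c) I c d t h hd ht
      hdyn hI
  · obtain rfl : c = 4 := le_antisymm h hc
    obtain ⟨_⟩ := exists_algebra_rat R
    exact codim_four (Pool.Agent.Licci.main8 R) I d t hd ht hdyn hI

end Pool.Agent.Licci.D
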