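import Pool.Agent.Work.MP_a98e4e_ag.D.Mv
import Pool.Agent.Work.MP_a98e4e_ag.Wedge

/-!
# LICCI, codimension 5 and 6: `6`-forms on `R ^ 8` and `2`-vectors (helper45)
-/

set_option linter.unusedSectionVars false

noncomputable section

namespace Pool.Agent.Licci

open scoped BigOperators

/-! ### `f ∧ ν = 0` in the form of a sum -/

section cyc

variable {R M : Type*} [CommRing R] [AddCommGroup M] [Module R M]

theorem cyc_of_wedge {n : ℕ} (f : M →ₗ[R] R) (ν : M [⋀^Fin (n + 1)]→ₗ[R] R)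
    (h : wedge f (n + 1) ν = 0) (a : Fin (n + 1) → M) (v : M) :
    ∑ j, f (a j) * ν (Function.update a j v) = f v * ν a := by
  have h1 : wedge f (n + 1) ν (Fin.cons v a) = 0 := by
    rw [h]
    rfl
  rw [wedge_apply, Fin.sum_univ_succ] at h1
  have h2 : (Fin.removeNth 0 (Fin.cons v a : Fin (n + 2) → M)) = a := by
    rw [Fin.removeNth_zero, Fin.tail_cons]
  have h3 : ∀ j : Fin (n + 1), ν (Function.update a j v) =
      (-1 : ℤ) ^ (j : ℕ) • ν (Fin.cons v (j.removeNth a)) := by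
    intro j
    rw [← Fin.insertNth_removeNth, AlternatingMap.map_insertNth]
    rfl
  have h4 : ∀ j : Fin (n + 1), (Fin.removeNth j.succ (Fin.cons v a : Fin (n + 2) → M)) =
      (Fin.cons v (j.removeNth a) : Fin (n + 1) → M) := by
    intro j
    funext r
    refine Fin.cases ?_ (fun r => ?_) r
    · rw [Fin.removeNth_apply, Fin.succ_succAbove_zero, Fin.cons_zero, Fin.cons_zero]
    · rw [Fin.removeNth_apply, Fin.succ_succAbove_succ, Fin.cons_succ, Fin.cons_succ,
        Fin.removeNth_apply]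
  rw [h2] at h1
  simp only [h4, Fin.cons_zero, Fin.cons_succ, Fin.val_zero, pow_zero, one_smul, smul_eq_mul,
    Fin.val_succ] at h1
  rw [← sub_eq_zero, ← neg_eq_zero, neg_sub, ← h1, sub_eq_add_neg, ← Finset.sum_neg_distrib]
  congr 1
  refine Finset.sum_congr rfl fun j _ => ?_
  rw [h3, pow_succ]
  simp only [mul_neg, mul_one, neg_smul]
  rw [mul_smul_comm]

end cyc

/-! ### combinatorics -/

/-- the complement of `p, q`, increasing -/
def cpl6 (p q : Fin 8) (r : Fin 6) : Fin 8 :=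
  ((List.finRange 8).filter fun x => x ≠ p ∧ x ≠ q).getD r 0

set_option maxRecDepth 100000 in
theorem cpl6_chk : ∀ p q : Fin 8, p ≠ q → (∀ r s : Fin 6, cpl6 p q r = cpl6 p q s → r = s) ∧
    (∀ r, cpl6 p q r ≠ p ∧ cpl6 p q r ≠ q) ∧ ∀ r, cpl6 p q r = cpl6 q p r := by
  decide +kernel

theorem range_tail {p q : Fin 8} {t : Fin 6 → Fin 8} (hpq : p ≠ q)
    (ht : Function.Injective t) (hp : ∀ r, t r ≠ p ∧ t r ≠ q) :
    ∀ x, x ≠ p → x ≠ q → ∃ r, t r = x := by
  intro x hx1 hx2
  have hs : Function.Injective (Fin.cons p (Fin.cons q t : Fin 7 → Fin 8) : Fin 8 → Fin 8) := by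
    rw [Fin.cons_injective_iff]
    refine ⟨?_, ?_⟩
    · rintro ⟨r, hr⟩
      refine Fin.cases (fun h => ?_) (fun r h => ?_) r hr
      · exact hpq h.symm
      · exact (hp r).1 h
    · rw [Fin.cons_injective_iff]
      refine ⟨?_, ht⟩
      rintro ⟨r, hr⟩
      exact (hp r).2 hr
  obtain ⟨r, hr⟩ := (Finite.injective_iff_surjective.mp hs) x
  refine Fin.cases (fun h => ?_) (fun r h => ?_) r hr
  · exact absurd h.symm hx1
  · refine Fin.cases (fun h => ?_) (fun r h => ?_) r h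
    · exact absurd h.symm hx2
    · exact ⟨r, h⟩

theorem exists_perm_tail {t t' : Fin 6 → Fin 8} (ht : Function.Injective t)
    (ht' : Function.Injective t') (h : ∀ r, ∃ s, t s = t' r) :
    ∃ σ : Equiv.Perm (Fin 6), t' = t ∘ σ := by
  choose σ hσ using h
  have hinj : Function.Injective σ := by
    intro r s hrs
    apply ht'
    rw [← hσ, ← hσ, hrs]
  refine ⟨Equiv.ofBijective σ (Finite.injective_iff_bijective.mp hinj), ?_⟩
  funext r
  exact (hσ r).symm

/-- two missing indices of an injective `6`-tuple -/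
theorem exists_missing (t : Fin 6 → Fin 8) :
    ∃ p q : Fin 8, p ≠ q ∧ ∀ r, t r ≠ p ∧ t r ≠ q := by
  classical
  have hc : 1 < (Finset.univ \ Finset.univ.image t : Finset (Fin 8)).card := by
    rw [Finset.card_sdiff_of_subset (Finset.subset_univ _)]
    have h1 : (Finset.univ.image t).card ≤ 6 := by
      have := Finset.card_image_le (s := (Finset.univ : Finset (Fin 6))) (f := t)
      simpa using this
    have h2 : (Finset.univ : Finset (Fin 8)).card = 8 := by simp
    omega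
  obtain ⟨p, hp, q, hq, hpq⟩ := Finset.one_lt_card.mp hc
  refine ⟨p, q, hpq, fun r => ⟨?_, ?_⟩⟩
  · rintro rfl
    simp at hp
  · rintro rfl
    simp at hq

variable {A : Type*} [CommRing A]

/-- basis tuple -/
def bt {n : ℕ} (t : Fin n → Fin 8) : Fin n → Vec A := fun r => Pi.single (t r) 1

theorem alt_perm_sq {n : ℕ} {M : Type*} [AddCommGroup M] [Module A M]
    (α β : M [⋀^Fin n]→ₗ[A] A) (t : Fin n → M) (σ : Equiv.Perm (Fin n)) :
    α (t ∘ σ) * β (t ∘ σ) = α t * β t := by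
  rw [AlternatingMap.map_perm, AlternatingMap.map_perm]
  rcases Int.units_eq_one_or (Equiv.Perm.sign σ) with h | h
  · rw [h, one_smul, one_smul]
  · rw [h, Units.smul_def, Units.smul_def]
    simp

/-- squares of values on permutations of the basis -/
def SqF {κ : Type*} [Fintype κ] [DecidableEq κ] (ω : (κ → A) [⋀^κ]→ₗ[A] A) : Prop :=
  ∀ s : κ → κ, Function.Injective s →
    ω (fun r => Pi.single (s r) 1) * ω (fun r => Pi.single (s r) 1) = 1

/-- squares of determinants of permutations -/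
theorem sqF_det {κ : Type*} [Fintype κ] [DecidableEq κ] :
    SqF (Matrix.detRowAlternating : (κ → A) [⋀^κ]→ₗ[A] A) := by
  intro s hs
  set g : Matrix κ κ A := Matrix.of fun r => Pi.single (s r) 1 with hg
  have h1 : g * g.transpose = 1 := by
    ext r r'
    rw [Matrix.mul_apply, Matrix.one_apply]
    change ∑ m, (Pi.single (s r) 1 : κ → A) m * (Pi.single (s r') 1 : κ → A) m = _
    rw [Finset.sum_eq_single (s r)]
    · rw [Pi.single_eq_same, one_mul, Pi.single_apply]
      refine if_congr ?_ rfl rfl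
      exact ⟨fun h => hs h, fun h => by rw [h]⟩
    · intro b _ hb
      rw [Pi.single_eq_of_ne hb, zero_mul]
    · intro h
      exact absurd (Finset.mem_univ _) h
  have h7 := congrArg Matrix.det h1
  rw [Matrix.det_mul, Matrix.det_transpose, Matrix.det_one] at h7
  exact h7

theorem sqF_dF : SqF (dF A) := by
  rw [dF_eq]
  exact sqF_det

theorem vol2_bt_sq {ω : Vec A [⋀^Fin 8]→ₗ[A] A} (hS : SqF ω) {p q : Fin 8} (hpq : p ≠ q) {t : Fin 6 → Fin 8} (ht : Function.Injective t)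
    (hp : ∀ r, t r ≠ p ∧ t r ≠ q) :
    vol2 ω p q (bt t) * vol2 ω p q (bt t) = 1 := by
  have hs : Function.Injective (Fin.cons p (Fin.cons q t : Fin 7 → Fin 8) : Fin 8 → Fin 8) := by
    rw [Fin.cons_injective_iff]
    refine ⟨?_, ?_⟩
    · rintro ⟨r, hr⟩
      refine Fin.cases (fun h => ?_) (fun r h => ?_) r hr
      · exact hpq h.symm
      · exact (hp r).1 h
    · rw [Fin.cons_injective_iff]
      refine ⟨?_, ht⟩
      rintro ⟨r, hr⟩
      exact (hp r).2 hr
  have h1 : ω (bt _) * ω (bt _) = 1 := hS _ hs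
  have h2 : (bt (Fin.cons p (Fin.cons q t : Fin 7 → Fin 8) : Fin 8 → Fin 8) : Fin 8 → Vec A) =
      Fin.cons (Pi.single p 1) (Fin.cons (Pi.single q 1) (bt t)) := by
    funext r
    refine Fin.cases ?_ (fun r => ?_) r
    · rfl
    · refine Fin.cases ?_ (fun r => ?_) r
      · rfl
      · rfl
  rw [h2] at h1
  rw [vol2_apply]
  exact h1

/-- `vol2` with a repeated index -/
theorem vol2_bt_zero (ω : Vec A [⋀^Fin 8]→ₗ[A] A) {i j : Fin 8} {t : Fin 6 → Fin 8}
    (h : i = j ∨ (∃ r, t r = i) ∨ ∃ r, t r = j) : vol2 ω i j (bt t) = 0 := by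
  rw [vol2_apply]
  rcases h with h | ⟨r, hr⟩ | ⟨r, hr⟩
  · subst h
    exact ω.map_eq_zero_of_eq _ (i := 0) (j := 1) rfl (by decide)
  · refine ω.map_eq_zero_of_eq _ (i := 0) (j := r.succ.succ) ?_ ?_
    · rw [Fin.cons_zero, Fin.cons_succ, Fin.cons_succ]
      unfold bt
      rw [hr]
    · exact (Fin.succ_ne_zero _).symm
  · refine ω.map_eq_zero_of_eq _ (i := 1) (j := r.succ.succ) ?_ ?_
    · rw [Fin.cons_succ, Fin.cons_succ]
      unfold bt
      rw [hr]
      rfl
    · intro h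
      have := congrArg Fin.val h
      simp at this

/-- the `2`-vector of a `6`-form -/
def zt (ω : Vec A [⋀^Fin 8]→ₗ[A] A) (ν : Vec A [⋀^Fin 6]→ₗ[A] A) (p q : Fin 8) : A :=
  if p = q then 0 else vol2 ω p q (bt (cpl6 p q)) * ν (bt (cpl6 p q))

variable [Algebra ℚ A]

theorem zt_self (ω : Vec A [⋀^Fin 8]→ₗ[A] A) (ν : Vec A [⋀^Fin 6]→ₗ[A] A) (p : Fin 8) : zt ω ν p p = 0 := by
  unfold zt
  rw [if_pos rfl]

theorem zt_swap (ω : Vec A [⋀^Fin 8]→ₗ[A] A) (ν : Vec A [⋀^Fin 6]→ₗ[A] A) (p q : Fin 8) : zt ω ν p q = - zt ω ν q p := by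
  unfold zt
  by_cases h : p = q
  · rw [if_pos h, if_pos h.symm, neg_zero]
  · rw [if_neg h, if_neg (Ne.symm h), vol2_swap]
    have h2 : cpl6 p q = cpl6 q p := funext fun r => (cpl6_chk p q h).2.2 r
    rw [h2]
    ring

theorem zt_eq (ω : Vec A [⋀^Fin 8]→ₗ[A] A) (ν : Vec A [⋀^Fin 6]→ₗ[A] A) {p q : Fin 8} (hpq : p ≠ q) {t : Fin 6 → Fin 8}
    (ht : Function.Injective t) (hp : ∀ r, t r ≠ p ∧ t r ≠ q) :
    zt ω ν p q = vol2 ω p q (bt t) * ν (bt t) := by
  unfold zt
  rw [if_neg hpq]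
  obtain ⟨h1, h2, -⟩ := cpl6_chk p q hpq
  obtain ⟨σ, hσ⟩ := exists_perm_tail ht (fun r s h => h1 r s h)
    (fun r => range_tail hpq ht hp _ (h2 r).1 (h2 r).2)
  have h3 : (bt (cpl6 p q) : Fin 6 → Vec A) = bt t ∘ σ := by
    funext r
    unfold bt
    rw [hσ]
    rfl
  rw [h3]
  exact alt_perm_sq _ _ _ σ

theorem half_two : algebraMap ℚ A (1 / 2) * 2 = 1 := by
  rw [← map_ofNat (algebraMap ℚ A) 2, ← map_mul]
  norm_num

/-- every `6`-form comes from a `2`-vector -/
theorem nu6_of_zt {ω : Vec A [⋀^Fin 8]→ₗ[A] A} (hS : SqF ω) (ν : Vec A [⋀^Fin 6]→ₗ[A] A) (Y : E8 A) (h : ∀ i j, w2 Y i j = zt ω ν i j) :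
    nu6 ω Y = ν := by
  refine Module.Basis.ext_alternating (Pi.basisFun A (Fin 8)) fun v hv => ?_
  have e : (fun i => (Pi.basisFun A (Fin 8)) (v i)) = (bt v : Fin 6 → Vec A) := by
    funext i
    rw [Pi.basisFun_apply]
    rfl
  rw [e, nu6_apply]
  obtain ⟨p, q, hpq, hm⟩ := exists_missing v
  have hr := range_tail hpq hv hm
  have hz : ∀ i j, ¬ (i = p ∧ j = q) → ¬ (i = q ∧ j = p) →
      w2 Y i j * vol2 ω i j (bt v) = 0 := by
    intro i j h1 h2
    rw [vol2_bt_zero, mul_zero]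
    by_cases hij : i = j
    · exact Or.inl hij
    right
    by_cases hi : i ≠ p ∧ i ≠ q
    · exact Or.inl (hr i hi.1 hi.2)
    by_cases hj : j ≠ p ∧ j ≠ q
    · exact Or.inr (hr j hj.1 hj.2)
    exfalso
    rw [not_and_or, not_not, not_not] at hi hj
    rcases hi with rfl | rfl <;> rcases hj with rfl | rfl
    · exact hij rfl
    · exact h1 ⟨rfl, rfl⟩
    · exact h2 ⟨rfl, rfl⟩
    · exact hij rfl
  have hs : ∑ i, ∑ j, w2 Y i j * vol2 ω i j (bt v) =
      2 * (w2 Y p q * vol2 ω p q (bt v)) := by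
    rw [← Finset.sum_product', Finset.univ_product_univ,
      ← Finset.sum_subset (Finset.subset_univ {(p, q), (q, p)})]
    · rw [Finset.sum_pair (by
        intro h
        exact hpq (congrArg Prod.fst h))]
      rw [w2_swap Y q p, vol2_swap ω q p]
      ring
    · rintro ⟨i, j⟩ - hij
      apply hz i j
      · rintro ⟨rfl, rfl⟩
        simp at hij
      · rintro ⟨rfl, rfl⟩
        simp at hij
  rw [hs, ← mul_assoc, half_two, one_mul, h, zt_eq ω ν hpq hv hm]
  have h1 := vol2_bt_sq hS hpq hv hm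
  linear_combination (ν (bt v)) * h1

/-- a closed `6`-form gives a Koszul cycle -/
theorem zt_closed {ω : Vec A [⋀^Fin 8]→ₗ[A] A} (hS : SqF ω) (hc : Cram ω) (f : Vec A →ₗ[A] A) (ν : Vec A [⋀^Fin 6]→ₗ[A] A)
    (hν : ∀ (a : Fin 6 → Vec A) (v : Vec A),
      ∑ j, f (a j) * ν (Function.update a j v) = f v * ν a) (q : Fin 8) :
    ∑ i, f (Pi.single i 1) * zt ω ν i q = 0 := by
  -- a state with the given two-vector
  obtain ⟨Y, hY⟩ : ∃ Y : E8 A, ∀ i j, w2 Y i j = zt ω ν i j :=
    ⟨W2 (zt ω ν), w2_W2 _ (zt_self ω ν) (zt_swap ω ν)⟩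
  have hnu := nu6_of_zt hS ν Y hY
  set F : Fin 8 → A := fun q => ∑ i, f (Pi.single i 1) * zt ω ν i q with hF
  have key : ∀ (a : Fin 6 → Vec A) (v : Vec A),
      ∑ q, F q * ω (Fin.cons v (Fin.cons (Pi.single q 1) a)) = 0 := by
    intro a v
    have h1 := hν a v
    rw [← hnu] at h1
    simp only [nu6_apply] at h1
    have e1 : ∑ j, f (a j) * (algebraMap ℚ A (1 / 2) *
        ∑ p, ∑ q, w2 Y p q * vol2 ω p q (Function.update a j v)) =
        algebraMap ℚ A (1 / 2) * ∑ p, ∑ q, w2 Y p q *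
          ∑ l, f (a l) * vol2 ω p q (Function.update a l v) := by
      simp only [Finset.mul_sum]
      rw [Finset.sum_comm]
      refine Finset.sum_congr rfl fun p _ => ?_
      rw [Finset.sum_comm]
      refine Finset.sum_congr rfl fun q _ => ?_
      refine Finset.sum_congr rfl fun l _ => ?_
      ring
    rw [e1] at h1
    simp only [hc.vol2] at h1
    have e2 : ∑ p, ∑ q, w2 Y p q * (f v * vol2 ω p q a -
        f (Pi.single p 1) * ω (Fin.cons v (Fin.cons (Pi.single q 1) a)) -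
        f (Pi.single q 1) * ω (Fin.cons (Pi.single p 1) (Fin.cons v a))) =
        f v * ∑ p, ∑ q, w2 Y p q * vol2 ω p q a -
        2 * ∑ q, F q * ω (Fin.cons v (Fin.cons (Pi.single q 1) a)) := by
      have e3 : ∑ p, ∑ q, w2 Y p q * (f (Pi.single p 1) *
          ω (Fin.cons v (Fin.cons (Pi.single q 1) a))) =
          ∑ q, F q * ω (Fin.cons v (Fin.cons (Pi.single q 1) a)) := by
        rw [Finset.sum_comm]
        refine Finset.sum_congr rfl fun q _ => ?_
        rw [hF]
        simp only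
        rw [Finset.sum_mul]
        refine Finset.sum_congr rfl fun p _ => ?_
        rw [hY]
        ring
      have e4 : ∑ p, ∑ q, w2 Y p q * (f (Pi.single q 1) *
          ω (Fin.cons (Pi.single p 1) (Fin.cons v a))) =
          ∑ q, F q * ω (Fin.cons v (Fin.cons (Pi.single q 1) a)) := by
        refine Finset.sum_congr rfl fun p _ => ?_
        rw [hF]
        simp only
        rw [Finset.sum_mul]
        refine Finset.sum_congr rfl fun q _ => ?_
        rw [w2_swap, hY, alt_swap01 (n := 6) ω (Pi.single p 1) v a]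
        ring
      simp only [mul_sub, Finset.sum_sub_distrib]
      rw [e3, e4, Finset.mul_sum]
      have e5 : ∀ p, ∑ q, w2 Y p q * (f v * vol2 ω p q a) =
          f v * ∑ q, w2 Y p q * vol2 ω p q a := by
        intro p
        rw [Finset.mul_sum]
        refine Finset.sum_congr rfl fun q _ => ?_
        ring
      rw [Finset.sum_congr rfl fun p _ => e5 p]
      ring
    rw [e2] at h1
    have h2 := half_two (A := A)
    linear_combination (-1 : A) * h1 - (∑ q, F q * ω (Fin.cons v (Fin.cons (Pi.single q 1) a))) * h2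
  change F q = 0
  obtain ⟨r, hrq, -⟩ := exists_third q q
  obtain ⟨h1, h2, -⟩ := cpl6_chk r q hrq
  have h3 := key (bt (cpl6 r q)) (Pi.single r 1)
  rw [Finset.sum_eq_single q] at h3
  · have h4 := vol2_bt_sq hS hrq (fun x y h => h1 x y h) h2
    rw [vol2_apply] at h4
    have h5 : F q * (ω (Fin.cons (Pi.single r 1) (Fin.cons (Pi.single q 1) (bt (cpl6 r q)))) *
        ω (Fin.cons (Pi.single r 1) (Fin.cons (Pi.single q 1) (bt (cpl6 r q))))) = 0 := by
      rw [← mul_assoc, h3, zero_mul]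
    rwa [h4, mul_one] at h5
  · intro b _ hb
    have h6 : vol2 ω r b (bt (cpl6 r q)) = 0 := by
      apply vol2_bt_zero
      by_cases hrb : r = b
      · exact Or.inl hrb
      · right
        right
        exact range_tail hrq (fun x y h => h1 x y h) h2 b (Ne.symm hrb) hb
    rw [vol2_apply] at h6
    rw [h6, mul_zero]
  · intro h
    exact absurd (Finset.mem_univ _) h

/-- **Hodge duality** for `6`-forms on `A ^ 8` -/
theorem exists_zeta (f : Vec A →ₗ[A] A) (ν : Vec A [⋀^Fin 6]→ₗ[A] A) (h : wedge f 6 ν = 0) :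
    ∃ ζ : Fin 8 → Fin 8 → A, (∀ i, ζ i i = 0) ∧ (∀ i j, ζ i j = - ζ j i) ∧
      (∀ j, ∑ i, f (Pi.single i 1) * ζ i j = 0) ∧
      ∀ p : E8 A, (∀ i j, w2 p i j = ζ i j) → nu6 (dF A) p = ν :=
  ⟨zt (dF A) ν, zt_self _ ν, zt_swap _ ν,
    zt_closed sqF_dF cram_dF f ν (fun a v => cyc_of_wedge (n := 5) f ν h a v),
    fun _ hp => nu6_of_zt sqF_dF ν _ hp⟩

end Pool.Agent.Licci
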