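import Pool.Agent.Work.MP_a98e4e_ag.D.Hodge
import Pool.Agent.Work.MP_a98e4e_ag.D.DescE

/-!
# LICCI, codimension 5: `5`-forms on `R ^ 7` and `2`-vectors (helper45)
-/

set_option linter.unusedSectionVars false

noncomputable section

namespace Pool.Agent.Licci

open scoped BigOperators

variable {A : Type*} [CommRing A]

/-- the projection to the first seven coordinates -/
def pr7 : Vec A →ₗ[A] (Fin 7 → A) where
  toFun v := fun i => v i.castSucc
  map_add' _ _ := rfl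
  map_smul' _ _ := rfl

theorem pr7_i7 (v : Fin 7 → A) : pr7 (i7 v) = v := by
  funext i
  change i7 v i.castSucc = v i
  rw [i7_apply, Fin.snoc_castSucc]

/-- the last coordinate -/
def co7 : Vec A →ₗ[A] A := LinearMap.proj 7

theorem co7_i7 (v : Fin 7 → A) : co7 (i7 v) = 0 := by
  change i7 v (Fin.last 7) = 0
  rw [i7_apply, Fin.snoc_last]

/-- the `6`-form on `A ^ 8` of a `5`-form on `A ^ 7` -/
def up5 (ν : (Fin 7 → A) [⋀^Fin 5]→ₗ[A] A) : Vec A [⋀^Fin 6]→ₗ[A] A :=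
  wedge co7 5 (ν.compLinearMap pr7)

theorem res5_up5 (ν : (Fin 7 → A) [⋀^Fin 5]→ₗ[A] A) : res5 (up5 ν) = ν := by
  ext a
  rw [res5_apply]
  unfold up5
  rw [wedge_apply, Fin.sum_univ_succ, Finset.sum_eq_zero, add_zero]
  · have h1 : (Fin.removeNth 0 (Fin.cons (Pi.single 7 1) (fun r => i7 (a r)) : Fin 6 → Vec A)) =
        fun r => i7 (a r) := by
      rw [Fin.removeNth_zero, Fin.tail_cons]
    rw [h1]
    have h2 : co7 ((Fin.cons (Pi.single 7 1) (fun r => i7 (a r)) : Fin 6 → Vec A) 0) = 1 := by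
      rw [Fin.cons_zero]
      change (Pi.single 7 1 : Vec A) 7 = 1
      rw [Pi.single_eq_same]
    rw [h2, one_smul, Fin.val_zero, pow_zero, one_smul, AlternatingMap.compLinearMap_apply]
    congr 1
    funext r
    exact pr7_i7 (a r)
  · intro j _
    rw [Fin.cons_succ, co7_i7, zero_smul, smul_zero]

/-- the form with last coordinate zero -/
def up1 (f : (Fin 7 → A) →ₗ[A] A) : Vec A →ₗ[A] A := f ∘ₗ pr7

theorem up5_closed (f : (Fin 7 → A) →ₗ[A] A) (ν : (Fin 7 → A) [⋀^Fin 5]→ₗ[A] A)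
    (h : wedge f 5 ν = 0) : wedge (up1 f) 6 (up5 ν) = 0 := by
  unfold up5
  rw [wedge_wedge_anti]
  have h1 : wedge (up1 f) 5 (ν.compLinearMap pr7) = 0 := by
    unfold up1
    rw [← wedge_compLinearMap, h]
    rfl
  rw [h1, map_zero, neg_zero]

theorem zt_seven (ω : Vec A [⋀^Fin 8]→ₗ[A] A) (ν : (Fin 7 → A) [⋀^Fin 5]→ₗ[A] A) (i : Fin 8) :
    zt ω (up5 ν) i 7 = 0 := by
  unfold zt
  by_cases h : i = 7
  · rw [if_pos h]
  · rw [if_neg h]
    have h1 : up5 ν (bt (cpl6 i 7)) = 0 := by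
      unfold up5
      rw [wedge_apply]
      refine Finset.sum_eq_zero fun j _ => ?_
      have h2 : co7 (bt (cpl6 i 7) j : Vec A) = 0 := by
        change (Pi.single (cpl6 i 7 j) 1 : Vec A) 7 = 0
        rw [Pi.single_eq_of_ne]
        exact ((cpl6_chk i 7 h).2.1 j).2.symm
      rw [h2, zero_smul, smul_zero]
    rw [h1, mul_zero]

theorem up1_single (f : (Fin 7 → A) →ₗ[A] A) (i : Fin 7) :
    up1 f (Pi.single i.castSucc 1) = f (Pi.single i 1) := by
  change f (pr7 _) = _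
  congr 1
  funext j
  change (Pi.single i.castSucc 1 : Vec A) j.castSucc = _
  rw [Pi.single_apply, Pi.single_apply]
  refine if_congr ?_ rfl rfl
  exact Fin.castSucc_inj

theorem up1_seven (f : (Fin 7 → A) →ₗ[A] A) : up1 f (Pi.single 7 1) = 0 := by
  change f (pr7 _) = 0
  have h : pr7 (Pi.single 7 1 : Vec A) = 0 := by
    funext j
    change (Pi.single (Fin.last 7) 1 : Vec A) j.castSucc = 0
    rw [Pi.single_eq_of_ne]
    exact (Fin.castSucc_lt_last j).ne
  rw [h, map_zero]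

variable [Algebra ℚ A]

/-- **Hodge duality** for `5`-forms on `A ^ 7` -/
theorem exists_zeta5 (f : (Fin 7 → A) →ₗ[A] A) (ν : (Fin 7 → A) [⋀^Fin 5]→ₗ[A] A)
    (h : wedge f 5 ν = 0) :
    ∃ ζ : Fin 8 → Fin 8 → A, (∀ i, ζ i i = 0) ∧ (∀ i j, ζ i j = - ζ j i) ∧ (∀ i, ζ i 7 = 0) ∧
      (∀ j, ∑ i, f (Pi.single i 1) * ζ i.castSucc j = 0) ∧
      ∀ p : E8 A, (∀ i j, w2 p i j = ζ i j) → nu5 (dF A) p = ν := by
  refine ⟨zt (dF A) (up5 ν), zt_self _ _, zt_swap _ _, zt_seven _ ν, fun j => ?_, fun p hp => ?_⟩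
  · have h1 := zt_closed sqF_dF cram_dF (up1 f) (up5 ν)
      (fun a v => cyc_of_wedge (n := 5) (up1 f) (up5 ν) (up5_closed f ν h) a v) j
    rw [Fin.sum_univ_castSucc] at h1
    have h2 : up1 f (Pi.single (Fin.last 7) 1) = 0 := up1_seven f
    rw [h2, zero_mul, add_zero] at h1
    rw [← h1]
    refine Finset.sum_congr rfl fun i _ => ?_
    rw [up1_single]
  · unfold nu5
    rw [nu6_of_zt sqF_dF (up5 ν) p hp]
    exact res5_up5 ν

end Pool.Agent.Licci
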