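import Pool.Agent.Work.MP_a98e4e_ag.D.Main6
import Pool.Agent.Work.MP_a98e4e_ag.D.Hodge
import Pool.Agent.Work.MP_a98e4e_ag.D.Hodge5
import Pool.Agent.Work.MP_a98e4e_ag.D.FinalAll
import Pool.Agent.Work.MP_a98e4e_ag.P.Final

/-!
# LICCI: all codimensions at least four from the core `CoreUnit` (helper62)
-/

set_option autoImplicit false

namespace Pool.Agent.Licci.Fin6

open IsLocalRing RingTheory.Sequence LicciCodimFour D

universe u

theorem pointCone (R : Type u) [CommRing R] [IsDomain R] [Algebra ℚ R] : PointCone R :=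
  fun f hreg z h0 h1 hz => P.exists_cone f hreg z h0 h1 hz

theorem hodge6 (R : Type u) [CommRing R] [Algebra ℚ R] : Hodge6 R :=
  fun f ν h => exists_zeta f ν h

theorem hodge5 (R : Type u) [CommRing R] [Algebra ℚ R] : Hodge5 R :=
  fun f ν h => exists_zeta5 f ν h

/-- All Dynkin cases in codimension at least four, from the core. -/
theorem licci_of_coreUnit
    (core : ∀ (S : Type u) [CommRing S] [IsRegularLocalRing S] [Algebra ℚ S], CoreUnit S)
    (R : Type u) [CommRing R] [IsRegularLocalRing R] [CharZero (ResidueField R)]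
    (I : Ideal R) (c d t : ℕ) (hc : 4 ≤ c) (hd : 1 ≤ d) (ht : 1 ≤ t)
    (hdyn : IsDynkinT (c - 1) (d + 1) (t + 1)) (hI : IsPerfectOfInvariants I c d t) :
    IsLicci I := by
  obtain ⟨_⟩ := exists_algebra_rat R
  have : IsDomain R := isDomain_of_isRegularLocalRing R
  exact licci_of_mainG R (mainG_five R (pointCone _) (hodge5 R) core)
    (mainG_six R (pointCone _) (hodge6 R) core) I c d t hc hd ht hdyn hI

end Pool.Agent.Licci.Fin6
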