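import Pool.Agent.Work.MP_a98e4e_ag.LinkStep
import Pool.Agent.Work.MP_a98e4e_ag.Descent

/-!
MP_a98e4e_ag (licci, any codimension `r + 1`), module DS2a (helper43): the exchange lemma. The two
colon identities for `(f, ω)` (`f ∧ ω = 0`, `ω` an `(r + 1)`-form) do not depend on the regular
sequence.
-/

set_option autoImplicit false

namespace LicciD

open IsLocalRing RingTheory.Sequence Pool.Agent.Licci

section good

variable {R : Type*} [CommRing R] {P : Type*} [AddCommGroup P] [Module R P]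

/-- the list of the values of `f` -/
def lst (f : P →ₗ[R] R) {n : ℕ} (a : Fin n → P) : List R := List.ofFn fun i => f (a i)

@[simp] lemma lst_length (f : P →ₗ[R] R) {n : ℕ} (a : Fin n → P) : (lst f a).length = n := by
  simp [lst]

lemma mem_lst {f : P →ₗ[R] R} {n : ℕ} {a : Fin n → P} {x : R} :
    x ∈ lst f a ↔ ∃ i, f (a i) = x := by
  simp [lst, List.mem_ofFn]

lemma lst_snoc (f : P →ₗ[R] R) {n : ℕ} (a : Fin n → P) (w : P) :
    lst f (Fin.snoc a w : Fin (n + 1) → P) = lst f a ++ [f w] := by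
  rw [lst, List.ofFn_succ']
  simp only [Fin.snoc_castSucc, Fin.snoc_last, List.concat_eq_append, lst]

lemma lst_cons (f : P →ₗ[R] R) {n : ℕ} (a : Fin n → P) (w : P) :
    lst f (Fin.cons w a : Fin (n + 1) → P) = f w :: lst f a := by
  simp [lst, List.ofFn_succ]

/-- taking out the entry `j` -/
lemma lst_perm (f : P →ₗ[R] R) {n : ℕ} (a : Fin (n + 1) → P) (j : Fin (n + 1)) :
    (lst f (j.removeNth a) ++ [f (a j)]).Perm (lst f a) := by
  rw [← Multiset.coe_eq_coe, ← Multiset.coe_add]
  simp only [lst, ← Fin.univ_val_map]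
  rw [Fin.univ_succAbove n j]
  simp only [Finset.cons_val, Multiset.map_cons, Finset.map_val, Multiset.map_map]
  rw [← Multiset.singleton_add, add_comm]
  rfl

/-- `f ∧ ω = 0` -/
def Cyc {r : ℕ} (f : P →ₗ[R] R) (ω : P [⋀^Fin (r + 1)]→ₗ[R] R) : Prop :=
  ∀ (a : Fin (r + 1) → P) (v : P), ∑ j, f (a j) * ω (Function.update a j v) = f v * ω a

/-- the two colon identities for the regular sequence `f (a 0), …, f (a r)` -/
def Good {r : ℕ} (f : P →ₗ[R] R) (ω : P [⋀^Fin (r + 1)]→ₗ[R] R) (a : Fin (r + 1) → P) : Prop :=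
  (∀ y, y * ω a ∈ Ideal.ofList (lst f a) → y ∈ LinearMap.range f) ∧
  (∀ y, (∀ v, y * f v ∈ Ideal.ofList (lst f a)) → y ∈ Ideal.ofList (lst f a) ⊔ Ideal.span {ω a})

lemma ofList_append_singleton (l : List R) (x : R) :
    Ideal.ofList (l ++ [x]) = Ideal.ofList l ⊔ Ideal.span {x} := by
  rw [Ideal.ofList_append, Ideal.ofList_singleton]

lemma ofList_append_singleton_sup (l : List R) (x w : R) :
    Ideal.ofList (l ++ [x]) ⊔ Ideal.span {w} = Ideal.ofList l ⊔ Ideal.span {x, w} := by
  rw [ofList_append_singleton, sup_assoc]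
  congr 1
  rw [Ideal.span_insert x {w}]

/-- the contraction at the index `j`, as a linear form -/
def conAt {r : ℕ} (ω : P [⋀^Fin (r + 1)]→ₗ[R] R) (a : Fin (r + 1) → P) (j : Fin (r + 1)) :
    P →ₗ[R] R := ω.toMultilinearMap.toLinearMap a j

@[simp] lemma conAt_apply {r : ℕ} (ω : P [⋀^Fin (r + 1)]→ₗ[R] R) (a : Fin (r + 1) → P)
    (j : Fin (r + 1)) (v : P) : conAt ω a j v = ω (Function.update a j v) := rfl

lemma mem_ofList_lst (f : P →ₗ[R] R) {n : ℕ} (a : Fin n → P) (i : Fin n) :
    f (a i) ∈ Ideal.ofList (lst f a) := Ideal.subset_span (mem_lst.mpr ⟨i, rfl⟩)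

lemma ofList_lst_le_range (f : P →ₗ[R] R) {n : ℕ} (a : Fin n → P) :
    Ideal.ofList (lst f a) ≤ LinearMap.range f := by
  rw [Ideal.ofList, Ideal.span_le]
  intro x hx
  obtain ⟨i, rfl⟩ := mem_lst.mp hx
  exact ⟨_, rfl⟩

lemma rel_of_cyc {r : ℕ} {f : P →ₗ[R] R} {ω : P [⋀^Fin (r + 1)]→ₗ[R] R} (hω : Cyc f ω)
    (a : Fin (r + 1) → P) (j : Fin (r + 1)) (v : P) :
    f v * conAt ω a j (a j) - f (a j) * conAt ω a j v ∈ Ideal.ofList (lst f (j.removeNth a)) := by
  have h := hω a v
  rw [Fin.sum_univ_succAbove _ j] at h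
  have e : f v * conAt ω a j (a j) - f (a j) * conAt ω a j v =
      ∑ i : Fin r, f (a (j.succAbove i)) * ω (Function.update a (j.succAbove i) v) := by
    rw [conAt_apply, conAt_apply, Function.update_eq_self, ← h]
    ring
  rw [e]
  exact Ideal.sum_mem _ fun i _ => Ideal.mul_mem_right _ _ (mem_ofList_lst f (j.removeNth a) i)

lemma ofList_lst (f : P →ₗ[R] R) {n : ℕ} (a : Fin (n + 1) → P) (j : Fin (n + 1)) :
    Ideal.ofList (lst f a) = Ideal.ofList (lst f (j.removeNth a)) ⊔ Ideal.span {f (a j)} := by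
  rw [← ofList_append_singleton]
  exact (ofList_perm (lst_perm f a j)).symm

lemma ofList_lst_sup (f : P →ₗ[R] R) {n : ℕ} (a : Fin (n + 1) → P) (j : Fin (n + 1)) (w : R) :
    Ideal.ofList (lst f a) ⊔ Ideal.span {w} =
      Ideal.ofList (lst f (j.removeNth a)) ⊔ Ideal.span {f (a j), w} := by
  rw [← ofList_append_singleton_sup, ofList_perm (lst_perm f a j)]

/-- the exchange at the index `j` -/
lemma Good.exch {r : ℕ} {f : P →ₗ[R] R} {ω : P [⋀^Fin (r + 1)]→ₗ[R] R} (hω : Cyc f ω)
    {a : Fin (r + 1) → P} (j : Fin (r + 1)) {b : P}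
    (h1 : IsWeaklyRegular R (lst f (j.removeNth a) ++ [f (a j)]))
    (h2 : IsWeaklyRegular R (lst f (j.removeNth a) ++ [f b]))
    (h : Good f ω a) : Good f ω (Function.update a j b) := by
  have r1 := (isWeaklyRegular_concat_iff.mp h1).2
  have r2 := (isWeaklyRegular_concat_iff.mp h2).2
  obtain ⟨hA, hB⟩ := h
  rw [ofList_lst_sup f a j, ofList_lst f a j] at hB
  rw [ofList_lst f a j] at hA
  have hrel := rel_of_cyc hω a j
  have e1 : ω a = conAt ω a j (a j) := by rw [conAt_apply, Function.update_eq_self]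
  have e2 : ω (Function.update a j b) = conAt ω a j b := (conAt_apply ω a j b).symm
  have e3 : j.removeNth (Function.update a j b) = j.removeNth a := Fin.removeNth_update j b a
  rw [e1] at hA hB
  refine ⟨?_, ?_⟩
  · rw [ofList_lst f _ j, e3, Function.update_self, e2]
    exact exch_colon f (conAt ω a j) (a j) b hrel r2 hA
  · rw [ofList_lst_sup f _ j, ofList_lst f _ j, e3, Function.update_self, e2]
    exact exch_colon' f (conAt ω a j) (a j) b hrel r1 r2 hB

end good

section transfer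

universe u

variable {R : Type u} [CommRing R] [IsLocalRing R] [IsNoetherianRing R]

lemma wr_lst_iff {P : Type*} [AddCommGroup P] [Module R P] {f : P →ₗ[R] R}
    (hI : ∀ v, f v ∈ maximalIdeal R) {n : ℕ} (a : Fin (n + 1) → P) (j : Fin (n + 1)) :
    IsWeaklyRegular R (lst f a) ↔ IsWeaklyRegular R (lst f (j.removeNth a) ++ [f (a j)]) := by
  constructor
  · refine wr_perm (lst_perm f a j).symm fun x hx => ?_
    obtain ⟨i, rfl⟩ := mem_lst.mp hx
    exact hI _
  · refine wr_perm (lst_perm f a j) fun x hx => ?_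
    rcases List.mem_append.mp hx with hx | hx
    · obtain ⟨i, rfl⟩ := mem_lst.mp hx
      exact hI _
    · rw [List.mem_singleton] at hx
      rw [hx]; exact hI _

lemma wr_update_iff {P : Type*} [AddCommGroup P] [Module R P] {f : P →ₗ[R] R}
    (hI : ∀ v, f v ∈ maximalIdeal R) {n : ℕ} (a : Fin (n + 1) → P) (j : Fin (n + 1)) (b : P) :
    IsWeaklyRegular R (lst f (Function.update a j b)) ↔
      IsWeaklyRegular R (lst f (j.removeNth a) ++ [f b]) := by
  rw [wr_lst_iff hI _ j, Fin.removeNth_update, Function.update_self]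

omit [IsNoetherianRing R] in
lemma isRegular_lst {P : Type*} [AddCommGroup P] [Module R P] {f : P →ₗ[R] R}
    (hI : ∀ v, f v ∈ maximalIdeal R) {n : ℕ} {a : Fin n → P}
    (h : IsWeaklyRegular R (lst f a)) : IsRegular R (lst f a) := by
  refine IsRegular.of_isWeaklyRegular_of_mem_maximalIdeal R ?_ h
  intro x hx
  obtain ⟨i, rfl⟩ := mem_lst.mp hx
  exact hI _

variable {ι : Type*} [Fintype ι]

/-- **Transfer.** The colon identities hold for one regular sequence iff they hold for all. -/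
theorem Good.transfer [Infinite (ResidueField R)] {r : ℕ} (f : (ι → R) →ₗ[R] R)
    (hI : ∀ v, f v ∈ maximalIdeal R) {ω : (ι → R) [⋀^Fin (r + 1)]→ₗ[R] R} (hω : Cyc f ω)
    {a b : Fin (r + 1) → ι → R}
    (ha : IsWeaklyRegular R (lst f a)) (hb : IsWeaklyRegular R (lst f b))
    (h : Good f ω a) : Good f ω b := by
  classical
  have hgr : ∃ rs : List R, rs.length = r + 1 ∧ (∀ y ∈ rs, y ∈ LinearMap.range f) ∧
      IsRegular R rs := by
    refine ⟨lst f a, by simp, ?_, isRegular_lst hI ha⟩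
    intro x hx
    obtain ⟨i, rfl⟩ := mem_lst.mp hx
    exact ⟨_, rfl⟩
  induction hn : (Finset.univ.filter fun i => a i ≠ b i).card using Nat.strong_induction_on
    generalizing a b with
  | _ n ih =>
  by_cases hab : a = b
  · rwa [← hab]
  obtain ⟨j, hj⟩ := Function.ne_iff.mp hab
  have ha' := (wr_lst_iff hI a j).mp ha
  have hb' := (wr_lst_iff hI b j).mp hb
  obtain ⟨c, -, hc1, hc2⟩ := gp_row_two f hI hgr (lst f (j.removeNth a)) (lst f (j.removeNth b))
    (by simp) (by simp)
    (fun y hy => by obtain ⟨i, rfl⟩ := mem_lst.mp hy; exact ⟨_, rfl⟩)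
    (fun y hy => by obtain ⟨i, rfl⟩ := mem_lst.mp hy; exact ⟨_, rfl⟩)
    (isWeaklyRegular_concat_iff.mp ha').1 (isWeaklyRegular_concat_iff.mp hb').1 ∅ (by simp)
  have s1 : Good f ω (Function.update a j c) := h.exch hω j ha' hc1
  have s2 : Good f ω (Function.update b j c) := by
    refine ih _ ?_ ((wr_update_iff hI a j c).mpr hc1) ((wr_update_iff hI b j c).mpr hc2) s1 rfl
    rw [← hn]
    refine Finset.card_lt_card ⟨?_, ?_⟩
    · intro i hi
      simp only [Finset.mem_filter, Finset.mem_univ, true_and] at hi ⊢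
      by_cases hij : i = j
      · subst hij; simp at hi
      · rwa [Function.update_of_ne hij, Function.update_of_ne hij] at hi
    · intro hsub
      have h1 := hsub (show j ∈ Finset.univ.filter fun i => a i ≠ b i by simpa using hj)
      simp at h1
  have s3 := s2.exch hω j (b := b j)
    (by rw [Fin.removeNth_update, Function.update_self]; exact hc2)
    (by rw [Fin.removeNth_update]; exact hb')
  rwa [Function.update_idem, Function.update_eq_self] at s3

end transfer

end LicciD
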