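import Pool.Agent.Work.MP_a98e4e_ag.Defs

/-!
MP_a98e4e_ag (licci), module DS0 (helper62): Gorenstein linkage data, their slices, and the core
statement `MainG R c`.
-/

set_option autoImplicit false

namespace Pool.Agent.Licci.D

open IsLocalRing RingTheory.Sequence LicciCodimFour

universe u

/-- Gorenstein linkage data: an ideal `I = range f`, a weakly regular sequence
`f (a 0), …, f (a (c - 1))` generating `A`, and `w` with `A : I = A + (w)` and `A : w = I`. -/
structure GDat (R : Type u) [CommRing R] [IsLocalRing R] {n c : ℕ} (f : (Fin n → R) →ₗ[R] R)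
    (a : Fin c → Fin n → R) (w : R) : Prop where
  mem : ∀ v, f v ∈ maximalIdeal R
  reg : IsWeaklyRegular R (List.ofFn fun i => f (a i))
  col : ∀ y, (∀ v, y * f v ∈ Ideal.span (Set.range fun i => f (a i))) →
      y ∈ Ideal.span (Set.range fun i => f (a i)) ⊔ Ideal.span {w}
  ann : ∀ y, y * w ∈ Ideal.span (Set.range fun i => f (a i)) ↔ y ∈ LinearMap.range f

/-- The data `(f, a, w)` have a slice over a regular local ring of dimension `c`. -/
def Sliced {R : Type u} [CommRing R] [IsLocalRing R] {n c : ℕ} (f : (Fin n → R) →ₗ[R] R)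
    (a : Fin c → Fin n → R) (w : R) : Prop :=
  ∃ (S : Type u) (_ : CommRing S) (_ : IsRegularLocalRing S) (π : R →+* S)
    (f' : (Fin n → S) →ₗ[S] S), Function.Surjective π ∧
    (∀ r, π r ∈ maximalIdeal S ↔ r ∈ maximalIdeal R) ∧ ringKrullDim S = (c : ℕ) ∧
    (∀ v : Fin n → R, f' (fun i => π (v i)) = π (f v)) ∧
    GDat S f' (fun i j => π (a i j)) (π w)

/-- The core statement in codimension `c`: Gorenstein linkage data with `c + 2` generators and with
a slice of dimension `c` define a licci ideal. -/
def MainG (R : Type u) [CommRing R] [IsLocalRing R] (c : ℕ) : Prop :=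
  ∀ (f : (Fin (c + 2) → R) →ₗ[R] R) (a : Fin c → Fin (c + 2) → R) (w : R),
    GDat R f a w → Sliced f a w → IsLicci (LinearMap.range f)

end Pool.Agent.Licci.D
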