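import Pool.Agent.Work.MP_a98e4e_ag.KoszulTop
import Pool.Agent.Work.MP_a98e4e_ag.PPrime

/-!
# Almost complete intersections are not Gorenstein (Kunz)

`D = f ∧ + ι_z` on the module of all forms.
-/

namespace Pool.Agent.Licci.Kunz

open RingTheory.Sequence Pointwise IsLocalRing

universe u v w

variable {R : Type u} [CommRing R]

/-- An exact square-zero operator with values in `(rs) Ω`, `rs` regular on `Ω`, lives on
`Ω = (rs) Ω`. -/
theorem no_exact (rs : List R) : ∀ (Ω : Type v) [AddCommGroup Ω] [Module R Ω] (D : Ω →ₗ[R] Ω),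
    IsWeaklyRegular Ω rs → (∀ x, D (D x) = 0) → (∀ x, D x = 0 → ∃ y, D y = x) →
    (∀ x, D x ∈ Ideal.ofList rs • (⊤ : Submodule R Ω)) →
    ∀ x : Ω, x ∈ Ideal.ofList rs • (⊤ : Submodule R Ω) := by
  induction rs with
  | nil =>
    intro Ω _ _ D _ _ hex hm x
    have h0 : Ideal.ofList ([] : List R) • (⊤ : Submodule R Ω) = ⊥ := by
      rw [Ideal.ofList_nil, Submodule.bot_smul]
    rw [h0] at hm ⊢
    obtain ⟨y, rfl⟩ := hex x ((Submodule.mem_bot R).1 (hm x))
    exact hm y
  | cons a rs ih =>
    intro Ω _ _ D hreg hDD hex hm x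
    rw [isWeaklyRegular_cons_iff] at hreg
    obtain ⟨ha, hreg⟩ := hreg
    have hsup : Ideal.ofList (a :: rs) • (⊤ : Submodule R Ω) =
        (Ideal.ofList rs • (⊤ : Submodule R Ω)) ⊔ (a • (⊤ : Submodule R Ω)) := by
      rw [Ideal.ofList_cons, Submodule.sup_smul, Submodule.ideal_span_singleton_smul, sup_comm]
    have hmap : (Ideal.ofList rs • (⊤ : Submodule R Ω)).map (a • (⊤ : Submodule R Ω)).mkQ =
        Ideal.ofList rs • (⊤ : Submodule R (QuotSMulTop a Ω)) := by
      rw [Submodule.map_smul'', Submodule.map_top, Submodule.range_mkQ]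
    have hiff : ∀ y : Ω, y ∈ Ideal.ofList (a :: rs) • (⊤ : Submodule R Ω) ↔
        (Submodule.Quotient.mk y : QuotSMulTop a Ω) ∈
          Ideal.ofList rs • (⊤ : Submodule R (QuotSMulTop a Ω)) := by
      intro y
      rw [hsup, ← hmap, ← Submodule.mkQ_apply, ← Submodule.mem_comap, Submodule.comap_map_eq,
        Submodule.ker_mkQ]
    have hmk0 : ∀ z : Ω, (Submodule.Quotient.mk z : QuotSMulTop a Ω) = 0 → ∃ y, z = a • y := by
      intro z hz
      rw [Submodule.Quotient.mk_eq_zero] at hz
      obtain ⟨y, -, hy⟩ := (Submodule.mem_smul_pointwise_iff_exists _ _ _).1 hz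
      exact ⟨y, hy.symm⟩
    rw [hiff]
    refine ih (QuotSMulTop a Ω) (QuotSMulTop.map a D) hreg ?_ ?_ ?_ _
    · intro x
      obtain ⟨x, rfl⟩ := Submodule.Quotient.mk_surjective _ x
      rw [QuotSMulTop.map_apply_mk, QuotSMulTop.map_apply_mk, hDD]
      rfl
    · intro x hx
      obtain ⟨x, rfl⟩ := Submodule.Quotient.mk_surjective _ x
      rw [QuotSMulTop.map_apply_mk] at hx
      obtain ⟨u, hu⟩ := hmk0 _ hx
      have hDu : D u = 0 := by
        apply ha
        show a • D u = a • 0
        rw [← map_smul, ← hu, hDD, smul_zero]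
      obtain ⟨v, rfl⟩ := hex u hDu
      obtain ⟨y, hy⟩ := hex (x - a • v) (by rw [map_sub, hu, map_smul, sub_self])
      refine ⟨Submodule.Quotient.mk y, ?_⟩
      rw [QuotSMulTop.map_apply_mk, hy, Submodule.Quotient.mk_sub]
      have : (Submodule.Quotient.mk (a • v) : QuotSMulTop a Ω) = 0 := by
        rw [Submodule.Quotient.mk_eq_zero]
        exact (Submodule.mem_smul_pointwise_iff_exists _ _ _).2 ⟨v, trivial, rfl⟩
      rw [this, sub_zero]
    · intro x
      obtain ⟨x, rfl⟩ := Submodule.Quotient.mk_surjective _ x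
      rw [QuotSMulTop.map_apply_mk, ← hiff]
      exact hm x

section forms

variable {M : Type w} [AddCommGroup M] [Module R M]

/-- all forms on `M` -/
abbrev Forms (R : Type u) [CommRing R] (M : Type w) [AddCommGroup M] [Module R M] :=
  ∀ k : ℕ, M [⋀^Fin k]→ₗ[R] R

/-- `ω ↦ g ∧ ω + ι_z ω` -/
def D (g : M →ₗ[R] R) (z : M) : Forms R M →ₗ[R] Forms R M where
  toFun ω k := match k with
    | 0 => contr z 0 (ω 1)
    | k + 1 => wedge g k (ω k) + contr z (k + 1) (ω (k + 2))
  map_add' ω η := by
    funext k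
    cases k with
    | zero => simp
    | succ k =>
      simp only [Pi.add_apply, map_add]
      abel
  map_smul' c ω := by
    funext k
    cases k with
    | zero => simp
    | succ k => simp [smul_add]

theorem D_zero (g : M →ₗ[R] R) (z : M) (ω : Forms R M) : D g z ω 0 = contr z 0 (ω 1) := rfl

theorem D_succ (g : M →ₗ[R] R) (z : M) (ω : Forms R M) (k : ℕ) :
    D g z ω (k + 1) = wedge g k (ω k) + contr z (k + 1) (ω (k + 2)) := rfl

theorem D_D (g : M →ₗ[R] R) (z : M) (hz : g z = 0) (ω : Forms R M) : D g z (D g z ω) = 0 := by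
  funext k
  match k with
  | 0 =>
    rw [D_zero, D_succ, map_add, contr_contr_self, contr_wedge_zero, hz, zero_smul, add_zero]
    rfl
  | 1 =>
    rw [D_succ, D_zero, D_succ, map_add, contr_contr_self, contr_wedge, hz, zero_smul, zero_sub,
      add_zero, add_neg_cancel]
    rfl
  | k + 2 =>
    rw [D_succ, D_succ, D_succ, map_add, map_add, wedge_wedge_self, contr_contr_self, contr_wedge,
      hz, zero_smul, zero_sub, zero_add, add_zero, add_neg_cancel]
    rfl

theorem D_add (g g' : M →ₗ[R] R) (z z' : M) (ω : Forms R M) :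
    D (g + g') (z + z') ω = D g z ω + D g' z' ω := by
  funext k
  cases k with
  | zero => rw [Pi.add_apply, D_zero, D_zero, D_zero, contr_add_left]
  | succ k =>
    rw [Pi.add_apply, D_succ, D_succ, D_succ, contr_add_left, wedge_add_left]
    abel

theorem D_smul (c : R) (g : M →ₗ[R] R) (z : M) (ω : Forms R M) :
    D (c • g) (c • z) ω = c • D g z ω := by
  funext k
  cases k with
  | zero => rw [Pi.smul_apply, D_zero, D_zero, contr_smul_left]
  | succ k => rw [Pi.smul_apply, D_succ, D_succ, contr_smul_left, wedge_smul_left, smul_add]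

end forms

section free

variable {n : ℕ}

theorem alt_subsingleton {k : ℕ} (hk : n < k) (ω : (Fin n → R) [⋀^Fin k]→ₗ[R] R) : ω = 0 := by
  refine Module.Basis.ext_alternating (Pi.basisFun R (Fin n)) ?_
  intro v hv
  have := Fintype.card_le_of_injective v hv
  simp at this
  omega

/-- `Forms` as a finite product. -/
def formsEquiv (n : ℕ) : Forms R (Fin n → R) ≃ₗ[R]
    (∀ k : Fin (n + 1), (Fin n → R) [⋀^Fin (k : ℕ)]→ₗ[R] R) where
  toFun ω k := ω k
  invFun ω k := if h : k < n + 1 then ω ⟨k, h⟩ else 0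
  left_inv ω := by
    funext k
    by_cases h : k < n + 1
    · simp [h]
    · simp only [h, dite_false]
      exact (alt_subsingleton (by omega) _).symm
  right_inv ω := by
    funext k
    have := k.2
    simp only [this, dite_true]
  map_add' _ _ := rfl
  map_smul' _ _ := rfl

instance : Module.Free R (Forms R (Fin n → R)) := by
  have h : ∀ k : Fin (n + 1), Module.Free R ((Fin n → R) [⋀^Fin (k : ℕ)]→ₗ[R] R) := by
    intro k
    obtain ⟨m, ⟨e⟩⟩ := exists_altEquiv (R := R) (Fin n → R) k R
    exact Module.Free.of_equiv e.symm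
  exact Module.Free.of_equiv (formsEquiv n).symm

instance : Module.Finite R (Forms R (Fin n → R)) := by
  have h : ∀ k : Fin (n + 1), Module.Finite R ((Fin n → R) [⋀^Fin (k : ℕ)]→ₗ[R] R) := by
    intro k
    obtain ⟨m, ⟨e⟩⟩ := exists_altEquiv (R := R) (Fin n → R) k R
    exact Module.Finite.equiv e.symm
  exact Module.Finite.equiv (formsEquiv n).symm

/-- the volume form -/
noncomputable def vol (n : ℕ) : (Fin n → R) [⋀^Fin n]→ₗ[R] R := (Pi.basisFun R (Fin n)).det

theorem eq_smul_vol (ω : (Fin n → R) [⋀^Fin n]→ₗ[R] R) : ∃ r : R, ω = r • vol n :=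
  ⟨_, ω.eq_smul_basis_det (Pi.basisFun R (Fin n))⟩

/-- Euler's identity -/
theorem euler {k : ℕ} (ω : (Fin n → R) [⋀^Fin (k + 1)]→ₗ[R] R) :
    ∑ j, wedge (LinearMap.proj j : (Fin n → R) →ₗ[R] R) k (contr (Pi.single j 1) k ω) =
      (k + 1) • ω := by
  rw [← AlternatingMap.alternatizeUncurryFin_curryLeft]
  have h : ω.curryLeft = ∑ j, (LinearMap.proj j : (Fin n → R) →ₗ[R] R).smulRight
      (ω.curryLeft (Pi.single j 1)) := by
    refine (Pi.basisFun R (Fin n)).ext fun i => ?_
    rw [LinearMap.sum_apply]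
    simp [Pi.single_apply]
  conv_rhs => rw [h]
  rw [← AlternatingMap.alternatizeUncurryFinLM_apply, map_sum]
  rfl

/-- every form of degree `n - 1` is a contraction of the volume form -/
theorem exists_contr {n : ℕ} (ν : (Fin (n + 1) → R) [⋀^Fin n]→ₗ[R] R) :
    ∃ z : Fin (n + 1) → R, ν = contr z n (vol (n + 1)) := by
  have h : ∀ j : Fin (n + 1), ∃ r : R,
      wedge (LinearMap.proj j : (Fin (n + 1) → R) →ₗ[R] R) n ν = r • vol (n + 1) :=
    fun j => eq_smul_vol _
  choose z hz using h
  refine ⟨z, ?_⟩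
  have hz2 : contr z n (vol (n + 1) : (Fin (n + 1) → R) [⋀^Fin (n + 1)]→ₗ[R] R) =
      ∑ j, contr (Pi.single j (1 : R)) n (z j • vol (n + 1)) := by
    have h3 : z = ∑ j, z j • (Pi.single j (1 : R) : Fin (n + 1) → R) := by
      funext l
      simp [Finset.sum_apply, Pi.single_apply]
    have h4 : ∀ u : Fin (n + 1) → R, contr u n (vol (n + 1) :
        (Fin (n + 1) → R) [⋀^Fin (n + 1)]→ₗ[R] R) = (vol (n + 1)).curryLeft u := fun _ => rfl
    conv_lhs => rw [h3, h4, map_sum]
    refine Finset.sum_congr rfl fun j _ => ?_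
    rw [map_smul, map_smul, h4]
  rw [hz2]
  simp only [← hz]
  cases n with
  | zero =>
    simp only [contr_wedge_zero]
    simp
  | succ n =>
    simp only [contr_wedge, Finset.sum_sub_distrib, euler]
    simp only [LinearMap.proj_apply, Pi.single_eq_same, one_smul, Finset.sum_const,
      Finset.card_univ, Fintype.card_fin]
    rw [succ_nsmul ν (n + 1), add_sub_cancel_left]

end free

section exact

theorem closed_mem {M : Type w} [AddCommGroup M] [Module R M] (f : M →ₗ[R] R) {k : ℕ}
    (ω : M [⋀^Fin k]→ₗ[R] R) (hω : wedge f k ω = 0) (e : Fin k → M) (v : M) :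
    f v * ω e ∈ Ideal.span (Set.range fun i => f (e i)) := by
  have h := DFunLike.congr_fun hω (Fin.cons v e : Fin (k + 1) → M)
  rw [wedge_apply, Fin.sum_univ_succ] at h
  have h2 : f v * ω e = - ∑ i : Fin k, (-1 : ℤ) ^ ((i.succ : Fin (k + 1)) : ℕ) •
      f ((Fin.cons v e : Fin (k + 1) → M) i.succ) •
        ω (i.succ.removeNth (Fin.cons v e : Fin (k + 1) → M)) := by
    rw [eq_neg_iff_add_eq_zero]
    rw [AlternatingMap.zero_apply] at h
    rw [← h]
    congr 1
    simp
  rw [h2]
  refine neg_mem (Ideal.sum_mem _ fun i _ => ?_)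
  refine Submodule.smul_of_tower_mem _ _ ?_
  rw [smul_eq_mul, Fin.cons_succ]
  exact Ideal.mul_mem_right _ _ (Ideal.subset_span ⟨i, rfl⟩)

theorem cob_mem {M : Type w} [AddCommGroup M] [Module R M] (f : M →ₗ[R] R) {k : ℕ}
    (ω : M [⋀^Fin k]→ₗ[R] R) (hω : IsCob f k ω) (e : Fin k → M) :
    ω e ∈ Ideal.span (Set.range fun i => f (e i)) := by
  cases k with
  | zero =>
    have : ω = 0 := hω
    rw [this]
    exact zero_mem _
  | succ k =>
    obtain ⟨η, rfl⟩ := hω
    have := wedge_apply_mem f k η e
    rwa [smul_eq_mul, Ideal.mul_top] at this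

theorem exists_of_isCob {M : Type w} [AddCommGroup M] [Module R M] (f : M →ₗ[R] R) (z : M) {j : ℕ}
    (ω : M [⋀^Fin j]→ₗ[R] R) (hω : IsCob f j ω) :
    ∃ η : Forms R M, D f z η j = ω ∧ ∀ i, j < i → D f z η i = 0 := by
  cases j with
  | zero =>
    refine ⟨0, ?_, fun i _ => ?_⟩
    · rw [map_zero]
      exact (show ω = 0 from hω).symm
    · rw [map_zero]
      rfl
  | succ j =>
    obtain ⟨η, rfl⟩ := hω
    refine ⟨Pi.single j η, ?_, fun i hi => ?_⟩
    · rw [D_succ, Pi.single_eq_same, Pi.single_eq_of_ne (by omega), map_zero, add_zero]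
    · obtain ⟨i, rfl⟩ : ∃ i', i = i' + 1 := ⟨i - 1, by omega⟩
      rw [D_succ, Pi.single_eq_of_ne (by omega), Pi.single_eq_of_ne (by omega), map_zero,
        map_zero, add_zero]

variable {c : ℕ}

/-- exactness of `D` -/
theorem exact_D (f : (Fin (c + 1) → R) →ₗ[R] R) (z : Fin (c + 1) → R)
    (e : Fin c → Fin (c + 1) → R)
    (hreg : IsWeaklyRegular R (List.ofFn fun i => f (e i))) (w : R)
    (h1 : ∀ y, (∀ v, y * f v ∈ Ideal.span (Set.range fun i => f (e i))) →
      y ∈ Ideal.span (Set.range fun i => f (e i)) ⊔ Ideal.span {w})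
    (h2 : ∀ y, y * w ∈ Ideal.span (Set.range fun i => f (e i)) → ∃ m, f m = y)
    (hν : wedge f c (contr z c (vol (c + 1))) = 0)
    (hw : contr z c (vol (c + 1)) e - w ∈ Ideal.span (Set.range fun i => f (e i))) (j : ℕ) :
    ∀ ω : Forms R (Fin (c + 1) → R), D f z ω = 0 → (∀ i, j ≤ i → ω i = 0) →
      ∃ η, D f z η = ω := by
  induction j with
  | zero =>
    intro ω _ h
    exact ⟨0, by rw [map_zero]; funext i; exact (h i (Nat.zero_le _)).symm⟩
  | succ j ih =>
    intro ω hω h
    have hfz : f z = 0 := by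
      have h3 := contr_wedge f z c (vol (c + 1))
      rw [hν, sub_zero, alt_subsingleton (by omega) (wedge f (c + 1) (vol (c + 1))), map_zero] at h3
      have h4 := DFunLike.congr_fun h3 (fun i => Pi.basisFun R (Fin (c + 1)) i)
      rw [AlternatingMap.smul_apply, vol, Module.Basis.det_self] at h4
      simpa using h4.symm
    -- it suffices to kill the top component
    suffices hs : ∃ η : Forms R (Fin (c + 1) → R), D f z η j = ω j ∧ ∀ i, j < i → D f z η i = 0 by
      obtain ⟨η, hη, hη'⟩ := hs
      obtain ⟨η', hη''⟩ := ih (ω - D f z η) (by rw [map_sub, hω, D_D f z hfz, sub_zero]) (by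
        intro i hi
        rw [Pi.sub_apply]
        rcases Nat.lt_or_ge j i with h3 | h3
        · rw [h i h3, hη' i h3, sub_zero]
        · have : i = j := le_antisymm h3 hi
          subst this
          rw [hη, sub_self])
      exact ⟨η' + η, by rw [map_add, hη'']; abel⟩
    have hcl : wedge f j (ω j) = 0 := by
      have h3 := congrFun hω (j + 1)
      rw [D_succ, h (j + 2) (by omega), map_zero, add_zero] at h3
      exact h3
    rcases lt_trichotomy j c with hjc | rfl | hjc
    · exact exists_of_isCob f z _ (isCob_of_lt f c e hreg j hjc _ hcl)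
    · -- degree `c`
      have h3 := h1 (ω j e) (fun v => by rw [mul_comm]; exact closed_mem f _ hcl e v)
      obtain ⟨a, ha, b, hb, hab⟩ := Submodule.mem_sup.1 h3
      obtain ⟨r, rfl⟩ := Ideal.mem_span_singleton'.1 hb
      have h4 : IsCob f j (ω j - r • contr z j (vol (j + 1))) := by
        refine isCob_of_apply_mem f j e hreg _ (by rw [map_sub, map_smul, hcl, hν, smul_zero,
          sub_zero]) ?_
        rw [AlternatingMap.sub_apply, AlternatingMap.smul_apply, smul_eq_mul]
        have h5 : ω j e - r * contr z j (vol (j + 1)) e =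
            a - r * (contr z j (vol (j + 1)) e - w) := by
          rw [← hab]
          ring
        rw [h5]
        exact sub_mem ha (Ideal.mul_mem_left _ _ hw)
      obtain ⟨η, hη, hη'⟩ := exists_of_isCob f z _ h4
      refine ⟨η + Pi.single (j + 1) (r • vol (j + 1)), ?_, ?_⟩
      · rw [map_add, Pi.add_apply, hη]
        cases j with
        | zero =>
          rw [D_zero, Pi.single_eq_same, map_smul, sub_add_cancel]
        | succ j =>
          rw [D_succ, Pi.single_eq_same, Pi.single_eq_of_ne (by omega), map_zero, zero_add,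
            map_smul, sub_add_cancel]
      · intro i hi
        rw [map_add, Pi.add_apply, hη' i hi, zero_add]
        obtain ⟨i, rfl⟩ : ∃ i', i = i' + 1 := ⟨i - 1, by omega⟩
        rw [D_succ, Pi.single_eq_of_ne (show i + 2 ≠ j + 1 by omega), map_zero, add_zero]
        rcases Nat.lt_or_ge j i with h5 | h5
        · exact alt_subsingleton (by omega) _
        · have : i = j := by omega
          subst this
          rw [Pi.single_eq_of_ne (by omega), map_zero]
    · rcases Nat.lt_or_ge (c + 1) j with hj | hj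
      · rw [alt_subsingleton hj (ω j)]
        exact ⟨0, by rw [map_zero]; rfl, fun i _ => by rw [map_zero]; rfl⟩
      · have : j = c + 1 := by omega
        subst this
        obtain ⟨r, hr⟩ := eq_smul_vol (ω (c + 1))
        have h3 : IsCob f c (r • contr z c (vol (c + 1))) := by
          cases c with
          | zero =>
            have h4 := congrFun hω 0
            rw [D_zero, hr, map_smul] at h4
            exact h4
          | succ c =>
            have h4 := congrFun hω (c + 1)
            rw [D_succ, hr, map_smul] at h4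
            refine ⟨- ω c, ?_⟩
            rw [map_neg]
            exact (neg_eq_of_add_eq_zero_right h4)
        have h4 := cob_mem f _ h3 e
        rw [AlternatingMap.smul_apply, smul_eq_mul] at h4
        obtain ⟨m, hm⟩ := h2 r (by
          have h5 : r * w = r * contr z c (vol (c + 1)) e -
            r * (contr z c (vol (c + 1)) e - w) := by ring
          rw [h5]
          exact sub_mem h4 (Ideal.mul_mem_left _ _ hw))
        refine ⟨Pi.single c (contr m c (vol (c + 1))), ?_, ?_⟩
        · rw [D_succ, Pi.single_eq_same, Pi.single_eq_of_ne (by omega), map_zero, add_zero, hr]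
          have h5 := contr_wedge f m c (vol (c + 1))
          rw [alt_subsingleton (by omega) (wedge f (c + 1) (vol (c + 1))), map_zero, hm] at h5
          exact (sub_eq_zero.1 h5.symm).symm
        · intro i hi
          exact alt_subsingleton (by omega) _

end exact

section nakayama

/-- `D` as a function of `(g, z)` -/
def DL (R : Type u) [CommRing R] (M : Type w) [AddCommGroup M] [Module R M] (ω : Forms R M) :
    ((M →ₗ[R] R) × M) →ₗ[R] Forms R M where
  toFun p := D p.1 p.2 ω
  map_add' _ _ := D_add _ _ _ _ _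
  map_smul' _ _ := D_smul _ _ _ _

theorem D_mem (J : Ideal R) {n : ℕ} (f : (Fin n → R) →ₗ[R] R) (z : Fin n → R)
    (hf : ∀ v, f v ∈ J) (hz : ∀ i, z i ∈ J) (ω : Forms R (Fin n → R)) :
    D f z ω ∈ J • (⊤ : Submodule R (Forms R (Fin n → R))) := by
  have h1 : ((f, z) : ((Fin n → R) →ₗ[R] R) × (Fin n → R)) =
      ∑ j, f (Pi.single j 1) • ((LinearMap.proj j : (Fin n → R) →ₗ[R] R), (0 : Fin n → R)) +
      ∑ j, z j • ((0 : (Fin n → R) →ₗ[R] R), (Pi.single j 1 : Fin n → R)) := by
    refine Prod.ext ?_ ?_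
    · rw [Prod.fst_add, Prod.fst_sum, Prod.fst_sum]
      simp only [Prod.smul_fst, smul_zero, Finset.sum_const_zero, add_zero]
      refine (Pi.basisFun R (Fin n)).ext fun i => ?_
      simp [LinearMap.sum_apply, Pi.single_apply]
    · rw [Prod.snd_add, Prod.snd_sum, Prod.snd_sum]
      simp only [Prod.smul_snd, smul_zero, Finset.sum_const_zero, zero_add]
      funext l
      simp [Finset.sum_apply, Pi.single_apply]
  have h2 : D f z ω = DL R (Fin n → R) ω (f, z) := rfl
  rw [h2, h1, map_add, map_sum, map_sum]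
  refine add_mem (Submodule.sum_mem _ fun j _ => ?_) (Submodule.sum_mem _ fun j _ => ?_)
  · rw [map_smul]
    exact Submodule.smul_mem_smul (hf _) trivial
  · rw [map_smul]
    exact Submodule.smul_mem_smul (hz _) trivial

/-- An almost complete intersection is not Gorenstein. -/
theorem kunz [IsLocalRing R] [IsNoetherianRing R] (rs : List R) (hrs : IsWeaklyRegular R rs)
    (hm : Ideal.ofList rs = maximalIdeal R) {c : ℕ} (f : (Fin (c + 1) → R) →ₗ[R] R)
    (hf : ∀ v, f v ∈ maximalIdeal R) (hker : ∀ v, f v = 0 → ∀ i, v i ∈ maximalIdeal R)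
    (e : Fin c → Fin (c + 1) → R)
    (hreg : IsWeaklyRegular R (List.ofFn fun i => f (e i))) (w : R)
    (h1 : ∀ y, (∀ v, y * f v ∈ Ideal.span (Set.range fun i => f (e i))) →
      y ∈ Ideal.span (Set.range fun i => f (e i)) ⊔ Ideal.span {w})
    (h2 : ∀ y, y * w ∈ Ideal.span (Set.range fun i => f (e i)) → ∃ m, f m = y)
    (h3 : ∀ v, w * f v ∈ Ideal.span (Set.range fun i => f (e i))) : False := by
  obtain ⟨ν, hν, hνw⟩ := exists_wedge_class f c e hreg w h3
  obtain ⟨z, rfl⟩ := exists_contr ν
  have hfz : f z = 0 := by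
    have h3 := contr_wedge f z c (vol (c + 1))
    rw [hν, sub_zero, alt_subsingleton (by omega) (wedge f (c + 1) (vol (c + 1))), map_zero] at h3
    have h4 := DFunLike.congr_fun h3 (fun i => Pi.basisFun R (Fin (c + 1)) i)
    rw [AlternatingMap.smul_apply, vol, Module.Basis.det_self] at h4
    simpa using h4.symm
  have hex : ∀ ω, D f z ω = 0 → ∃ η, D f z η = ω := fun ω hω =>
    exact_D f z e hreg w h1 h2 hν hνw (c + 2) ω hω fun i hi => alt_subsingleton (by omega) _
  have hall := no_exact rs (Forms R (Fin (c + 1) → R)) (D f z) (isWeaklyRegular_free hrs)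
    (fun ω => D_D f z hfz ω) hex (fun ω => by
      rw [hm]
      exact D_mem _ f z hf (hker z hfz) ω)
  rw [hm] at hall
  have htop : (⊤ : Submodule R (Forms R (Fin (c + 1) → R))) ≤
      maximalIdeal R • (⊤ : Submodule R (Forms R (Fin (c + 1) → R))) := fun x _ => hall x
  have hbot := Submodule.eq_bot_of_le_smul_of_le_jacobson_bot _ _ (Module.Finite.fg_top) htop
    (IsLocalRing.maximalIdeal_le_jacobson _)
  have h5 : (Pi.single 0 (AlternatingMap.constOfIsEmpty R (Fin (c + 1) → R) (Fin 0) (1 : R)) :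
      Forms R (Fin (c + 1) → R)) ∈ (⊥ : Submodule R (Forms R (Fin (c + 1) → R))) := by
    rw [← hbot]; trivial
  rw [Submodule.mem_bot] at h5
  have h6 := DFunLike.congr_fun (congrFun h5 0) (fun i => i.elim0)
  rw [Pi.single_eq_same] at h6
  exact one_ne_zero h6

end nakayama

end Pool.Agent.Licci.Kunz
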