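import Pool.Agent.Work.MP_a98e4e_ag.D.ExchC

/-!
MP_a98e4e_ag (licci, any codimension `r + 1`), module DS2b (helper43): one double link
`f ↦ f' = f + t ω(a, ·)` (`a` an `r`-tuple) as a pair of direct links.
-/

set_option autoImplicit false

namespace LicciD

open IsLocalRing RingTheory.Sequence Pool.Agent.Licci LicciCodimFour

section

variable {R : Type*} [CommRing R] {P : Type*} [AddCommGroup P] [Module R P]

/-- `f (v) w ∈ α` -/
lemma mul_omega_mem {r : ℕ} {f : P →ₗ[R] R} {ω : P [⋀^Fin (r + 1)]→ₗ[R] R} (hω : Cyc f ω)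
    (a : Fin (r + 1) → P) (v : P) : f v * ω a ∈ Ideal.ofList (lst f a) := by
  rw [← hω a v]
  exact Ideal.sum_mem _ fun i _ => Ideal.mul_mem_right _ _ (mem_ofList_lst f a i)

/-- the direct link `I ~ J`, `J = α + (w)` -/
theorem Good.link {r : ℕ} {f : P →ₗ[R] R} {ω : P [⋀^Fin (r + 1)]→ₗ[R] R} (hω : Cyc f ω)
    {a : Fin (r + 1) → P} (hreg : IsRegular R (lst f a)) (h : Good f ω a) :
    DirectlyLinked (LinearMap.range f) (Ideal.ofList (lst f a) ⊔ Ideal.span {ω a}) := by
  refine ⟨_, hreg, le_inf (ofList_lst_le_range f a) le_sup_left, ?_, ?_⟩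
  · apply le_antisymm
    · rintro _ ⟨v, rfl⟩
      rw [mem_colon_iff']
      intro x hx
      obtain ⟨y, hy, z, hz, rfl⟩ := Submodule.mem_sup.mp hx
      obtain ⟨q, rfl⟩ := Ideal.mem_span_singleton'.mp hz
      have e : f v * (y + q * ω a) = f v * y + q * (f v * ω a) := by ring
      rw [e]
      exact Ideal.add_mem _ (Ideal.mul_mem_left _ _ hy)
        (Ideal.mul_mem_left _ _ (mul_omega_mem hω a v))
    · intro y hy
      rw [mem_colon_iff'] at hy
      exact h.1 y (hy _ (Ideal.mem_sup_right (Ideal.mem_span_singleton_self _)))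
  · apply le_antisymm
    · intro x hx
      rw [mem_colon_iff']
      rintro _ ⟨v, rfl⟩
      obtain ⟨y, hy, z, hz, rfl⟩ := Submodule.mem_sup.mp hx
      obtain ⟨q, rfl⟩ := Ideal.mem_span_singleton'.mp hz
      have e : (y + q * ω a) * f v = f v * y + q * (f v * ω a) := by ring
      rw [e]
      exact Ideal.add_mem _ (Ideal.mul_mem_left _ _ hy)
        (Ideal.mul_mem_left _ _ (mul_omega_mem hω a v))
    · intro y hy
      rw [mem_colon_iff'] at hy
      exact h.2 y fun v => hy (f v) ⟨v, rfl⟩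

/-- the contraction with `r` vectors, as a linear form -/
def con {r : ℕ} (ω : P [⋀^Fin (r + 1)]→ₗ[R] R) (a : Fin r → P) : P →ₗ[R] R :=
  conAt ω (Fin.snoc a (0 : P)) (Fin.last r)

@[simp] lemma con_apply {r : ℕ} (ω : P [⋀^Fin (r + 1)]→ₗ[R] R) (a : Fin r → P) (v : P) :
    con ω a v = ω (Fin.snoc a v) := by
  rw [con, conAt_apply, Fin.update_snoc_last]

lemma omega_last_self {r : ℕ} (ω : P [⋀^Fin (r + 1)]→ₗ[R] R) (a : Fin r → P) (i : Fin r) :
    ω (Fin.snoc a (a i)) = 0 :=
  ω.map_eq_zero_of_eq _ (i := i.castSucc) (j := Fin.last r) (by simp)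
    (Fin.castSucc_lt_last i).ne

lemma rel_last {r : ℕ} {f : P →ₗ[R] R} {ω : P [⋀^Fin (r + 1)]→ₗ[R] R} (hω : Cyc f ω)
    (a : Fin r → P) (w v : P) :
    f v * con ω a w - f w * con ω a v ∈ Ideal.ofList (lst f a) := by
  have h := rel_of_cyc hω (Fin.snoc a w) (Fin.last r) v
  rw [conAt_apply, conAt_apply, Fin.update_snoc_last, Fin.update_snoc_last, Fin.snoc_last,
    Fin.removeNth_last, Fin.init_snoc] at h
  rwa [con_apply, con_apply]

/-- the new functional -/
def stepf {r : ℕ} (f : P →ₗ[R] R) (ω : P [⋀^Fin (r + 1)]→ₗ[R] R) (a : Fin r → P) (t : R) :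
    P →ₗ[R] R := f + t • con ω a

lemma stepf_apply {r : ℕ} (f : P →ₗ[R] R) (ω : P [⋀^Fin (r + 1)]→ₗ[R] R) (a : Fin r → P) (t : R)
    (v : P) : stepf f ω a t v = f v + t * ω (Fin.snoc a v) := by
  simp [stepf]

lemma stepf_self {r : ℕ} (f : P →ₗ[R] R) (ω : P [⋀^Fin (r + 1)]→ₗ[R] R) (a : Fin r → P) (t : R)
    (i : Fin r) : stepf f ω a t (a i) = f (a i) := by
  rw [stepf_apply, omega_last_self, mul_zero, add_zero]

lemma lst_stepf {r : ℕ} (f : P →ₗ[R] R) (ω : P [⋀^Fin (r + 1)]→ₗ[R] R) (a : Fin r → P) (t : R) :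
    lst (stepf f ω a t) a = lst f a := by
  simp only [lst, stepf_self]

lemma lst_stepf_snoc {r : ℕ} (f : P →ₗ[R] R) (ω : P [⋀^Fin (r + 1)]→ₗ[R] R) (a : Fin r → P)
    (t : R) (w : P) :
    lst (stepf f ω a t) (Fin.snoc a w : Fin (r + 1) → P) =
      lst f a ++ [f w + t * ω (Fin.snoc a w)] := by
  rw [lst_snoc, lst_stepf, stepf_apply]

lemma mem_range_stepf {r : ℕ} (f : P →ₗ[R] R) (ω : P [⋀^Fin (r + 1)]→ₗ[R] R) (a : Fin r → P)
    (t : R) : ∀ x ∈ Ideal.ofList (lst f a), x ∈ LinearMap.range (stepf f ω a t) := by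
  intro x hx
  rw [← lst_stepf f ω a t] at hx
  exact ofList_lst_le_range _ _ hx

lemma step_colon {r : ℕ} {f : P →ₗ[R] R} {ω : P [⋀^Fin (r + 1)]→ₗ[R] R} (hω : Cyc f ω)
    {a : Fin r → P} {w : P} {t : R}
    (h1 : IsWeaklyRegular R (lst f a ++ [f w]))
    (h : Good f ω (Fin.snoc a w)) (y : R) :
    y * ω (Fin.snoc a w) ∈ Ideal.ofList (lst f a ++ [f w + t * ω (Fin.snoc a w)]) ↔
      y ∈ LinearMap.range (stepf f ω a t) := by
  have r1 := (isWeaklyRegular_concat_iff.mp h1).2
  obtain ⟨hA, _⟩ := h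
  rw [lst_snoc, ofList_append_singleton, ← con_apply] at hA
  rw [ofList_append_singleton, ← con_apply]
  exact double_link_colon f (con ω a) w t (mem_range_stepf f ω a t) (rel_last hω a w) r1 hA y

/-- the two identities for the new pair -/
theorem Good.step {r : ℕ} {f : P →ₗ[R] R} {ω ω' : P [⋀^Fin (r + 1)]→ₗ[R] R} (hω : Cyc f ω)
    {a : Fin r → P} {w : P} {t : R}
    (h1 : IsWeaklyRegular R (lst f a ++ [f w]))
    (h2 : IsWeaklyRegular R (lst f a ++ [f w + t * ω (Fin.snoc a w)]))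
    (hw : ω' (Fin.snoc a w) = ω (Fin.snoc a w))
    (h : Good f ω (Fin.snoc a w)) : Good (stepf f ω a t) ω' (Fin.snoc a w) := by
  have r2 := (isWeaklyRegular_concat_iff.mp h2).2
  refine ⟨?_, ?_⟩
  · intro y hy
    rw [lst_stepf_snoc, hw] at hy
    exact (step_colon hω h1 h y).mp hy
  · intro y hy
    rw [lst_stepf_snoc] at hy ⊢
    rw [hw, ofList_append_singleton_sup]
    obtain ⟨_, hB⟩ := h
    rw [lst_snoc, ofList_append_singleton_sup, ofList_append_singleton, ← con_apply] at hB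
    rw [ofList_append_singleton, ← con_apply] at hy
    rw [← con_apply] at r2 ⊢
    exact (double_link_colon' f (con ω a) w t (rel_last hω a w) r2 hB y).mp hy

lemma sup_step (l : List R) (x w t : R) :
    Ideal.ofList (l ++ [x + t * w]) ⊔ Ideal.span {w} = Ideal.ofList (l ++ [x]) ⊔ Ideal.span {w} := by
  rw [ofList_append_singleton_sup, ofList_append_singleton_sup]
  congr 1
  apply le_antisymm
  · rw [Ideal.span_le]
    rintro z (rfl | rfl)
    · exact Ideal.add_mem _ (Ideal.subset_span (by simp))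
        (Ideal.mul_mem_left _ _ (Ideal.subset_span (by simp)))
    · exact Ideal.subset_span (by simp)
  · rw [Ideal.span_le]
    rintro z (rfl | rfl)
    · have : z ∈ Ideal.span ({z + t * w, w} : Set R) := by
        have e : z = (z + t * w) - t * w := by ring
        have h1 : (z + t * w) - t * w ∈ Ideal.span ({z + t * w, w} : Set R) :=
          Ideal.sub_mem _ (Ideal.subset_span (by simp))
            (Ideal.mul_mem_left _ _ (Ideal.subset_span (by simp)))
        rwa [← e] at h1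
      exact this
    · exact Ideal.subset_span (by simp)

end

section loc

universe u

variable {R : Type u} [CommRing R]
variable {P : Type*} [AddCommGroup P] [Module R P]

/-- a unit value of the form: the ideal is a complete intersection -/
theorem licci_of_form_unit {r : ℕ} {f : P →ₗ[R] R} {ω : P [⋀^Fin (r + 1)]→ₗ[R] R} (hω : Cyc f ω)
    {a : Fin (r + 1) → P} (hreg : IsRegular R (lst f a)) (hu : IsUnit (ω a)) :
    IsLicci (LinearMap.range f) := by
  refine ⟨_, Relation.ReflTransGen.refl, _, hreg, ?_⟩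
  apply le_antisymm
  · rintro _ ⟨v, rfl⟩
    have h3 := mul_omega_mem hω a v
    obtain ⟨u, hu⟩ := hu
    rw [← hu] at h3
    have h4 := Ideal.mul_mem_right ((↑u⁻¹ : R)) _ h3
    rwa [mul_assoc, Units.mul_inv, mul_one] at h4
  · exact ofList_lst_le_range f a

variable [IsLocalRing R]

/-- one double link: if the new ideal is licci, so is the old one. -/
theorem licci_of_step {r : ℕ} {f : P →ₗ[R] R} {ω ω' : P [⋀^Fin (r + 1)]→ₗ[R] R} (hω : Cyc f ω)
    (hI : ∀ v, f v ∈ maximalIdeal R)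
    {a : Fin r → P} {w : P} {t : R}
    (h1 : IsWeaklyRegular R (lst f a ++ [f w]))
    (h2 : IsWeaklyRegular R (lst f a ++ [f w + t * ω (Fin.snoc a w)]))
    (h : Good f ω (Fin.snoc a w))
    (hI' : ∀ v, stepf f ω a t v ∈ maximalIdeal R)
    (hω' : Cyc (stepf f ω a t) ω')
    (hw : ω' (Fin.snoc a w) = ω (Fin.snoc a w))
    (hL : IsLicci (LinearMap.range (stepf f ω a t))) : IsLicci (LinearMap.range f) := by
  have h1' : IsWeaklyRegular R (lst f (Fin.snoc a w : Fin (r + 1) → P)) := by rwa [lst_snoc]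
  have h2' : IsWeaklyRegular R (lst (stepf f ω a t) (Fin.snoc a w : Fin (r + 1) → P)) := by
    rwa [lst_stepf_snoc]
  have l1 := h.link hω (isRegular_lst hI h1')
  have hG := h.step (ω' := ω') hω h1 h2 hw
  have l2 := hG.link hω' (isRegular_lst hI' h2')
  rw [lst_stepf_snoc, hw, sup_step, ← lst_snoc] at l2
  exact IsLicci.of_linked l1 (IsLicci.of_linked (DirectlyLinked.symm l2) hL)

/-- the last step: if the new functional takes a unit value, the ideal is licci. -/
theorem licci_of_unit {r : ℕ} {f : P →ₗ[R] R} {ω : P [⋀^Fin (r + 1)]→ₗ[R] R} (hω : Cyc f ω)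
    (hI : ∀ v, f v ∈ maximalIdeal R)
    {a : Fin r → P} {w : P} {t : R}
    (h1 : IsWeaklyRegular R (lst f a ++ [f w]))
    (h2 : IsWeaklyRegular R (lst f a ++ [f w + t * ω (Fin.snoc a w)]))
    (h : Good f ω (Fin.snoc a w))
    (hu : ∃ v, IsUnit (stepf f ω a t v)) : IsLicci (LinearMap.range f) := by
  have h1' : IsWeaklyRegular R (lst f (Fin.snoc a w : Fin (r + 1) → P)) := by rwa [lst_snoc]
  have l1 := h.link hω (isRegular_lst hI h1')
  set z := ω (Fin.snoc a w) with hz
  by_cases hwu : IsUnit z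
  · exact licci_of_form_unit hω (isRegular_lst hI h1') hwu
  · -- `z ∈ α'`, so `J = α'`
    have hzm : z ∈ maximalIdeal R := (IsLocalRing.mem_maximalIdeal _).mpr hwu
    have hreg' : IsRegular R (lst f a ++ [f w + t * z]) := by
      refine IsRegular.of_isWeaklyRegular_of_mem_maximalIdeal R ?_ h2
      intro x hx
      rcases List.mem_append.mp hx with hx | hx
      · obtain ⟨i, rfl⟩ := mem_lst.mp hx
        exact hI _
      · rw [List.mem_singleton] at hx
        rw [hx]
        exact Ideal.add_mem _ (hI w) (Ideal.mul_mem_left _ _ hzm)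
    have hw' : z ∈ Ideal.ofList (lst f a ++ [f w + t * z]) := by
      obtain ⟨v, hv⟩ := hu
      have h5 : (1 : R) ∈ LinearMap.range (stepf f ω a t) := by
        obtain ⟨u, hu⟩ := hv
        refine ⟨(↑u⁻¹ : R) • v, ?_⟩
        rw [map_smul, ← hu, smul_eq_mul, Units.inv_mul]
      have h6 := (step_colon hω h1 h (t := t) 1).mpr h5
      rwa [one_mul] at h6
    have hJ : Ideal.ofList (lst f a ++ [f w]) ⊔ Ideal.span {z} =
        Ideal.ofList (lst f a ++ [f w + t * z]) := by
      rw [← sup_step _ _ _ t]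
      exact sup_eq_left.mpr (by rw [Ideal.span_singleton_le_iff_mem]; exact hw')
    rw [lst_snoc, hJ] at l1
    exact IsLicci.of_linked l1 ⟨_, Relation.ReflTransGen.refl, _, hreg', rfl⟩

end loc

end LicciD
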