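import Pool.Agent.Work.MP_a98e4e_ag.E.Tr0
import Pool.Agent.Work.MP_a98e4e_ag.E.KForm

/-!
# LICCI, codimension 5: the vector in the 56 from the vector in `e_8` over `R⟦X⟧` (helper62)

For the `ℤ`-grading `wtg q` of `e_8` (of type `1 | 56 | e_7 + 1 | 56 | 1`):

* `cone_cmp`: if `p` is extremal without component of weight `2`, its component of weight `1` is
  extremal;
* `cone_add`: if `p` is extremal of weight `1`, then `x • eb (ix q) + p` is extremal;
* `exists_p56`: the vector in the 56 over `R` from a vector in `e_8` over `R⟦X⟧` whose component of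
  `z`-degree `3` is `(f, X)`.
-/

set_option autoImplicit false

namespace Pool.Agent.Licci.V56

open scoped BigOperators

open U (Sup)

section weights

theorem kc_wtg (q : Fin 8) {i j : Fin 248} (h : kc i j ≠ 0) : wtg q i + wtg q j = 0 := by
  have h1 := kcN_wt i.2 j.2 h
  have h2 : cd i + cd j = cd 240 + off := by rw [h1, cd_cartan le_rfl (by norm_num)]
  have h3 := dg_add i.2 j.2 (k := 240) (by norm_num) h2 q q.2
  have h4 : wtN 240 q = 0 := t_wtN_cartan le_rfl (by norm_num) q
  unfold wtN at h4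
  unfold wtg wtN
  omega

theorem wtg_two : ∀ (q : Fin 8) (m : Fin 248), wtg q m = 2 → m = ix q := by decide +kernel

theorem wtg_neg_two : ∀ (q : Fin 8) (m : Fin 248), wtg q m = -2 → m = ix (232 + q) := by
  decide +kernel

theorem wtg_ix_self : ∀ q : Fin 8, wtg q (ix q) = 2 := by decide +kernel

theorem wtg_ix_ne : ∀ q r : Fin 8, q ≠ r → wtg q (ix r) = 1 := by decide +kernel

theorem wtg_i2 : ∀ q i j : Fin 8, i ≠ j → wtg q (i2 i j) = if q = i ∨ q = j then 0 else 1 := by
  decide +kernel

end weights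

variable {A : Type*} [CommRing A]

/-- component of weight `j` -/
def cmp (q : Fin 8) (j : ℤ) (y : E8 A) : E8 A := fun m => if wtg q m = j then y m else 0

theorem cmp_of_eq {q : Fin 8} {j : ℤ} {y : E8 A} {m : Fin 248} (h : wtg q m = j) :
    cmp q j y m = y m := if_pos h

theorem cmp_of_ne {q : Fin 8} {j : ℤ} {y : E8 A} {m : Fin 248} (h : wtg q m ≠ j) :
    cmp q j y m = 0 := if_neg h

theorem sup_cmp (q : Fin 8) (j : ℤ) (y : E8 A) : Sup (wtg q) j (cmp q j y) :=
  fun _ hm => cmp_of_ne hm

theorem sup_eb (q : Fin 8) (n : Fin 248) : Sup (wtg q) (wtg q n) (eb n : E8 A) := by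
  intro m hm
  rw [eb_apply, if_neg]
  rintro rfl
  exact hm rfl

theorem kf_eq_zero (q : Fin 8) {x y : E8 A} {a b : ℤ} (hx : Sup (wtg q) a x)
    (hy : Sup (wtg q) b y) (hab : a + b ≠ 0) : kf x y = 0 := by
  rw [kf_def]
  refine Finset.sum_eq_zero fun i _ => Finset.sum_eq_zero fun j _ => ?_
  by_cases h : kc i j = 0
  · rw [h, Int.cast_zero, zero_mul]
  · have h1 := kc_wtg q h
    by_cases hi : wtg q i = a
    · rw [hy j (by omega), mul_zero, mul_zero]
    · rw [hx i hi, zero_mul, mul_zero]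

theorem kf_eb_congr (q : Fin 8) {x y : E8 A} (n : Fin 248)
    (h : ∀ m, wtg q m = - wtg q n → x m = y m) : kf x (eb n) = kf y (eb n) := by
  rw [kf_def, kf_def]
  refine Finset.sum_congr rfl fun i _ => Finset.sum_congr rfl fun j _ => ?_
  by_cases hj : j = n
  · subst hj
    by_cases h0 : kc i j = 0
    · rw [h0, Int.cast_zero, zero_mul, zero_mul]
    · rw [h i (by have := kc_wtg q h0; omega)]
  · rw [eb_apply, if_neg hj, mul_zero, mul_zero, mul_zero, mul_zero]

/-- the cone condition only has to be checked on basis vectors -/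
theorem cone_of_basis {p : E8 A}
    (h : ∀ n, br p (br p (eb n)) = (-(2 * kf p (eb n))) • p) : Cone p := by
  intro y
  rw [E8.eq_sum y, br_sum_right, br_sum_right, kf_sum_right, Finset.mul_sum,
    ← Finset.sum_neg_distrib, Finset.sum_smul]
  refine Finset.sum_congr rfl fun n _ => ?_
  rw [br_smul_right, br_smul_right, h n, kf_smul_right, smul_smul]
  congr 1
  ring

theorem cone_map {B : Type*} [CommRing B] (φ : A →+* B) {p : E8 A} (h : Cone p) :
    Cone (φ ∘ p : E8 B) := by
  have heb : ∀ n, (eb n : E8 B) = φ ∘ (eb n : E8 A) := by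
    intro n
    funext m
    rw [eb_apply, Function.comp_apply, eb_apply]
    split_ifs <;> simp
  apply cone_of_basis
  intro n
  rw [heb, ← br_map, ← br_map, ← kf_map, h (eb n)]
  funext m
  simp only [Pi.smul_apply, Function.comp_apply, smul_eq_mul, map_mul, map_neg, map_ofNat]

theorem le_eb (q : Fin 8) (n : Fin 248) : Le (wtg q) (wtg q n) (eb n : E8 A) :=
  fun m hm => sup_eb q n m (by omega)

/-- **component of weight one** -/
theorem cone_cmp (q : Fin 8) {p : E8 A} (h : Cone p) (h2 : ∀ m, 1 < wtg q m → p m = 0) :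
    Cone (cmp q 1 p) := by
  apply cone_of_basis
  intro n
  funext k
  rw [Pi.smul_apply, smul_eq_mul]
  have hp : Le (wtg q) 1 p := h2
  have hp1 : Le (wtg q) 1 (cmp q 1 p) := fun m hm => cmp_of_ne (by omega)
  by_cases hk : wtg q k = 1 + (1 + wtg q n)
  · have e1 : ∀ m, wtg q m = 1 + wtg q n →
        br (cmp q 1 p) (eb n) m = br p (eb n : E8 A) m := fun m hm =>
      br_top (fun i j k => sc_wtg q) hp1 (le_eb q n) hp (le_eb q n)
        (fun m hm => cmp_of_eq hm) (fun m _ => rfl) m hm
    have e2 : br (cmp q 1 p) (br (cmp q 1 p) (eb n)) k = br p (br p (eb n)) k :=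
      br_top (fun i j k => sc_wtg q) hp1 (Le.br (fun i j k => sc_wtg q) hp1 (le_eb q n)) hp
        (Le.br (fun i j k => sc_wtg q) hp (le_eb q n))
        (fun m hm => cmp_of_eq hm) e1 k hk
    rw [e2, h (eb n), Pi.smul_apply, smul_eq_mul]
    rcases lt_trichotomy (wtg q n) (-1) with hj | hj | hj
    · have e3 : kf p (eb n : E8 A) = 0 := by
        rw [kf_eb_congr q (x := p) (y := 0) n (fun m hm => h2 m (by omega)), kf_zero_left]
      rw [e3, cmp_of_ne (by omega : wtg q k ≠ 1)]
      ring
    · have e3 : kf p (eb n : E8 A) = kf (cmp q 1 p) (eb n) :=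
        kf_eb_congr q n (fun m hm => (cmp_of_eq (by omega)).symm)
      rw [e3, cmp_of_eq (by omega : wtg q k = 1)]
    · rw [h2 k (by omega), cmp_of_ne (by omega : wtg q k ≠ 1), mul_zero, mul_zero]
  · have e1 : br (cmp q 1 p) (br (cmp q 1 p) (eb n)) k = 0 :=
      Sup.br (fun i j k => sc_wtg q) (sup_cmp q 1 p)
        (Sup.br (fun i j k => sc_wtg q) (sup_cmp q 1 p) (sup_eb q n)) k hk
    rw [e1]
    by_cases h1 : wtg q k = 1
    · rw [kf_eq_zero q (sup_cmp q 1 p) (sup_eb q n) (by omega)]
      ring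
    · rw [cmp_of_ne h1, mul_zero]

theorem sup_one_br_eb (q : Fin 8) {p : E8 A} (hp : Sup (wtg q) 1 p) :
    br (eb (ix q)) p = 0 := by
  funext m
  have := Sup.br (fun i j k => sc_wtg q) (sup_eb q (ix q)) hp (A := A) m
  apply this
  have h1 := wtg_ix_self q
  have h2 := wtg_le q m
  omega

theorem sup_two (q : Fin 8) {u : E8 A} (hu : Sup (wtg q) 2 u) :
    u = kf u (wq q) • (eb (ix q) : E8 A) := by
  have h1 : u = u (ix q) • (eb (ix q) : E8 A) := by
    funext m
    rw [Pi.smul_apply, smul_eq_mul, eb_apply]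
    by_cases hm : m = ix q
    · rw [if_pos hm, mul_one, hm]
    · rw [if_neg hm, mul_zero]
      exact hu m fun h => hm (wtg_two q m h)
  have h2 : kf u (wq q) = u (ix q) := by
    rw [h1, kf_smul_left, (pair_eb q).one, mul_one, Pi.smul_apply, smul_eq_mul, eb_apply,
      if_pos rfl, mul_one]
  rw [h2]
  exact h1

theorem br_hq_sup (q : Fin 8) {y : E8 A} {j : ℤ} (hy : Sup (wtg q) j y) :
    br (hq q) y = (j : A) • y := by
  funext m
  rw [br_hq, Pi.smul_apply, smul_eq_mul]
  by_cases h : wtg q m = j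
  · rw [h]
  · rw [hy m h, mul_zero, mul_zero]

theorem key_basis (q : Fin 8) {p : E8 A} (hp : Sup (wtg q) 1 p) (n : Fin 248) :
    br (eb (ix q)) (br p (eb n)) =
      -(kf (eb (ix q)) (eb n : E8 A) • p + kf p (eb n : E8 A) • (eb (ix q) : E8 A)) := by
  have he : Sup (wtg q) 2 (eb (ix q) : E8 A) := by
    have := sup_eb (A := A) q (ix q)
    rwa [wtg_ix_self] at this
  have hn := sup_eb (A := A) q n
  have hL : Sup (wtg q) (2 + (1 + wtg q n)) (br (eb (ix q)) (br p (eb n : E8 A))) :=
    Sup.br (fun i j k => sc_wtg q) he (Sup.br (fun i j k => sc_wtg q) hp hn)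
  have hge := wtg_ge q n
  rcases lt_trichotomy (wtg q n) (-1) with hj | hj | hj
  · have hn2 : wtg q n = -2 := by omega
    have hw : (eb n : E8 A) = - wq q := by
      rw [wtg_neg_two q n hn2, wq, neg_neg]
    have e1 : kf (eb (ix q) : E8 A) (eb n) = -1 := by
      rw [hw, kf_neg_right, (pair_eb q).one]
    have e2 : kf p (eb n : E8 A) = 0 := kf_eq_zero q hp hn (by omega)
    rw [e1, e2, jacobi, sup_one_br_eb q hp, br_zero_left, zero_add, zero_smul, add_zero]
    have e3 : br (eb (ix q)) (eb n) = - (hq q : E8 A) := by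
      rw [hw, br_neg_right]
      rfl
    rw [e3, br_neg_right, ← br_skew, br_hq_sup q hp]
    simp
  · have hL' : Sup (wtg q) 2 (br (eb (ix q)) (br p (eb n : E8 A))) := by
      rw [hj] at hL
      exact hL
    rw [sup_two q hL', kf_eq_zero q he hn (by omega), zero_smul, zero_add]
    have e1 : kf (br (eb (ix q)) (br p (eb n))) (wq q : E8 A) = - kf p (eb n : E8 A) := by
      rw [kf_br_left]
      change - kf (br p (eb n)) (hq q : E8 A) = _
      rw [kf_inv, br_skew, kf_neg_right, br_hq_sup q hn, hj, kf_smul_right]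
      push_cast
      ring
    rw [e1, neg_smul]
  · have e0 : br (eb (ix q)) (br p (eb n : E8 A)) = 0 := by
      funext m
      exact hL m (by have := wtg_le q m; omega)
    rw [e0, kf_eq_zero q he hn (by omega), kf_eq_zero q hp hn (by omega)]
    simp

theorem key_all (q : Fin 8) {p : E8 A} (hp : Sup (wtg q) 1 p) (y : E8 A) :
    br (eb (ix q)) (br p y) = -(kf (eb (ix q)) y • p + kf p y • (eb (ix q) : E8 A)) := by
  conv_lhs => rw [E8.eq_sum y, br_sum_right, br_sum_right]
  conv_rhs => rw [E8.eq_sum y, kf_sum_right, kf_sum_right, Finset.sum_smul, Finset.sum_smul,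
    ← Finset.sum_add_distrib, ← Finset.sum_neg_distrib]
  refine Finset.sum_congr rfl fun n _ => ?_
  rw [br_smul_right, br_smul_right, key_basis q hp n, kf_smul_right, kf_smul_right, smul_neg,
    smul_add, smul_smul, smul_smul]

/-- **adding a multiple of the vector of weight two** -/
theorem cone_add (q : Fin 8) {p : E8 A} (h : Cone p) (hp : Sup (wtg q) 1 p) (x : A) :
    Cone (x • (eb (ix q) : E8 A) + p) := by
  intro y
  have e1 := key_all q hp y
  have e2 : br p (br (eb (ix q)) y) = br (eb (ix q)) (br p y) := by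
    rw [jacobi, br_skew p, sup_one_br_eb q hp, neg_zero, br_zero_left, zero_add]
  have e3 := cone_eb (A := A) q y
  have e4 := h y
  simp only [br_add_left, br_add_right, br_smul_left, br_smul_right]
  rw [e2, e3, e4, e1, kf_add_left, kf_smul_left]
  funext m
  simp only [Pi.add_apply, Pi.smul_apply, Pi.neg_apply, smul_eq_mul]
  ring

/-! ### power series -/

open PowerSeries in
/-- **the vector in the 56** over `R` from a vector in `e_8` over `R⟦X⟧` -/
theorem exists_p56 {R : Type*} [CommRing R] (g : Fin 7 → R) {p' : E8 R⟦X⟧} (hc : Cone p')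
    (h3 : ∀ i : Fin 8, p' (ix i) = Fin.snoc (α := fun _ => R⟦X⟧) (fun i => C (g i)) X i) :
    ∃ p : E8 R, Cone p ∧ Sup (wtg 7) 1 p ∧
      (∀ i : Fin 8, p (ix i) = Fin.snoc (α := fun _ => R) g 0 i) ∧
      (∀ i j : Fin 8, i ≠ 7 → j ≠ 7 → w2 p i j = constantCoeff (w2 p' i j)) ∧
      (∀ i j : Fin 8, i = 7 ∨ j = 7 → w2 p i j = 0) := by
  let p0 : E8 R := (constantCoeff (R := R)) ∘ p'
  have hp0 : Cone p0 := cone_map _ hc
  have h3' : ∀ i : Fin 8, p0 (ix i) = Fin.snoc (α := fun _ => R) g 0 i := by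
    intro i
    show constantCoeff (p' (ix i)) = _
    rw [h3 i]
    refine Fin.lastCases ?_ (fun j => ?_) i
    · rw [Fin.snoc_last, Fin.snoc_last, constantCoeff_X]
    · rw [Fin.snoc_castSucc, Fin.snoc_castSucc, constantCoeff_C]
  have h70 : p0 (ix (7 : Fin 8)) = 0 := by
    rw [h3' 7, show (7 : Fin 8) = Fin.last 7 from rfl, Fin.snoc_last]
  have h2 : ∀ m, 1 < wtg 7 m → p0 m = 0 := by
    intro m hm
    have h4 := wtg_le 7 m
    rw [wtg_two 7 m (by omega)]
    exact h70
  have hw2 : ∀ i j, w2 (cmp 7 1 p0) i j =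
      if i = j ∨ i = 7 ∨ j = 7 then 0 else constantCoeff (w2 p' i j) := by
    intro i j
    unfold w2
    by_cases hij : i = j
    · rw [if_pos (Or.inl hij), hij]
      have : ep2 j j = 0 := by simp [ep2]
      rw [this, Int.cast_zero, zero_mul]
    · have h5 := wtg_i2 7 i j hij
      by_cases h7 : i = 7 ∨ j = 7
      · rw [if_pos (Or.inr h7), cmp_of_ne, mul_zero]
        rw [h5, if_pos (by rcases h7 with h | h <;> simp [h])]
        norm_num
      · rw [if_neg (by tauto), cmp_of_eq, map_mul, map_intCast]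
        · rfl
        · rw [h5, if_neg]
          push Not at h7 ⊢
          exact ⟨fun h => h7.1 h.symm, fun h => h7.2 h.symm⟩
  refine ⟨cmp 7 1 p0, cone_cmp 7 hp0 h2, sup_cmp 7 1 p0, fun i => ?_, fun i j hi hj => ?_,
    fun i j h => ?_⟩
  · by_cases h7 : i = 7
    · subst h7
      rw [cmp_of_ne]
      · rw [show (7 : Fin 8) = Fin.last 7 from rfl, Fin.snoc_last]
      · rw [wtg_ix_self]
        norm_num
    · rw [cmp_of_eq (wtg_ix_ne 7 i (Ne.symm h7)), h3' i]
  · rw [hw2]
    by_cases hij : i = j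
    · rw [if_pos (Or.inl hij), hij]
      have : ep2 j j = 0 := by simp [ep2]
      rw [w2, this, Int.cast_zero, zero_mul, map_zero]
    · rw [if_neg (by tauto)]
  · rw [hw2, if_pos (Or.inr h)]

open PowerSeries in
/-- the vector `X e + p` -/
noncomputable def up {S : Type*} [CommRing S] (p : E8 S) : E8 S⟦X⟧ :=
  (X : S⟦X⟧) • (eb (ix (7 : Fin 8)) : E8 S⟦X⟧) + (C (R := S)) ∘ p

open PowerSeries in
theorem cone_up {S : Type*} [CommRing S] {p : E8 S} (h : Cone p) (hp : Sup (wtg 7) 1 p) :
    Cone (up p) := by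
  refine cone_add 7 (cone_map _ h) (fun m hm => ?_) _
  rw [Function.comp_apply, hp m hm, map_zero]

open PowerSeries in
theorem up_apply {S : Type*} [CommRing S] (p : E8 S) (m : Fin 248) :
    up p m = (if m = ix (7 : Fin 8) then X else 0) + C (p m) := by
  rw [up, Pi.add_apply, Pi.smul_apply, eb_apply, smul_eq_mul, Function.comp_apply]
  split_ifs <;> simp

open PowerSeries in
theorem constantCoeff_up {S : Type*} [CommRing S] (p : E8 S) (m : Fin 248) :
    constantCoeff (up p m) = p m := by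
  rw [up_apply, map_add, constantCoeff_C]
  split_ifs <;> simp

theorem isUnit_of_up {S : Type*} [CommRing S] {p : E8 S} {m : Fin 248} (h : IsUnit (up p m)) :
    IsUnit (p m) := by
  have := h.map (PowerSeries.constantCoeff (R := S))
  rwa [constantCoeff_up] at this

open PowerSeries in
theorem ix_up {S : Type*} [CommRing S] {p : E8 S} {g : Fin 7 → S}
    (h : ∀ i : Fin 8, p (ix i) = Fin.snoc (α := fun _ => S) g 0 i) (i : Fin 8) :
    up p (ix i) = Fin.snoc (α := fun _ => S⟦X⟧) (fun i => C (g i)) X i := by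
  rw [up_apply, h i]
  refine Fin.lastCases ?_ (fun j => ?_) i
  · rw [Fin.snoc_last, Fin.snoc_last, map_zero, add_zero]
    exact if_pos rfl
  · rw [Fin.snoc_castSucc, Fin.snoc_castSucc, if_neg, zero_add]
    have : ∀ j : Fin 7, ix (j.castSucc : Fin 8) ≠ ix (7 : Fin 8) := by decide +kernel
    exact this j

open PowerSeries in
theorem w2_up {S : Type*} [CommRing S] (p : E8 S) (i j : Fin 8) :
    w2 (up p) i j = C (w2 p i j) := by
  unfold w2
  rw [up_apply, map_mul, map_intCast]
  have h : ∀ i j : Fin 8, ep2 i j = 0 ∨ i2 i j ≠ ix (7 : Fin 8) := by decide +kernel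
  rcases h i j with h | h
  · rw [h, Int.cast_zero, zero_mul, zero_mul]
  · rw [if_neg h, zero_add]

end Pool.Agent.Licci.V56
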