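import Mathlib

/-!
MP_a98e4e_ag (licci), module Z2 (helper23): the power series ring over a regular local ring and
the passage from Gorenstein data of grade `c` over `R` to Gorenstein data of grade `c + 1` over
`R⟦X⟧`: `f' = (f, X)`, `a' = (e_last, a)`, `w' = w`.
-/

set_option autoImplicit false

namespace Pool.Agent.Licci.D

open IsLocalRing RingTheory.Sequence PowerSeries

universe u

/-! ## the ring -/

section ring

variable (R : Type u) [CommRing R]

theorem ps_decomp (y : R⟦X⟧) : ∃ z : R⟦X⟧, y = C (constantCoeff y) + X * z := by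
  obtain ⟨z, hz⟩ := (X_dvd_iff (φ := y - C (constantCoeff y))).2 (by simp)
  exact ⟨z, by rw [← hz]; ring⟩

variable [IsLocalRing R]

theorem ps_mem_maximalIdeal (y : R⟦X⟧) :
    y ∈ maximalIdeal R⟦X⟧ ↔ constantCoeff y ∈ maximalIdeal R := by
  rw [mem_maximalIdeal, mem_maximalIdeal, mem_nonunits_iff, mem_nonunits_iff,
    PowerSeries.isUnit_iff_constantCoeff]

theorem ps_C_mem {r : R} : (C r : R⟦X⟧) ∈ maximalIdeal R⟦X⟧ ↔ r ∈ maximalIdeal R := by
  rw [ps_mem_maximalIdeal, constantCoeff_C]

theorem ps_maximalIdeal (s : Set R) (hs : Ideal.span s = maximalIdeal R) :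
    maximalIdeal R⟦X⟧ = Ideal.span (insert X ((C : R →+* R⟦X⟧) '' s)) := by
  have h1 : (maximalIdeal R).map (C : R →+* R⟦X⟧) = Ideal.span ((C : R →+* R⟦X⟧) '' s) := by
    rw [← hs, Ideal.map_span]
  rw [Ideal.span_insert, ← h1]
  apply le_antisymm
  · intro y hy
    rw [ps_mem_maximalIdeal] at hy
    obtain ⟨z, hz⟩ := ps_decomp R y
    rw [hz, add_comm]
    exact Ideal.add_mem _ (Ideal.mem_sup_left (Ideal.mul_mem_right _ _
      (Ideal.mem_span_singleton_self _))) (Ideal.mem_sup_right (Ideal.mem_map_of_mem _ hy))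
  · apply sup_le
    · rw [Ideal.span_singleton_le_iff_mem, ps_mem_maximalIdeal, constantCoeff_X]
      exact Ideal.zero_mem _
    · rw [Ideal.map_le_iff_le_comap]
      intro r hr
      exact (ps_C_mem R).2 hr

end ring

section regular

variable (R : Type u) [CommRing R] [IsRegularLocalRing R]

theorem ps_spanFinrank_le :
    (maximalIdeal R⟦X⟧).spanFinrank ≤ (maximalIdeal R).spanFinrank + 1 := by
  obtain ⟨s, hs1, hs2⟩ := Submodule.FG.exists_span_set_encard_eq_spanFinrank
    (IsNoetherian.noetherian (maximalIdeal R) : (maximalIdeal R).FG)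
  have hfin : s.Finite := Set.finite_of_encard_eq_coe hs1
  have h1 := ps_maximalIdeal R s hs2
  have h2 : (insert X ((C : R →+* R⟦X⟧) '' s)).Finite := (hfin.image _).insert _
  have h3 := Submodule.spanFinrank_span_le_ncard_of_finite (R := R⟦X⟧) h2
  have h4 : (maximalIdeal R⟦X⟧).spanFinrank ≤ (insert X ((C : R →+* R⟦X⟧) '' s)).ncard := by
    rw [h1]; exact h3
  have h5 : (insert X ((C : R →+* R⟦X⟧) '' s)).ncard ≤ s.ncard + 1 :=
    (Set.ncard_insert_le _ _).trans (Nat.add_le_add_right (Set.ncard_image_le hfin) 1)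
  have h6 : s.ncard = (maximalIdeal R).spanFinrank := by
    rw [Set.ncard, hs1]; rfl
  omega

instance ps_regular : IsRegularLocalRing R⟦X⟧ := by
  refine IsRegularLocalRing.of_spanFinrank_maximalIdeal_le (R := R⟦X⟧) ?_
  have h1 := ringKrullDim_succ_le_ringKrullDim_powerseries (R := R)
  have h2 := IsRegularLocalRing.spanFinrank_maximalIdeal (R := R)
  have h3 := ps_spanFinrank_le R
  refine le_trans ?_ h1
  rw [← h2]
  exact_mod_cast h3

theorem ps_spanFinrank :
    (maximalIdeal R⟦X⟧).spanFinrank = (maximalIdeal R).spanFinrank + 1 := by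
  refine le_antisymm (ps_spanFinrank_le R) ?_
  have h1 := ringKrullDim_succ_le_ringKrullDim_powerseries (R := R)
  rw [← IsRegularLocalRing.spanFinrank_maximalIdeal (R := R),
    ← IsRegularLocalRing.spanFinrank_maximalIdeal (R := R⟦X⟧)] at h1
  exact_mod_cast h1

end regular

/-! ## the datum -/

section datum

variable {R : Type u} [CommRing R]

/-- the linear form `(f, X)` -/
noncomputable def extForm {n : ℕ} (f : (Fin n → R) →ₗ[R] R) : (Fin (n + 1) → R⟦X⟧) →ₗ[R⟦X⟧] R⟦X⟧ :=
  Fintype.linearCombination R⟦X⟧ (Fin.snoc (fun i => C (f (Pi.single i 1))) X)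

/-- the vector `(a, 0)` -/
noncomputable def extVec {n : ℕ} (a : Fin n → R) : Fin (n + 1) → R⟦X⟧ := Fin.snoc (fun i => C (a i)) 0

/-- the tuple `(e_last, a)` -/
noncomputable def extTup {n c : ℕ} (a : Fin c → Fin n → R) : Fin (c + 1) → Fin (n + 1) → R⟦X⟧ :=
  Fin.cons (Pi.single (Fin.last n) 1) fun i => extVec (a i)

theorem extForm_apply {n : ℕ} (f : (Fin n → R) →ₗ[R] R) (v : Fin (n + 1) → R⟦X⟧) :
    extForm f v = ∑ i : Fin n, v i.castSucc * C (f (Pi.single i 1)) + v (Fin.last n) * X := by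
  rw [extForm, Fintype.linearCombination_apply, Fin.sum_univ_castSucc]
  simp

theorem form_eq {n : ℕ} (f : (Fin n → R) →ₗ[R] R) (v : Fin n → R) :
    f v = ∑ i, v i * f (Pi.single i 1) := by
  conv_lhs => rw [pi_eq_sum_univ' v]
  rw [map_sum]
  refine Finset.sum_congr rfl fun i _ => ?_
  rw [map_smul, smul_eq_mul]

theorem extForm_last {n : ℕ} (f : (Fin n → R) →ₗ[R] R) :
    extForm f (Pi.single (Fin.last n) 1) = X := by
  rw [extForm, Fintype.linearCombination_apply, Finset.sum_eq_single (Fin.last n)]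
  · simp
  · intro j _ hj
    rw [Pi.single_eq_of_ne hj, zero_smul]
  · simp

theorem extForm_castSucc {n : ℕ} (f : (Fin n → R) →ₗ[R] R) (i : Fin n) :
    extForm f (Pi.single i.castSucc 1) = C (f (Pi.single i 1)) := by
  rw [extForm, Fintype.linearCombination_apply, Finset.sum_eq_single i.castSucc]
  · simp
  · intro j _ hj
    rw [Pi.single_eq_of_ne hj, zero_smul]
  · simp

theorem extForm_extVec {n : ℕ} (f : (Fin n → R) →ₗ[R] R) (v : Fin n → R) :
    extForm f (extVec v) = C (f v) := by
  rw [extForm_apply, form_eq f v]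
  simp [extVec]

theorem constantCoeff_extForm {n : ℕ} (f : (Fin n → R) →ₗ[R] R) (v : Fin (n + 1) → R⟦X⟧) :
    constantCoeff (extForm f v) = f fun i => constantCoeff (v i.castSucc) := by
  rw [extForm_apply, form_eq f]
  simp

theorem mem_range_extForm {n : ℕ} (f : (Fin n → R) →ₗ[R] R) (y : R⟦X⟧) :
    y ∈ LinearMap.range (extForm f) ↔ constantCoeff y ∈ LinearMap.range f := by
  constructor
  · rintro ⟨v, rfl⟩
    exact ⟨_, (constantCoeff_extForm f v).symm⟩
  · rintro ⟨v, hv⟩
    obtain ⟨z, hz⟩ := ps_decomp R y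
    rw [hz]
    refine Submodule.add_mem _ ⟨extVec v, ?_⟩ ⟨z • Pi.single (Fin.last n) 1, ?_⟩
    · rw [extForm_extVec, hv]
    · rw [map_smul, extForm_last, smul_eq_mul, mul_comm]

theorem mem_span_extTup {n c : ℕ} (f : (Fin n → R) →ₗ[R] R) (a : Fin c → Fin n → R) (y : R⟦X⟧) :
    y ∈ Ideal.span (Set.range fun i => extForm f (extTup a i)) ↔
      constantCoeff y ∈ Ideal.span (Set.range fun i => f (a i)) := by
  constructor
  · intro hy
    have h1 : Ideal.span (Set.range fun i => extForm f (extTup a i)) ≤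
        (Ideal.span (Set.range fun i => f (a i))).comap (constantCoeff (R := R)) := by
      rw [Ideal.span_le]
      rintro _ ⟨i, rfl⟩
      refine Fin.cases ?_ (fun i => ?_) i
      · show constantCoeff (extForm f (extTup a 0)) ∈ Ideal.span (Set.range fun i => f (a i))
        rw [extTup, Fin.cons_zero, extForm_last, constantCoeff_X]
        exact Ideal.zero_mem _
      · show constantCoeff (extForm f (extTup a i.succ)) ∈ Ideal.span (Set.range fun i => f (a i))
        rw [extTup, Fin.cons_succ, extForm_extVec, constantCoeff_C]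
        exact Ideal.subset_span ⟨i, rfl⟩
    exact h1 hy
  · intro hy
    obtain ⟨z, hz⟩ := ps_decomp R y
    rw [hz]
    refine Ideal.add_mem _ ?_ ?_
    · have h1 : (Ideal.span (Set.range fun i => f (a i))).map (C : R →+* R⟦X⟧) ≤
          Ideal.span (Set.range fun i => extForm f (extTup a i)) := by
        rw [Ideal.map_span, Ideal.span_le]
        rintro _ ⟨_, ⟨i, rfl⟩, rfl⟩
        refine Ideal.subset_span ⟨i.succ, ?_⟩
        show extForm f (extTup a i.succ) = _
        rw [extTup, Fin.cons_succ, extForm_extVec]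
      exact h1 (Ideal.mem_map_of_mem _ hy)
    · refine Ideal.mul_mem_right _ _ (Ideal.subset_span ⟨0, ?_⟩)
      show extForm f (extTup a 0) = _
      rw [extTup, Fin.cons_zero, extForm_last]

theorem ext_col {n c : ℕ} {f : (Fin n → R) →ₗ[R] R} {a : Fin c → Fin n → R} {w : R}
    (h : ∀ y, (∀ v, y * f v ∈ Ideal.span (Set.range fun i => f (a i))) →
      y ∈ Ideal.span (Set.range fun i => f (a i)) ⊔ Ideal.span {w}) (y : R⟦X⟧)
    (hy : ∀ v, y * extForm f v ∈ Ideal.span (Set.range fun i => extForm f (extTup a i))) :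
    y ∈ Ideal.span (Set.range fun i => extForm f (extTup a i)) ⊔ Ideal.span {C w} := by
  have h1 := h (constantCoeff y) (fun v => by
    have := (mem_span_extTup f a _).1 (hy (extVec v))
    rwa [map_mul, extForm_extVec, constantCoeff_C] at this)
  obtain ⟨s, hs, t, ht, hst⟩ := Submodule.mem_sup.1 h1
  obtain ⟨r, rfl⟩ := Ideal.mem_span_singleton'.1 ht
  have h2 : y - C (r * w) ∈ Ideal.span (Set.range fun i => extForm f (extTup a i)) := by
    rw [mem_span_extTup, map_sub, constantCoeff_C, ← hst, add_sub_cancel_right]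
    exact hs
  have h3 : y = (y - C (r * w)) + C r * C w := by rw [map_mul]; ring
  rw [h3]
  exact Ideal.add_mem _ (Ideal.mem_sup_left h2) (Ideal.mem_sup_right
    (Ideal.mul_mem_left _ _ (Ideal.mem_span_singleton_self _)))

theorem ext_iff {n c : ℕ} {f : (Fin n → R) →ₗ[R] R} {a : Fin c → Fin n → R} {w : R}
    (h : ∀ y, y * w ∈ Ideal.span (Set.range fun i => f (a i)) ↔ y ∈ LinearMap.range f) (y : R⟦X⟧) :
    y * C w ∈ Ideal.span (Set.range fun i => extForm f (extTup a i)) ↔
      y ∈ LinearMap.range (extForm f) := by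
  rw [mem_span_extTup, mem_range_extForm, map_mul, constantCoeff_C, h]

theorem ext_primary [IsLocalRing R] {n : ℕ} {f : (Fin n → R) →ₗ[R] R}
    (h : ∃ k, ∀ r ∈ maximalIdeal R ^ k, r ∈ LinearMap.range f) :
    ∃ k, ∀ r ∈ maximalIdeal R⟦X⟧ ^ k, r ∈ LinearMap.range (extForm f) := by
  obtain ⟨k, hk⟩ := h
  refine ⟨k, fun r hr => ?_⟩
  rw [mem_range_extForm]
  apply hk
  have h1 : (maximalIdeal R⟦X⟧).map (constantCoeff (R := R)) ≤ maximalIdeal R := by
    rw [Ideal.map_le_iff_le_comap]
    intro y hy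
    exact (ps_mem_maximalIdeal R y).1 hy
  have h2 := Ideal.mem_map_of_mem (constantCoeff (R := R)) hr
  rw [Ideal.map_pow] at h2
  exact Ideal.pow_right_mono h1 k h2

end datum

/-! ## regular sequences -/

section seq

variable {R : Type u} [CommRing R]

theorem X_isSMulRegular : IsSMulRegular R⟦X⟧ (X : R⟦X⟧) := by
  intro a b hab
  have h : (X : R⟦X⟧) * a = X * b := hab
  exact X_mul_inj.1 h

/-- the constant coefficient as a semilinear map -/
noncomputable def ccSemi (R : Type u) [CommRing R] : R⟦X⟧ →ₛₗ[constantCoeff (R := R)] R where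
  toFun := constantCoeff
  map_add' x y := map_add _ x y
  map_smul' c x := by rw [smul_eq_mul, map_mul, smul_eq_mul]

/-- `R⟦X⟧ / X → R` -/
noncomputable def ccQuot (R : Type u) [CommRing R] : QuotSMulTop (X : R⟦X⟧) R⟦X⟧ →ₗ[R] R where
  toFun := Submodule.liftQ _ (ccSemi R) (by
    intro y hy
    obtain ⟨z, -, rfl⟩ := (Submodule.mem_smul_pointwise_iff_exists _ _ _).1 hy
    show constantCoeff (X * z) = 0
    simp)
  map_add' x y := map_add _ x y
  map_smul' c x := by
    have h : c • x = (C c : R⟦X⟧) • x := (algebraMap_smul R⟦X⟧ c x).symm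
    rw [h, LinearMap.map_smulₛₗ, constantCoeff_C]
    rfl

theorem ccQuot_bij (R : Type u) [CommRing R] : Function.Bijective (ccQuot R) := by
  constructor
  · rw [injective_iff_map_eq_zero]
    intro x hx
    obtain ⟨y, rfl⟩ := Submodule.Quotient.mk_surjective _ x
    have hx' : constantCoeff y = 0 := hx
    obtain ⟨z, hz⟩ := ps_decomp R y
    rw [hx', map_zero, zero_add] at hz
    rw [Submodule.Quotient.mk_eq_zero]
    exact (Submodule.mem_smul_pointwise_iff_exists _ _ _).2 ⟨z, trivial, hz.symm⟩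
  · intro r
    exact ⟨Submodule.Quotient.mk (C r), constantCoeff_C r⟩

/-- `X` followed by a weakly regular sequence of `R` -/
theorem ext_regular (rs : List R) (h : IsWeaklyRegular R rs) :
    IsWeaklyRegular R⟦X⟧ (X :: rs.map (C : R →+* R⟦X⟧)) := by
  rw [isWeaklyRegular_cons_iff]
  refine ⟨X_isSMulRegular, ?_⟩
  have hC : (C : R →+* R⟦X⟧) = algebraMap R R⟦X⟧ := rfl
  rw [hC, isWeaklyRegular_map_algebraMap_iff]
  refine ((LinearEquiv.ofBijective (ccQuot R) (ccQuot_bij R)).symm.isWeaklyRegular_congr rs).1 h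

/-- the list `f' (a' ·)` -/
theorem ext_ofFn {n c : ℕ} (f : (Fin n → R) →ₗ[R] R) (a : Fin c → Fin n → R) :
    List.ofFn (fun i => extForm f (extTup a i)) =
      X :: (List.ofFn fun i => f (a i)).map (C : R →+* R⟦X⟧) := by
  rw [List.ofFn_succ, List.map_ofFn]
  congr 1
  · rw [extTup, Fin.cons_zero, extForm_last]
  · congr 1
    funext i
    show extForm f (extTup a i.succ) = C (f (a i))
    rw [extTup, Fin.cons_succ, extForm_extVec]

theorem ext_regular_tup {n c : ℕ} {f : (Fin n → R) →ₗ[R] R} {a : Fin c → Fin n → R}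
    (h : IsWeaklyRegular R (List.ofFn fun i => f (a i))) :
    IsWeaklyRegular R⟦X⟧ (List.ofFn fun i => extForm f (extTup a i)) := by
  rw [ext_ofFn]
  exact ext_regular _ h

end seq

end Pool.Agent.Licci.D
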