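import Pool.Agent.Work.MP_a98e4e_ag.D.SixFive
import Pool.Agent.Work.MP_a98e4e_ag.D.P5
import Pool.Agent.Work.MP_a98e4e_ag.D.RingS
import Pool.Agent.Work.MP_a98e4e_ag.PPrime

/-!
# LICCI: `MainG R 6` and `MainG R 5` from the core (helper62)
-/

set_option autoImplicit false

noncomputable section

namespace Pool.Agent.Licci.Fin6

open scoped BigOperators
open IsLocalRing RingTheory.Sequence LicciCodimFour D
open U (Sup)
open V56 (cone_map)

universe u

/-! ### base change -/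

section map

variable {A B : Type*} [CommRing A] [CommRing B] (φ : A →+* B)

theorem p3_map (p : E8 A) (i : Fin 8) : p3 (φ ∘ p) i = φ (p3 p i) := rfl

theorem w2_map (p : E8 A) (i j : Fin 8) : w2 (φ ∘ p) i j = φ (w2 p i j) := by
  unfold w2
  rw [map_mul, map_intCast]
  rfl

theorem fv_map (p : E8 A) (v : Vec A) : fv (φ ∘ p) (fun i => φ (v i)) = φ (fv p v) := by
  rw [fv_apply, fv_apply, map_sum]
  refine Finset.sum_congr rfl fun m _ => ?_
  rw [map_mul, p3_map]

theorem single_map (i s : Fin 8) : φ ((Pi.single i 1 : Vec A) s) = (Pi.single i 1 : Vec B) s := by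
  rw [Pi.single_apply, Pi.single_apply]
  split_ifs
  · exact map_one φ
  · exact map_zero φ

theorem vol2_map (i j : Fin 8) (a : Fin 6 → Vec A) :
    φ (vol2 (dF A) i j a) = vol2 (dF B) i j (fun r s => φ (a r s)) := by
  rw [vol2_apply, vol2_apply, dF_map φ]
  congr 1
  funext r s
  refine Fin.cases ?_ (fun r => ?_) r
  · exact single_map φ i s
  · refine Fin.cases ?_ (fun r => ?_) r
    · exact single_map φ j s
    · rfl

variable [Algebra ℚ A] [Algebra ℚ B]

theorem nu6_congr (ω : Vec A [⋀^Fin 8]→ₗ[A] A) {Y Z : E8 A} (h : ∀ i j, w2 Y i j = w2 Z i j)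
    (a : Fin 6 → Vec A) : nu6 ω Y a = nu6 ω Z a := by
  rw [nu6_apply, nu6_apply]
  simp only [h]

theorem nu6_map (p : E8 A) (a : Fin 6 → Vec A) :
    φ (nu6 (dF A) p a) = nu6 (dF B) (φ ∘ p) (fun r s => φ (a r s)) := by
  rw [nu6_apply, nu6_apply]
  simp only [map_mul, map_sum, vol2_map, w2_map, φ.map_rat_algebraMap]

end map

/-! ### the core and the point of the cone -/

/-- the core: a point of the cone which represents linkage data over a regular local ring of
dimension six has a unit coordinate -/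
def CoreUnit (S : Type u) [CommRing S] [IsRegularLocalRing S] [Algebra ℚ S] : Prop :=
  ∀ (p : E8 S) (a : Fin 6 → Fin 8 → S) (w : S), Cone p → GDat S (fv p) a w →
    nu6 (dF S) p a - w ∈ Ideal.span (Set.range fun i => fv p (a i)) →
    ringKrullDim S = (6 : ℕ) → ∃ m, IsUnit (p m)

/-- the linear form of a vector -/
def fL' {R : Type*} [CommRing R] {n : ℕ} (f : Fin n → R) : (Fin n → R) →ₗ[R] R :=
  Fintype.linearCombination R f

/-- existence of the point of the cone -/
def PointCone (R : Type u) [CommRing R] : Prop :=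
  ∀ (f : Vec R), HasReg (fL' f) 6 → ∀ (z : Fin 8 → Fin 8 → R), (∀ i, z i i = 0) →
    (∀ i j, z i j = - z j i) → (∀ j, ∑ i, f i * z i j = 0) →
    ∃ p : E8 R, p3 p = f ∧ (∀ i j, w2 p i j = z i j) ∧ Cone p

/-- from `6`-forms to bivectors -/
def Hodge6 (R : Type u) [CommRing R] [Algebra ℚ R] : Prop :=
  ∀ (f : (Fin 8 → R) →ₗ[R] R) (ν : (Fin 8 → R) [⋀^Fin 6]→ₗ[R] R), wedge f 6 ν = 0 →
    ∃ z : Fin 8 → Fin 8 → R, (∀ i, z i i = 0) ∧ (∀ i j, z i j = - z j i) ∧
      (∀ j, ∑ i, f (Pi.single i 1) * z i j = 0) ∧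
      ∀ p : E8 R, (∀ i j, w2 p i j = z i j) → nu6 (dF R) p = ν

/-- from `5`-forms to bivectors -/
def Hodge5 (R : Type u) [CommRing R] [Algebra ℚ R] : Prop :=
  ∀ (f : (Fin 7 → R) →ₗ[R] R) (ν : (Fin 7 → R) [⋀^Fin 5]→ₗ[R] R), wedge f 5 ν = 0 →
    ∃ z : Fin 8 → Fin 8 → R, (∀ i, z i i = 0) ∧ (∀ i j, z i j = - z j i) ∧ (∀ i, z i 7 = 0) ∧
      (∀ j, ∑ i : Fin 7, f (Pi.single i 1) * z i.castSucc j = 0) ∧
      ∀ p : E8 R, (∀ i j, w2 p i j = z i j) → nu5 (dF R) p = ν

theorem form_eq_fL' {R : Type*} [CommRing R] {n : ℕ} (f : (Fin n → R) →ₗ[R] R) :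
    f = fL' fun i => f (Pi.single i 1) := by
  apply LinearMap.ext
  intro v
  rw [form_eq f v, fL', Fintype.linearCombination_apply]
  rfl

theorem gdat_mul_mem {R : Type u} [CommRing R] [IsLocalRing R] {n c : ℕ}
    {f : (Fin n → R) →ₗ[R] R} {a : Fin c → Fin n → R} {w : R} (h : GDat R f a w) (v : Fin n → R) :
    w * f v ∈ Ideal.span (Set.range fun i => f (a i)) := by
  rw [mul_comm]
  exact (h.ann (f v)).2 ⟨v, rfl⟩

theorem gdat_hasReg {R : Type u} [CommRing R] [IsLocalRing R] {n c : ℕ}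
    {f : (Fin n → R) →ₗ[R] R} {a : Fin c → Fin n → R} {w : R} (h : GDat R f a w) :
    HasReg f c := by
  refine ⟨List.ofFn fun i => f (a i), by simp, h.reg, ?_⟩
  intro r hr
  obtain ⟨i, rfl⟩ := (List.mem_ofFn' _ _).1 hr
  exact ⟨_, rfl⟩

theorem algebra_of_hom {R S : Type*} [CommRing R] [CommRing S] [Algebra ℚ R] (π : R →+* S) :
    Nonempty (Algebra ℚ S) := ⟨(π.comp (algebraMap ℚ R)).toAlgebra⟩

/-- **codimension six** -/
theorem mainG_six (R : Type u) [CommRing R] [IsRegularLocalRing R] [IsDomain R] [Algebra ℚ R]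
    (hP : PointCone R) (hH : Hodge6 R)
    (core : ∀ (S : Type u) [CommRing S] [IsRegularLocalRing S] [Algebra ℚ S], CoreUnit S) :
    MainG R 6 := by
  intro f a w h hsl
  -- the six-form
  obtain ⟨ν, hν, hνw⟩ := exists_wedge_class f 6 a h.reg w (gdat_mul_mem h)
  obtain ⟨z, z1, z2, z3, z4⟩ := hH f ν hν
  have hf0 : HasReg (fL' fun i => f (Pi.single i 1)) 6 := by
    rw [← form_eq_fL']
    exact gdat_hasReg h
  obtain ⟨p, hp3, hpw, hpc⟩ := hP (fun i => f (Pi.single i 1)) hf0 z z1 z2 z3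
  have hf : f = fv p := by
    apply LinearMap.ext
    intro v
    rw [form_eq f v, fv_apply, hp3]
    exact Finset.sum_congr rfl fun i _ => mul_comm _ _
  have hnu : nu6 (dF R) p = ν := z4 p hpw
  have hw : nu6 (dF R) p a - w ∈ Ideal.span (Set.range fun i => f (a i)) := by
    rw [hnu]
    exact hνw
  -- a unit coordinate from the slice
  obtain ⟨S, iS1, iS2, π, f', hs, hm, hdim, hf', hg⟩ := hsl
  obtain ⟨iQ⟩ := algebra_of_hom π
  have hlift : ∀ v : Fin 8 → S, ∃ v0 : Fin 8 → R, v = fun i => π (v0 i) := by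
    intro v
    choose v0 hv0 using fun i => hs (v i)
    exact ⟨v0, funext fun i => (hv0 i).symm⟩
  have hfS : f' = fv (π ∘ p) := by
    apply LinearMap.ext
    intro v
    obtain ⟨v0, rfl⟩ := hlift v
    rw [hf', fv_map, ← hf]
  rw [hfS] at hg
  have hu : ∃ m, IsUnit (p m) := by
    obtain ⟨m, hmu⟩ := core S (π ∘ p) (fun i j => π (a i j)) (π w) (cone_map π hpc) hg (by
      rw [← nu6_map, ← map_sub]
      have h1 := Ideal.mem_map_of_mem π hw
      rw [Ideal.map_span, ← Set.range_comp] at h1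
      have e : (π ∘ fun i => f (a i)) = fun i => fv (π ∘ p) fun j => π (a i j) := by
        funext i
        rw [fv_map, ← hf]
        rfl
      rwa [e] at h1) hdim
    refine ⟨m, ?_⟩
    by_contra hc
    exact (mem_maximalIdeal _).1 ((hm (p m)).2 ((mem_maximalIdeal _).2 hc)) hmu
  exact six p hpc hu f (fun v => by rw [← hf]) a w h hw

/-! ### codimension five -/

open PowerSeries in
theorem gdat_ext {R : Type u} [CommRing R] [IsLocalRing R] {n c : ℕ}
    {f : (Fin n → R) →ₗ[R] R} {a : Fin c → Fin n → R} {w : R} (h : GDat R f a w) :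
    GDat R⟦X⟧ (extForm f) (extTup a) (C w) where
  mem v := by
    rw [ps_mem_maximalIdeal, constantCoeff_extForm]
    exact h.mem _
  reg := ext_regular_tup h.reg
  col y hy := ext_col h.col y hy
  ann y := ext_iff h.ann y

theorem i7_castSucc {A : Type*} [CommRing A] (v : Fin 7 → A) (i : Fin 7) :
    i7 v i.castSucc = v i := by
  show (Fin.snoc (α := fun _ => A) v 0 : Fin 8 → A) i.castSucc = v i
  rw [Fin.snoc_castSucc]

theorem i7_last {A : Type*} [CommRing A] (v : Fin 7 → A) : i7 v (Fin.last 7) = 0 := by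
  show (Fin.snoc (α := fun _ => A) v 0 : Fin 8 → A) (Fin.last 7) = 0
  rw [Fin.snoc_last]

/-- the tuple `(e_7, a)` -/
def tup {A : Type*} [CommRing A] (a : Fin 5 → Fin 7 → A) : Fin 6 → Vec A :=
  Fin.cons (α := fun _ => Vec A) (Pi.single 7 1) (fun r => i7 (a r))

theorem nu5_eq {A : Type*} [CommRing A] [Algebra ℚ A] (ω : Vec A [⋀^Fin 8]→ₗ[A] A) (p : E8 A)
    (a : Fin 5 → Fin 7 → A) : nu5 ω p a = nu6 ω p (tup a) := rfl

section five

variable {A B : Type*} [CommRing A] [CommRing B] (φ : A →+* B)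

theorem tup_map (a : Fin 5 → Fin 7 → A) :
    (fun r s => φ (tup a r s)) = tup fun i j => φ (a i j) := by
  funext r s
  refine Fin.cases ?_ (fun r => ?_) r
  · exact single_map φ 7 s
  · show φ (i7 (a r) s) = i7 (fun j => φ (a r j)) s
    refine Fin.lastCases ?_ (fun s => ?_) s
    · rw [i7_last, i7_last, map_zero]
    · rw [i7_castSucc, i7_castSucc]

open PowerSeries in
theorem extTup_eq (a : Fin 5 → Fin 7 → A) :
    extTup a = fun r s => (C : A →+* A⟦X⟧) (tup a r s) := by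
  funext r s
  refine Fin.cases ?_ (fun r => ?_) r
  · exact (single_map (C : A →+* A⟦X⟧) 7 s).symm
  · show extVec (a r) s = C (i7 (a r) s)
    refine Fin.lastCases ?_ (fun s => ?_) s
    · rw [i7_last, map_zero]
      exact Fin.snoc_last (α := fun _ => A⟦X⟧) _ _
    · rw [i7_castSucc]
      exact Fin.snoc_castSucc (α := fun _ => A⟦X⟧) _ _ _

variable [Algebra ℚ A] [Algebra ℚ B]

theorem nu5_map (p : E8 A) (a : Fin 5 → Fin 7 → A) :
    φ (nu5 (dF A) p a) = nu5 (dF B) (φ ∘ p) (fun i j => φ (a i j)) := by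
  rw [nu5_eq (dF A) p a, nu5_eq (dF B) (φ ∘ p), nu6_map φ p (tup a), tup_map]

open PowerSeries in
omit [Algebra ℚ A] in
theorem w2_up_eq (q : E8 A) (i j : Fin 8) :
    w2 (V56.up q) i j = w2 ((C : A →+* A⟦X⟧) ∘ q) i j := by
  rw [V56.w2_up, w2_map]

open PowerSeries in
theorem nu6_up_eq (ω : Vec A⟦X⟧ [⋀^Fin 8]→ₗ[A⟦X⟧] A⟦X⟧) (q : E8 A) (b : Fin 6 → Vec A⟦X⟧) :
    nu6 ω (V56.up q) b = nu6 ω ((C : A →+* A⟦X⟧) ∘ q) b :=
  nu6_congr ω (w2_up_eq q) b

open PowerSeries in
theorem nu6_tup_eq (ω : Vec A⟦X⟧ [⋀^Fin 8]→ₗ[A⟦X⟧] A⟦X⟧) (q : E8 A⟦X⟧) (a : Fin 5 → Fin 7 → A) :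
    nu6 ω q (extTup a) = nu6 ω q (fun r s => (C : A →+* A⟦X⟧) (tup a r s)) := by
  rw [extTup_eq]

/-- `nu6 (dF A)` as a plain function (the coercion of `dF` must not be compared by the kernel over
two different instances) -/
def nu6v (A : Type*) [CommRing A] [Algebra ℚ A] (p : E8 A) (a : Fin 6 → Fin 8 → A) : A :=
  nu6 (dF A) p a

theorem nu6v_map (p : E8 A) (a : Fin 6 → Fin 8 → A) :
    φ (nu6v A p a) = nu6v B (φ ∘ p) (fun r s => φ (a r s)) := nu6_map φ p a

theorem nu6v_eq (p : E8 A) (a : Fin 6 → Fin 8 → A) : nu6v A p a = nu6 (dF A) p a := rfl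

open PowerSeries in
theorem nu6v_ps (q : E8 A) (b : Fin 6 → Fin 8 → A) :
    (C : A →+* A⟦X⟧) (nu6v A q b) =
      nu6v A⟦X⟧ ((C : A →+* A⟦X⟧) ∘ q) (fun r s => (C : A →+* A⟦X⟧) (b r s)) :=
  nu6v_map C q b

theorem nu5v_eq (p : E8 A) (a : Fin 5 → Fin 7 → A) : nu6v A p (tup a) = nu5 (dF A) p a :=
  (nu6v_eq p (tup a)).trans (nu5_eq (dF A) p a).symm

open PowerSeries in
theorem nu6_up (q : E8 A) (a : Fin 5 → Fin 7 → A) :
    nu6 (dF A⟦X⟧) (V56.up q) (extTup a) = C (nu5 (dF A) q a) := by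
  rw [nu6_up_eq, nu6_tup_eq, ← nu6v_eq, ← nu6v_ps, nu5v_eq]

end five

theorem f5_eq {A : Type*} [CommRing A] {p : E8 A} {g : Fin 7 → A}
    (h : ∀ i : Fin 8, p (ix i) = Fin.snoc (α := fun _ => A) g 0 i) : f5 p = fL' g := by
  apply LinearMap.ext
  intro v
  have h0 : f5 p v = fv p (i7 v) := rfl
  rw [h0, fv_apply, Fin.sum_univ_castSucc, fL', Fintype.linearCombination_apply]
  have h1 : p3 p (Fin.last 7) = 0 := by
    show p (ix (Fin.last 7 : Fin 8)) = 0
    rw [h, Fin.snoc_last]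
  rw [h1, zero_mul, add_zero]
  refine Finset.sum_congr rfl fun i _ => ?_
  have h2 : p3 p i.castSucc = g i := by
    show p (ix (i.castSucc : Fin 8)) = g i
    rw [h, Fin.snoc_castSucc]
  rw [h2, i7_castSucc, smul_eq_mul, mul_comm]

open PowerSeries in
theorem fv_up {A : Type*} [CommRing A] {q : E8 A} {g : Fin 7 → A}
    (h : ∀ i : Fin 8, q (ix i) = Fin.snoc (α := fun _ => A) g 0 i) {f : (Fin 7 → A) →ₗ[A] A}
    (hf : ∀ i, f (Pi.single i 1) = g i) : fv (V56.up q) = extForm f := by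
  have h1 : ∀ i : Fin 8, p3 (V56.up q) i =
      Fin.snoc (α := fun _ => A⟦X⟧) (fun i => C (f (Pi.single i 1))) X i := by
    intro i
    have h2 := V56.ix_up h i
    have h3 : (fun i => (C (f (Pi.single i 1)) : A⟦X⟧)) = fun i => C (g i) := by
      funext i
      rw [hf]
    rw [h3]
    exact h2
  apply LinearMap.ext
  intro v
  rw [fv_apply, extForm, Fintype.linearCombination_apply]
  refine Finset.sum_congr rfl fun i _ => ?_
  rw [h1, smul_eq_mul, mul_comm]

theorem dim_ps {S : Type u} [CommRing S] [IsRegularLocalRing S] {n : ℕ}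
    (h : ringKrullDim S = (n : ℕ)) : ringKrullDim (PowerSeries S) = ((n + 1 : ℕ) : WithBot ℕ∞) := by
  rw [← IsRegularLocalRing.spanFinrank_maximalIdeal (R := S)] at h
  rw [← IsRegularLocalRing.spanFinrank_maximalIdeal (R := PowerSeries S), ps_spanFinrank]
  have : (maximalIdeal S).spanFinrank = n := by exact_mod_cast h
  rw [this]

open PowerSeries in
/-- **codimension five** -/
theorem mainG_five (R : Type u) [CommRing R] [IsRegularLocalRing R] [IsDomain R] [Algebra ℚ R]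
    (hP : PointCone R⟦X⟧) (hH : Hodge5 R)
    (core : ∀ (S : Type u) [CommRing S] [IsRegularLocalRing S] [Algebra ℚ S], CoreUnit S) :
    MainG R 5 := by
  intro f a w h hsl
  obtain ⟨ν, hν, hνw⟩ := exists_wedge_class f 5 a h.reg w (gdat_mul_mem h)
  obtain ⟨z, z1, z2, z7, z3, z4⟩ := hH f ν hν
  let g : Fin 7 → R := fun i => f (Pi.single i 1)
  have hz7 : ∀ j, z 7 j = 0 := fun j => by rw [z2, z7, neg_zero]
  -- the point of the cone over `R⟦X⟧`
  obtain ⟨p', hp3, hpw, hpc⟩ := hP (Fin.snoc (α := fun _ => R⟦X⟧) (fun i => C (g i)) X)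
    (gdat_hasReg (gdat_ext h)) (fun i j => C (z i j)) (fun i => by rw [z1, map_zero])
    (fun i j => by rw [← map_neg, ← z2]) (by
      intro j
      rw [Fin.sum_univ_castSucc]
      have e1 : z (Fin.last 7) j = 0 := hz7 j
      rw [e1, map_zero, mul_zero, add_zero]
      have e2 : ∀ i : Fin 7, (Fin.snoc (α := fun _ => R⟦X⟧) (fun i => C (g i)) X i.castSucc : R⟦X⟧) *
          C (z i.castSucc j) = C (f (Pi.single i 1) * z i.castSucc j) := by
        intro i
        rw [Fin.snoc_castSucc, map_mul]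
      rw [Finset.sum_congr rfl fun i _ => e2 i, ← map_sum, z3, map_zero])
  obtain ⟨p, hc, hsup, hpix, hw1, hw2⟩ := V56.exists_p56 g hpc (fun i => congrFun hp3 i)
  have hwz : ∀ i j, w2 p i j = z i j := by
    intro i j
    by_cases h7 : i = 7 ∨ j = 7
    · rw [hw2 i j h7]
      rcases h7 with rfl | rfl
      · exact (hz7 j).symm
      · exact (z7 i).symm
    · push Not at h7
      rw [hw1 i j h7.1 h7.2, hpw, constantCoeff_C]
  have hf : f = f5 p := by
    rw [f5_eq hpix]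
    exact form_eq_fL' f
  have hnu : nu5 (dF R) p = ν := z4 p hwz
  have hw : nu5 (dF R) p a - w ∈ Ideal.span (Set.range fun i => f (a i)) := by
    rw [hnu]
    exact hνw
  -- a unit coordinate from the slice
  obtain ⟨S, iS1, iS2, π, f', hs, hm, hdim, hf', hg⟩ := hsl
  obtain ⟨iQ⟩ := algebra_of_hom π
  have hfs : ∀ i, f' (Pi.single i 1) = π (g i) := by
    intro i
    rw [← hf']
    congr 1
    funext j
    rw [Pi.single_apply, Pi.single_apply]
    split_ifs <;> simp
  have hqix : ∀ i : Fin 8, (π ∘ p) (ix i) = Fin.snoc (α := fun _ => S) (fun i => π (g i)) 0 i := by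
    intro i
    rw [Function.comp_apply, hpix]
    refine Fin.lastCases ?_ (fun i => ?_) i
    · rw [Fin.snoc_last, Fin.snoc_last, map_zero]
    · rw [Fin.snoc_castSucc, Fin.snoc_castSucc]
  have hfv : fv (V56.up (π ∘ p)) = extForm f' := fv_up hqix hfs
  have hsupq : Sup (wtg 7) 1 (π ∘ p : E8 S) := fun m hm => by
    rw [Function.comp_apply, hsup m hm, map_zero]
  have hu : ∃ m, IsUnit (p m) := by
    obtain ⟨m, hmu⟩ := core S⟦X⟧ (V56.up (π ∘ p)) (extTup fun i j => π (a i j)) (C (π w))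
      (V56.cone_up (cone_map π hc) hsupq) (by rw [hfv]; exact gdat_ext hg) (by
        rw [hfv, nu6_up, ← nu5_map, ← map_sub, mem_span_extTup, constantCoeff_C, ← map_sub]
        have h1 := Ideal.mem_map_of_mem π hw
        rw [Ideal.map_span, ← Set.range_comp] at h1
        have e : (π ∘ fun i => f (a i)) = fun i => f' fun j => π (a i j) := by
          funext i
          rw [hf']
          rfl
        rwa [e] at h1) (dim_ps hdim)
    refine ⟨m, ?_⟩
    by_contra hcon
    exact (mem_maximalIdeal _).1 ((hm (p m)).2 ((mem_maximalIdeal _).2 hcon))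
      (V56.isUnit_of_up hmu)
  exact five p hc hu hsup f (fun v => by rw [← hf]) a w h hw

end Pool.Agent.Licci.Fin6
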