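import Pool.Agent.Work.MP_a98e4e_ag.D.Dec
import Pool.Agent.Work.MP_a98e4e_ag.L.FormA3

/-!
# LICCI, codimension 5 and 6: the effect of a move (helper45)
-/

set_option linter.unusedSectionVars false

noncomputable section

namespace Pool.Agent.Licci

open scoped BigOperators

/-! ### degrees -/

section deg

variable {A : Type*} [CommRing A]

theorem T_zdg (i j k : Fin 8) (m : Fin 248) (hm : zdg m ≠ 1) : (T i j k : E8 A) m = 0 := by
  refine alt3_zero (fun i j k => (T i j k : E8 A) m) ?_ ?_ ?_ ?_ i j k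
  · intro i j k
    rw [T_swap i j k, Pi.neg_apply]
  · intro i j k
    rw [T_swap' i j k, Pi.neg_apply]
  · intro i k
    rw [T_self, Pi.zero_apply]
  · intro i j k h1 h2
    unfold T
    rw [Pi.smul_apply, eb_apply, if_neg, smul_zero]
    rintro rfl
    exact hm (zdg_i1 i j k h1 h2)

/-- support of a combination of `T i j k` -/
theorem sum_T_zero (c : Fin 8 → Fin 8 → Fin 8 → A) (m : Fin 248)
    (h : ∀ i j k, c i j k = 0 ∨ (T i j k : E8 A) m = 0) :
    (∑ i, ∑ j, ∑ k, c i j k • (T i j k : E8 A)) m = 0 := by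
  rw [Finset.sum_apply]
  refine Finset.sum_eq_zero fun i _ => ?_
  rw [Finset.sum_apply]
  refine Finset.sum_eq_zero fun j _ => ?_
  rw [Finset.sum_apply]
  refine Finset.sum_eq_zero fun k _ => ?_
  rw [Pi.smul_apply, smul_eq_mul]
  rcases h i j k with h | h
  · rw [h, zero_mul]
  · rw [h, mul_zero]

theorem br_sum_T (c : Fin 8 → Fin 8 → Fin 8 → A) (Y : E8 A) :
    br (∑ i, ∑ j, ∑ k, c i j k • (T i j k : E8 A)) Y =
      ∑ i, ∑ j, ∑ k, c i j k • br (T i j k : E8 A) Y := by
  rw [br_sum_left]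
  refine Finset.sum_congr rfl fun i _ => ?_
  rw [br_sum_left]
  refine Finset.sum_congr rfl fun j _ => ?_
  rw [br_sum_left]
  refine Finset.sum_congr rfl fun k _ => ?_
  rw [br_smul_left]

variable [Algebra ℚ A]

theorem M5_zdg (ω : Vec A [⋀^Fin 8]→ₗ[A] A) (u : Fin 5 → Vec A) (m : Fin 248) (hm : zdg m ≠ 1) :
    M5 ω u m = 0 :=
  sum_T_zero _ m fun i j k => Or.inr (T_zdg i j k m hm)

theorem br_M5_deg (ω : Vec A [⋀^Fin 8]→ₗ[A] A) (u : Fin 5 → Vec A) (Y : E8 A) (a : Fin 248)
    (h : ∀ b, dgE b + 1 = dgE a → Y b = 0) : br (M5 ω u) Y a = 0 := by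
  unfold M5
  rw [br_sum_T, Finset.sum_apply]
  refine Finset.sum_eq_zero fun i _ => ?_
  rw [Finset.sum_apply]
  refine Finset.sum_eq_zero fun j _ => ?_
  rw [Finset.sum_apply]
  refine Finset.sum_eq_zero fun k _ => ?_
  rw [Pi.smul_apply, br_T_deg i j k Y a h, smul_zero]

theorem M5_nil (ω : Vec A [⋀^Fin 8]→ₗ[A] A) (u : Fin 5 → Vec A) (t : A) :
    (brL (t • M5 ω u)) ^ 7 = 0 := by
  refine ad_nil_pos fun m hm => ?_
  rw [Pi.smul_apply, M5_zdg ω u m (by omega), smul_zero]

end deg

/-! ### the square of a move -/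

section sq

variable {K : Type*} [Field K] [Algebra ℚ K]

/-- the determinant -/
def dF (A : Type*) [CommRing A] : Vec A [⋀^Fin 8]→ₗ[A] A := Matrix.detRowAlternating

theorem detF_dF {A : Type*} [CommRing A] : DetF (dF A) := fun B C => detF_gen B C

theorem cram_dF {A : Type*} [CommRing A] : Cram (dF A) := cram_det

theorem dF_map_gen {A B : Type*} [CommRing A] [CommRing B] (φ : A →+* B) {κ : Type*} [Fintype κ]
    [DecidableEq κ] (b : κ → κ → A) :
    φ ((Matrix.detRowAlternating : (κ → A) [⋀^κ]→ₗ[A] A) b) =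
      (Matrix.detRowAlternating : (κ → B) [⋀^κ]→ₗ[B] B) (fun r s => φ (b r s)) :=
  RingHom.map_det φ (Matrix.of b)

theorem dF_map {A B : Type*} [CommRing A] [CommRing B] (φ : A →+* B) (b : Fin 8 → Vec A) :
    φ (dF A b) = dF B (fun r s => φ (b r s)) := dF_map_gen φ b

theorem detF_isUnit {κ : Type*} [Fintype κ] [DecidableEq κ] (g : Matrix κ κ K)
    (h : (Matrix.detRowAlternating : (κ → K) [⋀^κ]→ₗ[K] K) g ≠ 0) : IsUnit g.det :=
  isUnit_iff_ne_zero.mpr h

theorem dF_isUnit (g : Matrix (Fin 8) (Fin 8) K) (h : dF K g ≠ 0) : IsUnit g.det :=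
  detF_isUnit (κ := Fin 8) g h

theorem dF_unit {A : Type*} [CommRing A] (g : Matrix (Fin 8) (Fin 8) A) (h : IsUnit g.det) :
    IsUnit (dF A g) := h

theorem dF_eq (A : Type*) [CommRing A] :
    dF A = (Matrix.detRowAlternating : Vec A [⋀^Fin 8]→ₗ[A] A) := rfl

attribute [irreducible] dF

/-- over a field every move is decomposable -/
theorem M5_tri (u : Fin 5 → Vec K) : ∃ x y z : Vec K, M5 (dF K) u = tri x y z := by
  by_cases h : ∀ i j k, vol3 (dF K) i j k u = 0
  · refine ⟨0, 0, 0, ?_⟩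
    have h1 : M5 (dF K) u = 0 := by
      unfold M5
      refine Finset.sum_eq_zero fun i _ => Finset.sum_eq_zero fun j _ =>
        Finset.sum_eq_zero fun k _ => ?_
      rw [h, mul_zero, zero_smul]
    rw [h1]
    unfold tri
    symm
    refine Finset.sum_eq_zero fun i _ => Finset.sum_eq_zero fun j _ =>
      Finset.sum_eq_zero fun k _ => ?_
    rw [Pi.zero_apply, zero_mul, zero_mul, zero_smul]
  · push Not at h
    obtain ⟨i, j, k, h⟩ := h
    rw [vol3_rw8] at h
    set g := rw8 i j k u with hg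
    have hgu : IsUnit g.det := dF_isUnit g h
    have hgg : g * g⁻¹ = 1 := Matrix.mul_nonsing_inv g hgu
    have hu : u = fun a : Fin 5 => g (Fin.natAdd 3 a) := by
      funext a
      have h3 : (Fin.natAdd 3 a : Fin 8) = Fin.succ (Fin.succ (Fin.succ a)) := by
        apply Fin.ext
        simp only [Fin.val_natAdd, Fin.val_succ]
        omega
      rw [hg, h3]
      unfold rw8
      rw [Fin.cons_succ, Fin.cons_succ, Fin.cons_succ]
    have hd := M5_dec (detF_dF (A := K)) g g⁻¹ hgg
    rw [← hu] at hd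
    refine ⟨(-(dF K g)) • (fun r => g⁻¹ r 0), fun r => g⁻¹ r 1, fun r => g⁻¹ r 2, ?_⟩
    rw [tri_smul_left, hd]

theorem p3_M5_M5_field (u : Fin 5 → Vec K) (Z : E8 K) :
    p3 (br (M5 (dF K) u) (br (M5 (dF K) u) Z)) = 0 := by
  obtain ⟨x, y, z, h⟩ := M5_tri u
  rw [h]
  exact p3_tri_tri x y z Z

end sq

/-! ### base change -/

section map

variable {A B : Type*} [CommRing A] [CommRing B] (φ : A →+* B)

theorem vol3_map (i j k : Fin 8) (u : Fin 5 → Vec A) :
    φ (vol3 (dF A) i j k u) = vol3 (dF B) i j k (fun a => φ ∘ u a) := by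
  rw [vol3_rw8, vol3_rw8]
  refine (dF_map φ (rw8 i j k u)).trans ?_
  congr 1
  funext r s
  unfold rw8
  have hs : ∀ (i s : Fin 8), φ ((Pi.single i 1 : Vec A) s) = (Pi.single i 1 : Vec B) s := by
    intro i s
    rw [Pi.single_apply, Pi.single_apply]
    split_ifs
    · exact map_one φ
    · exact map_zero φ
  refine Fin.cases ?_ (fun r => ?_) r
  · exact hs i s
  · refine Fin.cases ?_ (fun r => ?_) r
    · exact hs j s
    · refine Fin.cases ?_ (fun r => ?_) r
      · exact hs k s
      · rfl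

theorem T_map (i j k : Fin 8) : φ ∘ (T i j k : E8 A) = T i j k := by
  funext m
  unfold T
  rw [Function.comp_apply, Pi.smul_apply, Pi.smul_apply, smul_eq_mul, smul_eq_mul, map_mul,
    map_intCast, eb_apply, eb_apply]
  congr 1
  split_ifs
  · exact map_one φ
  · exact map_zero φ

variable [Algebra ℚ A] [Algebra ℚ B]

theorem M5_map (u : Fin 5 → Vec A) :
    φ ∘ M5 (dF A) u = M5 (dF B) (fun a => φ ∘ u a) := by
  unfold M5
  funext m
  simp only [Function.comp_apply, Finset.sum_apply, Pi.smul_apply, smul_eq_mul, map_sum, map_mul,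
    map_neg, vol3_map, φ.map_rat_algebraMap]
  refine Finset.sum_congr rfl fun i _ => Finset.sum_congr rfl fun j _ =>
    Finset.sum_congr rfl fun k _ => ?_
  rw [← T_map (φ := φ)]
  rfl

end map

/-- `p` is extremal -/
def Ext {R : Type*} [CommRing R] (p : E8 R) : Prop :=
  ∀ y : E8 R, ∃ t : R, br p (br p y) = t • p

/-! ### moves over a domain -/

section move

variable {R : Type*} [CommRing R] [IsDomain R] [Algebra ℚ R]

/-- the component of degree `3` of the square of a move -/
theorem p3_M5_M5 (u : Fin 5 → Vec R) (Z : E8 R) :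
    p3 (br (M5 (dF R) u) (br (M5 (dF R) u) Z)) = 0 := by
  let K := FractionRing R
  let _ : Algebra ℚ K := ((algebraMap R K).comp (algebraMap ℚ R)).toAlgebra
  let φ : R →+* K := algebraMap R K
  have hφ : Function.Injective φ := IsFractionRing.injective R K
  have h := p3_M5_M5_field (K := K) (fun a => φ ∘ u a) (φ ∘ Z)
  rw [← M5_map, ← br_map, ← br_map] at h
  funext i
  apply hφ
  rw [Pi.zero_apply, map_zero]
  exact congrFun h i

theorem nu6_M5 (u : Fin 5 → Vec R) (Z : E8 R) (w : Vec R) :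
    nu6 (dF R) (br (M5 (dF R) u) Z) (Fin.snoc u w) = 0 := by
  rw [← fv_M5, fv_apply]
  refine Finset.sum_eq_zero fun m _ => ?_
  rw [p3_M5_M5, Pi.zero_apply, zero_mul]

theorem w2_add' (Y Z : E8 R) (i j : Fin 8) : w2 (Y + Z) i j = w2 Y i j + w2 Z i j := by
  simp only [w2, Pi.add_apply]
  ring

theorem nu6_add (ω : Vec R [⋀^Fin 8]→ₗ[R] R) (Y Z : E8 R) (a : Fin 6 → Vec R) :
    nu6 ω (Y + Z) a = nu6 ω Y a + nu6 ω Z a := by
  rw [nu6_apply, nu6_apply, nu6_apply, ← mul_add, ← Finset.sum_add_distrib]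
  congr 1
  refine Finset.sum_congr rfl fun i _ => ?_
  rw [← Finset.sum_add_distrib]
  refine Finset.sum_congr rfl fun j _ => ?_
  rw [w2_add']
  ring

/-- second order expansion of the exponential -/
theorem ex_two (M p : E8 R) : ∃ Z : E8 R, ex M p = p + br M p + br M (br M Z) ∧
    ∃ Z' : E8 R, ex M p = p + br M Z' := by
  set c : ℕ → R := fun n => algebraMap ℚ R ((n.factorial : ℚ)⁻¹) with hc
  have e1 : ex M p = ∑ n ∈ Finset.range 7, c n • ((brL M) ^ n) p := ex_apply M p
  have hp : ∀ n (x : E8 R), ((brL M) ^ (n + 1)) x = br M (((brL M) ^ n) x) := by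
    intro n x
    rw [pow_succ']
    rfl
  have hs : ∀ (s : Finset ℕ) (g : ℕ → E8 R), br M (∑ n ∈ s, g n) = ∑ n ∈ s, br M (g n) :=
    fun s g => br_sum_right s M g
  have hZ : ex M p = p + br M p +
      br M (br M (∑ n ∈ Finset.range 5, c (n + 2) • ((brL M) ^ n) p)) := by
    rw [e1, Finset.sum_range_succ', Finset.sum_range_succ', hs, hs]
    have c0 : c 0 = 1 := by simp [hc]
    have c1 : c (0 + 1) = 1 := by simp [hc]
    rw [c0, c1, one_smul, one_smul, add_comm, add_comm _ (((brL M) ^ (0 + 1)) p), ← add_assoc]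
    congr 1
    refine Finset.sum_congr rfl fun n _ => ?_
    rw [br_smul_right, br_smul_right, ← hp, ← hp]
  refine ⟨_, hZ, p + br M (∑ n ∈ Finset.range 5, c (n + 2) • ((brL M) ^ n) p), ?_⟩
  rw [br_add_right, ← add_assoc]
  exact hZ

/-- the form after a move -/
theorem fv_move (u : Fin 5 → Vec R) (t : R) (p : E8 R) (v : Vec R) :
    fv (ex (t • M5 (dF R) u) p) v = fv p v + t * nu6 (dF R) p (Fin.snoc u v) := by
  obtain ⟨Z, hZ, -⟩ := ex_two (t • M5 (dF R) u) p
  rw [hZ]
  have h1 : ∀ X Y : E8 R, fv (X + Y) v = fv X v + fv Y v := by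
    intro X Y
    rw [fv_apply, fv_apply, fv_apply, ← Finset.sum_add_distrib]
    refine Finset.sum_congr rfl fun m _ => ?_
    change (X (ix m) + Y (ix m)) * v m = X (ix m) * v m + Y (ix m) * v m
    ring
  have h2 : ∀ (c : R) (X : E8 R), fv (c • X) v = c * fv X v := by
    intro c X
    rw [fv_apply, fv_apply, Finset.mul_sum]
    refine Finset.sum_congr rfl fun m _ => ?_
    change c * X (ix m) * v m = c * (X (ix m) * v m)
    ring
  have h3 : fv (br (M5 (dF R) u) (br (M5 (dF R) u) Z)) v = 0 := by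
    rw [fv_apply]
    refine Finset.sum_eq_zero fun m _ => ?_
    rw [p3_M5_M5, Pi.zero_apply, zero_mul]
  rw [h1, h1, br_smul_left, br_smul_left, br_smul_left, br_smul_right, h2, h2, h2, h3, mul_zero,
    mul_zero, add_zero, fv_M5]

/-- the `6`-form after a move -/
theorem nu6_move (u : Fin 5 → Vec R) (t : R) (p : E8 R) (w : Vec R) :
    nu6 (dF R) (ex (t • M5 (dF R) u) p) (Fin.snoc u w) = nu6 (dF R) p (Fin.snoc u w) := by
  obtain ⟨-, -, Z, hZ⟩ := ex_two (t • M5 (dF R) u) p
  rw [hZ, nu6_add, br_smul_left, ← br_smul_right, nu6_M5, add_zero]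

/-! ### extremality -/


theorem Ext.ex {p : E8 R} (hp : Ext p) {M : E8 R} (hM : (brL M) ^ 7 = 0) : Ext (ex M p) := by
  intro y
  obtain ⟨t, ht⟩ := hp (Licci.ex (-M) y)
  refine ⟨t, ?_⟩
  have h1 : y = Licci.ex M (Licci.ex (-M) y) := (ex_ex_neg hM y).symm
  rw [h1, ← ex_br hM, ← ex_br hM, ht, map_smul]

theorem exists_third : ∀ i q : Fin 8, ∃ j : Fin 8, j ≠ i ∧ j ≠ q := by decide

/-- extremality implies `ι_f ζ = 0` -/
theorem Ext.om {p : E8 R} (hp : Ext p) (i : Fin 8) : ∑ s, w2 p s i * p3 p s = 0 := by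
  have h2 : (2 : R) ≠ 0 := by
    intro h
    have h3 : algebraMap ℚ R (2⁻¹ : ℚ) * 2 = 1 := by
      rw [← map_ofNat (algebraMap ℚ R) 2, ← map_mul]
      norm_num
    rw [h, mul_zero] at h3
    exact zero_ne_one h3
  set F : Fin 8 → R := fun i => ∑ s, w2 p s i * p3 p s with hF
  have hTh : ∀ i, Th p p (Pi.single i 1) = 2 * F i := by
    intro i
    rw [FormA3.Th_single, hF]
    simp only
    rw [Finset.mul_sum]
    refine Finset.sum_congr rfl fun s _ => ?_
    ring
  change F i = 0
  by_cases h0 : ∀ q, p3 p q = 0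
  · rw [hF]
    refine Finset.sum_eq_zero fun s _ => ?_
    rw [h0, mul_zero]
  push Not at h0
  obtain ⟨q, hq⟩ := h0
  have hlow : ∀ i j, i < j → ∃ t : R, ∀ r, (if r = j then 2 * F i else 0) -
      (if r = i then 2 * F j else 0) + w2 p i j * p3 p r + w2 p i j * p3 p r = t * p3 p r := by
    intro i j hij
    obtain ⟨t, ht⟩ := hp (eb (im2 i j))
    refine ⟨t, fun r => ?_⟩
    rw [← hTh, ← hTh, ← p3_low p p i j r hij, ht]
    rfl
  have hother : ∀ i, i ≠ q → F i = 0 := by
    intro i hi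
    obtain ⟨j, hji, hjq⟩ := exists_third i q
    rcases lt_or_gt_of_ne hji with hlt | hlt
    · obtain ⟨t, ht⟩ := hlow j i hlt
      have e1 := ht q
      rw [if_neg (Ne.symm hi), if_neg (Ne.symm hjq)] at e1
      have e2 := ht j
      rw [if_neg (ne_of_lt hlt), if_pos rfl] at e2
      have e3 : (w2 p j i + w2 p j i - t) * p3 p q = 0 := by linear_combination e1
      have e4 : w2 p j i + w2 p j i - t = 0 := by
        rcases mul_eq_zero.mp e3 with h | h
        · exact h
        · exact absurd h hq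
      have e5 : 2 * F i = 0 := by linear_combination e4 * p3 p j - e2
      exact (mul_eq_zero.mp e5).resolve_left h2
    · obtain ⟨t, ht⟩ := hlow i j hlt
      have e1 := ht q
      rw [if_neg (Ne.symm hjq), if_neg (Ne.symm hi)] at e1
      have e2 := ht j
      rw [if_pos rfl, if_neg (ne_of_gt hlt)] at e2
      have e3 : (w2 p i j + w2 p i j - t) * p3 p q = 0 := by linear_combination e1
      have e4 : w2 p i j + w2 p i j - t = 0 := by
        rcases mul_eq_zero.mp e3 with h | h
        · exact h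
        · exact absurd h hq
      have e5 : 2 * F i = 0 := by linear_combination e2 - e4 * p3 p j
      exact (mul_eq_zero.mp e5).resolve_left h2
  by_cases hi : i = q
  · subst hi
    have hsum : ∑ i, F i * p3 p i = 0 := by
      have e1 : ∑ i, F i * p3 p i = ∑ i, ∑ s, w2 p s i * (p3 p s * p3 p i) := by
        refine Finset.sum_congr rfl fun i _ => ?_
        rw [hF]
        simp only
        rw [Finset.sum_mul]
        refine Finset.sum_congr rfl fun s _ => ?_
        ring
      have e2 : ∑ i, ∑ s, w2 p s i * (p3 p s * p3 p i) =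
          - ∑ i, ∑ s, w2 p s i * (p3 p s * p3 p i) := by
        conv_lhs => rw [Finset.sum_comm]
        rw [← Finset.sum_neg_distrib]
        refine Finset.sum_congr rfl fun i _ => ?_
        rw [← Finset.sum_neg_distrib]
        refine Finset.sum_congr rfl fun s _ => ?_
        rw [w2_swap p i s]
        ring
      rw [e1]
      have e3 : 2 * ∑ i, ∑ s, w2 p s i * (p3 p s * p3 p i) = 0 := by linear_combination e2
      exact (mul_eq_zero.mp e3).resolve_left h2
    rw [Finset.sum_eq_single i] at hsum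
    · exact (mul_eq_zero.mp hsum).resolve_right hq
    · intro b _ hb
      rw [hother b hb, zero_mul]
    · intro h
      exact absurd (Finset.mem_univ _) h
  · exact hother i hi

end move

end Pool.Agent.Licci
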