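import Pool.Agent.Work.MP_a98e4e_ag.Split

/-!
# General position for arbitrary grade: a regular sequence as a part of the generators
-/

set_option autoImplicit false

namespace LicciCodimFour

open IsLocalRing RingTheory.Sequence

universe u

variable {R : Type u} [CommRing R]

/-- The first `c` of `c + e` generators may be chosen to be a regular sequence. -/
theorem exists_split [IsLocalRing R] [IsNoetherianRing R] [Infinite (ResidueField R)] {c e : ℕ}
    (f : Fin (c + e) → R) (hf : ∀ i, f i ∈ maximalIdeal R)
    (hreg : ∃ rs : List R, rs.length = c ∧ IsRegular R rs ∧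
      ∀ r ∈ rs, r ∈ Ideal.span (Set.range f)) :
    ∃ (a : Fin c → R) (v : Fin e → R), IsWeaklyRegular R (List.ofFn a) ∧
      (∀ i, a i ∈ maximalIdeal R) ∧
      Ideal.span (Set.range f) = Ideal.span (Set.range a) ⊔ Ideal.span (Set.range v) := by
  have hI : Ideal.span (Set.range f) ≤ maximalIdeal R := by
    rw [Ideal.span_le]
    rintro _ ⟨i, rfl⟩
    exact hf i
  have hgr : ∃ rs : List R, rs.length = c ∧ (∀ y ∈ rs, y ∈ Ideal.span (Set.range f)) ∧
      IsRegular R rs := by
    obtain ⟨rs, h1, h2, h3⟩ := hreg
    exact ⟨rs, h1, h3, h2⟩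
  have key : ∀ i ≤ c, ∃ F : Fin (c + e) → R,
      Ideal.span (Set.range F) = Ideal.span (Set.range f) ∧
      IsWeaklyRegular R ((List.ofFn F).take i) := by
    intro i
    induction i with
    | zero =>
      intro _
      exact ⟨f, rfl, by simp⟩
    | succ i ih =>
      intro hi
      obtain ⟨F, hF, hFr⟩ := ih (by omega)
      have hi' : i < c + e := by omega
      -- the subspace of vectors with vanishing `i`-th coordinate
      let V : Submodule (ResidueField R) (Fin (c + e) → ResidueField R) :=
        LinearMap.ker (LinearMap.proj (⟨i, hi'⟩ : Fin (c + e)))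
      have hV : V ≠ ⊤ := by
        intro h
        have h1 : (fun _ => 1 : Fin (c + e) → ResidueField R) ∈ V := by rw [h]; trivial
        have h2 : (1 : ResidueField R) = 0 := by simpa [V] using h1
        exact one_ne_zero h2
      obtain ⟨a, ha1, ha2⟩ := Pool.Agent.Licci.gp_row F (by rw [hF]; exact hI)
        (by rw [hF]; exact hgr) ((List.ofFn F).take i) (by simp; omega) (by
          intro y hy
          have := List.mem_of_mem_take hy
          rw [List.mem_ofFn] at this
          exact Ideal.subset_span this) hFr {V} (by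
          intro W hW
          rw [Finset.mem_singleton] at hW
          rw [hW]
          exact hV)
      have hunit : IsUnit (a ⟨i, hi'⟩) := by
        rw [← IsLocalRing.notMem_maximalIdeal, ← IsLocalRing.residue_eq_zero_iff]
        intro h
        apply ha1 V (Finset.mem_singleton_self V)
        simp only [V, LinearMap.mem_ker, LinearMap.proj_apply]
        exact h
      refine ⟨Function.update F ⟨i, hi'⟩ (∑ j, a j * F j), ?_, ?_⟩
      · rw [span_update F _ a hunit, hF]
      · rw [take_ofFn_update]
        exact ha2
  obtain ⟨F, hF, hFr⟩ := key c le_rfl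
  have hspan : Ideal.span (Set.range F) =
      Ideal.span (Set.range fun i : Fin c => F (Fin.castAdd e i)) ⊔
        Ideal.span (Set.range fun j : Fin e => F (Fin.natAdd c j)) := by
    apply le_antisymm
    · rw [Ideal.span_le]
      rintro _ ⟨i, rfl⟩
      refine Fin.addCases (fun j => ?_) (fun j => ?_) i
      · exact Ideal.mem_sup_left (Ideal.subset_span ⟨j, rfl⟩)
      · exact Ideal.mem_sup_right (Ideal.subset_span ⟨j, rfl⟩)
    · apply sup_le
      · rw [Ideal.span_le]
        rintro _ ⟨i, rfl⟩
        exact Ideal.subset_span ⟨_, rfl⟩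
      · rw [Ideal.span_le]
        rintro _ ⟨i, rfl⟩
        exact Ideal.subset_span ⟨_, rfl⟩
  refine ⟨fun i => F (Fin.castAdd e i), fun j => F (Fin.natAdd c j), ?_, ?_, ?_⟩
  · have : List.ofFn (fun i : Fin c => F (Fin.castAdd e i)) = (List.ofFn F).take c := by
      apply List.ext_getElem
      · simp
      · intro j h1 h2
        simp only [List.getElem_take, List.getElem_ofFn]
        rfl
    rw [this]
    exact hFr
  · intro i
    apply hI
    rw [← hF]
    exact Ideal.subset_span ⟨_, rfl⟩
  · rw [← hF]
    exact hspan

/-- One generator besides the regular sequence. -/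
theorem exists_split_one [IsLocalRing R] [IsNoetherianRing R] [Infinite (ResidueField R)] {c : ℕ}
    (f : Fin (c + 1) → R) (hf : ∀ i, f i ∈ maximalIdeal R)
    (hreg : ∃ rs : List R, rs.length = c ∧ IsRegular R rs ∧
      ∀ r ∈ rs, r ∈ Ideal.span (Set.range f)) :
    ∃ (a : Fin c → R) (x : R), IsWeaklyRegular R (List.ofFn a) ∧
      (∀ i, a i ∈ maximalIdeal R) ∧
      Ideal.span (Set.range f) = Ideal.span (Set.range a) ⊔ Ideal.span {x} := by
  obtain ⟨a, v, h1, h2, h3⟩ := exists_split f hf hreg
  refine ⟨a, v 0, h1, h2, ?_⟩
  rw [h3]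
  congr 2
  ext x
  constructor
  · rintro ⟨i, rfl⟩
    rw [Subsingleton.elim i 0]
    rfl
  · rintro rfl
    exact ⟨0, rfl⟩

end LicciCodimFour
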