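import Pool.Agent.Work.MP_a98e4e_ag.Final
import Pool.Agent.Work.MP_a98e4e_ag.LinkStep
import Pool.Agent.Work.MP_a98e4e_ag.D.Bridge
import Pool.Agent.Work.MP_a98e4e_ag.D.Split
import Pool.Agent.Work.MP_a98e4e_ag.D.Dim
import Pool.Agent.Work.MP_a98e4e_ag.D.GDat

/-!
MP_a98e4e_ag (licci), module DS0 (helper62): reduction of the Dynkin cases of codimension five
and six to Gorenstein data `MainG R c`.
-/

set_option autoImplicit false

namespace Pool.Agent.Licci.D

open IsLocalRing RingTheory.Sequence LicciCodimFour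

universe u

variable {R : Type u} [CommRing R]

/-- Transport of Gorenstein linkage data to a slice. -/
theorem exists_gdat_slice [IsLocalRing R] {S : Type u} [CommRing S] [IsLocalRing S]
    (π : R →+* S) (hs : Function.Surjective π)
    (hm : ∀ r, π r ∈ maximalIdeal S ↔ r ∈ maximalIdeal R) {n c : ℕ}
    (f : (Fin n → R) →ₗ[R] R) (a : Fin c → Fin n → R) (w : R)
    (hfm : ∀ v, f v ∈ maximalIdeal R)
    (hreg : IsWeaklyRegular S (List.ofFn fun i => π (f (a i))))
    (h1 : (Ideal.span (Set.range fun i => π (f (a i)))).colon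
      ((Ideal.map π (LinearMap.range f) : Ideal S) : Set S) ≤
      Ideal.span (Set.range fun i => π (f (a i))) ⊔ Ideal.span {π w})
    (h2 : (Ideal.span (Set.range fun i => π (f (a i)))).colon
      ((Ideal.span (Set.range fun i => π (f (a i))) ⊔ Ideal.span {π w} : Ideal S) : Set S) =
      Ideal.map π (LinearMap.range f)) :
    ∃ f' : (Fin n → S) →ₗ[S] S, (∀ v : Fin n → R, f' (fun i => π (v i)) = π (f v)) ∧
      GDat S f' (fun i j => π (a i j)) (π w) := by
  let f' : (Fin n → S) →ₗ[S] S :=
    Fintype.linearCombination S (fun j => π (f (Pi.single j 1)))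
  have hf' : ∀ v : Fin n → R, f' (fun i => π (v i)) = π (f v) := by
    intro v
    have hv : f v = ∑ i, v i * f (Pi.single i 1) := by
      conv_lhs => rw [pi_eq_sum_univ' v]
      rw [map_sum]
      refine Finset.sum_congr rfl fun i _ => ?_
      rw [map_smul, smul_eq_mul]
    rw [hv, map_sum]
    simp only [f', Fintype.linearCombination_apply, smul_eq_mul, map_mul]
  have hlift : ∀ v : Fin n → S, ∃ v0 : Fin n → R, v = fun i => π (v0 i) := by
    intro v
    choose v0 hv0 using fun i => hs (v i)
    exact ⟨v0, funext fun i => (hv0 i).symm⟩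
  have hrange : LinearMap.range f' = Ideal.map π (LinearMap.range f) := by
    apply le_antisymm
    · rintro _ ⟨v, rfl⟩
      obtain ⟨v0, rfl⟩ := hlift v
      rw [hf']
      exact Ideal.mem_map_of_mem _ ⟨v0, rfl⟩
    · rw [Ideal.map_le_iff_le_comap]
      rintro _ ⟨v, rfl⟩
      rw [Ideal.mem_comap, ← hf']
      exact ⟨_, rfl⟩
  have hfa : (fun i => f' fun j => π (a i j)) = fun i => π (f (a i)) := by
    funext i
    exact hf' _
  refine ⟨f', hf', ?_, ?_, ?_, ?_⟩
  · intro v
    obtain ⟨v0, rfl⟩ := hlift v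
    rw [hf', hm]
    exact hfm v0
  · rw [hfa]
    exact hreg
  · intro y hy
    rw [hfa] at hy ⊢
    apply h1
    rw [mem_colon_iff', ← hrange]
    rintro _ ⟨v, rfl⟩
    exact hy v
  · intro y
    rw [hfa, hrange, ← h2, mem_colon_iff']
    constructor
    · intro hy z hz
      obtain ⟨s, hs, t, ht, rfl⟩ := Submodule.mem_sup.1 hz
      obtain ⟨r, rfl⟩ := Ideal.mem_span_singleton'.1 ht
      have e : y * (s + r * π w) = y * s + r * (y * π w) := by ring
      rw [e]
      exact Ideal.add_mem _ (Ideal.mul_mem_left _ _ hs) (Ideal.mul_mem_left _ _ hy)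
    · intro hy
      exact hy _ (Ideal.mem_sup_right (Ideal.mem_span_singleton_self _))

theorem map_span_range {S : Type u} [CommRing S] (π : R →+* S) {c : ℕ} (a : Fin c → R) :
    (Ideal.span (Set.range a)).map π = Ideal.span (Set.range fun i => π (a i)) := by
  rw [Ideal.map_span, ← Set.range_comp]
  rfl

theorem ofList_ofFn {c : ℕ} (a : Fin c → R) :
    Ideal.ofList (List.ofFn a) = Ideal.span (Set.range a) := by
  rw [Ideal.ofList]
  congr 1
  ext x
  simp [List.mem_ofFn]

/-- Gorenstein ideals with `c + 2` generators. -/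
theorem licci_type_one [IsRegularLocalRing R] {c : ℕ} (hc : 1 ≤ c)
    (main : MainG R c) (I : Ideal R) (h : IsPerfectWith I c 2 1) : IsLicci I := by
  obtain ⟨⟨rs, hlen, hrs, hrsI⟩, b, hb1, hbc, hb, ⟨F⟩⟩ := h
  -- the regular sequence as a function
  let a0 : Fin c → R := fun i => rs.get (i.cast hlen.symm)
  have ha0 : List.ofFn a0 = rs := by
    apply List.ext_getElem
    · simp [hlen]
    · intro i h1 h2
      simp [a0]
  have ha0I : ∀ i, a0 i ∈ I := fun i => hrsI _ (List.get_mem _ _)
  have hreg0 : IsWeaklyRegular R (List.ofFn a0) := by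
    rw [ha0]
    exact hrs.toIsWeaklyRegular
  obtain ⟨u, hu1, hu2⟩ := bridge_c F c hc hb a0 hreg0 ha0I
  -- the augmentation on `Fin (c + 2) → R`
  let E : (Fin (c + 2) → R) ≃ₗ[R] (Fin (b 1) → R) := LinearEquiv.funCongrLeft R R (finCongr hb1)
  let f : (Fin (c + 2) → R) →ₗ[R] R := F.aug ∘ₗ E.toLinearMap
  have hrange : LinearMap.range f = I := by
    rw [← F.range_aug]
    exact LinearMap.range_comp_of_range_eq_top _ (LinearEquiv.range E)
  have hex : ∀ i, ∃ v, f v = a0 i := fun i => by
    have : a0 i ∈ LinearMap.range f := by rw [hrange]; exact ha0I i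
    exact this
  choose a ha using hex
  have hfa : (fun i => f (a i)) = a0 := funext ha
  have hspan : Ideal.span (Set.range u) = Ideal.span {u (Fin.cast hbc.symm 0)} := by
    congr 1
    ext x
    constructor
    · rintro ⟨i, rfl⟩
      have : i = Fin.cast hbc.symm 0 := by
        apply Fin.ext
        have := i.2
        simp only [Fin.val_cast, Fin.val_zero]
        omega
      rw [this]
      rfl
    · rintro rfl
      exact ⟨_, rfl⟩
  rw [hspan] at hu1
  rw [← hrange]
  have hsl : Sliced f a (u (Fin.cast hbc.symm 0)) := by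
    obtain ⟨k, rfl⟩ : ∃ k, c = k + 1 := ⟨c - 1, by omega⟩
    obtain ⟨S, iS1, iS2, π, hs, hm, hdim, hreg', -, hcol, hdd⟩ :=
      exists_slice_link F k hb a0 hreg0 ha0I
    have hA' : (fun i => π (f (a i))) = fun i => π (a0 i) := by
      funext i
      rw [ha]
    have hmap : ((Ideal.span (Set.range a0)).colon (I : Set R)).map π =
        Ideal.span (Set.range fun i => π (a0 i)) ⊔
          Ideal.span {π (u (Fin.cast hbc.symm 0))} := by
      rw [hu1, Ideal.map_sup, map_span_range, Ideal.map_span, Set.image_singleton]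
    obtain ⟨f', hf', hg⟩ := exists_gdat_slice π hs hm f a (u (Fin.cast hbc.symm 0))
      (fun v => F.minimal_aug _) (by rw [hA']; exact hreg')
      (by rw [hA', hrange, hcol, hmap]) (by rw [hA', ← hmap, ← hcol, hdd, hrange])
    exact ⟨S, iS1, iS2, π, f', hs, hm, by exact_mod_cast hdim, hf', hg⟩
  refine main f a (u (Fin.cast hbc.symm 0)) ⟨fun v => F.minimal_aug _,
    by rw [hfa]; exact hreg0, ?_, ?_⟩ hsl
  · intro y hy
    rw [hfa] at hy ⊢
    rw [← hu1, mem_colon_iff']
    intro x hx
    rw [← hrange] at hx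
    obtain ⟨v, rfl⟩ := hx
    exact hy v
  · intro y
    rw [hfa, hrange]
    constructor
    · intro hy
      rw [← hu2, mem_colon_iff']
      intro x hx
      rw [hu1] at hx
      obtain ⟨s, hs, t, ht, rfl⟩ := Submodule.mem_sup.1 hx
      obtain ⟨r, rfl⟩ := Ideal.mem_span_singleton'.1 ht
      have e : y * (s + r * u (Fin.cast hbc.symm 0)) =
          y * s + r * (y * u (Fin.cast hbc.symm 0)) := by ring
      rw [e]
      exact Ideal.add_mem _ (Ideal.mul_mem_left _ _ hs) (Ideal.mul_mem_left _ _ hy)
    · intro hy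
      rw [← hu2, mem_colon_iff'] at hy
      apply hy
      rw [hu1]
      exact Ideal.mem_sup_right (Ideal.mem_span_singleton_self _)

/-- Almost complete intersections of type two. -/
theorem licci_dev_one [IsRegularLocalRing R] [Infinite (ResidueField R)] {c : ℕ}
    (hc : 1 ≤ c) (main : MainG R c) (I : Ideal R) (h : IsPerfectWith I c 1 2) : IsLicci I := by
  obtain ⟨hreg, b, hb1, hbc, hb, ⟨F⟩⟩ := h
  have hIm : I ≤ maximalIdeal R := by
    intro x hx
    rw [← F.range_aug] at hx
    obtain ⟨y, rfl⟩ := hx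
    exact F.minimal_aug y
  obtain ⟨f0, hf0, hf0I⟩ : ∃ f : Fin (c + 1) → R, (∀ i, f i ∈ maximalIdeal R) ∧
      Ideal.span (Set.range f) = I := by
    refine ⟨fun i => F.aug (Pi.single (Fin.cast hb1.symm i) 1), fun i => F.minimal_aug _, ?_⟩
    refine Eq.trans ?_ F.range_aug
    rw [range_eq_span]
    congr 1
    ext x
    constructor
    · rintro ⟨i, rfl⟩
      exact ⟨Fin.cast hb1.symm i, rfl⟩
    · rintro ⟨i, rfl⟩
      exact ⟨Fin.cast hb1 i, rfl⟩
  obtain ⟨a, x, ha, -, hax⟩ := exists_split_one f0 hf0 (by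
    obtain ⟨rs, h1, h2, h3⟩ := hreg
    exact ⟨rs, h1, h2, fun r hr => by rw [hf0I]; exact h3 r hr⟩)
  rw [hf0I] at hax
  set A := Ideal.span (Set.range a) with hA
  have hAI : A ≤ I := by rw [hax]; exact le_sup_left
  have hxI : x ∈ I := by rw [hax]; exact Ideal.mem_sup_right (Ideal.mem_span_singleton_self x)
  have haI : ∀ i, a i ∈ I := fun i => hAI (Ideal.subset_span ⟨i, rfl⟩)
  obtain ⟨u, hu1, hu2⟩ := bridge_c F c hc hb a ha haI
  rw [← hA] at hu1 hu2
  set J := A.colon (I : Set R) with hJ
  have hrega : IsRegular R (List.ofFn a) := by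
    refine IsRegular.of_isWeaklyRegular_of_mem_maximalIdeal R ?_ ha
    intro r hr
    obtain ⟨i, rfl⟩ := (List.mem_ofFn' _ _).1 hr
    exact hIm (haI i)
  have hAJ : A ≤ J := by rw [hu1]; exact le_sup_left
  have hlink : DirectlyLinked I J := by
    refine ⟨List.ofFn a, hrega, ?_, ?_, ?_⟩
    · rw [ofList_ofFn]
      exact le_inf hAI hAJ
    · rw [ofList_ofFn, ← hA, hu2]
    · rw [ofList_ofFn, ← hA]
  have hJx : ∀ y, y ∈ J ↔ y * x ∈ A := by
    intro y
    rw [hJ, mem_colon_iff']
    constructor
    · intro h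
      exact h x hxI
    · intro h z hz
      rw [hax] at hz
      obtain ⟨s, hs, t, ht, rfl⟩ := Submodule.mem_sup.1 hz
      obtain ⟨r, rfl⟩ := Ideal.mem_span_singleton'.1 ht
      have e : y * (s + r * x) = y * s + r * (y * x) := by ring
      rw [e]
      exact Ideal.add_mem _ (Ideal.mul_mem_left _ _ hs) (Ideal.mul_mem_left _ _ h)
  by_cases htop : J = ⊤
  · -- then `I = A`
    have h1 : I = A := by
      apply le_antisymm _ hAI
      intro y hy
      have h2 : (1 : R) ∈ J := by rw [htop]; trivial
      rw [hJ, mem_colon_iff'] at h2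
      simpa using h2 y hy
    exact ⟨I, Relation.ReflTransGen.refl, List.ofFn a, hrega, by rw [ofList_ofFn, ← hA, h1]⟩
  · have hJm : J ≤ maximalIdeal R := le_maximalIdeal htop
    -- generators of `J`
    let G : Fin (c + 2) → R := Fin.append a (fun i : Fin 2 => u (Fin.cast hbc.symm i))
    have hGJ : Ideal.span (Set.range G) = J := by
      rw [hu1]
      apply le_antisymm
      · rw [Ideal.span_le]
        rintro _ ⟨i, rfl⟩
        refine Fin.addCases (fun j => ?_) (fun j => ?_) i
        · simp only [G, Fin.append_left]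
          exact Ideal.mem_sup_left (Ideal.subset_span ⟨j, rfl⟩)
        · simp only [G, Fin.append_right]
          exact Ideal.mem_sup_right (Ideal.subset_span ⟨_, rfl⟩)
      · apply sup_le
        · rw [hA, Ideal.span_le]
          rintro _ ⟨j, rfl⟩
          exact Ideal.subset_span ⟨Fin.castAdd 2 j, by simp [G]⟩
        · rw [Ideal.span_le]
          rintro _ ⟨j, rfl⟩
          refine Ideal.subset_span ⟨Fin.natAdd c (Fin.cast hbc j), ?_⟩
          simp [G]
    let f : (Fin (c + 2) → R) →ₗ[R] R := Fintype.linearCombination R G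
    have hf1 : ∀ i, f (Pi.single i 1) = G i := by
      intro i
      simp [f, Fintype.linearCombination_apply, Pi.single_apply]
    have hrange : LinearMap.range f = J := by
      rw [range_eq_span, ← hGJ]
      congr 1
      ext z
      simp [hf1]
    let a' : Fin c → Fin (c + 2) → R := fun i => Pi.single (Fin.castAdd 2 i) 1
    have hfa : (fun i => f (a' i)) = a := by
      funext i
      simp only [a', hf1, G, Fin.append_left]
    have hJl : IsLicci J := by
      rw [← hrange]
      have hfm : ∀ v, f v ∈ maximalIdeal R := by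
        intro v
        apply hJm
        rw [← hrange]
        exact ⟨v, rfl⟩
      have hsl : Sliced f a' x := by
        obtain ⟨k, rfl⟩ : ∃ k, c = k + 1 := ⟨c - 1, by omega⟩
        obtain ⟨S, iS1, iS2, π, hs, hm, hdim, hreg', -, hcol, hdd⟩ :=
          exists_slice_link F k hb a ha haI
        have hA' : (fun i => π (f (a' i))) = fun i => π (a i) := by
          funext i
          exact congrArg π (congrFun hfa i)
        have hmap : I.map π = Ideal.span (Set.range fun i => π (a i)) ⊔
            Ideal.span {π x} := by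
          rw [hax, hA, Ideal.map_sup, map_span_range, Ideal.map_span, Set.image_singleton]
        obtain ⟨f', hf', hg⟩ := exists_gdat_slice π hs hm f a' x hfm
          (by rw [hA']; exact hreg')
          (by rw [hA', hrange, hJ, hA, ← hcol, hdd, hmap])
          (by rw [hA', ← hmap, hcol, hrange])
        exact ⟨S, iS1, iS2, π, f', hs, hm, by exact_mod_cast hdim, hf', hg⟩
      refine main f a' x ⟨hfm, by rw [hfa]; exact ha, ?_, ?_⟩ hsl
      · intro y hy
        rw [hfa, ← hA] at hy ⊢
        rw [← hax, ← hu2, mem_colon_iff']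
        intro z hz
        have hz' : z ∈ LinearMap.range f := by rw [hrange]; exact hz
        obtain ⟨v, rfl⟩ := hz'
        exact hy v
      · intro y
        rw [hfa, ← hA, hrange]
        exact (hJx y).symm
    exact IsLicci.of_linked hlink hJl

end Pool.Agent.Licci.D
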