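import Pool.Agent.Work.MP_a98e4e_ag.D.DescE
import Pool.Agent.Work.MP_a98e4e_ag.D.GDat
import Pool.Agent.Work.MP_a98e4e_ag.E.Defs

/-!
# LICCI, codimension 5 and 6: the descent in terms of linkage data (helper45)
-/

set_option linter.unusedSectionVars false

noncomputable section

namespace Pool.Agent.Licci

open scoped BigOperators
open IsLocalRing RingTheory.Sequence LicciCodimFour

universe u

variable {R : Type u} [CommRing R]

theorem Cone.ext' [IsDomain R] [Algebra ℚ R] {p : E8 R} (h : Cone p) : Ext p :=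
  fun y => ⟨-(2 * kf p y), h y⟩

/-- the class `w` only matters modulo the regular sequence -/
theorem D.GDat.congr [IsLocalRing R] {n c : ℕ} {f : (Fin n → R) →ₗ[R] R} {a : Fin c → Fin n → R}
    {w w' : R} (h : D.GDat R f a w)
    (hw : w' - w ∈ Ideal.span (Set.range fun i => f (a i))) : D.GDat R f a w' where
  mem := h.mem
  reg := h.reg
  col y hy := by
    have h1 := h.col y hy
    rw [Submodule.mem_sup] at h1 ⊢
    obtain ⟨z, hz, x, hx, hzx⟩ := h1
    obtain ⟨r, rfl⟩ := Ideal.mem_span_singleton'.mp hx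
    refine ⟨z - r * (w' - w), Ideal.sub_mem _ hz (Ideal.mul_mem_left _ _ hw), r * w',
      Ideal.mem_span_singleton'.mpr ⟨r, rfl⟩, ?_⟩
    rw [← hzx]
    ring
  ann y := by
    rw [← h.ann y]
    have e : y * w' = y * w + y * (w' - w) := by ring
    have h1 := Ideal.mul_mem_left (Ideal.span (Set.range fun i => f (a i))) y hw
    rw [e]
    exact ⟨fun h2 => by
      have := Ideal.sub_mem _ h2 h1
      rwa [add_sub_cancel_right] at this, fun h2 => Ideal.add_mem _ h2 h1⟩

variable [IsLocalRing R] [IsNoetherianRing R] [IsDomain R] [Algebra ℚ R]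

/-- **SIX.** -/
theorem six (p : E8 R) (hp : Cone p) (hu : ∃ m, IsUnit (p m)) (f : (Fin 8 → R) →ₗ[R] R)
    (hf : ∀ v, f v = fv p v) (a : Fin 6 → Fin 8 → R) (w : R) (h : D.GDat R f a w)
    (hw : nu6 (dF R) p a - w ∈ Ideal.span (Set.range fun i => f (a i))) :
    IsLicci (LinearMap.range f) := by
  have hf' : f = fv p := LinearMap.ext hf
  subst hf'
  have h' := h.congr hw
  exact licci_six p hp.ext' hu h'.mem a h'.reg (fun y hy => (h'.ann y).mp hy) h'.col

/-- **FIVE.** -/
theorem five (p : E8 R) (hp : Cone p) (hu : ∃ m, IsUnit (p m)) (h1 : ∀ m, wtg 7 m ≠ 1 → p m = 0)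
    (f : (Fin 7 → R) →ₗ[R] R) (hf : ∀ v, f v = f5 p v) (a : Fin 5 → Fin 7 → R) (w : R)
    (h : D.GDat R f a w)
    (hw : nu5 (dF R) p a - w ∈ Ideal.span (Set.range fun i => f (a i))) :
    IsLicci (LinearMap.range f) := by
  have hf' : f = f5 p := LinearMap.ext hf
  subst hf'
  have h' := h.congr hw
  exact licci_five p hp.ext' hu h1 h'.mem a h'.reg (fun y hy => (h'.ann y).mp hy) h'.col

end Pool.Agent.Licci
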