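import Pool.Agent.Work.MP_a98e4e_ag.D.Dim

/-!
# Gorenstein data and their slices
-/

set_option autoImplicit false

namespace Pool.Agent.Licci.D

open IsLocalRing LicciCodimFour RingTheory.Sequence

universe u

/-- A resolution-free Gorenstein datum of grade `c` with `n` generators: the ideal
`I = range f` lies in the maximal ideal, contains the ideal `A` generated by the weakly regular
sequence `f (a 0), …, f (a (c - 1))`, and `A : I ≤ A + (w)`, `A : w = I`. -/
structure Datum {R : Type u} [CommRing R] [IsLocalRing R] {n c : ℕ} (f : (Fin n → R) →ₗ[R] R)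
    (a : Fin c → Fin n → R) (w : R) : Prop where
  mem : ∀ v, f v ∈ maximalIdeal R
  reg : IsWeaklyRegular R (List.ofFn fun i => f (a i))
  colon : ∀ y, (∀ v, y * f v ∈ Ideal.span (Set.range fun i => f (a i))) →
      y ∈ Ideal.span (Set.range fun i => f (a i)) ⊔ Ideal.span {w}
  ann : ∀ y, y * w ∈ Ideal.span (Set.range fun i => f (a i)) ↔ y ∈ LinearMap.range f

/-- The datum remains a datum over a regular quotient ring of dimension `c`. -/
def SliceDatum {R : Type u} [CommRing R] [IsLocalRing R] {n c : ℕ} (f : (Fin n → R) →ₗ[R] R)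
    (a : Fin c → Fin n → R) (w : R) : Prop :=
  ∃ (S : Type u) (_ : CommRing S) (_ : IsRegularLocalRing S) (π : R →+* S),
    Function.Surjective π ∧ (∀ r, π r ∈ maximalIdeal S ↔ r ∈ maximalIdeal R) ∧
    ringKrullDim S = (c : ℕ) ∧ Datum (bcf π f) (fun i => bcv π (a i)) (π w)

theorem mem_colon_set {R : Type u} [CommRing R] (A J : Ideal R) (r : R) :
    r ∈ A.colon (J : Set R) ↔ ∀ y ∈ J, r * y ∈ A := by
  rw [Submodule.mem_colon]
  rfl

/-- A datum from a pair of linked ideals. -/
theorem Datum.of_colon {R : Type u} [CommRing R] [IsLocalRing R] {n c : ℕ}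
    {f : (Fin n → R) →ₗ[R] R} {a : Fin c → Fin n → R} {w : R} {P Q : Ideal R}
    (hm : P ≤ maximalIdeal R) (hreg : IsWeaklyRegular R (List.ofFn fun i => f (a i)))
    (hP : LinearMap.range f = P) (hQ : Q = Ideal.span (Set.range fun i => f (a i)) ⊔ Ideal.span {w})
    (h1 : (Ideal.span (Set.range fun i => f (a i))).colon (P : Set R) = Q)
    (h2 : (Ideal.span (Set.range fun i => f (a i))).colon (Q : Set R) = P) : Datum f a w := by
  refine ⟨fun v => hm (hP ▸ ⟨v, rfl⟩), hreg, fun y hy => ?_, fun y => ?_⟩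
  · rw [← hQ, ← h1, mem_colon_set]
    intro z hz
    rw [← hP] at hz
    obtain ⟨v, rfl⟩ := hz
    exact hy v
  · rw [hP, ← h2, mem_colon_set]
    constructor
    · intro hy z hz
      rw [hQ] at hz
      obtain ⟨s, hs, t, ht, rfl⟩ := Submodule.mem_sup.1 hz
      obtain ⟨r, rfl⟩ := Ideal.mem_span_singleton'.1 ht
      have e : y * (s + r * w) = y * s + r * (y * w) := by ring
      rw [e]
      exact Ideal.add_mem _ (Ideal.mul_mem_left _ _ hs) (Ideal.mul_mem_left _ _ hy)
    · intro hy
      apply hy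
      rw [hQ]
      exact Ideal.mem_sup_right (Ideal.mem_span_singleton_self _)

section slice

variable {R : Type u} [CommRing R] [IsRegularLocalRing R] {I : Ideal R} {b : ℕ → ℕ}

theorem map_le_maximalIdeal {S : Type u} [CommRing S] [IsLocalRing S] {π : R →+* S}
    (h : ∀ r, π r ∈ maximalIdeal S ↔ r ∈ maximalIdeal R) {J : Ideal R}
    (hJ : J ≤ maximalIdeal R) : J.map π ≤ maximalIdeal S := by
  rw [Ideal.map_le_iff_le_comap]
  intro r hr
  rw [Ideal.mem_comap, h]
  exact hJ hr

/-- Slices of the datum of a Gorenstein ideal. -/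
theorem sliceDatum_of_resolution (F : MinimalFreeResolution I b) {k n : ℕ}
    (hb : ∀ i, k + 1 < i → b i = 0) {f : (Fin n → R) →ₗ[R] R} {a : Fin (k + 1) → Fin n → R} {w : R}
    (hreg : IsWeaklyRegular R (List.ofFn fun i => f (a i))) (hI : LinearMap.range f = I)
    (hw : (Ideal.span (Set.range fun i => f (a i))).colon (I : Set R) =
      Ideal.span (Set.range fun i => f (a i)) ⊔ Ideal.span {w}) : SliceDatum f a w := by
  have hIm : I ≤ maximalIdeal R := by
    intro r hr
    rw [← F.range_aug] at hr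
    obtain ⟨y, rfl⟩ := hr
    exact F.minimal_aug y
  obtain ⟨S, i1, i2, π, g1, g2, g3, g4, -, g5, g6⟩ := exists_slice_link F k hb
    (fun i => f (a i)) hreg (fun i => hI ▸ ⟨a i, rfl⟩)
  refine ⟨S, i1, i2, π, g1, g2, g3, ?_⟩
  have hfa : (fun i => bcf π f (bcv π (a i))) = fun i => π (f (a i)) := by
    funext i
    rw [bcf_apply]
  refine Datum.of_colon (P := I.map π)
    (Q := Ideal.span (Set.range fun i => bcf π f (bcv π (a i))) ⊔ Ideal.span {π w})
    (map_le_maximalIdeal g2 hIm) ?_ ?_ rfl ?_ ?_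
  · rw [hfa]
    exact g4
  · rw [range_bcf π g1, hI]
  · rw [hfa, g5, hw, Ideal.map_sup, Ideal.map_span, Ideal.map_span, Set.image_singleton,
      ← Set.range_comp]
    rfl
  · rw [hfa]
    rw [g5, hw, Ideal.map_sup, Ideal.map_span, Ideal.map_span, Set.image_singleton,
      ← Set.range_comp] at g6
    exact g6

/-- Slices of the datum of the link of an almost complete intersection. -/
theorem sliceDatum_of_link (F : MinimalFreeResolution I b) {k n : ℕ}
    (hb : ∀ i, k + 1 < i → b i = 0) {f : (Fin n → R) →ₗ[R] R} {a : Fin (k + 1) → Fin n → R} {w : R}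
    (hreg : IsWeaklyRegular R (List.ofFn fun i => f (a i)))
    (hI : I = Ideal.span (Set.range fun i => f (a i)) ⊔ Ideal.span {w})
    (hf : LinearMap.range f = (Ideal.span (Set.range fun i => f (a i))).colon (I : Set R))
    (hfm : LinearMap.range f ≤ maximalIdeal R) : SliceDatum f a w := by
  obtain ⟨S, i1, i2, π, g1, g2, g3, g4, -, g5, g6⟩ := exists_slice_link F k hb
    (fun i => f (a i)) hreg (fun i => by
      rw [hI]
      exact Ideal.mem_sup_left (Ideal.subset_span ⟨i, rfl⟩))
  refine ⟨S, i1, i2, π, g1, g2, g3, ?_⟩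
  have hfa : (fun i => bcf π f (bcv π (a i))) = fun i => π (f (a i)) := by
    funext i
    rw [bcf_apply]
  have hI' : I.map π = Ideal.span (Set.range fun i => π (f (a i))) ⊔ Ideal.span {π w} := by
    rw [hI, Ideal.map_sup, Ideal.map_span, Ideal.map_span, Set.image_singleton, ← Set.range_comp]
    rfl
  refine Datum.of_colon (P := Ideal.map π (LinearMap.range f)) (Q := I.map π)
    (map_le_maximalIdeal g2 hfm) ?_ ?_ ?_ ?_ ?_
  · rw [hfa]
    exact g4
  · rw [range_bcf π g1]
  · rw [hfa, hI']
  · rw [hfa, hf, ← g5, g6]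
  · rw [hfa, hf, ← g5]

end slice

end Pool.Agent.Licci.D
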