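import Pool.Agent.Work.MP_a98e4e_ag.L.Grad
import Pool.Agent.Work.MP_a98e4e_ag.E.Defs

/-!
# LICCI, codimension 5 from codimension 6 (P5), helper43

`theta`-degree of the table: the weight `b_7`, from `-2` to `2`. Degree `2` is the single coordinate
`ix 7` (the last coordinate of `p3`), degree `1` is the `56` of `e_7`.

* `thp x` is the part of theta-degree `1` of `x`;
* `cone_thp`: if `p` is a cone point without coordinate `ix 7`, then `thp p` is a cone point;
* `cone_add_theta`: if `q` is a cone point of theta-degree `1`, then `y • eb (ix 7) + q` is one.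
-/

set_option linter.unusedSectionVars false

namespace Pool.Agent.Licci.P5

open scoped BigOperators

/-! ### table facts -/

/-- polarised cone identity for `e_theta` (index `7`) and a basis vector of theta-degree `1` -/
def polN (n m : ℕ) : Bool :=
  zr (lm 7 (sp n m) ++ (lm n (sp 7 m) ++ [(n, 2 * kcN 7 m), (7, 2 * kcN n m)]))

set_option maxRecDepth 100000 in
theorem pol_chk : (List.range 248).all (fun n => bif Nat.beq (dg n 7) 3 then
    (List.range 248).all (fun m => polN n m) else true) = true := by decide +kernel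

set_option maxRecDepth 100000 in
theorem con_chk : (List.range 248).all (fun m =>
    zr (lm 7 (sp 7 m) ++ [(7, 2 * kcN 7 m)])) = true := by decide +kernel

set_option maxRecDepth 100000 in
theorem top_chk : (List.range 248).all (fun n => Nat.beq (dg n 7) 4 == Nat.beq n 7) = true := by
  decide +kernel

set_option maxRecDepth 100000 in
theorem kc_chk : (List.range 248).all (fun n => (List.range 248).all (fun m =>
    isz (kcN n m) || Nat.beq (dg n 7 + dg m 7) 4)) = true := by decide +kernel

/-- theta-degree -/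
def tdg (m : Fin 248) : ℤ := wtg 7 m

theorem tdg_sc {i j k : Fin 248} (h : sc i j k ≠ 0) : tdg i + tdg j = tdg k := sc_wtg 7 h

theorem tdg_ge (m : Fin 248) : -2 ≤ tdg m := wtg_ge 7 m

theorem tdg_le (m : Fin 248) : tdg m ≤ 2 := wtg_le 7 m

theorem tdg_eq (m : Fin 248) : tdg m = (dg m 7 : ℤ) - 2 := rfl

theorem tdg_two {m : Fin 248} : tdg m = 2 ↔ m = ix 7 := by
  have h := all_range top_chk m.2
  rw [beq_iff_eq] at h
  have h1 : (ix 7 : Fin 248) = (7 : Fin 248) := rfl
  rw [tdg_eq, h1, Fin.ext_iff]
  have h2 : ((7 : Fin 248) : ℕ) = 7 := rfl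
  rw [h2]
  constructor
  · intro h3
    have h4 : dg m 7 = 4 := by omega
    rw [h4] at h
    have h5 : Nat.beq 4 4 = true := rfl
    rw [h5] at h
    exact Nat.eq_of_beq_eq_true h.symm
  · intro h3
    rw [h3] at h ⊢
    have h5 : Nat.beq 7 7 = true := rfl
    rw [h5] at h
    have h6 := Nat.eq_of_beq_eq_true h
    omega

theorem kc_tdg {i j : Fin 248} (h : kc i j ≠ 0) : tdg i + tdg j = 0 := by
  have h1 := all_range (all_range kc_chk i.2) j.2
  rw [Bool.or_eq_true] at h1
  rcases h1 with h1 | h1
  · exact absurd ((isz_iff _).1 h1) h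
  · have h2 := Nat.eq_of_beq_eq_true h1
    rw [tdg_eq, tdg_eq]
    omega

section

variable {A : Type*} [CommRing A]

/-! ### bilinearity of the form -/

theorem kf_add_left (x x' y : E8 A) : kf (x + x') y = kf x y + kf x' y := by
  simp only [kf, Pi.add_apply, add_mul, mul_add, Finset.sum_add_distrib]

theorem kf_add_right (x y y' : E8 A) : kf x (y + y') = kf x y + kf x y' := by
  simp only [kf, Pi.add_apply, mul_add, Finset.sum_add_distrib]

theorem kf_smul_left (c : A) (x y : E8 A) : kf (c • x) y = c * kf x y := by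
  simp only [kf, Pi.smul_apply, smul_eq_mul, Finset.mul_sum]
  refine Finset.sum_congr rfl fun i _ => Finset.sum_congr rfl fun j _ => ?_
  ring

theorem kf_smul_right (c : A) (x y : E8 A) : kf x (c • y) = c * kf x y := by
  simp only [kf, Pi.smul_apply, smul_eq_mul, Finset.mul_sum]
  refine Finset.sum_congr rfl fun i _ => Finset.sum_congr rfl fun j _ => ?_
  ring

/-- the form, as a bilinear map -/
def kfL : E8 A →ₗ[A] E8 A →ₗ[A] A :=
  LinearMap.mk₂ A kf kf_add_left kf_smul_left kf_add_right kf_smul_right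

@[simp] theorem kfL_apply (x y : E8 A) : kfL x y = kf x y := rfl

theorem kf_eb_eb (i j : Fin 248) : kf (eb i : E8 A) (eb j) = (kc i j : A) := by
  simp [kf, eb_apply]

theorem kf_eb_right (x : E8 A) (n : Fin 248) : kf x (eb n) = ∑ i, (kc i n : A) * x i := by
  simp [kf, eb_apply]

/-- a cone point, on basis vectors -/
theorem cone_iff (p : E8 A) :
    Cone p ↔ ∀ n, br p (br p (eb n)) = (-(2 * kf p (eb n))) • p := by
  constructor
  · intro h n
    exact h _
  · intro h y
    have e : brL p ∘ₗ brL p = (-(2 : A)) • (kfL p).smulRight p := by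
      apply E8.hom_ext
      intro n
      simp only [LinearMap.comp_apply, brL_apply, LinearMap.smul_apply,
        LinearMap.smulRight_apply, kfL_apply]
      rw [h n, smul_smul]
      congr 1
      ring
    have h1 := LinearMap.congr_fun e y
    simp only [LinearMap.comp_apply, brL_apply, LinearMap.smul_apply,
      LinearMap.smulRight_apply, kfL_apply] at h1
    rw [h1, smul_smul]
    congr 1
    ring

/-! ### the polarised identity -/

theorem br_eb_br' (g j k l : Fin 248) :
    (br (eb g : E8 A) (br (eb j) (eb k))) l = ((cf (lm g (sp j k)) l : ℤ) : A) := by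
  rw [br_eb_br, cf_lm]
  congr 1
  exact sum_cf (sp j k) (fun p hp => sp_rng j.2 k.2 hp) (fun m => scN g m l)

theorem pol_eb {n : Fin 248} (hn : tdg n = 1) (m : Fin 248) :
    br (eb (ix 7) : E8 A) (br (eb n) (eb m)) + br (eb n) (br (eb (ix 7)) (eb m)) =
      (-(2 * kf (eb (ix 7) : E8 A) (eb m))) • eb n +
        (-(2 * kf (eb n : E8 A) (eb m))) • eb (ix 7) := by
  have h := all_range pol_chk n.2
  have h1 : dg n 7 = 3 := by
    have h2 := tdg_eq n
    omega
  have h3 : Nat.beq 3 3 = true := rfl
  rw [h1, h3, cond_true] at h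
  have h4 := all_range h m.2
  unfold polN at h4
  have h7 : ((ix 7 : Fin 248) : ℕ) = 7 := rfl
  ext l
  have h5 := zr_spec h4 l
  rw [cf_append, cf_append, cf_cons, cf_cons, cf_nil, add_zero] at h5
  have e1 := br_eb_br' (A := A) (ix 7) n m l
  have e2 := br_eb_br' (A := A) n (ix 7) m l
  rw [h7] at e1 e2
  rw [Pi.add_apply, Pi.add_apply, e1, e2, Pi.smul_apply, Pi.smul_apply, kf_eb_eb, kf_eb_eb,
    eb_apply, eb_apply, smul_eq_mul, smul_eq_mul]
  have k1 : kc (ix 7) m = kcN 7 m := rfl
  have k2 : kc n m = kcN n m := rfl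
  rw [k1, k2]
  have h6 := congrArg (fun t : ℤ => (t : A)) h5
  simp only [Int.cast_add, Int.cast_zero] at h6
  have c1 : ((if (n : ℕ) = (l : ℕ) then 2 * kcN 7 m else 0 : ℤ) : A) =
      2 * (kcN 7 m : A) * (if l = n then 1 else 0) := by
    by_cases hl : l = n
    · subst hl; simp
    · rw [if_neg hl, if_neg (fun h => hl (Fin.ext h.symm))]; simp
  have c2 : ((if 7 = (l : ℕ) then 2 * kcN n m else 0 : ℤ) : A) =
      2 * (kcN n m : A) * (if l = ix 7 then 1 else 0) := by
    by_cases hl : l = ix 7
    · subst hl; simp [h7]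
    · rw [if_neg hl, if_neg (fun h => hl (Fin.ext (by rw [h7]; exact h.symm)))]; simp
  rw [c1, c2] at h6
  linear_combination h6

/-- a vector of theta-degree `1` -/
def Th1 (x : E8 A) : Prop := ∀ m, tdg m ≠ 1 → x m = 0

theorem pol {x : E8 A} (hx : Th1 x) (z : E8 A) :
    br (eb (ix 7) : E8 A) (br x z) + br x (br (eb (ix 7)) z) =
      (-(2 * kf (eb (ix 7) : E8 A) z)) • x + (-(2 * kf x z)) • eb (ix 7) := by
  set e : E8 A := eb (ix 7) with he
  -- both sides are linear in `z`
  have hz : ∀ n, tdg n = 1 → ∀ z : E8 A, br e (br (eb n) z) + br (eb n) (br e z) =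
      (-(2 * kf e z)) • eb n + (-(2 * kf (eb n) z)) • e := by
    intro n hn z
    have hL : brL e ∘ₗ brL (eb n) + brL (eb n) ∘ₗ brL e =
        (-(2 : A)) • ((kfL e).smulRight (eb n) + (kfL (eb n)).smulRight e) := by
      apply E8.hom_ext
      intro m
      simp only [LinearMap.add_apply, LinearMap.comp_apply, brL_apply, LinearMap.smul_apply,
        LinearMap.smulRight_apply, kfL_apply]
      rw [he, pol_eb hn m, smul_add, smul_smul, smul_smul]
      congr 2 <;> ring
    have h1 := LinearMap.congr_fun hL z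
    simp only [LinearMap.add_apply, LinearMap.comp_apply, brL_apply, LinearMap.smul_apply,
      LinearMap.smulRight_apply, kfL_apply] at h1
    rw [h1, smul_add, smul_smul, smul_smul]
    congr 2 <;> ring
  -- and in `x`
  have hsum : ∀ n, x n • (br e (br (eb n) z) + br (eb n) (br e z)) =
      x n • ((-(2 * kf e z)) • eb n + (-(2 * kf (eb n) z)) • e) := by
    intro n
    by_cases hn : tdg n = 1
    · rw [hz n hn z]
    · rw [hx n hn, zero_smul, zero_smul]
  have e1 : br e (br x z) + br x (br e z) =
      ∑ n, x n • (br e (br (eb n) z) + br (eb n) (br e z)) := by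
    conv_lhs => rw [E8.eq_sum x]
    simp only [br_sum_left, br_sum_right, br_smul_left, br_smul_right, smul_add,
      Finset.sum_add_distrib]
  have e2 : (-(2 * kf e z)) • x + (-(2 * kf x z)) • e =
      ∑ n, x n • ((-(2 * kf e z)) • eb n + (-(2 * kf (eb n) z)) • e) := by
    have h1 : kf x z = ∑ n, x n * kf (eb n) z := by
      have h2 := LinearMap.congr_fun (congrArg (kfL (A := A)) (E8.eq_sum x)) z
      rw [map_sum, LinearMap.sum_apply] at h2
      simpa only [map_smul, LinearMap.smul_apply, kfL_apply, smul_eq_mul] using h2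
    simp only [smul_add, Finset.sum_add_distrib]
    congr 1
    · conv_lhs => rw [E8.eq_sum x, Finset.smul_sum]
      refine Finset.sum_congr rfl fun n _ => ?_
      rw [smul_comm]
    · rw [h1, Finset.mul_sum, ← Finset.sum_neg_distrib, Finset.sum_smul]
      refine Finset.sum_congr rfl fun n _ => ?_
      rw [smul_smul]
      congr 1
      ring
  rw [e1, e2]
  exact Finset.sum_congr rfl fun n _ => hsum n

/-! ### the part of theta-degree `1` -/

/-- the part of theta-degree `1` -/
def thp (x : E8 A) : E8 A := fun m => if tdg m = 1 then x m else 0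

theorem thp_th1 (x : E8 A) : Th1 (thp x) := fun _ hm => if_neg hm

theorem thp_apply {x : E8 A} {m : Fin 248} (hm : tdg m = 1) : thp x m = x m := if_pos hm

theorem thp_eq {x : E8 A} (hx : Th1 x) : thp x = x := by
  funext m
  by_cases hm : tdg m = 1
  · exact thp_apply hm
  · rw [hx m hm]; exact if_neg hm

theorem Th1.le {x : E8 A} (hx : Th1 x) : Le tdg 1 x := fun m hm => hx m (by omega)

/-- the leading part of a cone point without coordinate `ix 7` -/
theorem cone_thp {p : E8 A} (hp : Cone p) (h2 : p (ix 7) = 0) : Cone (thp p) := by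
  rw [cone_iff]
  intro n
  have hp1 : Le tdg 1 p := by
    intro m hm
    have h3 := tdg_le m
    have h4 : tdg m = 2 := by omega
    rw [tdg_two.1 h4, h2]
  have hq1 : Le tdg 1 (thp p) := (thp_th1 p).le
  have hn : Le tdg (tdg n) (eb n : E8 A) := by
    intro m hm
    rw [eb_apply, if_neg]
    rintro rfl
    omega
  have hnS : U.Sup tdg (tdg n) (eb n : E8 A) := by
    intro m hm
    rw [eb_apply, if_neg]
    rintro rfl
    exact hm rfl
  have hqS : U.Sup tdg 1 (thp p) := thp_th1 p
  funext k
  by_cases hk : tdg k = tdg n + 2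
  · -- the top component
    have ht : br (thp p) (br (thp p) (eb n : E8 A)) k = br p (br p (eb n)) k := by
      refine br_top (fun i j k h => tdg_sc h) (a := 1) (b := 1 + tdg n) hq1
        (Le.br (fun i j k h => tdg_sc h) hq1 hn) hp1 (Le.br (fun i j k h => tdg_sc h) hp1 hn)
        (fun m hm => thp_apply hm) (fun m hm => ?_) k (by omega)
      exact br_top (fun i j k h => tdg_sc h) (a := 1) (b := tdg n) hq1 hn hp1 hn
        (fun m hm => thp_apply hm) (fun _ _ => rfl) m hm
    rw [ht, hp (eb n), Pi.smul_apply, Pi.smul_apply, smul_eq_mul, smul_eq_mul]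
    by_cases hn1 : tdg n = -1
    · have hk1 : tdg k = 1 := by omega
      have e1 : kf (thp p) (eb n : E8 A) = kf p (eb n) := by
        rw [kf_eb_right, kf_eb_right]
        refine Finset.sum_congr rfl fun i _ => ?_
        by_cases hi : kc i n = 0
        · rw [hi, Int.cast_zero, zero_mul, zero_mul]
        · have h3 := kc_tdg hi
          rw [thp_apply (by omega)]
      rw [e1, thp_apply hk1]
    · have e1 : kf (thp p) (eb n : E8 A) = 0 := by
        rw [kf_eb_right]
        refine Finset.sum_eq_zero fun i _ => ?_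
        by_cases hi : kc i n = 0
        · rw [hi, Int.cast_zero, zero_mul]
        · have h3 := kc_tdg hi
          rw [thp_th1 p i (by omega), mul_zero]
      rw [e1, mul_zero, neg_zero, zero_mul]
      have hk2 := tdg_le k
      have hn2 := tdg_ge n
      rcases (by omega : tdg n = -2 ∨ tdg n = 0) with h3 | h3
      · have e2 : kf p (eb n : E8 A) = 0 := by
          rw [kf_eb_right]
          refine Finset.sum_eq_zero fun i _ => ?_
          by_cases hi : kc i n = 0
          · rw [hi, Int.cast_zero, zero_mul]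
          · have h4 := kc_tdg hi
            rw [tdg_two.1 (by omega : tdg i = 2), h2, mul_zero]
        rw [e2, mul_zero, neg_zero, zero_mul]
      · rw [tdg_two.1 (by omega : tdg k = 2), h2, mul_zero]
  · -- the other components
    have hne : tdg k ≠ 1 + (1 + tdg n) := by
      intro h
      apply hk
      rw [h]
      ring
    have hS := Sup.br (fun i j k h => tdg_sc h) hqS (Sup.br (fun i j k h => tdg_sc h) hqS hnS) k
      hne
    rw [hS, Pi.smul_apply, smul_eq_mul]
    by_cases hk1 : tdg k = 1
    · have e1 : kf (thp p) (eb n : E8 A) = 0 := by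
        rw [kf_eb_right]
        refine Finset.sum_eq_zero fun i _ => ?_
        by_cases hi : kc i n = 0
        · rw [hi, Int.cast_zero, zero_mul]
        · have h3 := kc_tdg hi
          rw [thp_th1 p i (by omega), mul_zero]
      rw [e1, mul_zero, neg_zero, zero_mul]
    · rw [thp_th1 p k hk1, mul_zero]

/-- `e_theta` is a cone point -/
theorem cone_theta : Cone (eb (ix 7) : E8 A) := by
  rw [cone_iff]
  intro m
  have h7 : ((ix 7 : Fin 248) : ℕ) = 7 := rfl
  funext l
  have h5 := zr_spec (all_range con_chk m.2) l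
  rw [cf_append, cf_cons, cf_nil, add_zero] at h5
  have e1 := br_eb_br' (A := A) (ix 7) (ix 7) m l
  rw [h7] at e1
  have k1 : kc (ix 7) m = kcN 7 m := rfl
  rw [e1, Pi.smul_apply, kf_eb_eb, eb_apply, smul_eq_mul, k1]
  have h6 := congrArg (fun t : ℤ => (t : A)) h5
  simp only [Int.cast_add, Int.cast_zero] at h6
  have c2 : ((if 7 = (l : ℕ) then 2 * kcN 7 m else 0 : ℤ) : A) =
      2 * (kcN 7 m : A) * (if l = ix 7 then 1 else 0) := by
    by_cases hl : l = ix 7
    · subst hl; simp [h7]
    · rw [if_neg hl, if_neg (fun h => hl (Fin.ext (by rw [h7]; exact h.symm)))]; simp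
  rw [c2] at h6
  linear_combination h6

/-- adding a multiple of `e_theta` -/
theorem cone_add_theta {q : E8 A} (hq : Cone q) (hq1 : Th1 q) (y : A) :
    Cone (y • eb (ix 7) + q) := by
  intro z
  have h1 := hq z
  have h2 := cone_theta (A := A) z
  have h3 := pol hq1 z
  set e : E8 A := eb (ix 7)
  rw [kf_add_left, kf_smul_left]
  simp only [br_add_left, br_add_right, br_smul_left, br_smul_right]
  have h4 : br e (br q z) = (-(2 * kf e z)) • q + (-(2 * kf q z)) • e - br q (br e z) := by
    rw [← h3]; abel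
  rw [h1, h2, h4]
  funext k
  simp only [Pi.add_apply, Pi.smul_apply, Pi.sub_apply, smul_eq_mul]
  ring

end

/-! ### base change -/

section map

variable {A B : Type*} [CommRing A] [CommRing B]

theorem eb_map (φ : A →+* B) (n : Fin 248) : φ ∘ (eb n : E8 A) = eb n := by
  funext k
  rw [Function.comp_apply, eb_apply, eb_apply]
  split_ifs
  · exact map_one φ
  · exact map_zero φ

theorem kf_map (φ : A →+* B) (x y : E8 A) : kf (φ ∘ x) (φ ∘ y) = φ (kf x y) := by
  simp only [kf, Function.comp_apply, map_sum, map_mul, map_intCast]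

theorem cone_map (φ : A →+* B) {p : E8 A} (hp : Cone p) : Cone (φ ∘ p) := by
  rw [cone_iff]
  intro n
  have h := hp (eb n)
  rw [← eb_map φ n, ← br_map, ← br_map, kf_map, h]
  funext k
  simp only [Function.comp_apply, Pi.smul_apply, smul_eq_mul, map_mul, map_neg, map_ofNat]

end map

/-! ### the coordinates -/

theorem tdg_ix : ∀ j : Fin 8, tdg (ix j) = if j = 7 then 2 else 1 := by decide +kernel

theorem tdg_i2 : ∀ j k : Fin 8, j ≠ k → tdg (i2 j k) = if j = 7 ∨ k = 7 then 0 else 1 := by
  decide +kernel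

theorem ix_ne_seven : ∀ j : Fin 8, j ≠ 7 → (ix j : Fin 248) ≠ ix 7 := by decide +kernel

theorem ep2_self (j : Fin 8) : ep2 j j = 0 := by simp [ep2]

section p5

variable {A : Type*} [CommRing A]

theorem p3_thp (x : E8 A) (j : Fin 8) : p3 (thp x) j = if j = 7 then 0 else p3 x j := by
  have h := tdg_ix j
  by_cases hj : j = 7
  · rw [if_pos hj] at h ⊢
    exact thp_th1 x _ (by omega)
  · rw [if_neg hj] at h ⊢
    exact thp_apply h

theorem w2_thp (x : E8 A) (j k : Fin 8) :
    w2 (thp x) j k = if j = 7 ∨ k = 7 then 0 else w2 x j k := by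
  unfold w2
  by_cases hjk : j = k
  · subst hjk
    rw [ep2_self, Int.cast_zero, zero_mul, zero_mul, ite_self]
  · have h := tdg_i2 j k hjk
    by_cases h7 : j = 7 ∨ k = 7
    · rw [if_pos h7] at h ⊢
      rw [thp_th1 x _ (by omega), mul_zero]
    · rw [if_neg h7] at h ⊢
      rw [thp_apply h]

theorem p3_add_theta (q : E8 A) (hq : Th1 q) (y : A) (j : Fin 8) :
    p3 (y • eb (ix 7) + q) j = if j = 7 then y else p3 q j := by
  unfold p3
  rw [Pi.add_apply, Pi.smul_apply, eb_apply, smul_eq_mul]
  by_cases hj : j = 7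
  · subst hj
    have h := tdg_ix 7
    rw [if_pos rfl] at h
    rw [if_pos rfl, hq _ (by omega)]
    have e : (ix ((7 : Fin 8) : ℕ) : Fin 248) = ix 7 := rfl
    rw [e, if_pos rfl, mul_one, add_zero]
  · rw [if_neg hj, if_neg (ix_ne_seven j hj), mul_zero, zero_add]

theorem w2_add_theta (q : E8 A) (y : A) (j k : Fin 8) :
    w2 (y • eb (ix 7) + q) j k = w2 q j k := by
  unfold w2
  by_cases hjk : j = k
  · subst hjk
    rw [ep2_self, Int.cast_zero, zero_mul, zero_mul]
  · rw [Pi.add_apply, Pi.smul_apply, eb_apply, smul_eq_mul, if_neg, mul_zero, zero_add]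
    intro h
    have h1 := tdg_i2 j k hjk
    rw [h] at h1
    have h2 : tdg (ix 7) = 2 := tdg_two.2 rfl
    split_ifs at h1 <;> omega

end p5

section main

variable {R S : Type*} [CommRing R] [CommRing S]

/-- the point of the `56` over `R` -/
def p5 (π : S →+* R) (p : E8 S) : E8 R := thp (π ∘ p)

/-- **(P5)** From a cone point `p` of `e_8` over `S` with last top coordinate `y` (`π y = 0`) we get a
cone point `q` of theta-degree `1` over `R`, and the cone point `y e_theta + i (q)` over `S`. -/
theorem p5_spec (i : R →+* S) (π : S →+* R) {y : S} (hy : π y = 0) {p : E8 S}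
    (hp : Cone p) (h7 : p3 p 7 = y) :
    Cone (p5 π p) ∧ Th1 (p5 π p) ∧ Cone (y • eb (ix 7) + i ∘ p5 π p) ∧
      (∀ j, p3 (p5 π p) j = if j = 7 then 0 else π (p3 p j)) ∧
      (∀ j k, w2 (p5 π p) j k = if j = 7 ∨ k = 7 then 0 else π (w2 p j k)) ∧
      (∀ j, p3 (y • eb (ix 7) + i ∘ p5 π p) j = if j = 7 then y else i (π (p3 p j))) ∧
      (∀ j k, w2 (y • eb (ix 7) + i ∘ p5 π p) j k =
        if j = 7 ∨ k = 7 then 0 else i (π (w2 p j k))) := by
  have h1 : (π ∘ p) (ix 7) = 0 := by
    rw [← hy, ← h7]
    rfl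
  have c1 : Cone (p5 π p) := cone_thp (cone_map π hp) h1
  have t1 : Th1 (p5 π p) := thp_th1 _
  have t2 : Th1 (i ∘ p5 π p) := fun m hm => by
    rw [Function.comp_apply, t1 m hm, map_zero]
  have e1 : ∀ j, p3 (p5 π p) j = if j = 7 then 0 else π (p3 p j) := fun j => by
    rw [p5, p3_thp]
    rfl
  have e2 : ∀ j k, w2 (p5 π p) j k = if j = 7 ∨ k = 7 then 0 else π (w2 p j k) := fun j k => by
    rw [p5, w2_thp]
    congr 1
    simp only [w2, Function.comp_apply, map_mul, map_intCast]
  refine ⟨c1, t1, cone_add_theta (cone_map i c1) t2 y, e1, e2, fun j => ?_, fun j k => ?_⟩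
  · rw [p3_add_theta _ t2]
    by_cases hj : j = 7
    · rw [if_pos hj, if_pos hj]
    · rw [if_neg hj, if_neg hj]
      change i (p3 (p5 π p) j) = _
      rw [e1, if_neg hj]
  · rw [w2_add_theta]
    have : w2 (i ∘ p5 π p) j k = i (w2 (p5 π p) j k) := by
      simp only [w2, Function.comp_apply, map_mul, map_intCast]
    rw [this, e2, apply_ite i, map_zero]

/-- a unit coordinate of `y e_theta + i (q)` gives one of `q` -/
theorem p5_unit (i : R →+* S) (π : S →+* R) (hi : ∀ r, π (i r) = r) {y : S}
    (hy : π y = 0) {q : E8 R} {m : Fin 248}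
    (h : IsUnit ((y • eb (ix 7) + i ∘ q : E8 S) m)) : IsUnit (q m) := by
  have h1 := h.map π
  rw [Pi.add_apply, Pi.smul_apply, smul_eq_mul, map_add, map_mul, hy, zero_mul, zero_add,
    Function.comp_apply, hi] at h1
  exact h1

end main

end Pool.Agent.Licci.P5
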