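import Pool.Agent.Work.MP_a98e4e_ag.L.TabE
import Pool.Agent.Work.MP_a98e4e_ag.L.Grad

/-!
# LICCI, codimension 5 and 6: the `6`-form of a state and the moves (helper45)

`P = A ^ 8`, `f : P → A` is the pairing with `p3 Y`; for an `8`-form `ω` on `P`, `nu6 ω Y` is the
`6`-form `ω (w2 Y ∧ ⋯)` and `M5 ω u` is `u_0 ∧ ⋯ ∧ u_4` in degree `1`.
-/

set_option linter.unusedSectionVars false

noncomputable section

namespace Pool.Agent.Licci

open scoped BigOperators

section gen

variable {R M N : Type*} [CommRing R] [AddCommGroup M] [Module R M] [AddCommGroup N]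
    [Module R N] {n : ℕ}

/-- fix the first argument -/
def cur1 (ω : M [⋀^Fin (n + 1)]→ₗ[R] N) (x : M) : M [⋀^Fin n]→ₗ[R] N := ω.curryLeft x

theorem cur1_apply (ω : M [⋀^Fin (n + 1)]→ₗ[R] N) (x : M) (a : Fin n → M) :
    cur1 ω x a = ω (Fin.cons x a) := rfl

theorem cur1_add (ω : M [⋀^Fin (n + 1)]→ₗ[R] N) (x y : M) : cur1 ω (x + y) = cur1 ω x + cur1 ω y :=
  map_add _ _ _

theorem cur1_smul (ω : M [⋀^Fin (n + 1)]→ₗ[R] N) (c : R) (x : M) :
    cur1 ω (c • x) = c • cur1 ω x := map_smul _ _ _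

theorem cur1_sum {ι : Type*} (s : Finset ι) (ω : M [⋀^Fin (n + 1)]→ₗ[R] N) (x : ι → M)
    (a : Fin n → M) : cur1 ω (∑ i ∈ s, x i) a = ∑ i ∈ s, cur1 ω (x i) a := by
  induction s using Finset.cons_induction with
  | empty =>
    rw [Finset.sum_empty, Finset.sum_empty, ← zero_smul R (0 : M), cur1_smul, zero_smul]
    rfl
  | cons i s hi ih => rw [Finset.sum_cons, Finset.sum_cons, cur1_add, ← ih]; rfl

theorem alt_sum_apply {ι κ : Type*} (s : Finset ι) (f : ι → M [⋀^κ]→ₗ[R] N) (a : κ → M) :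
    (∑ i ∈ s, f i) a = ∑ i ∈ s, f i a := by
  induction s using Finset.cons_induction with
  | empty => rfl
  | cons i s hi ih => rw [Finset.sum_cons, Finset.sum_cons, ← ih]; rfl

/-- the last argument can be moved to the front -/
theorem alt_snoc (ω : M [⋀^Fin (n + 1)]→ₗ[R] N) (u : Fin n → M) (v : M) :
    ω (Fin.snoc u v) = (-1 : ℤ) ^ n • ω (Fin.cons v u) := by
  have h1 : (Fin.snoc u v : Fin (n + 1) → M) =
      (Fin.cons v u : Fin (n + 1) → M) ∘ (finRotate (n + 1)) := Fin.snoc_eq_cons_rotate u v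
  rw [h1, AlternatingMap.map_perm, sign_finRotate]
  rcases neg_one_pow_eq_or ℤ n with h | h
  · have h2 : ((-1 : ℤˣ) ^ n) = 1 := by
      ext
      push_cast
      exact h
    rw [Nat.add_sub_cancel, h, h2, one_smul, one_smul]
  · have h2 : ((-1 : ℤˣ) ^ n) = -1 := by
      ext
      push_cast
      exact h
    rw [Nat.add_sub_cancel, h, h2, Units.smul_def]
    push_cast
    rfl

/-- the first two arguments -/
theorem alt_swap01 (ω : M [⋀^Fin (n + 2)]→ₗ[R] N) (x y : M) (u : Fin n → M) :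
    ω (Fin.cons x (Fin.cons y u)) = - ω (Fin.cons y (Fin.cons x u)) := by
  have h := ω.map_swap (Fin.cons y (Fin.cons x u)) (i := 0) (j := 1) (by
    intro h
    have := congrArg Fin.val h
    simp at this)
  rw [← h]
  congr 1
  funext r
  refine Fin.cases ?_ (fun r => ?_) r
  · rw [Function.comp_apply, Equiv.swap_apply_left]
    rfl
  · refine Fin.cases ?_ (fun r => ?_) r
    · have e : (Fin.succ 0 : Fin (n + 2)) = 1 := rfl
      rw [Function.comp_apply, e, Equiv.swap_apply_right]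
      rfl
    · rw [Function.comp_apply, Equiv.swap_apply_of_ne_of_ne (Fin.succ_ne_zero _)]
      · rfl
      · intro hh
        have := congrArg Fin.val hh
        simp at this

end gen

variable {A : Type*} [CommRing A]

/-- pairing with the component of degree `3` -/
def fv (Y : E8 A) : Vec A →ₗ[A] A where
  toFun v := ∑ m, p3 Y m * v m
  map_add' v w := by simp only [Pi.add_apply, mul_add, Finset.sum_add_distrib]
  map_smul' c v := by
    simp only [Pi.smul_apply, smul_eq_mul, RingHom.id_apply, Finset.mul_sum]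
    refine Finset.sum_congr rfl fun m _ => ?_
    ring

theorem fv_apply (Y : E8 A) (v : Vec A) : fv Y v = ∑ m, p3 Y m * v m := rfl

theorem fv_single (Y : E8 A) (i : Fin 8) : fv Y (Pi.single i 1) = p3 Y i := by
  rw [fv_apply, Finset.sum_eq_single i]
  · simp
  · intro b _ hb
    simp [hb]
  · intro h
    exact absurd (Finset.mem_univ _) h

theorem vec_sum (v : Vec A) : v = ∑ m, v m • (Pi.single m 1 : Vec A) := by
  funext j
  simp [Finset.sum_apply, Pi.single_apply]

/-- `ω (e_i, e_j, ⋯)` -/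
def vol2 (ω : Vec A [⋀^Fin 8]→ₗ[A] A) (i j : Fin 8) : Vec A [⋀^Fin 6]→ₗ[A] A :=
  cur1 (n := 6) (cur1 (n := 7) ω (Pi.single i 1)) (Pi.single j 1)

/-- `ω (e_i, e_j, e_k, ⋯)` -/
def vol3 (ω : Vec A [⋀^Fin 8]→ₗ[A] A) (i j k : Fin 8) : Vec A [⋀^Fin 5]→ₗ[A] A :=
  cur1 (n := 5) (vol2 ω i j) (Pi.single k 1)

theorem vol2_apply (ω : Vec A [⋀^Fin 8]→ₗ[A] A) (i j : Fin 8) (a : Fin 6 → Vec A) :
    vol2 ω i j a = ω (Fin.cons (Pi.single i 1) (Fin.cons (Pi.single j 1) a)) := rfl

theorem vol3_apply (ω : Vec A [⋀^Fin 8]→ₗ[A] A) (i j k : Fin 8) (a : Fin 5 → Vec A) :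
    vol3 ω i j k a = vol2 ω i j (Fin.cons (Pi.single k 1) a) := rfl

/-- Cramer's rule for an `n`-form -/
def Cram {κ : Type*} [Fintype κ] [DecidableEq κ] (ω : (κ → A) [⋀^κ]→ₗ[A] A) : Prop :=
  ∀ (b : κ → κ → A) (v : κ → A) (m : κ),
    ∑ j, b j m * ω (Function.update b j v) = ω b * v m

/-- Cramer's rule -/
theorem cram_det {κ : Type*} [Fintype κ] [DecidableEq κ] :
    Cram (Matrix.detRowAlternating : (κ → A) [⋀^κ]→ₗ[A] A) := by
  intro b v m
  have h := congrFun (Matrix.mulVec_cramer (Matrix.transpose (Matrix.of b)) v) m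
  rw [Matrix.det_transpose, Pi.smul_apply, smul_eq_mul] at h
  have h2 : (Matrix.detRowAlternating : (κ → A) [⋀^κ]→ₗ[A] A) b = (Matrix.of b).det := rfl
  rw [h2, ← h, Matrix.mulVec, dotProduct]
  refine Finset.sum_congr rfl fun j _ => ?_
  rw [Matrix.cramer_transpose_apply]
  rfl

theorem Cram.lin {ω : Vec A [⋀^Fin 8]→ₗ[A] A} (hω : Cram ω) (f : Vec A →ₗ[A] A) (b : Fin 8 → Vec A)
    (v : Vec A) : ∑ j, f (b j) * ω (Function.update b j v) = f v * ω b := by
  have hf : ∀ x : Vec A, f x = ∑ m, x m * f (Pi.single m 1) := by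
    intro x
    conv_lhs => rw [vec_sum x]
    rw [map_sum]
    refine Finset.sum_congr rfl fun m _ => ?_
    rw [map_smul, smul_eq_mul]
  rw [hf v, Finset.sum_mul]
  have e : ∀ j, f (b j) * ω (Function.update b j v) =
      ∑ m, b j m * ω (Function.update b j v) * f (Pi.single m 1) := by
    intro j
    rw [hf (b j), Finset.sum_mul]
    refine Finset.sum_congr rfl fun m _ => ?_
    ring
  rw [Finset.sum_congr rfl fun j _ => e j, Finset.sum_comm]
  refine Finset.sum_congr rfl fun m _ => ?_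
  rw [← Finset.sum_mul, hω]
  ring

theorem Cram.vol2 {ω : Vec A [⋀^Fin 8]→ₗ[A] A} (hω : Cram ω) (f : Vec A →ₗ[A] A) (p q : Fin 8)
    (a : Fin 6 → Vec A) (v : Vec A) :
    ∑ l, f (a l) * vol2 ω p q (Function.update a l v) = f v * vol2 ω p q a -
      f (Pi.single p 1) * ω (Fin.cons v (Fin.cons (Pi.single q 1) a)) -
      f (Pi.single q 1) * ω (Fin.cons (Pi.single p 1) (Fin.cons v a)) := by
  have h := hω.lin f (Fin.cons (Pi.single p 1) (Fin.cons (Pi.single q 1) a)) v
  rw [Fin.sum_univ_succ, Fin.sum_univ_succ] at h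
  simp only [Fin.cons_zero, Fin.cons_succ, Fin.update_cons_zero, ← Fin.cons_update] at h
  rw [vol2_apply, ← h]
  simp only [vol2_apply]
  ring

section

variable [Algebra ℚ A]

/-- the `6`-form `ω (w2 Y ∧ ⋯)` -/
def nu6 (ω : Vec A [⋀^Fin 8]→ₗ[A] A) (Y : E8 A) : Vec A [⋀^Fin 6]→ₗ[A] A :=
  ∑ i, ∑ j, (algebraMap ℚ A (1 / 2) * w2 Y i j) • vol2 ω i j

theorem nu6_apply (ω : Vec A [⋀^Fin 8]→ₗ[A] A) (Y : E8 A) (a : Fin 6 → Vec A) :
    nu6 ω Y a = algebraMap ℚ A (1 / 2) * ∑ i, ∑ j, w2 Y i j * vol2 ω i j a := by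
  unfold nu6
  rw [alt_sum_apply, Finset.mul_sum]
  refine Finset.sum_congr rfl fun i _ => ?_
  rw [alt_sum_apply, Finset.mul_sum]
  refine Finset.sum_congr rfl fun j _ => ?_
  rw [AlternatingMap.smul_apply, smul_eq_mul, mul_assoc]

/-- `f ∧ ν = 0` -/
theorem nu6_cyc {ω : Vec A [⋀^Fin 8]→ₗ[A] A} (hω : Cram ω) (Y : E8 A)
    (h : ∀ i, ∑ s, w2 Y s i * p3 Y s = 0) (a : Fin 6 → Vec A) (v : Vec A) :
    ∑ j, fv Y (a j) * nu6 ω Y (Function.update a j v) = fv Y v * nu6 ω Y a := by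
  have h' : ∀ i, ∑ s, w2 Y i s * p3 Y s = 0 := by
    intro i
    rw [← neg_eq_zero, ← Finset.sum_neg_distrib, ← h i]
    refine Finset.sum_congr rfl fun s _ => ?_
    rw [w2_swap Y s i]
    ring
  have e1 : ∑ j, fv Y (a j) * nu6 ω Y (Function.update a j v) = algebraMap ℚ A (1 / 2) *
      ∑ p, ∑ q, w2 Y p q * ∑ l, fv Y (a l) * vol2 ω p q (Function.update a l v) := by
    simp only [nu6_apply, Finset.mul_sum]
    rw [Finset.sum_comm]
    refine Finset.sum_congr rfl fun p _ => ?_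
    rw [Finset.sum_comm]
    refine Finset.sum_congr rfl fun q _ => ?_
    refine Finset.sum_congr rfl fun l _ => ?_
    ring
  rw [e1, nu6_apply, mul_left_comm]
  congr 1
  simp only [hω.vol2, fv_single, mul_sub, Finset.sum_sub_distrib, Finset.mul_sum]
  have e2 : ∑ p, ∑ q, w2 Y p q * (p3 Y p * ω (Fin.cons v (Fin.cons (Pi.single q 1) a))) = 0 := by
    rw [Finset.sum_comm]
    refine Finset.sum_eq_zero fun q _ => ?_
    rw [← zero_mul (ω (Fin.cons v (Fin.cons (Pi.single q 1) a))), ← h q, Finset.sum_mul]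
    refine Finset.sum_congr rfl fun p _ => ?_
    ring
  have e3 : ∑ p, ∑ q, w2 Y p q * (p3 Y q * ω (Fin.cons (Pi.single p 1) (Fin.cons v a))) = 0 := by
    refine Finset.sum_eq_zero fun p _ => ?_
    rw [← zero_mul (ω (Fin.cons (Pi.single p 1) (Fin.cons v a))), ← h' p, Finset.sum_mul]
    refine Finset.sum_congr rfl fun q _ => ?_
    ring
  rw [e2, e3, sub_zero, sub_zero]
  refine Finset.sum_congr rfl fun p _ => Finset.sum_congr rfl fun q _ => ?_
  ring

/-- `u_0 ∧ ⋯ ∧ u_4` in degree `1` -/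
def M5 (ω : Vec A [⋀^Fin 8]→ₗ[A] A) (u : Fin 5 → Vec A) : E8 A :=
  ∑ i, ∑ j, ∑ k, (-(algebraMap ℚ A (1 / 6)) * vol3 ω i j k u) • T i j k

theorem vol2_swap (ω : Vec A [⋀^Fin 8]→ₗ[A] A) (i j : Fin 8) (a : Fin 6 → Vec A) :
    vol2 ω i j a = - vol2 ω j i a := by
  rw [vol2_apply, vol2_apply]
  exact alt_swap01 (n := 6) ω _ _ a

theorem vol3_swap (ω : Vec A [⋀^Fin 8]→ₗ[A] A) (i j k : Fin 8) (u : Fin 5 → Vec A) :
    vol3 ω i j k u = - vol3 ω j i k u := by
  rw [vol3_apply, vol3_apply, vol2_swap]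

theorem vol3_swap' (ω : Vec A [⋀^Fin 8]→ₗ[A] A) (i j k : Fin 8) (u : Fin 5 → Vec A) :
    vol3 ω i j k u = - vol3 ω i k j u := by
  have h := alt_swap01 (n := 5) (cur1 (n := 7) ω (Pi.single i 1)) (Pi.single j 1) (Pi.single k 1) u
  exact h

theorem vol3_lin (ω : Vec A [⋀^Fin 8]→ₗ[A] A) (i j : Fin 8) (u : Fin 5 → Vec A) (v : Vec A) :
    ∑ k, vol3 ω i j k u * v k = vol2 ω i j (Fin.cons v u) := by
  have h : ∀ w : Vec A, vol2 ω i j (Fin.cons w u) = cur1 (n := 5) (vol2 ω i j) w u := fun w => rfl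
  rw [h]
  conv_rhs => rw [vec_sum v]
  rw [cur1_sum]
  refine Finset.sum_congr rfl fun k _ => ?_
  rw [cur1_smul, AlternatingMap.smul_apply, smul_eq_mul, mul_comm]
  rfl

theorem six_half : (3 : A) * algebraMap ℚ A (1 / 6) = algebraMap ℚ A (1 / 2) := by
  rw [← map_ofNat (algebraMap ℚ A) 3, ← map_mul]
  norm_num

/-- the first order term of a move -/
theorem fv_M5 (ω : Vec A [⋀^Fin 8]→ₗ[A] A) (u : Fin 5 → Vec A) (Y : E8 A) (v : Vec A) :
    fv (br (M5 ω u) Y) v = nu6 ω Y (Fin.snoc u v) := by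
  have e0 : fv (br (M5 ω u) Y) v = ∑ i, ∑ j, ∑ k, (-(algebraMap ℚ A (1 / 6)) * vol3 ω i j k u) *
      (w2 Y j k * v i - w2 Y i k * v j + w2 Y i j * v k) := by
    rw [fv_apply]
    have e : ∀ m, p3 (br (M5 ω u) Y) m * v m = ∑ i, ∑ j, ∑ k,
        (-(algebraMap ℚ A (1 / 6)) * vol3 ω i j k u) * (br (T i j k) Y (ix m) * v m) := by
      intro m
      change br (M5 ω u) Y (ix m) * v m = _
      unfold M5
      rw [br_sum_left, Finset.sum_apply, Finset.sum_mul]
      refine Finset.sum_congr rfl fun i _ => ?_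
      rw [br_sum_left, Finset.sum_apply, Finset.sum_mul]
      refine Finset.sum_congr rfl fun j _ => ?_
      rw [br_sum_left, Finset.sum_apply, Finset.sum_mul]
      refine Finset.sum_congr rfl fun k _ => ?_
      rw [br_smul_left, Pi.smul_apply, smul_eq_mul, mul_assoc]
    rw [Finset.sum_congr rfl fun m _ => e m, Finset.sum_comm]
    refine Finset.sum_congr rfl fun i _ => ?_
    rw [Finset.sum_comm]
    refine Finset.sum_congr rfl fun j _ => ?_
    rw [Finset.sum_comm]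
    refine Finset.sum_congr rfl fun k _ => ?_
    rw [← Finset.mul_sum]
    congr 1
    simp only [br_T_three', add_mul, sub_mul, Finset.sum_add_distrib, Finset.sum_sub_distrib]
    congr 1
    · congr 1
      · rw [Finset.sum_eq_single i]
        · simp
        · intro b _ hb
          simp [hb]
        · intro h
          exact absurd (Finset.mem_univ _) h
      · rw [Finset.sum_eq_single j]
        · simp
        · intro b _ hb
          simp [hb]
        · intro h
          exact absurd (Finset.mem_univ _) h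
    · rw [Finset.sum_eq_single k]
      · simp
      · intro b _ hb
        simp [hb]
      · intro h
        exact absurd (Finset.mem_univ _) h
  set S : A := ∑ i, ∑ j, ∑ k, (-(algebraMap ℚ A (1 / 6)) * vol3 ω i j k u) * (w2 Y i j * v k)
    with hS
  have s1 : ∑ i, ∑ j, ∑ k, (-(algebraMap ℚ A (1 / 6)) * vol3 ω i j k u) * (w2 Y i k * v j) =
      -S := by
    rw [hS, ← Finset.sum_neg_distrib]
    refine Finset.sum_congr rfl fun i _ => ?_
    rw [Finset.sum_comm, ← Finset.sum_neg_distrib]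
    refine Finset.sum_congr rfl fun j _ => ?_
    rw [← Finset.sum_neg_distrib]
    refine Finset.sum_congr rfl fun k _ => ?_
    rw [vol3_swap' ω i k j u]
    ring
  have s2 : ∑ i, ∑ j, ∑ k, (-(algebraMap ℚ A (1 / 6)) * vol3 ω i j k u) * (w2 Y j k * v i) =
      S := by
    rw [← neg_neg S, ← s1, Finset.sum_comm, ← Finset.sum_neg_distrib]
    refine Finset.sum_congr rfl fun i _ => ?_
    rw [← Finset.sum_neg_distrib]
    refine Finset.sum_congr rfl fun j _ => ?_
    rw [← Finset.sum_neg_distrib]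
    refine Finset.sum_congr rfl fun k _ => ?_
    rw [vol3_swap ω j i k u]
    ring
  have e1 : fv (br (M5 ω u) Y) v = 3 * S := by
    rw [e0]
    simp only [mul_add, mul_sub, Finset.sum_add_distrib, Finset.sum_sub_distrib]
    rw [s1, s2, ← hS]
    ring
  rw [e1, hS, nu6_apply]
  rw [← six_half (A := A), mul_assoc]
  congr 1
  rw [Finset.mul_sum]
  refine Finset.sum_congr rfl fun i _ => ?_
  rw [Finset.mul_sum]
  refine Finset.sum_congr rfl fun j _ => ?_
  rw [alt_snoc (n := 5) (vol2 ω i j) u v, ← vol3_lin]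
  simp only [Finset.mul_sum, Finset.smul_sum]
  refine Finset.sum_congr rfl fun k _ => ?_
  simp
  ring

end

end Pool.Agent.Licci
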